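import Pool.Agent.VEB.SCP
import Pool.Agent.EPO.LLD

open scoped Manifold Topology
open Filter Metric Set

namespace Pool.Agent.VEB

open Pool.Agent.ELL Pool.Agent.EPO

variable {S : Type*} [MetricSpace S] [CompactSpace S] [ChartedSpace (ℂ × ℂ) S]
  [IsManifold 𝓘(ℂ, ℂ × ℂ) 1 S] {Λ : Submodule ℤ ℂ} [DiscreteTopology Λ] [IsZLattice ℝ Λ]
  {π : S → ℂ ⧸ Λ} {D : Set S}

omit [CompactSpace S] [IsManifold 𝓘(ℂ, ℂ × ℂ) 1 S] [DiscreteTopology Λ] [IsZLattice ℝ Λ] in
private theorem AHS_sub {g : ℂ → S} {ζ : ℂ} {r : ℝ} (hg : SecOn π D (ball ζ r) g) {t : ℂ}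
    (ht : t ∈ ball ζ r) : 0 < r - dist t ζ ∧ SecOn π D (ball t (r - dist t ζ)) g := by
  refine ⟨sub_pos.2 (mem_ball.1 ht), ?_⟩
  have hsub : ball t (r - dist t ζ) ⊆ ball ζ r := ball_subset_ball' (by linarith)
  exact ⟨hg.1.mono hsub, fun s hs => hg.2 s (hsub hs)⟩

omit [CompactSpace S] [IsManifold 𝓘(ℂ, ℂ × ℂ) 1 S] [DiscreteTopology Λ] [IsZLattice ℝ Λ] in
private theorem AHS_pos {H : (p : S) → TangentSpace 𝓘(ℂ, ℂ × ℂ) p → ℝ} {c C : ℝ}
    (hH : IsNeg π D H c C) {g : ℂ → S} {ζ : ℂ} {r : ℝ} (hg : SecOn π D (ball ζ r) g) {t : ℂ}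
    (ht : t ∈ ball ζ r) : 0 < speed H g t :=
  hH.pos g t _ (AHS_sub hg ht).1 (AHS_sub hg ht).2

omit [CompactSpace S] [IsManifold 𝓘(ℂ, ℂ × ℂ) 1 S] [DiscreteTopology Λ] [IsZLattice ℝ Λ] in
private theorem AHS_cont {H : (p : S) → TangentSpace 𝓘(ℂ, ℂ × ℂ) p → ℝ} {c C : ℝ}
    (hH : IsNeg π D H c C) {g : ℂ → S} {ζ : ℂ} {r : ℝ} (hg : SecOn π D (ball ζ r) g) {t : ℂ}
    (ht : t ∈ ball ζ r) : ContinuousAt (speed H g) t :=
  hH.cont g t _ (AHS_sub hg ht).1 (AHS_sub hg ht).2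

omit [CompactSpace S] [IsManifold 𝓘(ℂ, ℂ × ℂ) 1 S] [DiscreteTopology Λ] [IsZLattice ℝ Λ] in
private theorem AHS_curv {H : (p : S) → TangentSpace 𝓘(ℂ, ℂ × ℂ) p → ℝ} {c C : ℝ}
    (hH : IsNeg π D H c C) {g : ℂ → S} {ζ : ℂ} {r : ℝ} (hg : SecOn π D (ball ζ r) g) {t : ℂ}
    (ht : t ∈ ball ζ r) : LL (fun η => Real.log (speed H g η)) t (c * speed H g t - C) :=
  hH.curv g t _ (AHS_sub hg ht).1 (AHS_sub hg ht).2

omit [CompactSpace S] [IsManifold 𝓘(ℂ, ℂ × ℂ) 1 S] [DiscreteTopology Λ] [IsZLattice ℝ Λ] in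
private theorem AHS_aux {H : (p : S) → TangentSpace 𝓘(ℂ, ℂ × ℂ) p → ℝ} {c C : ℝ}
    (hH : IsNeg π D H c C) {g : ℂ → S} {ζ : ℂ} {r : ℝ} (hr : 0 < r)
    (hg : SecOn π D (ball ζ r) g) {s : ℝ} (hs : 0 < s) (hsr : s < r) :
    speed H g ζ ≤ (|C| + 2 / s ^ 2) / c := by
  have hc := hH.c_pos
  have hcl : closedBall ζ s ⊆ ball ζ r := closedBall_subset_ball hsr
  set φ : ℂ → ℝ := fun t => speed H g t * (s ^ 2 - ‖t - ζ‖ ^ 2) ^ 2 with hφ
  have hcont : ContinuousOn φ (closedBall ζ s) := by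
    intro t ht
    refine ContinuousAt.continuousWithinAt ?_
    refine (AHS_cont hH hg (hcl ht)).mul ?_
    fun_prop
  obtain ⟨y, hy, hmax⟩ := (isCompact_closedBall ζ s).exists_isMaxOn
    ⟨ζ, mem_closedBall_self hs.le⟩ hcont
  have hζ : φ ζ = speed H g ζ * s ^ 4 := by
    simp only [hφ, sub_self, norm_zero]
    ring
  have hζ0 : 0 < speed H g ζ := AHS_pos hH hg (mem_ball_self hr)
  have hφζ : 0 < φ ζ := by
    rw [hζ]
    positivity
  have hφy : φ ζ ≤ φ y := hmax (mem_closedBall_self hs.le)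
  have hyn : ‖y - ζ‖ < s := by
    have h1 : ‖y - ζ‖ ≤ s := by
      rw [← dist_eq_norm]
      exact mem_closedBall.1 hy
    refine lt_of_le_of_ne h1 fun h => ?_
    have : φ y = 0 := by
      simp only [hφ, h]
      ring
    linarith
  have hyb : y ∈ ball ζ r := hcl hy
  set d : ℝ := s ^ 2 - ‖y - ζ‖ ^ 2 with hd
  have hd0 : 0 < d := by
    have := norm_nonneg (y - ζ)
    rw [hd]
    nlinarith
  have hd1 : d ≤ s ^ 2 := by
    rw [hd]
    nlinarith [sq_nonneg ‖y - ζ‖]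
  have hsy : 0 < speed H g y := AHS_pos hH hg hyb
  have hL := (AHS_curv hH hg hyb).add (LL_disc hs hyn)
  have hm : IsLocalMax (fun η => Real.log (speed H g η) + 2 * Real.log (s ^ 2 - ‖η - ζ‖ ^ 2)) y := by
    have hn : ∀ᶠ t in 𝓝 y, t ∈ ball ζ s := by
      refine isOpen_ball.mem_nhds ?_
      rw [mem_ball, dist_eq_norm]
      exact hyn
    refine hn.mono fun t ht => ?_
    have ht1 : ‖t - ζ‖ < s := by
      rw [← dist_eq_norm]
      exact mem_ball.1 ht
    have ht0 : 0 < s ^ 2 - ‖t - ζ‖ ^ 2 := by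
      have := norm_nonneg (t - ζ)
      nlinarith
    have hst : 0 < speed H g t := AHS_pos hH hg (hcl (ball_subset_closedBall ht))
    have e1 : Real.log (speed H g t) + 2 * Real.log (s ^ 2 - ‖t - ζ‖ ^ 2) = Real.log (φ t) := by
      simp only [hφ]
      rw [Real.log_mul hst.ne' (by positivity), Real.log_pow]
      push_cast
      ring
    have e2 : Real.log (speed H g y) + 2 * Real.log (s ^ 2 - ‖y - ζ‖ ^ 2) = Real.log (φ y) := by
      simp only [hφ]
      rw [Real.log_mul hsy.ne' (by positivity), Real.log_pow]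
      push_cast
      ring
    show Real.log (speed H g t) + 2 * Real.log (s ^ 2 - ‖t - ζ‖ ^ 2) ≤
      Real.log (speed H g y) + 2 * Real.log (s ^ 2 - ‖y - ζ‖ ^ 2)
    rw [e1, e2]
    refine Real.log_le_log ?_ (hmax (ball_subset_closedBall ht))
    simp only [hφ]
    positivity
  have h0 := hL.nonpos_of_isLocalMax hm
  rw [← hd] at h0
  have h1 : c * φ y ≤ C * d ^ 2 + 2 * s ^ 2 := by
    have e : φ y = speed H g y * d ^ 2 := rfl
    rw [e]
    have h2 : c * speed H g y ≤ C + 2 * s ^ 2 / d ^ 2 := by linarith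
    have h3 := mul_le_mul_of_nonneg_right h2 (sq_nonneg d)
    have e4 : (C + 2 * s ^ 2 / d ^ 2) * d ^ 2 = C * d ^ 2 + 2 * s ^ 2 := by
      field_simp
    rw [e4] at h3
    linarith
  have h2 : C * d ^ 2 ≤ |C| * s ^ 4 := by
    have h3 : C * d ^ 2 ≤ |C| * d ^ 2 := mul_le_mul_of_nonneg_right (le_abs_self C) (sq_nonneg d)
    have h4 : d ^ 2 ≤ s ^ 4 := by
      have : d ^ 2 ≤ (s ^ 2) ^ 2 := pow_le_pow_left₀ hd0.le hd1 2
      calc d ^ 2 ≤ (s ^ 2) ^ 2 := this
        _ = s ^ 4 := by ring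
    exact h3.trans (mul_le_mul_of_nonneg_left h4 (abs_nonneg C))
  have h3 : c * (speed H g ζ * s ^ 4) ≤ |C| * s ^ 4 + 2 * s ^ 2 := by
    rw [← hζ]
    have := mul_le_mul_of_nonneg_left hφy hc.le
    linarith
  rw [le_div_iff₀ hc]
  have hs4 : 0 < s ^ 4 := by positivity
  have e5 : (|C| + 2 / s ^ 2) * s ^ 4 = |C| * s ^ 4 + 2 * s ^ 2 := by
    field_simp
  have h6 : (speed H g ζ * c) * s ^ 4 ≤ (|C| + 2 / s ^ 2) * s ^ 4 := by
    rw [e5]
    linarith
  exact le_of_mul_le_mul_right h6 hs4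

/-- The Ahlfors-Schwarz lemma. -/
theorem AHS {H : (p : S) → TangentSpace 𝓘(ℂ, ℂ × ℂ) p → ℝ} {c C : ℝ} (hH : IsNeg π D H c C)
    {g : ℂ → S} {ζ : ℂ} {r : ℝ} (hr : 0 < r) (hg : SecOn π D (ball ζ r) g) :
    speed H g ζ ≤ (|C| + 2 / r ^ 2) / c := by
  have hT : Tendsto (fun s : ℝ => (|C| + 2 / s ^ 2) / c) (𝓝[<] r)
      (𝓝 ((|C| + 2 / r ^ 2) / c)) := by
    have h1 : ContinuousAt (fun s : ℝ => (|C| + 2 / s ^ 2) / c) r := by
      refine ContinuousAt.div_const (continuousAt_const.add ?_) c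
      exact ContinuousAt.div continuousAt_const (by fun_prop) (by positivity)
    exact h1.tendsto.mono_left nhdsWithin_le_nhds
  refine ge_of_tendsto hT ?_
  filter_upwards [Ioo_mem_nhdsLT hr] with s hs
  exact AHS_aux hH hr hg hs.1 hs.2

/-- The truncated logarithm of the speed. -/
theorem AHS_trunc {H : (p : S) → TangentSpace 𝓘(ℂ, ℂ × ℂ) p → ℝ} {c C : ℝ}
    (hH : IsNeg π D H c C) : ∃ C₁ c' M₁ : ℝ, 0 < c' ∧ 0 ≤ M₁ ∧
      ∀ (g : ℂ → S) (ζ : ℂ) (r : ℝ), 0 < r → SecOn π D (ball ζ r) g →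
        (1 ≤ r → max (Real.log (speed H g ζ) - C₁) 0 = 0) ∧
        (r ≤ 1 → max (Real.log (speed H g ζ) - C₁) 0 ≤ 2 * Real.log (1 / r)) ∧
        ContinuousAt (fun t => max (Real.log (speed H g t) - C₁) 0) ζ ∧
        LL (fun t => max (Real.log (speed H g t) - C₁) 0) ζ (c' * (speed H g ζ - M₁)) ∧
        LL (fun t => max (Real.log (speed H g t) - C₁) 0) ζ 0 := by
  have hc := hH.c_pos
  have hA : 0 < |C| + 2 := by positivity
  have hM : 0 < (|C| + 2) / c := by positivity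
  refine ⟨Real.log ((|C| + 2) / c), 2 * c / (|C| + 2), (|C| + 2) / c, by positivity, hM.le, ?_⟩
  intro g ζ r hr hg
  have hpos : 0 < speed H g ζ := hH.pos g ζ r hr hg
  have hsp := AHS hH hr hg
  have hcont : ∀ t ∈ ball ζ r,
      ContinuousAt (fun t => max (Real.log (speed H g t) - Real.log ((|C| + 2) / c)) 0) t := by
    intro t ht
    have h1 : ContinuousAt (fun t => Real.log (speed H g t) - Real.log ((|C| + 2) / c)) t :=
      ((AHS_cont hH hg ht).log (AHS_pos hH hg ht).ne').sub continuousAt_const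
    exact Filter.Tendsto.max h1 tendsto_const_nhds
  have hζ : ζ ∈ ball ζ r := mem_ball_self hr
  have key : LL (fun t => max (Real.log (speed H g t) - Real.log ((|C| + 2) / c)) 0) ζ
      (max (2 * c / (|C| + 2) * (speed H g ζ - (|C| + 2) / c)) 0) := by
    rcases lt_or_ge (speed H g ζ) ((|C| + 2) / c) with hlt | hge
    · have e : max (2 * c / (|C| + 2) * (speed H g ζ - (|C| + 2) / c)) 0 = 0 := by
        refine max_eq_right (mul_nonpos_of_nonneg_of_nonpos (by positivity) (by linarith))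
      rw [e]
      refine (LL.const 0 ζ).congr ?_
      have h1 : ∀ᶠ t in 𝓝 ζ, speed H g t < (|C| + 2) / c :=
        (AHS_cont hH hg hζ).eventually_lt continuousAt_const hlt
      filter_upwards [h1, isOpen_ball.mem_nhds hζ] with t ht ht2
      refine max_eq_right ?_
      have := Real.log_le_log (AHS_pos hH hg ht2) ht.le
      linarith
    · have h1 : LL (fun t => Real.log (speed H g t) - Real.log ((|C| + 2) / c)) ζ
          (c * speed H g ζ - C) := by
        have h2 := (AHS_curv hH hg hζ).add (LL.const (-Real.log ((|C| + 2) / c)) ζ)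
        rw [add_zero] at h2
        exact h2
      have h3 : LL (fun t => max (Real.log (speed H g t) - Real.log ((|C| + 2) / c)) 0) ζ
          (c * speed H g ζ - C) := by
        refine h1.touch (Eventually.of_forall fun t => le_max_left _ _) ?_ ?_
        · refine max_eq_left ?_
          have := Real.log_le_log hM hge
          linarith
        · filter_upwards [isOpen_ball.mem_nhds hζ] with t ht
          exact hcont t ht
      refine h3.mono ?_
      have hCC : C ≤ |C| := le_abs_self C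
      have hcs : |C| + 2 ≤ c * speed H g ζ := by
        rw [div_le_iff₀ hc] at hge
        linarith
      refine max_le ?_ (by linarith)
      have e1 : 2 * c / (|C| + 2) * (speed H g ζ - (|C| + 2) / c) =
          2 * (c * speed H g ζ) / (|C| + 2) - 2 := by
        field_simp
      rw [e1]
      have h4 : 2 * (c * speed H g ζ) / (|C| + 2) ≤ c * speed H g ζ - |C| + 2 := by
        rw [div_le_iff₀ hA]
        nlinarith [abs_nonneg C]
      linarith
  refine ⟨?_, ?_, hcont ζ hζ, key.mono (le_max_left _ _), key.mono (le_max_right _ _)⟩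
  · intro h1
    refine max_eq_right ?_
    have h2 : speed H g ζ ≤ (|C| + 2) / c := by
      refine hsp.trans ?_
      gcongr
      rw [div_le_iff₀ (by positivity)]
      nlinarith
    have := Real.log_le_log hpos h2
    linarith
  · intro h1
    have h2 : speed H g ζ ≤ (|C| + 2) / c * (1 / r) ^ 2 := by
      refine hsp.trans ?_
      rw [div_mul_eq_mul_div, one_div, inv_pow]
      gcongr
      have h3 : 1 ≤ (r ^ 2)⁻¹ := by
        rw [one_le_inv₀ (by positivity)]
        nlinarith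
      have := mul_le_mul_of_nonneg_left h3 (abs_nonneg C)
      rw [div_eq_mul_inv]
      linarith
    have h3 := Real.log_le_log hpos h2
    rw [Real.log_mul hM.ne' (by positivity), Real.log_pow] at h3
    push_cast at h3
    refine max_le (by linarith) ?_
    have : 0 ≤ Real.log (1 / r) := Real.log_nonneg (by
      rw [one_div]
      exact (one_le_inv₀ hr).2 h1)
    linarith

end Pool.Agent.VEB
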