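import Pool.Agent.VEB.Defs2

open scoped Manifold Topology
open Filter Metric Set

namespace Pool.Agent.VEB

open Pool.Agent.ELL Pool.Agent.EPO

variable {S : Type*} [TopologicalSpace S] [T2Space S] [ChartedSpace (ℂ × ℂ) S]
  [IsManifold 𝓘(ℂ, ℂ × ℂ) 1 S]

/-- Two holomorphic maps to a surface agree near a point, or nowhere near this point. -/
theorem EQD {g g' : ℂ → S} {ζ : ℂ}
    (hg : ∀ᶠ t in 𝓝 ζ, MDifferentiableAt 𝓘(ℂ, ℂ) 𝓘(ℂ, ℂ × ℂ) g t)
    (hg' : ∀ᶠ t in 𝓝 ζ, MDifferentiableAt 𝓘(ℂ, ℂ) 𝓘(ℂ, ℂ × ℂ) g' t) :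
    (∀ᶠ t in 𝓝 ζ, g t = g' t) ∨ ∀ᶠ t in 𝓝[≠] ζ, g t ≠ g' t := by
  have hc : ContinuousAt g ζ := hg.self_of_nhds.continuousAt
  have hc' : ContinuousAt g' ζ := hg'.self_of_nhds.continuousAt
  by_cases hne : g ζ = g' ζ
  · set φ := chartAt (ℂ × ℂ) (g ζ) with hφ
    have hφm : φ ∈ MA S := IsManifold.chart_mem_maximalAtlas (g ζ)
    have hs : g ζ ∈ φ.source := mem_chart_source _ _
    have h1 : ∀ᶠ t in 𝓝 ζ, g t ∈ φ.source := hc.eventually (φ.open_source.mem_nhds hs)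
    have h2 : ∀ᶠ t in 𝓝 ζ, g' t ∈ φ.source :=
      hc'.eventually (φ.open_source.mem_nhds (hne ▸ hs))
    obtain ⟨r, hr, hb⟩ := Metric.eventually_nhds_iff_ball.1 ((h1.and h2).and (hg.and hg'))
    have hd : ∀ {f : ℂ → S} {t : ℂ}, MDifferentiableAt 𝓘(ℂ, ℂ) 𝓘(ℂ, ℂ × ℂ) f t →
        f t ∈ φ.source → DifferentiableAt ℂ (fun s => φ (f s)) t := by
      intro f t hf ht
      have h1 : MDifferentiableAt 𝓘(ℂ, ℂ × ℂ) 𝓘(ℂ, ℂ × ℂ) φ (f t) :=
        mdifferentiableAt_of_mem_maximalAtlas hφm ht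
      have h2 : MDifferentiableAt 𝓘(ℂ, ℂ) 𝓘(ℂ, ℂ × ℂ) (φ ∘ f) t := h1.comp t hf
      exact h2.differentiableAt
    have ha : AnalyticAt ℂ (fun t => φ (g t)) ζ := by
      apply DifferentiableOn.analyticAt (s := ball ζ r) _ (ball_mem_nhds ζ hr)
      intro z hz
      exact (hd (hb z hz).2.1 (hb z hz).1.1).differentiableWithinAt
    have ha' : AnalyticAt ℂ (fun t => φ (g' t)) ζ := by
      apply DifferentiableOn.analyticAt (s := ball ζ r) _ (ball_mem_nhds ζ hr)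
      intro z hz
      exact (hd (hb z hz).2.2 (hb z hz).1.2).differentiableWithinAt
    rcases ha.eventually_eq_or_eventually_ne ha' with h | h
    · left
      filter_upwards [h, h1, h2] with t ht ht1 ht2
      exact φ.injOn ht1 ht2 ht
    · right
      filter_upwards [h] with t ht hgt
      apply ht
      rw [hgt]
  · right
    have hp : ContinuousAt (fun t => (g t, g' t)) ζ := hc.prodMk hc'
    have ho : IsOpen ((diagonal S)ᶜ) := isClosed_diagonal.isOpen_compl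
    have hm : (diagonal S)ᶜ ∈ 𝓝 (g ζ, g' ζ) := ho.mem_nhds (fun h => hne h)
    have := hp.eventually hm
    exact (this.mono (fun t ht h => ht h)).filter_mono nhdsWithin_le_nhds

/-- The identity theorem. -/
theorem EQD_univ {g g' : ℂ → S} {U : Set ℂ} (hU : IsOpen U) (hc : IsPreconnected U)
    (hg : ∀ t ∈ U, MDifferentiableAt 𝓘(ℂ, ℂ) 𝓘(ℂ, ℂ × ℂ) g t)
    (hg' : ∀ t ∈ U, MDifferentiableAt 𝓘(ℂ, ℂ) 𝓘(ℂ, ℂ × ℂ) g' t) {ζ : ℂ} (hζ : ζ ∈ U)
    (h : ∀ᶠ t in 𝓝 ζ, g t = g' t) : EqOn g g' U := by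
  set A : Set ℂ := {x | ∀ᶠ t in 𝓝 x, g t = g' t} with hA
  have hopen : IsOpen A := by
    rw [isOpen_iff_mem_nhds]
    intro y hy
    exact eventually_eventually_nhds.2 hy
  have hsub : U ⊆ A := by
    apply hc.subset_of_closure_inter_subset hopen ⟨ζ, hζ, h⟩
    rintro y ⟨hyc, hyU⟩
    rcases EQD (Filter.eventually_of_mem (hU.mem_nhds hyU) hg)
      (Filter.eventually_of_mem (hU.mem_nhds hyU) hg') with hy | hy
    · exact hy
    · rw [eventually_nhdsWithin_iff] at hy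
      obtain ⟨a, ha1, ha2⟩ := (mem_closure_iff_nhds.1 hyc) _ hy
      by_cases hay : a = y
      · rw [hay] at ha2
        exact ha2
      · exact absurd (Filter.Eventually.self_of_nhds ha2) (ha1 hay)
  intro t ht
  have h3 : ∀ᶠ s in 𝓝 t, g s = g' s := hsub ht
  exact h3.self_of_nhds

end Pool.Agent.VEB
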