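import Pool.Agent.VEB.Defs2
import Pool.Agent.ELL.Cht

open scoped Manifold Topology
open Filter Metric Set

namespace Pool.Agent.VEB

open Pool.Agent.ELL Pool.Agent.EPO

variable {S : Type*} [TopologicalSpace S] [ChartedSpace (ℂ × ℂ) S]
  [IsManifold 𝓘(ℂ, ℂ × ℂ) 1 S] {Λ : Submodule ℤ ℂ} {π : S → ℂ ⧸ Λ} {D : Set S}

theorem SecOn.mono {U V : Set ℂ} {g : ℂ → S} (h : SecOn π D U g) (hV : V ⊆ U) :
    SecOn π D V g := by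
  exact ⟨h.1.mono hV, fun t ht => h.2 t (hV ht)⟩

theorem SecOn.mdiff {U : Set ℂ} {g : ℂ → S} (h : SecOn π D U g) (hU : IsOpen U) {t : ℂ}
    (ht : t ∈ U) : MDifferentiableAt 𝓘(ℂ, ℂ) 𝓘(ℂ, ℂ × ℂ) g t := by
  exact (h.1 t ht).mdifferentiableAt (hU.mem_nhds ht)

theorem SecOn.cont {U : Set ℂ} {g : ℂ → S} (h : SecOn π D U g) (hU : IsOpen U) {t : ℂ}
    (ht : t ∈ U) : ContinuousAt g t := by
  exact (h.mdiff hU ht).continuousAt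

theorem SecOn.congr {U : Set ℂ} {g g' : ℂ → S} (h : SecOn π D U g) (he : EqOn g' g U) :
    SecOn π D U g' := by
  refine ⟨fun t ht => ?_, fun t ht => ?_⟩
  · exact (h.1 t ht).congr he (he ht)
  · rw [he ht]
    exact h.2 t ht

theorem SecOn.translate {c ω : ℂ} {r : ℝ} {g : ℂ → S} (h : SecOn π D (ball (c + ω) r) g)
    (hω : ω ∈ Λ) : SecOn π D (ball c r) (fun t => g (t + ω)) := by
  have hm : ∀ t ∈ ball c r, t + ω ∈ ball (c + ω) r := by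
    intro t ht
    rw [mem_ball, dist_eq_norm] at ht ⊢
    have e : t + ω - (c + ω) = t - c := by ring
    rwa [e]
  refine ⟨fun t ht => ?_, fun t ht => ⟨(h.2 _ (hm t ht)).1, ?_⟩⟩
  · have h1 : MDifferentiableAt 𝓘(ℂ, ℂ) 𝓘(ℂ, ℂ × ℂ) g (t + ω) := h.mdiff isOpen_ball (hm t ht)
    have h2 : MDifferentiableAt 𝓘(ℂ, ℂ) 𝓘(ℂ, ℂ) (fun t : ℂ => t + ω) t := by
      apply DifferentiableAt.mdifferentiableAt
      fun_prop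
    exact (MDifferentiableAt.comp t h1 h2).mdifferentiableWithinAt
  · show π (g (t + ω)) = Λ.mkQ t
    rw [(h.2 _ (hm t ht)).2, map_add]
    have h3 : Λ.mkQ ω = 0 := (Submodule.Quotient.mk_eq_zero Λ).2 hω
    rw [h3, add_zero]

/-- composition with a chart -/
theorem mdiff_chart {g : ℂ → S} {t : ℂ} (h : MDifferentiableAt 𝓘(ℂ, ℂ) 𝓘(ℂ, ℂ × ℂ) g t)
    {φ : OpenPartialHomeomorph S (ℂ × ℂ)} (hφ : φ ∈ MA S) (ht : g t ∈ φ.source) :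
    DifferentiableAt ℂ (fun s => φ (g s)) t := by
  have h1 : MDifferentiableAt 𝓘(ℂ, ℂ × ℂ) 𝓘(ℂ, ℂ × ℂ) φ (g t) :=
    mdifferentiableAt_of_mem_maximalAtlas hφ ht
  have h2 : MDifferentiableAt 𝓘(ℂ, ℂ) 𝓘(ℂ, ℂ × ℂ) (φ ∘ g) t := h1.comp t h
  exact h2.differentiableAt

/-- composition with a holomorphic function on the surface -/
theorem mdiff_fn {g : ℂ → S} {t : ℂ} (h : MDifferentiableAt 𝓘(ℂ, ℂ) 𝓘(ℂ, ℂ × ℂ) g t)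
    {F : S → ℂ} {U : Set S} (hF : HolOn F U) (hU : U ∈ 𝓝 (g t)) :
    DifferentiableAt ℂ (fun s => F (g s)) t := by
  have h1 : MDifferentiableAt 𝓘(ℂ, ℂ × ℂ) 𝓘(ℂ, ℂ) F (g t) :=
    (ContMDiffOn.contMDiffAt hF hU).mdifferentiableAt one_ne_zero
  have h2 : MDifferentiableAt 𝓘(ℂ, ℂ) 𝓘(ℂ, ℂ) (F ∘ g) t := h1.comp t h
  exact h2.differentiableAt

theorem mdiff_of_chart {g : ℂ → S} {t : ℂ} (hc : ContinuousAt g t)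
    {φ : OpenPartialHomeomorph S (ℂ × ℂ)} (hφ : φ ∈ MA S) (ht : g t ∈ φ.source)
    (h : DifferentiableAt ℂ (fun s => φ (g s)) t) :
    MDifferentiableAt 𝓘(ℂ, ℂ) 𝓘(ℂ, ℂ × ℂ) g t := by
  have h1 : MDifferentiableAt 𝓘(ℂ, ℂ × ℂ) 𝓘(ℂ, ℂ × ℂ) φ.symm (φ (g t)) :=
    mdifferentiableAt_symm_of_mem_maximalAtlas hφ (φ.map_source ht)
  have h2 : MDifferentiableAt 𝓘(ℂ, ℂ) 𝓘(ℂ, ℂ × ℂ) (fun s => φ (g s)) t :=
    h.mdifferentiableAt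
  have h3 : MDifferentiableAt 𝓘(ℂ, ℂ) 𝓘(ℂ, ℂ × ℂ) (φ.symm ∘ fun s => φ (g s)) t :=
    MDifferentiableAt.comp t h1 h2
  refine h3.congr_of_eventuallyEq ?_
  have h4 : ∀ᶠ s in 𝓝 t, g s ∈ φ.source := hc.eventually (φ.open_source.mem_nhds ht)
  filter_upwards [h4] with s hs
  simp [φ.left_inv hs]

/-- elements of `Sec` are sections over every set -/
theorem Sec.secOn {E : ℂ → S} (h : E ∈ Sec π D) (U : Set ℂ) : SecOn π D U E := by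
  exact ⟨h.1.mdifferentiableOn, fun t _ => ⟨h.2.1 t, h.2.2 t⟩⟩

theorem scp_aux (H : (p : S) → TangentSpace 𝓘(ℂ, ℂ × ℂ) p → ℝ) {p q : S} (h : p = q)
    (u : ℂ →L[ℂ] (ℂ × ℂ)) (v : ℂ →L[ℂ] (ℂ × ℂ)) (huv : u = v) :
    H p (u (1 : ℂ)) = H q (v (1 : ℂ)) := by
  subst h
  subst huv
  rfl

/-- the speed depends only on the germ, and translates -/
theorem speed_congr {H : (p : S) → TangentSpace 𝓘(ℂ, ℂ × ℂ) p → ℝ} {g g' : ℂ → S} {ζ : ℂ}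
    (h : ∀ᶠ t in 𝓝 ζ, g t = g' t) : speed H g ζ = speed H g' ζ := by
  have h1 : g =ᶠ[𝓝 ζ] g' := h
  have h2 : g ζ = g' ζ := h.self_of_nhds
  have h3 := h1.mfderiv_eq (I := 𝓘(ℂ, ℂ)) (I' := 𝓘(ℂ, ℂ × ℂ))
  unfold speed
  exact scp_aux H h2 _ _ h3

theorem speed_translate {H : (p : S) → TangentSpace 𝓘(ℂ, ℂ × ℂ) p → ℝ} {g : ℂ → S} {ζ ω : ℂ}
    (h : MDifferentiableAt 𝓘(ℂ, ℂ) 𝓘(ℂ, ℂ × ℂ) g (ζ + ω)) :
    speed H (fun t => g (t + ω)) ζ = speed H g (ζ + ω) := by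
  have h2 : MDifferentiableAt 𝓘(ℂ, ℂ) 𝓘(ℂ, ℂ) (fun t : ℂ => t + ω) ζ := by
    apply DifferentiableAt.mdifferentiableAt
    fun_prop
  have h3 : mfderiv 𝓘(ℂ, ℂ) 𝓘(ℂ, ℂ × ℂ) (fun t => g (t + ω)) ζ =
      (mfderiv 𝓘(ℂ, ℂ) 𝓘(ℂ, ℂ × ℂ) g (ζ + ω)).comp
        (mfderiv 𝓘(ℂ, ℂ) 𝓘(ℂ, ℂ) (fun t : ℂ => t + ω) ζ) :=
    mfderiv_comp ζ h h2
  have h4 : mfderiv 𝓘(ℂ, ℂ) 𝓘(ℂ, ℂ) (fun t : ℂ => t + ω) ζ = ContinuousLinearMap.id ℂ ℂ := by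
    rw [mfderiv_eq_fderiv, fderiv_add_const, fderiv_fun_id]
  unfold speed
  rw [h3, h4]
  rfl

end Pool.Agent.VEB
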