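import Pool.Agent.VEB.Defs3
import Pool.Agent.VEB.EQD
import Pool.Agent.VEB.SCP

open scoped Manifold Topology
open Filter Metric Set

namespace Pool.Agent.VEB

open Pool.Agent.ELL Pool.Agent.EPO

variable {S : Type*} [MetricSpace S] [CompactSpace S] [ChartedSpace (ℂ × ℂ) S]
  [IsManifold 𝓘(ℂ, ℂ × ℂ) 1 S] {Λ : Submodule ℤ ℂ} [DiscreteTopology Λ] [IsZLattice ℝ Λ]
  {π : S → ℂ ⧸ Λ} {D : Set S}

set_option linter.unusedSectionVars false

/-- Two elements of `Sec` agree in at most countably many points. -/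
private theorem cel_countable {E E' : ℂ → S} (hE : E ∈ Sec π D) (hE' : E' ∈ Sec π D) :
    {z | E ≠ E' ∧ E z = E' z}.Countable := by
  by_cases hne : E = E'
  · have : {z | E ≠ E' ∧ E z = E' z} = ∅ := by
      ext z
      simp [hne]
    rw [this]
    exact Set.countable_empty
  have h1 : ∀ t, MDifferentiableAt 𝓘(ℂ, ℂ) 𝓘(ℂ, ℂ × ℂ) E t := fun t => hE.1 t
  have h1' : ∀ t, MDifferentiableAt 𝓘(ℂ, ℂ) 𝓘(ℂ, ℂ × ℂ) E' t := fun t => hE'.1 t
  have h2 : ∀ z : ℂ, ∃ U ∈ 𝓝 z, ∀ t ∈ U, E t = E' t → t = z := by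
    intro z
    rcases EQD (ζ := z) (Eventually.of_forall h1) (Eventually.of_forall h1') with h | h
    · exfalso
      apply hne
      have h3 := EQD_univ isOpen_univ isPreconnected_univ (fun t _ => h1 t) (fun t _ => h1' t)
        (mem_univ z) h
      funext t
      exact h3 (mem_univ t)
    · rw [eventually_nhdsWithin_iff] at h
      refine ⟨_, h, fun t ht heq => ?_⟩
      by_contra htz
      exact ht htz heq
  choose U hU hU2 using h2
  obtain ⟨s, hs, hcov⟩ := TopologicalSpace.countable_cover_nhds hU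
  refine hs.mono fun t ht => ?_
  have h3 : t ∈ ⋃ x ∈ s, U x := by
    rw [hcov]
    exact mem_univ t
  obtain ⟨x, hx, htx⟩ := mem_iUnion₂.1 h3
  rw [hU2 x t htx ht.2]
  exact hx

/-- Cells. -/
theorem CEL (hfin : (Sec π D).Finite) (Γ : Submodule ℤ ℂ) [DiscreteTopology Γ] [IsZLattice ℝ Γ]
    (hper : ∀ E ∈ Sec π D, ∀ ω ∈ Γ, ∀ ζ, E (ζ + ω) = E ζ) :
    ∃ t₀ γ R₀ δ₀, IsCell π D Γ t₀ γ R₀ δ₀ := by
  classical
  have : Module.Finite ℤ Γ := ZLattice.module_finite ℝ Γ
  have : Module.Free ℤ Γ := ZLattice.module_free ℝ Γ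
  set b := (Module.Free.chooseBasis ℤ Γ).ofZLatticeBasis ℝ with hb
  have hspan : Submodule.span ℤ (Set.range b) = Γ :=
    (Module.Free.chooseBasis ℤ Γ).ofZLatticeBasis_span ℝ
  have hne : Nonempty (Module.Free.ChooseBasisIndex ℤ Γ) := b.index_nonempty
  -- the bad points
  set X : Set ℂ := ⋃ E ∈ Sec π D, ⋃ E' ∈ Sec π D, {z | E ≠ E' ∧ E z = E' z} with hX
  have hXc : X.Countable := hfin.countable.biUnion fun E hE =>
    hfin.countable.biUnion fun E' hE' => cel_countable hE hE'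
  have hc : ∀ i, ∃ c : ℝ, ∀ x ∈ X, ∀ n : ℤ, b.repr x i - c ≠ n := by
    intro i
    have h1 : (⋃ x ∈ X, Set.range (fun n : ℤ => b.repr x i - (n : ℝ))).Countable :=
      hXc.biUnion fun x _ => Set.countable_range _
    obtain ⟨c, hc⟩ := (h1.dense_compl ℝ).nonempty
    refine ⟨c, fun x hx n hn => hc ?_⟩
    refine mem_iUnion₂.2 ⟨x, hx, n, ?_⟩
    show b.repr x i - (n : ℝ) = c
    linarith
  choose c hc using hc
  set t₀ : ℂ := ∑ i, c i • b i with ht₀
  have hrt : ∀ i, b.repr t₀ i = c i := by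
    intro i
    rw [ht₀, b.repr_sum_self]
  have hcont : ∀ i, Continuous (fun z : ℂ => b.repr (z - t₀) i) := by
    intro i
    have h1 : Continuous (b.coord i) := LinearMap.continuous_of_finiteDimensional _
    exact h1.comp (continuous_id.sub continuous_const)
  set L : Set ℂ := {z | ∃ i, ∃ n : ℤ, b.repr (z - t₀) i = n} with hL
  have hLc : IsClosed L := by
    have h1 : L = ⋃ i, (fun z : ℂ => b.repr (z - t₀) i) ⁻¹' (Set.range ((↑) : ℤ → ℝ)) := by
      ext z
      simp only [hL, Set.mem_ofPred_eq, Set.mem_iUnion, Set.mem_preimage, Set.mem_range]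
      constructor
      · rintro ⟨i, n, h⟩
        exact ⟨i, n, h.symm⟩
      · rintro ⟨i, n, h⟩
        exact ⟨i, n, h.symm⟩
    rw [h1]
    exact isClosed_iUnion_of_finite fun i =>
      (Int.isClosedEmbedding_coe_real.isClosed_range).preimage (hcont i)
  have hLX : ∀ z ∈ L, ∀ E ∈ Sec π D, ∀ E' ∈ Sec π D, E ≠ E' → E z ≠ E' z := by
    rintro z ⟨i, n, hn⟩ E hE E' hE' hne heq
    have hz : z ∈ X := by
      rw [hX]
      exact mem_iUnion₂.2 ⟨E, hE, mem_iUnion₂.2 ⟨E', hE', hne, heq⟩⟩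
    refine hc i z hz n ?_
    rw [← hn, map_sub, Finsupp.sub_apply, hrt]
  have hEc : ∀ E ∈ Sec π D, Continuous E := fun E hE => hE.1.continuous
  set R₀ : ℝ := ∑ i, ‖b i‖ with hR₀
  have hR₀0 : 0 ≤ R₀ := Finset.sum_nonneg fun i _ => norm_nonneg _
  set γ : ℂ → ℂ := fun z => (ZSpan.floor b (z - t₀) : ℂ) with hγ
  have hγΓ : ∀ z, γ z ∈ Γ := fun z => hspan.le (ZSpan.floor b (z - t₀)).2
  have hγf : ∀ z, z - (t₀ + γ z) = ZSpan.fract b (z - t₀) := by
    intro z
    rw [ZSpan.fract_apply]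
    simp only [hγ]
    ring
  have hbdd : ∀ z, ‖z - (t₀ + γ z)‖ ≤ R₀ := by
    intro z
    rw [hγf]
    exact ZSpan.norm_fract_le b _
  -- compactness
  set K : Set ℂ := L ∩ closedBall t₀ R₀ with hK
  have hKc : IsCompact K := (isCompact_closedBall t₀ R₀).inter_left hLc
  have hδ : ∀ᶠ δ in 𝓝[>] (0 : ℝ), ∀ E ∈ Sec π D, ∀ E' ∈ Sec π D, E ≠ E' →
      ∀ z ∈ K, 2 * δ ≤ dist (E z) (E' z) := by
    rw [eventually_all_finite hfin]
    intro E hE
    rw [eventually_all_finite hfin]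
    intro E' hE'
    by_cases hne : E = E'
    · exact Eventually.of_forall fun _ h => absurd hne h
    have hd : ∃ d > 0, ∀ z ∈ K, d ≤ dist (E z) (E' z) := by
      rcases K.eq_empty_or_nonempty with h0 | h0
      · exact ⟨1, one_pos, fun z hz => by simp [h0] at hz⟩
      · obtain ⟨z, hz, hmin⟩ := hKc.exists_isMinOn h0
          (f := fun z => dist (E z) (E' z)) ((hEc E hE).dist (hEc E' hE')).continuousOn
        exact ⟨_, dist_pos.2 (hLX z hz.1 E hE E' hE' hne), fun w hw => hmin hw⟩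
    obtain ⟨d, hd0, hd⟩ := hd
    have h2 : Ioo (0 : ℝ) (d / 2) ∈ 𝓝[>] (0 : ℝ) := Ioo_mem_nhdsGT (by linarith)
    filter_upwards [h2] with δ hδ _ z hz
    have := hd z hz
    linarith [hδ.2]
  obtain ⟨δ₀, hδ₀, hpos⟩ := (hδ.and self_mem_nhdsWithin).exists
  have hpos' : 0 < δ₀ := hpos
  have hLd : ∀ z ∈ L, ∀ E ∈ Sec π D, ∀ E' ∈ Sec π D, E ≠ E' → 2 * δ₀ ≤ dist (E z) (E' z) := by
    rintro z ⟨i, n, hn⟩ E hE E' hE' hne
    have h1 : z - γ z ∈ K := by
      refine ⟨⟨i, n - ⌊b.repr (z - t₀) i⌋, ?_⟩, ?_⟩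
      · have h2 : z - γ z - t₀ = (z - t₀) - γ z := by ring
        rw [h2, map_sub, Finsupp.sub_apply, hn]
        simp only [hγ]
        rw [ZSpan.repr_floor_apply, hn]
        push_cast
        rfl
      · rw [mem_closedBall, dist_eq_norm]
        have h2 : z - γ z - t₀ = z - (t₀ + γ z) := by ring
        rw [h2]
        exact hbdd z
    have h3 := hδ₀ E hE E' hE' hne _ h1
    have h4 := hper E hE _ (hγΓ z) (z - γ z)
    have h5 := hper E' hE' _ (hγΓ z) (z - γ z)
    rw [sub_add_cancel] at h4 h5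
    rw [h4, h5]
    exact h3
  refine ⟨t₀, γ, R₀, δ₀, hpos', hγΓ, ?_, hbdd, ?_, ?_⟩
  · intro ω hω ζ
    have hω' : ω ∈ Submodule.span ℤ (Set.range b) := hspan.ge hω
    have h1 := ZSpan.fract_add_ZSpan b (ζ - t₀) hω'
    have h2 : ζ + ω - (t₀ + γ (ζ + ω)) = ζ - (t₀ + γ ζ) := by
      rw [hγf, hγf, ← h1]
      congr 1
      ring
    linear_combination -h2
  · intro ζ
    by_cases hζ : ζ ∈ L
    · right
      rw [eventually_all_finite hfin]
      intro E hE
      rw [eventually_all_finite hfin]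
      intro E' hE'
      by_cases hne : E = E'
      · exact Eventually.of_forall fun _ h => absurd hne h
      have h1 := hLd ζ hζ E hE E' hE' hne
      have h2 : Continuous (fun t => dist (E t) (E' t)) := (hEc E hE).dist (hEc E' hE')
      have h3 : ∀ᶠ t in 𝓝 ζ, δ₀ < dist (E t) (E' t) :=
        h2.continuousAt.eventually (lt_mem_nhds (by linarith))
      filter_upwards [h3] with t ht _
      exact ht.le
    · left
      have h1 : ∀ᶠ t in 𝓝 ζ, ∀ i, ⌊b.repr (t - t₀) i⌋ = ⌊b.repr (ζ - t₀) i⌋ := by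
        rw [eventually_all]
        intro i
        have h2 : (⌊b.repr (ζ - t₀) i⌋ : ℝ) < b.repr (ζ - t₀) i := by
          refine lt_of_le_of_ne (Int.floor_le _) fun h => hζ ⟨i, _, h.symm⟩
        have h3 := Int.lt_floor_add_one (b.repr (ζ - t₀) i)
        filter_upwards [(hcont i).continuousAt.eventually (Ioo_mem_nhds h2 h3)] with t ht
        rw [Int.floor_eq_iff]
        exact ⟨ht.1.le, ht.2⟩
      filter_upwards [h1] with t ht
      have h2 : ZSpan.floor b (t - t₀) = ZSpan.floor b (ζ - t₀) := by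
        apply Subtype.ext
        apply b.repr.injective
        ext i
        rw [ZSpan.repr_floor_apply, ZSpan.repr_floor_apply, ht i]
      simp only [hγ, h2]
  · refine ⟨t₀, by simpa using hR₀0, fun E hE E' hE' hne' => ?_⟩
    have h1 : t₀ ∈ L := by
      obtain ⟨i⟩ := hne
      exact ⟨i, 0, by simp⟩
    have h2 := hLd t₀ h1 E hE E' hE' hne'
    linarith

end Pool.Agent.VEB
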