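import Pool.Agent.VEB.AHS

open scoped Manifold Topology
open Filter Metric Set

namespace Pool.Agent.VEB

open Pool.Agent.ELL Pool.Agent.EPO

variable {S : Type*} [MetricSpace S] [CompactSpace S] [ChartedSpace (ℂ × ℂ) S]
  [IsManifold 𝓘(ℂ, ℂ × ℂ) 1 S] {Λ : Submodule ℤ ℂ} [DiscreteTopology Λ] [IsZLattice ℝ Λ]
  {π : S → ℂ ⧸ Λ} {D : Set S}

private theorem EQC_loc {H : (p : S) → TangentSpace 𝓘(ℂ, ℂ × ℂ) p → ℝ} {c C : ℝ}
    (hH : IsNeg π D H c C) {ε : ℝ} (hε : 0 < ε) (p : S) :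
    ∃ V ∈ 𝓝 p, ∃ δ > 0, δ ≤ 1 ∧ ∀ (b : ℂ) (g : ℂ → S), SecOn π D (ball b 1) g → g b ∈ V →
      ∀ ζ ∈ ball b δ, dist (g ζ) (g b) ≤ ε := by
  obtain ⟨U, hU, K, hK⟩ := hH.dom p
  set φ := chartAt (ℂ × ℂ) p with hφ
  have hφm : φ ∈ MA S := IsManifold.chart_mem_maximalAtlas p
  have hps : p ∈ φ.source := mem_chart_source _ _
  have hpt : φ p ∈ φ.target := φ.map_source hps
  -- the radius
  have hnb : φ.target ∩ φ.symm ⁻¹' (U ∩ ball p (ε / 2)) ∈ 𝓝 (φ p) := by
    refine inter_mem (φ.open_target.mem_nhds hpt) ?_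
    have h1 : ContinuousAt φ.symm (φ p) := φ.continuousAt_symm hpt
    refine h1.preimage_mem_nhds ?_
    rw [φ.left_inv hps]
    exact inter_mem hU (ball_mem_nhds p (by positivity))
  obtain ⟨ρ, hρ, hρb⟩ := Metric.mem_nhds_iff.1 hnb
  set W : Set S := φ.source ∩ φ ⁻¹' (ball (φ p) ρ) with hW
  have hWo : IsOpen W := φ.isOpen_inter_preimage isOpen_ball
  have hWU : ∀ q ∈ W, q ∈ U ∧ dist q p < ε / 2 := by
    intro q hq
    have h1 := hρb hq.2
    have h2 := h1.2
    rw [mem_preimage, φ.left_inv hq.1] at h2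
    exact ⟨h2.1, mem_ball.1 h2.2⟩
  set M : ℝ := (|C| + 8) / c with hM
  have hc := hH.c_pos
  have hM0 : 0 ≤ M := by positivity
  set L : ℝ := Real.sqrt (|K| * M) with hL
  have hL0 : 0 ≤ L := Real.sqrt_nonneg _
  -- the derivative bound
  have hder : ∀ (b : ℂ) (g : ℂ → S), SecOn π D (ball b 1) g → ∀ t ∈ ball b (1 / 2), g t ∈ W →
      DifferentiableAt ℂ (fun η => φ (g η)) t ∧ ‖deriv (fun η => φ (g η)) t‖ ≤ L := by
    intro b g hg t ht hgt
    have hsub : ball t (1 / 2) ⊆ ball b 1 := by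
      refine ball_subset_ball' ?_
      have := mem_ball.1 ht
      linarith
    have hgt2 : SecOn π D (ball t (1 / 2)) g := hg.mono hsub
    refine ⟨mdiff_chart (hgt2.mdiff isOpen_ball (mem_ball_self (by norm_num))) hφm hgt.1, ?_⟩
    have h1 := hK g t (1 / 2) (by norm_num) hgt2 (hWU _ hgt).1
    have h2 : speed H g t ≤ M := by
      have := AHS hH (by norm_num : (0 : ℝ) < 1 / 2) hgt2
      have e : (|C| + 2 / (1 / 2 : ℝ) ^ 2) / c = M := by
        rw [hM]
        norm_num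
      rwa [e] at this
    have h3 : 0 < speed H g t := hH.pos g t (1 / 2) (by norm_num) hgt2
    have h4 : K * speed H g t ≤ |K| * M :=
      (mul_le_mul_of_nonneg_right (le_abs_self K) h3.le).trans
        (mul_le_mul_of_nonneg_left h2 (abs_nonneg K))
    rw [hL]
    exact Real.le_sqrt_of_sq_le (h1.trans h4)
  set δ : ℝ := min (1 / 2) (ρ / (2 * (L + 1))) with hδ
  have hδ0 : 0 < δ := by
    rw [hδ]
    positivity
  have hδ1 : δ ≤ 1 / 2 := min_le_left _ _
  have hδL : L * δ < ρ / 2 := by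
    have h1 : (L + 1) * δ ≤ ρ / 2 := by
      have h2 : δ ≤ ρ / (2 * (L + 1)) := min_le_right _ _
      have h3 := mul_le_mul_of_nonneg_left h2 (by linarith : (0 : ℝ) ≤ L + 1)
      have e : (L + 1) * (ρ / (2 * (L + 1))) = ρ / 2 := by
        field_simp
      rwa [e] at h3
    linarith
  have hρ2 : 0 < ρ / 2 := by linarith
  refine ⟨φ.source ∩ φ ⁻¹' (ball (φ p) (ρ / 2)), ?_, δ, hδ0, by linarith, ?_⟩
  · exact (φ.isOpen_inter_preimage isOpen_ball).mem_nhds ⟨hps, mem_ball_self hρ2⟩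
  intro b g hg hgb ζ hζ
  have hbW : g b ∈ W := ⟨hgb.1, ball_subset_ball (by linarith) hgb.2⟩
  -- the path
  set γ : ℝ → ℂ := fun s => b + (s : ℂ) * (ζ - b) with hγ
  have hγc : Continuous γ := by
    rw [hγ]
    fun_prop
  have hζb : ‖ζ - b‖ < δ := by
    rw [← dist_eq_norm]
    exact mem_ball.1 hζ
  have hγb : ∀ s ∈ Icc (0 : ℝ) 1, γ s ∈ ball b (1 / 2) := by
    intro s hs
    rw [mem_ball, dist_eq_norm, hγ]
    have e : b + (s : ℂ) * (ζ - b) - b = (s : ℂ) * (ζ - b) := by ring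
    simp only [e, norm_mul, Complex.norm_real, Real.norm_of_nonneg hs.1]
    have h1 : s * ‖ζ - b‖ ≤ 1 * ‖ζ - b‖ := mul_le_mul_of_nonneg_right hs.2 (norm_nonneg _)
    linarith
  have hgc : ContinuousOn (fun s => g (γ s)) (Icc 0 1) := by
    intro s hs
    have h1 : ContinuousAt g (γ s) :=
      hg.cont isOpen_ball (ball_subset_ball (by norm_num) (hγb s hs))
    exact (ContinuousAt.comp (f := γ) h1 hγc.continuousAt).continuousWithinAt
  have hmain : g ζ ∈ W := by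
    by_contra hnot
    set T : Set ℝ := {s | s ∈ Icc (0 : ℝ) 1 ∧ g (γ s) ∉ W} with hT
    have hTcl : IsClosed T := by
      have h1 : T = Icc (0 : ℝ) 1 ∩ (fun s => g (γ s)) ⁻¹' Wᶜ := by
        ext s
        rfl
      rw [h1]
      exact hgc.preimage_isClosed_of_isClosed isClosed_Icc hWo.isClosed_compl
    have hγ1 : γ 1 = ζ := by
      simp [hγ]
    have hγ0 : γ 0 = b := by
      simp [hγ]
    have hTne : T.Nonempty := ⟨1, ⟨zero_le_one, le_rfl⟩, by rw [hγ1]; exact hnot⟩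
    have hTb : BddBelow T := ⟨0, fun s hs => hs.1.1⟩
    have hs0 : sInf T ∈ T := hTcl.csInf_mem hTne hTb
    set s₀ := sInf T with hs₀
    have hs0pos : 0 < s₀ := by
      rcases hs0.1.1.eq_or_lt with h | h
      · exfalso
        apply hs0.2
        rw [← h, hγ0]
        exact hbW
      · exact h
    have hbefore : ∀ s, 0 ≤ s → s < s₀ → g (γ s) ∈ W := by
      intro s h0 h1
      by_contra h2
      have h3 : s ∈ T := ⟨⟨h0, h1.le.trans hs0.1.2⟩, h2⟩
      exact absurd (csInf_le hTb h3) (not_le.2 h1)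
    have hbd : ∀ s, 0 ≤ s → s < s₀ → φ (g (γ s)) ∈ closedBall (φ p) (ρ / 2 + L * δ) := by
      intro s h0 h1
      have hin : ∀ x ∈ Icc 0 s, γ x ∈ ball b (1 / 2) ∧ g (γ x) ∈ W := fun x hx =>
        ⟨hγb x ⟨hx.1, (hx.2.trans h1.le).trans hs0.1.2⟩, hbefore x hx.1 (hx.2.trans_lt h1)⟩
      have hd : ∀ x ∈ Icc 0 s, HasDerivAt (fun x : ℝ => φ (g (γ x)))
          ((ζ - b) • deriv (fun η => φ (g η)) (γ x)) x := by
        intro x hx
        have h2 := (hder b g hg (γ x) (hin x hx).1 (hin x hx).2).1.hasDerivAt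
        have h3 : HasDerivAt γ (ζ - b) x := by
          have h4 : HasDerivAt (fun s : ℝ => (s : ℂ)) 1 x := Complex.ofRealCLM.hasDerivAt
          have h5 := (h4.mul_const (ζ - b)).const_add b
          rw [one_mul] at h5
          exact h5
        exact HasDerivAt.scomp x h2 h3
      have h2 := norm_image_sub_le_of_norm_deriv_right_le_segment
        (f := fun x : ℝ => φ (g (γ x))) (a := 0) (b := s) (C := L * δ)
        (fun x hx => (hd x hx).continuousAt.continuousWithinAt)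
        (fun x hx => (hd x (Ico_subset_Icc_self hx)).hasDerivWithinAt)
        (fun x hx => by
          have hx' := Ico_subset_Icc_self hx
          have h3 := (hder b g hg (γ x) (hin x hx').1 (hin x hx').2).2
          rw [norm_smul, mul_comm]
          exact mul_le_mul h3 hζb.le (norm_nonneg _) hL0) s ⟨h0, le_rfl⟩
      have h3 : L * δ * (s - 0) ≤ L * δ := by
        have h4 : s ≤ 1 := h1.le.trans hs0.1.2
        have h5 : 0 ≤ L * δ := by positivity
        nlinarith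
      rw [mem_closedBall, dist_eq_norm]
      have h6 : ‖φ (g (γ 0)) - φ p‖ < ρ / 2 := by
        rw [hγ0, ← dist_eq_norm]
        exact mem_ball.1 hgb.2
      have h7 : φ (g (γ s)) - φ p = (φ (g (γ s)) - φ (g (γ 0))) + (φ (g (γ 0)) - φ p) := by
        abel
      rw [h7]
      refine (norm_add_le _ _).trans ?_
      linarith
    have hsub : closedBall (φ p) (ρ / 2 + L * δ) ⊆ ball (φ p) ρ :=
      closedBall_subset_ball (by linarith)
    have hcK : IsCompact (φ.symm '' closedBall (φ p) (ρ / 2 + L * δ)) := by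
      refine (isCompact_closedBall _ _).image_of_continuousOn ?_
      exact φ.continuousOn_symm.mono fun v hv => (hρb (hsub hv)).1
    have hlim : g (γ s₀) ∈ φ.symm '' closedBall (φ p) (ρ / 2 + L * δ) := by
      have h1 : Tendsto (fun s => g (γ s)) (𝓝[<] s₀) (𝓝 (g (γ s₀))) := by
        have h2 : ContinuousAt g (γ s₀) :=
          hg.cont isOpen_ball (ball_subset_ball (by norm_num) (hγb s₀ hs0.1))
        exact (ContinuousAt.comp (f := γ) h2 hγc.continuousAt).tendsto.mono_left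
          nhdsWithin_le_nhds
      refine hcK.isClosed.mem_of_tendsto h1 ?_
      filter_upwards [Ioo_mem_nhdsLT hs0pos] with s hs
      exact ⟨φ (g (γ s)), hbd s hs.1.le hs.2, φ.left_inv (hbefore s hs.1.le hs.2).1⟩
    apply hs0.2
    obtain ⟨v, hv, hve⟩ := hlim
    have hvt : v ∈ φ.target := (hρb (hsub hv)).1
    rw [← hve]
    refine ⟨φ.map_target hvt, ?_⟩
    rw [mem_preimage, φ.right_inv hvt]
    exact hsub hv
  have h1 := (hWU _ hmain).2
  have h2 := (hWU _ hbW).2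
  have h3 := dist_triangle_right (g ζ) (g b) p
  linarith

/-- Sections over discs of radius one are equicontinuous at the centre. -/
theorem EQC {H : (p : S) → TangentSpace 𝓘(ℂ, ℂ × ℂ) p → ℝ} {c C : ℝ} (hH : IsNeg π D H c C) :
    ∀ ε > 0, ∃ δ > 0, δ ≤ 1 ∧ ∀ (b : ℂ) (g : ℂ → S), SecOn π D (ball b 1) g →
      ∀ ζ ∈ ball b δ, dist (g ζ) (g b) ≤ ε := by
  intro ε hε
  have key : ∃ δ > 0, δ ≤ 1 ∧ ∀ (b : ℂ) (g : ℂ → S), SecOn π D (ball b 1) g →
      g b ∈ (univ : Set S) → ∀ ζ ∈ ball b δ, dist (g ζ) (g b) ≤ ε := by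
    refine isCompact_univ.induction_on
      (p := fun s : Set S => ∃ δ > 0, δ ≤ 1 ∧ ∀ (b : ℂ) (g : ℂ → S), SecOn π D (ball b 1) g →
        g b ∈ s → ∀ ζ ∈ ball b δ, dist (g ζ) (g b) ≤ ε) ?_ ?_ ?_ ?_
    · exact ⟨1, one_pos, le_rfl, fun b g _ h => absurd h (notMem_empty _)⟩
    · rintro s t hst ⟨δ, h0, h1, h⟩
      exact ⟨δ, h0, h1, fun b g hg hb => h b g hg (hst hb)⟩
    · rintro s t ⟨δ, h0, h1, h⟩ ⟨δ', h0', h1', h'⟩
      refine ⟨min δ δ', lt_min h0 h0', (min_le_left _ _).trans h1, ?_⟩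
      intro b g hg hb ζ hζ
      rcases hb with hb | hb
      · exact h b g hg hb ζ (ball_subset_ball (min_le_left _ _) hζ)
      · exact h' b g hg hb ζ (ball_subset_ball (min_le_right _ _) hζ)
    · intro p _
      obtain ⟨V, hV, hr⟩ := EQC_loc hH hε p
      exact ⟨V, mem_nhdsWithin_of_mem_nhds hV, hr⟩
  obtain ⟨δ, h0, h1, h⟩ := key
  exact ⟨δ, h0, h1, fun b g hg => h b g hg (mem_univ _)⟩

theorem EQC_fib {H : (p : S) → TangentSpace 𝓘(ℂ, ℂ × ℂ) p → ℝ} {c C : ℝ}
    (hH : IsNeg π D H c C) : FibresHyperbolic π D := by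
  intro b
  right
  refine ⟨1, one_pos, fun ε hε => ?_⟩
  obtain ⟨δ, h0, _, h⟩ := EQC hH ε hε
  exact ⟨δ, h0, fun g hg hg' => h b g ⟨hg, hg'⟩⟩

end Pool.Agent.VEB
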