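import Pool.Agent.VEB.SCP
import Pool.Agent.ELL.Lim
import Pool.Agent.ELL.Lpi
import Pool.Agent.ELL.Hur

open scoped Manifold Topology
open Filter Metric Set

namespace Pool.Agent.VEB

open Pool.Agent.ELL Pool.Agent.EPO

variable {S : Type*} [MetricSpace S] [CompactSpace S] [ChartedSpace (ℂ × ℂ) S]
  [IsManifold 𝓘(ℂ, ℂ × ℂ) 1 S] {Λ : Submodule ℤ ℂ} [DiscreteTopology Λ] [IsZLattice ℝ Λ]
  {π : S → ℂ ⧸ Λ} {D : Set S}

theorem lsc_mem {a ζ : ℂ} {r : ℝ} (h : ζ ∈ ball a r) : ζ ∈ ball (0 : ℂ) (‖a‖ + r) := by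
  rw [mem_ball, dist_eq_norm] at h
  rw [mem_ball_zero_iff]
  calc ‖ζ‖ = ‖a + (ζ - a)‖ := by ring_nf
    _ ≤ ‖a‖ + ‖ζ - a‖ := norm_add_le _ _
    _ < ‖a‖ + r := by linarith

omit [CompactSpace S] [DiscreteTopology Λ] [IsZLattice ℝ Λ] in
theorem lsc_hol {g : ℕ → ℂ → S} {G : ℂ → S}
    (hg : ∀ R : ℝ, ∀ᶠ k in atTop, SecOn π D (ball 0 R) (g k)) (hG : Continuous G)
    (h : Conv g G) : HolC G := by
  refine holC_of_charts hG fun x => ?_
  have hφ : chartAt (ℂ × ℂ) (G x) ∈ MA S := IsManifold.chart_mem_maximalAtlas (G x)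
  refine ⟨chartAt (ℂ × ℂ) (G x), hφ, mem_chart_source _ _, ?_⟩
  obtain ⟨r, hr, hGU, hgU, hun⟩ := h.comp_unif hG (chartAt (ℂ × ℂ) (G x)).open_source
    (chartAt (ℂ × ℂ) (G x)).continuousOn (mem_chart_source _ _)
  have hlu : TendstoLocallyUniformlyOn (fun k ζ => chartAt (ℂ × ℂ) (G x) (g k ζ))
      (fun ζ => chartAt (ℂ × ℂ) (G x) (G ζ)) atTop (ball x r) :=
    (hun.mono ball_subset_closedBall).tendstoLocallyUniformlyOn
  have hd : ∀ᶠ k in atTop, DifferentiableOn ℂ (fun ζ => chartAt (ℂ × ℂ) (G x) (g k ζ))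
      (ball x r) := by
    filter_upwards [hgU, hg (‖x‖ + r)] with k hk hk' ζ hζ
    exact (mdiff_chart (hk'.mdiff isOpen_ball (lsc_mem hζ)) hφ
      (hk ζ (ball_subset_closedBall hζ))).differentiableWithinAt
  exact (hlu.differentiableOn hd isOpen_ball).differentiableAt (isOpen_ball.mem_nhds
    (mem_ball_self hr))

omit [CompactSpace S] [DiscreteTopology Λ] [IsZLattice ℝ Λ] in
theorem lsc_zero {g : ℕ → ℂ → S} {G : ℂ → S}
    (hg : ∀ R : ℝ, ∀ᶠ k in atTop, SecOn π D (ball 0 R) (g k)) (hG : HolC G)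
    (h : Conv g G) {F : S → ℂ} {U : Set S} (hF : HolOn F U) {a : ℂ} (hU : U ∈ 𝓝 (G a))
    (h0 : F (G a) = 0) (hne : ¬ ∀ᶠ ζ in 𝓝 a, F (G ζ) = 0) :
    ∀ δ > 0, ∀ᶠ k in atTop, ∃ ζ ∈ ball a δ, g k ζ ∈ interior U ∧ F (g k ζ) = 0 := by
  intro δ hδ
  have hFc : ContinuousOn F (interior U) := fun q hq =>
    (hF.contAt (mem_interior_iff_mem_nhds.1 hq)).continuousWithinAt
  obtain ⟨r, hr, h1, h2, h3⟩ := h.comp_unif hG.cont isOpen_interior hFc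
    (mem_interior_iff_mem_nhds.2 hU)
  have h4 := hurwitz (F := fun k ζ => F (g k ζ)) (f := fun ζ => F (G ζ)) hr ?_ ?_
    (h3.mono ball_subset_closedBall) h0 hne (min r δ) (lt_min hr hδ)
  · filter_upwards [h2, h4] with k hk2 hk4
    obtain ⟨ζ, hζ, hζ0⟩ := hk4
    exact ⟨ζ, ball_subset_ball (min_le_right _ _) hζ,
      hk2 ζ (ball_subset_closedBall (ball_subset_ball (min_le_left _ _) hζ)), hζ0⟩
  · filter_upwards [h2, hg (‖a‖ + r)] with k hk2 hk' ζ hζ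
    exact (mdiff_fn (hk'.mdiff isOpen_ball (lsc_mem hζ)) hF (mem_interior_iff_mem_nhds.1
      (hk2 ζ (ball_subset_closedBall hζ)))).differentiableWithinAt
  · intro ζ hζ
    exact (hG.fn hF (mem_interior_iff_mem_nhds.1
      (h1 ζ (ball_subset_closedBall hζ)))).differentiableWithinAt

omit [CompactSpace S] [DiscreteTopology Λ] [IsZLattice ℝ Λ] in
theorem lsc_avoid (hD : IsDivisor D) {g : ℕ → ℂ → S} {G : ℂ → S}
    (hg : ∀ R : ℝ, ∀ᶠ k in atTop, SecOn π D (ball 0 R) (g k)) (hG : HolC G) (h : Conv g G) :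
    (∀ ζ, G ζ ∉ D) ∨ ∀ ζ, G ζ ∈ D := by
  have hclosed : IsClosed (G ⁻¹' D) := hD.1.preimage hG.cont
  have hopen : IsOpen (G ⁻¹' D) := by
    rw [isOpen_iff_mem_nhds]
    intro a ha
    obtain ⟨U, hU, F, hF, hFU⟩ := hD.2 (G a) ha
    have h0 : F (G a) = 0 := (hFU _ (mem_of_mem_nhds hU)).1 ha
    have hev : ∀ᶠ ζ in 𝓝 a, F (G ζ) = 0 := by
      by_contra hne
      obtain ⟨k, ⟨ζ, hζ1, hζU, hζ0⟩, hk⟩ := ((lsc_zero hg hG h hF hU h0 hne 1 one_pos).and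
        (hg (‖a‖ + 1))).exists
      exact (hk.2 ζ (lsc_mem hζ1)).1 ((hFU _ (interior_subset hζU)).2 hζ0)
    filter_upwards [hev, hG.cont.continuousAt.preimage_mem_nhds hU] with ζ hζ hζU
    exact (hFU _ hζU).2 hζ
  rcases isClopen_iff.1 ⟨hclosed, hopen⟩ with h1 | h1
  · left
    intro ζ hζ
    have : ζ ∈ G ⁻¹' D := hζ
    rw [h1] at this
    exact this
  · right
    intro ζ
    have : ζ ∈ G ⁻¹' D := by rw [h1]; trivial
    exact this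

/-- Limits of sections over growing discs. -/
theorem LSC (hπ : HolTo Λ π) (hD : IsDivisor D) (hs : NoSecIn π D) {g : ℕ → ℂ → S} {G : ℂ → S}
    (hg : ∀ R : ℝ, ∀ᶠ k in atTop, SecOn π D (ball 0 R) (g k)) (hG : Continuous G)
    (h : Conv g G) : G ∈ Sec π D := by
  have hH : HolC G := lsc_hol hg hG h
  have hp : ∀ ζ, π (G ζ) = Λ.mkQ ζ := fun ζ => by
    refine pi_tendsto_ev hπ (h.tendsto hG (tendsto_const_nhds (x := ζ)))
      (t := fun _ => ζ) tendsto_const_nhds ?_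
    filter_upwards [hg (‖ζ‖ + 1)] with k hk
    exact (hk.2 ζ (lsc_mem (mem_ball_self one_pos))).2
  rcases lsc_avoid hD hg hH h with h1 | h1
  · exact ⟨hH, h1, hp⟩
  · exfalso
    obtain ⟨a, U, hU, F, hF, hFU, h0, hne⟩ := hs G hH hp h1
    obtain ⟨k, ⟨ζ, hζ1, hζU, hζ0⟩, hk⟩ := ((lsc_zero hg hH h hF hU h0 hne 1 one_pos).and
      (hg (‖a‖ + 1))).exists
    exact (hk.2 ζ (lsc_mem hζ1)).1 (hFU _ (interior_subset hζU) hζ0)

end Pool.Agent.VEB
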