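import Pool.Agent.VEB.Defs3
import Pool.Agent.VEB.LSC
import Pool.Agent.VEB.EQC
import Pool.Agent.ELL.Asc
import Pool.Agent.ELL.Bnd

open scoped Manifold Topology
open Filter Metric Set

namespace Pool.Agent.VEB

open Pool.Agent.ELL Pool.Agent.EPO

variable {S : Type*} [MetricSpace S] [CompactSpace S] [ChartedSpace (ℂ × ℂ) S]
  [IsManifold 𝓘(ℂ, ℂ × ℂ) 1 S] {Λ : Submodule ℤ ℂ} [DiscreteTopology Λ] [IsZLattice ℝ Λ]
  {π : S → ℂ ⧸ Λ} {D : Set S}

/-- Sections over large discs are close to elements of `Sec π D`. -/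
theorem CLO (hπ : HolTo Λ π) (hD : IsDivisor D) (hs : NoSecIn π D)
    {H : (p : S) → TangentSpace 𝓘(ℂ, ℂ × ℂ) p → ℝ} {c C : ℝ} (hH : IsNeg π D H c C)
    {θ R₁ : ℝ} (hθ : 0 < θ) : ∃ R, R₁ ≤ R ∧ 0 < R ∧ CloseSec π D θ R₁ R := by
  by_contra hcon
  push Not at hcon
  have h1 : ∀ k : ℕ, ∃ (c : ℂ) (g : ℂ → S), SecOn π D (ball c (max R₁ 0 + k + 1)) g ∧
      ∀ E ∈ Sec π D, ∃ ζ ∈ ball c R₁, θ ≤ dist (g ζ) (E ζ) := by
    intro k
    have hk : (0 : ℝ) ≤ k := Nat.cast_nonneg k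
    have h2 := hcon (max R₁ 0 + k + 1) (by have := le_max_left R₁ 0; linarith)
      (by have := le_max_right R₁ 0; linarith)
    unfold CloseSec at h2
    push Not at h2
    exact h2
  choose c0 g0 hg0 hE0 using h1
  obtain ⟨R0, hR0, hlat⟩ := lat_bdd Λ
  choose ω hω hωn using fun k => hlat (c0 k)
  set c' : ℕ → ℂ := fun k => c0 k - ω k with hc'
  set g : ℕ → ℂ → S := fun k t => g0 k (t + ω k) with hg'
  have hgS : ∀ k : ℕ, SecOn π D (ball (c' k) (max R₁ 0 + k + 1)) (g k) := by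
    intro k
    refine SecOn.translate ?_ (hω k)
    have e : c' k + ω k = c0 k := by simp [hc']
    rw [e]
    exact hg0 k
  have hgE : ∀ k : ℕ, ∀ E ∈ Sec π D, ∃ ζ ∈ ball (c' k) R₁, θ ≤ dist (g k ζ) (E ζ) := by
    intro k E hE
    have hE' : (fun ζ => E (ζ + -ω k)) ∈ Sec π D := sec_translate hE (Λ.neg_mem (hω k))
    obtain ⟨ζ, hζ, hd⟩ := hE0 k _ hE'
    refine ⟨ζ - ω k, ?_, ?_⟩
    · rw [mem_ball, dist_eq_norm] at hζ ⊢
      have e : ζ - ω k - c' k = ζ - c0 k := by simp [hc']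
      rw [e]
      exact hζ
    · have e1 : g k (ζ - ω k) = g0 k ζ := by simp [hg']
      rw [e1]
      rw [← sub_eq_add_neg] at hd
      exact hd
  have hsub : ∀ (k : ℕ) (x : ℂ) (r : ℝ), ‖x‖ + r + R0 ≤ max R₁ 0 + k + 1 →
      ball x r ⊆ ball (c' k) (max R₁ 0 + k + 1) := by
    intro k x r hr
    apply ball_subset_ball'
    have : dist x (c' k) ≤ ‖x‖ + R0 := by
      rw [dist_eq_norm]
      exact (norm_sub_le _ _).trans (by have := hωn k; linarith)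
    linarith
  obtain ⟨s, hs', G, hG, hconv⟩ := ascoli_metric g (by
    intro R ε hε
    obtain ⟨δ, hδ, -, hEq⟩ := EQC hH ε hε
    obtain ⟨K, hK⟩ := exists_nat_ge (R + R0)
    refine ⟨δ, hδ, K, fun k hk x hx y hy => ?_⟩
    apply hEq x (g k) _ y hy
    apply (hgS k).mono
    apply hsub
    have h3 : (K : ℝ) ≤ k := by exact_mod_cast hk
    have := le_max_right R₁ 0
    linarith)
  have hGS : G ∈ Sec π D := by
    refine LSC hπ hD hs ?_ hG hconv
    intro R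
    obtain ⟨K, hK⟩ := exists_nat_ge (R + R0)
    filter_upwards [eventually_ge_atTop K] with k hk
    apply (hgS (s k)).mono
    apply hsub
    have h3 : (K : ℝ) ≤ (s k : ℝ) := by exact_mod_cast hk.trans (hs'.id_le k)
    have := le_max_right R₁ 0
    rw [norm_zero]
    linarith
  obtain ⟨K, hK⟩ := hconv (R0 + R₁) θ hθ
  obtain ⟨ζ, hζ, hd⟩ := hgE (s K) G hGS
  have h4 := hK K le_rfl ζ (by
    rw [mem_ball, dist_eq_norm] at hζ
    calc ‖ζ‖ = ‖c' (s K) + (ζ - c' (s K))‖ := by ring_nf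
      _ ≤ ‖c' (s K)‖ + ‖ζ - c' (s K)‖ := norm_add_le _ _
      _ ≤ R0 + R₁ := add_le_add (hωn (s K)) hζ.le)
  exact absurd h4 (not_lt.2 hd)

end Pool.Agent.VEB
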