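import Pool.Agent.VEB.TYP
import Pool.Agent.VEB.CNT

open scoped Manifold Topology
open Filter Metric Set

namespace Pool.Agent.VEB

open Pool.Agent.ELL Pool.Agent.EPO

variable {S : Type*} [MetricSpace S] [CompactSpace S] [ChartedSpace (ℂ × ℂ) S]
  [IsManifold 𝓘(ℂ, ℂ × ℂ) 1 S] {Λ : Submodule ℤ ℂ} [DiscreteTopology Λ] [IsZLattice ℝ Λ]
  {π : S → ℂ ⧸ Λ} {D : Set S} {B : Type*} [TopologicalSpace B] [T2Space B] [CompactSpace B]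
  {f : B → S} {e : B → ℕ} {P : Set B}
  {Γ : Submodule ℤ ℂ} {E : ℂ → S}
  {Fo : (ℂ → S) → ℂ → ℝ} {ε₁ η a A' C₂ C₃ : ℝ} {t₀ : ℂ} {γ : ℂ → ℂ} {R₀ δ₀ R R₁ θ : ℝ}

set_option linter.unusedSectionVars false

/-- The number of sheets of the type of `E` is at least the number over the centre. -/
theorem CNI (H : BDat π D f e P) (hp : Par π D Γ E Fo ε₁ η a A' C₂ C₃ t₀ γ R₀ δ₀ R R₁ θ)
    (ζ : ℂ) :
    {p | p ∈ Fib Λ (fun q => π (f q)) t₀ ∧ Ty π P f R R₁ θ E t₀ t₀ p}.ncard ≤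
      {p | p ∈ Fib Λ (fun q => π (f q)) ζ ∧ Ty π P f R R₁ θ E (t₀ + γ ζ) ζ p}.ncard := by
  classical
  have hR₁ := hp.h4
  have hR := hp.h5
  have hR₀ := hp.R₀_nonneg
  have hγΛ : γ ζ ∈ Λ := hp.le (hp.cell.mem ζ)
  have hm : ζ - γ ζ ∈ ball t₀ R := by
    rw [mem_ball, dist_eq_norm]
    have h1 := hp.cell.bdd ζ
    have h2 : ζ - γ ζ - t₀ = ζ - (t₀ + γ ζ) := by ring
    rw [h2]
    linarith
  have ht : t₀ ∈ ball t₀ R := mem_ball_self (by linarith)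
  have hch : ∀ p ∈ {p | p ∈ Fib Λ (fun q => π (f q)) t₀ ∧ Ty π P f R R₁ θ E t₀ t₀ p},
      ∃ s : ℂ → B, IsSec Λ (fun q => π (f q)) P (ball t₀ R) s ∧ s t₀ = p ∧
        ∀ t ∈ ball t₀ R₁, dist (f (s t)) (E t) < θ := fun p h => h.2
  choose! s hs h1 hd using hch
  refine Set.ncard_le_ncard_of_injOn (fun p => s p (ζ - γ ζ)) ?_ ?_ ?_
  · intro p h
    refine ⟨?_, ?_⟩
    · have h3 := ((hs p h).2 _ hm).1
      show π (f (s p (ζ - γ ζ))) = Λ.mkQ ζ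
      have h4 : π (f (s p (ζ - γ ζ))) = Λ.mkQ (ζ - γ ζ) := h3
      rw [h4, Submodule.mkQ_apply, Submodule.mkQ_apply, Submodule.Quotient.eq]
      simpa using hγΛ
    · have h3 : Ty π P f R R₁ θ E t₀ (ζ - γ ζ) (s p (ζ - γ ζ)) := ⟨s p, hs p h, rfl, hd p h⟩
      have h4 := (ty_add hγΛ (hp.per E hp.mem _ (hp.cell.mem ζ))).2 h3
      rwa [sub_add_cancel] at h4
  · intro p h p' h' heq
    have h3 := sec_unique H.cov (convex_ball t₀ R).isPreconnected (hs p h) (hs p' h') hm heq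
    have h4 := h3 ht
    rw [h1 p h, h1 p' h'] at h4
    exact h4
  · exact (Fib_finite H.cov ζ).subset fun p h => h.1

/-- The number of bad sheets. -/
theorem CNI_bad (H : BDat π D f e P) {c ζ : ℂ} {R R' : ℝ} (hR : 0 < R) (hc : ‖ζ - c‖ ≤ R')
    {K : ℕ} (hK : ∀ c : ℂ, {ω : ℂ | ω ∈ Λ ∧ ‖ω - c‖ ≤ R + R'}.Finite ∧
      {ω : ℂ | ω ∈ Λ ∧ ‖ω - c‖ ≤ R + R'}.ncard ≤ K)
    (P' : Finset B) (hP : ∀ p, p ∈ P' ↔ p ∈ P) :
    {p | p ∈ Fib Λ (fun q => π (f q)) ζ ∧ p ∉ P ∧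
      ¬ Gd Λ (fun q => π (f q)) P R c ζ p}.ncard ≤ K * ∑ q ∈ P', e q := by
  classical
  have hfin : {p | p ∈ Fib Λ (fun q => π (f q)) ζ ∧ p ∉ P ∧
      ¬ Gd Λ (fun q => π (f q)) P R c ζ p}.Finite :=
    (Fib_finite H.cov ζ).subset fun p h => h.1
  rw [Set.ncard_eq_toFinset_card _ hfin]
  have hR' : 0 ≤ R' := (norm_nonneg _).trans hc
  refine CNT H.cov (by linarith : 0 < R + R') hK (a := ζ) _ ?_ P' hP
  intro p hpF
  have h := (Set.Finite.mem_toFinset hfin).1 hpF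
  refine ⟨h.1, h.2.1, ?_⟩
  rintro ⟨s, hs, hsp⟩
  refine h.2.2 ⟨s, IsSec.mono hs ?_, hsp⟩
  intro t ht
  rw [mem_ball, dist_eq_norm] at ht ⊢
  have h2 := norm_add_le (t - c) (c - ζ)
  rw [sub_add_sub_cancel, norm_sub_rev c ζ] at h2
  linarith

end Pool.Agent.VEB
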