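import Pool.Agent.VEB.FIB

open scoped Manifold Topology
open Filter Metric Set

set_option linter.unusedSectionVars false

namespace Pool.Agent.VEB

open Pool.Agent.EPO

variable {Λ : Submodule ℤ ℂ} [DiscreteTopology Λ] [IsZLattice ℝ Λ]
  {C : Type*} [TopologicalSpace C] [T2Space C]
  {z : C → ℂ ⧸ Λ} {Φ : (ℂ → C) → ℂ → Prop} {e : C → ℕ} {P : Set C}

omit [IsZLattice ℝ Λ] [T2Space C] in
/-- Local form of a continuous section through a point where `z` is unramified. -/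
theorem SCA_local {P : Set C} {q : C} {a : ℂ} {ε : ℝ} {σ : ℂ → C}
    (h : NF Λ z Φ P q 1 a ε σ) {U : Set ℂ} {s : ℂ → C} (hs : ContinuousWithinAt s U a)
    (hz : ∀ ζ ∈ U, z (s ζ) = Λ.mkQ ζ) (hq : s a = q) :
    ∀ᶠ ζ in 𝓝[U] a, ‖ζ - a‖ < ε ∧ s ζ = σ (ζ - a) := by
  -- discreteness of the lattice
  obtain ⟨ρ, hρ, hρ'⟩ : ∃ ρ > 0, ∀ ω ∈ Λ, ‖ω‖ < ρ → ω = 0 := by
    have h1 : ({0} : Set Λ) ∈ 𝓝 (0 : Λ) := (isOpen_discrete _).mem_nhds rfl
    obtain ⟨ρ, hρ, h2⟩ := Metric.mem_nhds_iff.1 h1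
    refine ⟨ρ, hρ, fun ω hω hn => ?_⟩
    have h3 : (⟨ω, hω⟩ : Λ) ∈ ball (0 : Λ) ρ := by
      rw [mem_ball_zero_iff]
      exact hn
    have h4 := h2 h3
    simpa using h4
  set δ := min ε (ρ / 2) with hδ
  have hδ0 : 0 < δ := lt_min h.pos (by positivity)
  have hsub : ball (0 : ℂ) δ ⊆ ball 0 ε := ball_subset_ball (min_le_left _ _)
  have hopn : IsOpen (σ '' ball 0 δ) := h.opn _ hsub isOpen_ball
  have hmem : σ '' ball 0 δ ∈ 𝓝 (s a) := by
    rw [hq, ← h.center]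
    exact hopn.mem_nhds ⟨0, mem_ball_self hδ0, rfl⟩
  have h1 : ∀ᶠ ζ in 𝓝[U] a, s ζ ∈ σ '' ball 0 δ := hs hmem
  have h2 : ∀ᶠ ζ in 𝓝[U] a, ‖ζ - a‖ < δ := by
    refine mem_nhdsWithin_of_mem_nhds ?_
    filter_upwards [ball_mem_nhds a hδ0] with ζ hζ
    rwa [mem_ball, dist_eq_norm] at hζ
  filter_upwards [h1, h2, self_mem_nhdsWithin] with ζ ⟨u, hu, hus⟩ hζ hζU
  have hu' := mem_ball_zero_iff.1 hu
  refine ⟨hζ.trans_le (min_le_left _ _), ?_⟩
  have h3 := hz ζ hζU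
  rw [← hus, h.zlift u (hsub hu), pow_one] at h3
  have h4 : a + u - ζ ∈ Λ := by
    have := (Submodule.Quotient.eq Λ).1 h3
    exact this
  have h5 : a + u - ζ = 0 := by
    apply hρ' _ h4
    have h6 : a + u - ζ = u - (ζ - a) := by ring
    rw [h6]
    have h7 : δ ≤ ρ / 2 := min_le_right _ _
    calc ‖u - (ζ - a)‖ ≤ ‖u‖ + ‖ζ - a‖ := norm_sub_le _ _
      _ < ρ := by linarith
  have h6 : u = ζ - a := by linear_combination h5
  rw [← hus, h6]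

/-- Uniqueness of sections. -/
theorem sec_unique (H : RCov Λ z Φ e P) {U : Set ℂ} (hU : IsPreconnected U) {s s' : ℂ → C}
    (hs : IsSec Λ z (P) U s) (hs' : IsSec Λ z (P) U s') {ζ : ℂ} (hζ : ζ ∈ U)
    (h : s ζ = s' ζ) : EqOn s s' U := by
  have hne : ∀ η ∈ U, e (s η) = 1 := by
    intro η hη
    exact H.one _ (hs.2 η hη).2
  have hps : PreconnectedSpace U := isPreconnected_iff_preconnectedSpace.1 hU
  set S : Set U := {η | s η = s' η} with hS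
  have hcl : IsClosed S :=
    isClosed_eq (continuousOn_iff_continuous_domRestrict.1 hs.1)
      (continuousOn_iff_continuous_domRestrict.1 hs'.1)
  have hop : IsOpen S := by
    rw [isOpen_iff_mem_nhds]
    rintro ⟨η, hη⟩ (hηS : s η = s' η)
    obtain ⟨ε, σ, hN⟩ := H.nf (s η) η (hs.2 η hη).1
    rw [hne η hη] at hN
    have h1 := SCA_local hN (hs.1 η hη) (fun ζ' hζ' => (hs.2 ζ' hζ').1) rfl
    have h2 := SCA_local hN (hs'.1 η hη) (fun ζ' hζ' => (hs'.2 ζ' hζ').1) hηS.symm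
    have h3 : ∀ᶠ ζ' in 𝓝[U] η, s ζ' = s' ζ' := by
      filter_upwards [h1, h2] with ζ' ha hb
      rw [ha.2, hb.2]
    rw [nhdsWithin_eq_map_subtype_coe hη] at h3
    exact h3
  have huniv : S = univ := IsClopen.eq_univ ⟨hcl, hop⟩ ⟨⟨ζ, hζ⟩, h⟩
  intro η hη
  have : (⟨η, hη⟩ : U) ∈ S := by rw [huniv]; trivial
  exact this

/-- The section through a point near `q`. -/
theorem sec_near {q : C} {e₀ : ℕ} {a : ℂ} {ε : ℝ} {σ : ℂ → C}
    (h : NF Λ z Φ P q e₀ a ε σ) {ζ u : ℂ} (hζ : ζ ≠ a)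
    (h2 : 2 * ‖ζ - a‖ ≤ ε ^ e₀) (hu : u ^ e₀ = ζ - a) :
    ∃ s, IsSec Λ z (P) (ball ζ ‖ζ - a‖) s ∧ s ζ = σ u := by
  have he : e₀ ≠ 0 := h.epos.ne'
  have he' : (e₀ : ℂ) ≠ 0 := by exact_mod_cast he
  have hd : ζ - a ≠ 0 := sub_ne_zero.2 hζ
  have hd' : 0 < ‖ζ - a‖ := norm_pos_iff.2 hd
  -- the auxiliary function
  set v : ℂ → ℂ := fun η => u * ((η - a) / (ζ - a)) ^ ((e₀ : ℂ)⁻¹) with hv
  have hvp : ∀ η, v η ^ e₀ = η - a := by
    intro η
    simp only [hv]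
    rw [mul_pow, hu, Complex.cpow_nat_inv_pow _ he]
    field_simp
  have hvn : ∀ η ∈ ball ζ ‖ζ - a‖, v η ∈ ball (0 : ℂ) ε ∧ v η ≠ 0 := by
    intro η hη
    rw [mem_ball, dist_eq_norm] at hη
    have h3 : ‖η - a‖ < 2 * ‖ζ - a‖ := by
      calc ‖η - a‖ = ‖(η - ζ) + (ζ - a)‖ := by congr 1; ring
        _ ≤ ‖η - ζ‖ + ‖ζ - a‖ := norm_add_le _ _
        _ < _ := by linarith
    have h4 : ‖v η‖ ^ e₀ < ε ^ e₀ := by
      rw [← norm_pow, hvp]
      exact h3.trans_le h2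
    refine ⟨mem_ball_zero_iff.2 (lt_of_pow_lt_pow_left₀ _ h.pos.le h4), ?_⟩
    intro h0
    have h5 := hvp η
    rw [h0, zero_pow he] at h5
    have h6 : η - ζ = -(ζ - a) := by linear_combination -h5
    rw [h6, norm_neg] at hη
    exact lt_irrefl _ hη
  have hvc : ContinuousOn v (ball ζ ‖ζ - a‖) := by
    apply ContinuousOn.mul continuousOn_const
    apply ContinuousOn.cpow_const
    · fun_prop
    · intro η hη
      rw [mem_ball, dist_eq_norm] at hη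
      rw [Complex.mem_slitPlane_iff]
      left
      have h3 : (η - a) / (ζ - a) = 1 + (η - ζ) / (ζ - a) := by field_simp; ring
      rw [h3, Complex.add_re, Complex.one_re]
      have h4 : ‖(η - ζ) / (ζ - a)‖ < 1 := by
        rw [norm_div, div_lt_one hd']
        exact hη
      have h5 := (abs_le.1 ((Complex.abs_re_le_norm ((η - ζ) / (ζ - a))))).1
      linarith
  refine ⟨fun η => σ (v η), ⟨?_, ?_⟩, ?_⟩
  · exact h.cont.comp hvc fun η hη => (hvn η hη).1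
  · intro η hη
    refine ⟨?_, h.avoid _ (hvn η hη).1 (hvn η hη).2⟩
    rw [h.zlift _ (hvn η hη).1, hvp]
    congr 1
    ring
  · simp only [hv]
    rw [div_self hd, Complex.one_cpow, mul_one]

/-- The section through a nonspecial point. -/
theorem sec_reg (H : RCov Λ z Φ e P) {q : C} (hq : q ∉ P) {a : ℂ} {ε : ℝ} {σ : ℂ → C}
    (h : NF Λ z Φ P q (e q) a ε σ) :
    IsSec Λ z (P) (ball a ε) (fun ζ => σ (ζ - a)) := by
  have h1 := H.one q hq
  have hm : ∀ ζ ∈ ball a ε, ζ - a ∈ ball (0 : ℂ) ε := by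
    intro ζ hζ
    rw [mem_ball_zero_iff]
    rwa [mem_ball, dist_eq_norm] at hζ
  refine ⟨h.cont.comp (by fun_prop) hm, fun ζ hζ => ⟨?_, ?_⟩⟩
  · rw [h.zlift _ (hm ζ hζ), h1, pow_one]
    congr 1
    ring
  · by_cases h0 : ζ - a = 0
    · simp only [h0, h.center]
      exact hq
    · exact h.avoid _ (hm ζ hζ) h0


end Pool.Agent.VEB
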