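import Pool.Agent.VEB.Defs3
import Pool.Agent.VEB.SCA
import Pool.Agent.VEB.SCP

open scoped Manifold Topology
open Filter Metric Set

namespace Pool.Agent.VEB

open Pool.Agent.ELL Pool.Agent.EPO

variable {S : Type*} [MetricSpace S] [CompactSpace S] [ChartedSpace (ℂ × ℂ) S]
  [IsManifold 𝓘(ℂ, ℂ × ℂ) 1 S] {Λ : Submodule ℤ ℂ} [DiscreteTopology Λ] [IsZLattice ℝ Λ]
  {π : S → ℂ ⧸ Λ} {D : Set S} {B : Type*} [TopologicalSpace B] [T2Space B] [CompactSpace B]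
  {f : B → S} {e : B → ℕ} {P : Set B}

/-- Sections of the covering give sections of `π`. -/
theorem SOF (H : BDat π D f e P) {U : Set ℂ} (hU : IsOpen U) {s : ℂ → B}
    (hs : IsSec Λ (fun q => π (f q)) P U s) : SecOn π D U (fun t => f (s t)) := by
  refine ⟨fun t ht => ?_, fun t ht => ⟨H.avoid _ (hs.2 t ht).2, (hs.2 t ht).1⟩⟩
  obtain ⟨ε, σ, hN⟩ := H.cov.nf (s t) t (hs.2 t ht).1
  have he := H.cov.one _ (hs.2 t ht).2
  rw [he] at hN
  have h1 := SCA_local hN (hs.1 t ht) (fun ζ hζ => (hs.2 ζ hζ).1) rfl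
  rw [hU.nhdsWithin_eq ht] at h1
  have h2 : MDifferentiableAt 𝓘(ℂ, ℂ) 𝓘(ℂ, ℂ × ℂ) (fun v => f (σ v)) (t - t) := by
    rw [sub_self]
    exact hN.hol 0 (mem_ball_self hN.pos)
  have h3 : MDifferentiableAt 𝓘(ℂ, ℂ) 𝓘(ℂ, ℂ) (fun v : ℂ => v - t) t :=
    (differentiableAt_id.sub_const t).mdifferentiableAt
  have h4 : MDifferentiableAt 𝓘(ℂ, ℂ) 𝓘(ℂ, ℂ × ℂ) (fun v => f (σ (v - t))) t :=
    MDifferentiableAt.comp (g := fun v => f (σ v)) t h2 h3
  have h5 : (fun v => f (s v)) =ᶠ[𝓝 t] fun v => f (σ (v - t)) := by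
    filter_upwards [h1] with v hv
    rw [hv.2]
  exact (h4.congr_of_eventuallyEq h5).mdifferentiableWithinAt

theorem IsSec.mono {z : B → ℂ ⧸ Λ} {U V : Set ℂ} {s : ℂ → B} (h : IsSec Λ z P U s)
    (hV : V ⊆ U) : IsSec Λ z P V s :=
  ⟨h.1.mono hV, fun ζ hζ => h.2 ζ (hV hζ)⟩

/-- through every nonspecial point there is a local section -/
theorem exists_loc (H : BDat π D f e P) {ζ : ℂ} {p : B}
    (hp : p ∈ Fib Λ (fun q => π (f q)) ζ) (hP : p ∉ P) :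
    ∃ s, ∃ r > 0, r ≤ 1 ∧ IsSec Λ (fun q => π (f q)) P (ball ζ r) s ∧ s ζ = p := by
  obtain ⟨ε, σ, hN⟩ := H.cov.nf p ζ hp
  have h1 := sec_reg H.cov hP hN
  refine ⟨fun η => σ (η - ζ), min ε 1, lt_min hN.pos one_pos, min_le_right _ _,
    IsSec.mono h1 (ball_subset_ball (min_le_left _ _)), ?_⟩
  show σ (ζ - ζ) = p
  rw [sub_self, hN.center]

theorem loc_eq (H : BDat π D f e P) {ζ : ℂ} {r : ℝ} {s : ℂ → B} (hr : 0 < r)
    (hs : IsSec Λ (fun q => π (f q)) P (ball ζ r) s) :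
    ∀ᶠ t in 𝓝 ζ, loc Λ (fun q => π (f q)) P ζ (s ζ) t = s t := by
  have hex : ∃ s', ∃ r' > 0, IsSec Λ (fun q => π (f q)) P (ball ζ r') s' ∧ s' ζ = s ζ :=
    ⟨s, r, hr, hs, rfl⟩
  have hl : loc Λ (fun q => π (f q)) P ζ (s ζ) = hex.choose := by
    unfold loc
    exact dif_pos hex
  obtain ⟨r', hr', hs', he⟩ := hex.choose_spec
  rw [hl]
  have h1 : EqOn hex.choose s (ball ζ (min r r')) :=
    sec_unique H.cov (convex_ball ζ _).isPreconnected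
      (IsSec.mono hs' (ball_subset_ball (min_le_right _ _)))
      (IsSec.mono hs (ball_subset_ball (min_le_left _ _)))
      (mem_ball_self (lt_min hr hr')) he
  filter_upwards [ball_mem_nhds ζ (lt_min hr hr')] with t ht
  exact h1 ht

end Pool.Agent.VEB
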