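import Pool.Agent.VEB.FIB
import Pool.Agent.VEB.SOF

open scoped Manifold Topology
open Filter Metric Set

namespace Pool.Agent.VEB

open Pool.Agent.ELL Pool.Agent.EPO

variable {S : Type*} [MetricSpace S] [CompactSpace S] [ChartedSpace (ℂ × ℂ) S]
  [IsManifold 𝓘(ℂ, ℂ × ℂ) 1 S] {Λ : Submodule ℤ ℂ} [DiscreteTopology Λ] [IsZLattice ℝ Λ]
  {π : S → ℂ ⧸ Λ} {D : Set S} {B : Type*} [TopologicalSpace B] [T2Space B] [CompactSpace B]
  {f : B → S} {e : B → ℕ} {P : Set B}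

set_option linter.unusedSectionVars false

/-- The `e`-th roots of `w`. -/
private noncomputable def dgc_rts (e : ℕ) (w : ℂ) : Finset ℂ :=
  open Classical in (Polynomial.nthRoots e w).toFinset

private theorem dgc_mem_rts {e : ℕ} (he : 0 < e) {w u : ℂ} : u ∈ dgc_rts e w ↔ u ^ e = w := by
  unfold dgc_rts
  rw [Multiset.mem_toFinset, Polynomial.mem_nthRoots he]

private theorem dgc_card_rts {e : ℕ} (he : 0 < e) {w : ℂ} (hw : w ≠ 0) :
    (dgc_rts e w).card = e := by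
  classical
  have hprim := Complex.isPrimitiveRoot_exp e he.ne'
  unfold dgc_rts
  rw [Multiset.toFinset_card_of_nodup (hprim.nthRoots_nodup hw), hprim.card_nthRoots,
    if_pos]
  obtain ⟨α, hα⟩ := IsAlgClosed.exists_pow_nat_eq w he
  exact ⟨α, hα⟩

/-- The degree is locally constant. -/
private theorem dgc_local (H : BDat π D f e P) (a : ℂ) : ∃ δ > 0, ∀ ζ ∈ ball a δ,
    ∑ᶠ q ∈ Fib Λ (fun q => π (f q)) ζ, e q = ∑ᶠ q ∈ Fib Λ (fun q => π (f q)) a, e q := by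
  classical
  obtain ⟨δ, hδ, ε, σ, h1, h2, h3⟩ := FIB H.cov a
  refine ⟨δ, hδ, fun ζ hζ => ?_⟩
  rcases eq_or_ne ζ a with rfl | hne
  · rfl
  have hw : ζ - a ≠ 0 := sub_ne_zero.2 hne
  have hfin := Fib_finite H.cov a
  set Fa : Finset B := hfin.toFinset with hFa
  have hFam : ∀ q, q ∈ Fa ↔ q ∈ Fib Λ (fun q => π (f q)) a := fun q => hfin.mem_toFinset
  set I : Finset (Σ _ : B, ℂ) := Fa.sigma (fun q => dgc_rts (e q) (ζ - a)) with hI
  have hIm : ∀ x ∈ I, x.1 ∈ Fib Λ (fun q => π (f q)) a ∧ x.2 ^ e x.1 = ζ - a ∧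
      x.2 ∈ ball (0 : ℂ) (ε x.1) := by
    intro x hx
    rw [hI, Finset.mem_sigma] at hx
    have hq := (hFam _).1 hx.1
    obtain ⟨hN, hε⟩ := h1 x.1 hq
    have hu := (dgc_mem_rts hN.epos).1 hx.2
    refine ⟨hq, hu, ?_⟩
    rw [mem_ball_zero_iff]
    rw [mem_ball, dist_eq_norm] at hζ
    have h4 : ‖x.2‖ ^ e x.1 < (ε x.1) ^ e x.1 := by
      rw [← norm_pow, hu]
      linarith
    exact lt_of_pow_lt_pow_left₀ _ hN.pos.le h4
  have hinj : ∀ x ∈ I, ∀ y ∈ I, σ x.1 x.2 = σ y.1 y.2 → x = y := by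
    rintro ⟨q, u⟩ hx ⟨q', u'⟩ hy heq
    obtain ⟨hx1, hx2, hx3⟩ := hIm _ hx
    obtain ⟨hy1, hy2, hy3⟩ := hIm _ hy
    simp only at hx1 hx2 hx3 hy1 hy2 hy3 heq
    have h5 := h2 q hx1 q' hy1 u hx3 u' hy3 heq
    subst h5
    have h6 := (h1 q hx1).1.inj hx3 hy3 heq
    subst h6
    rfl
  have hset : Fib Λ (fun q => π (f q)) ζ = ((I.image (fun x => σ x.1 x.2) : Finset B) : Set B) := by
    ext p
    rw [h3 ζ hζ p]
    simp only [Finset.coe_image, Set.mem_image, Finset.mem_coe]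
    constructor
    · rintro ⟨q, hq, u, hu, hue, rfl⟩
      refine ⟨⟨q, u⟩, ?_, rfl⟩
      rw [hI, Finset.mem_sigma]
      exact ⟨(hFam q).2 hq, (dgc_mem_rts (h1 q hq).1.epos).2 hue⟩
    · rintro ⟨x, hx, rfl⟩
      obtain ⟨hx1, hx2, hx3⟩ := hIm _ hx
      exact ⟨x.1, hx1, x.2, hx3, hx2, rfl⟩
  have hseta : Fib Λ (fun q => π (f q)) a = ((Fa : Finset B) : Set B) := by
    ext p
    rw [Finset.mem_coe, hFam]
  rw [hset, hseta, finsum_mem_coe_finset, finsum_mem_coe_finset, Finset.sum_image hinj]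
  have hone : ∀ x ∈ I, e (σ x.1 x.2) = 1 := by
    intro x hx
    obtain ⟨hx1, hx2, hx3⟩ := hIm _ hx
    have hN := (h1 x.1 hx1).1
    refine H.cov.one _ (hN.avoid _ hx3 ?_)
    intro h0
    rw [h0, zero_pow hN.epos.ne'] at hx2
    exact hw hx2.symm
  rw [Finset.sum_congr rfl hone, hI, Finset.sum_sigma]
  refine Finset.sum_congr rfl fun q hq => ?_
  have hN := (h1 q ((hFam q).1 hq)).1
  rw [Finset.sum_const, dgc_card_rts hN.epos hw, smul_eq_mul, mul_one]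

/-- The degree is the same over all points. -/
theorem DGC (H : BDat π D f e P) (a b : ℂ) :
    ∑ᶠ q ∈ Fib Λ (fun q => π (f q)) a, e q = ∑ᶠ q ∈ Fib Λ (fun q => π (f q)) b, e q := by
  have h : IsLocallyConstant (fun a : ℂ => ∑ᶠ q ∈ Fib Λ (fun q => π (f q)) a, e q) := by
    rw [IsLocallyConstant.iff_eventually_eq]
    intro c
    obtain ⟨δ, hδ, h1⟩ := dgc_local H c
    filter_upwards [ball_mem_nhds c hδ] with ζ hζ
    exact h1 ζ hζ
  exact h.apply_eq_of_preconnectedSpace a b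

end Pool.Agent.VEB
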