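import Pool.Agent.VEB.Defs3

open scoped Manifold Topology
open Filter Metric Set

namespace Pool.Agent.VEB

open Pool.Agent.ELL Pool.Agent.EPO

/-- The sublattice of index `n ^ 2`. -/
theorem GAM (Λ : Submodule ℤ ℂ) [DiscreteTopology Λ] [IsZLattice ℝ Λ] {n : ℕ} (hn : 0 < n) :
    ∃ (Γ : Submodule ℤ ℂ) (_ : DiscreteTopology Γ) (_ : IsZLattice ℝ Γ), Γ ≤ Λ ∧
      ∀ ω ∈ Γ, ∃ ω' ∈ Λ, ω = n * ω' := by
  have hne : (n : ℝ) ≠ 0 := by exact_mod_cast hn.ne'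
  have hneC : (n : ℂ) ≠ 0 := by exact_mod_cast hn.ne'
  let e : ℂ ≃L[ℝ] ℂ := (ContinuousLinearEquiv.smulLeft (Units.mk0 ((n : ℝ)⁻¹) (inv_ne_zero hne)))
  have he : ∀ x : ℂ, e x = ((n : ℂ)⁻¹) * x := by
    intro x
    show ((n : ℝ)⁻¹) • x = _
    rw [Complex.real_smul]
    push_cast
    rfl
  refine ⟨ZLattice.comap ℝ Λ e.toLinearMap, inferInstance, inferInstance, ?_, ?_⟩
  · intro x hx
    have h1 : e x ∈ Λ := hx
    rw [he] at h1
    have h2 : x = n • ((n : ℂ)⁻¹ * x) := by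
      rw [nsmul_eq_mul]
      field_simp
    rw [h2]
    exact Λ.smul_of_tower_mem n h1
  · intro x hx
    have h1 : e x ∈ Λ := hx
    rw [he] at h1
    exact ⟨_, h1, by field_simp⟩

end Pool.Agent.VEB
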