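import Pool.Agent.VEB.GEX
import Pool.Agent.VEB.AHS
import Pool.Agent.EPO.LLB

open scoped Manifold Topology
open Filter Metric Set

namespace Pool.Agent.VEB

open Pool.Agent.ELL Pool.Agent.EPO

variable {S : Type*} [MetricSpace S] [CompactSpace S] [ChartedSpace (ℂ × ℂ) S]
  [IsManifold 𝓘(ℂ, ℂ × ℂ) 1 S] {Λ : Submodule ℤ ℂ} [DiscreteTopology Λ] [IsZLattice ℝ Λ]
  {π : S → ℂ ⧸ Λ} {D : Set S} {m : ℕ} {ι : Type} [Fintype ι] {σ : ι → PluriForm S m D}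

/-- Existence of potentials. -/
theorem GPO (hπ : HolTo Λ π) (hD : IsDivisor D) (hs : NoSecIn π D) (hσ : Separates π D σ)
    (hm : 0 < m) (hfib : FibresHyperbolic π D) {H : (p : S) → TangentSpace 𝓘(ℂ, ℂ × ℂ) p → ℝ}
    {c C : ℝ} (hH : IsNeg π D H c C) {E : ℂ → S} (hE : E ∈ Sec π D) (Γ : Submodule ℤ ℂ)
    [DiscreteTopology Γ] [IsZLattice ℝ Γ] (hper : ∀ ω ∈ Γ, ∀ ζ, E (ζ + ω) = E ζ)
    {ε₁ : ℝ} (hε₁ : 0 < ε₁) : ∃ (Fo : (ℂ → S) → ℂ → ℝ) (η a A' C₂ C₃ : ℝ),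
      IsPot π D Γ E Fo ε₁ η a A' C₂ C₃ := by
  obtain ⟨G, η, a, K, hG⟩ := GEX hπ hD hs hσ hm hfib hH hE Γ hper hε₁
  obtain ⟨C₁, c', M₁, hc', hM₁, hA⟩ := AHS_trunc hH
  have hK := hG.K_nonneg
  have hKc : 0 ≤ K / c' := div_nonneg hK hc'.le
  refine ⟨fun g ζ => G ζ (g ζ) + K / c' * max (Real.log (speed H g ζ) - C₁) 0, η, a,
    2 * (K / c'), K * (1 + M₁), 1, ?_⟩
  refine
    { η_pos := hG.η_pos
      a_pos := hG.a_pos
      A_nonneg := by positivity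
      C₂_nonneg := by positivity
      C₃_nonneg := zero_le_one
      germ := ?_
      per := ?_
      reg := ?_
      good := ?_
      upper := ?_
      far := ?_
      meet := ?_ }
  · intro g g' ζ h
    show G ζ (g ζ) + _ = G ζ (g' ζ) + _
    rw [speed_congr h, h.self_of_nhds]
  · intro ω hω g ζ r hr hg
    show G ζ (g (ζ + ω)) + _ = G (ζ + ω) (g (ζ + ω)) + _
    rw [speed_translate (hg.mdiff isOpen_ball (mem_ball_self hr)), hG.per ω hω]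
  · intro g ζ r hr hg hne
    obtain ⟨-, -, h3, h4, -⟩ := hA g ζ r hr hg
    refine ⟨(hG.cont g ζ r hr hg hne).add (continuousAt_const.mul h3), ?_⟩
    have l1 := (hG.lap g ζ r hr hg hne).add (h4.const_mul hKc)
    refine l1.mono (le_of_eq ?_)
    field_simp
    ring
  · intro g ζ hg hη hne
    obtain ⟨-, -, -, -, h5⟩ := hA g ζ 1 one_pos hg
    have l1 := (hG.good g ζ hg hη hne).add (h5.const_mul hKc)
    rw [mul_zero, add_zero] at l1
    exact l1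
  · intro g ζ r hr hr1 hg
    obtain ⟨-, h2, -, -, -⟩ := hA g ζ r hr hg
    have h3 := mul_le_mul_of_nonneg_left (h2 hr1) hKc
    have h4 := hG.le_one ζ (g ζ)
    show G ζ (g ζ) + _ ≤ _
    linarith
  · intro g ζ hg hd
    obtain ⟨h1, -, -, -, -⟩ := hA g ζ 1 one_pos hg
    show G ζ (g ζ) + _ = _
    rw [h1 le_rfl, hG.far ζ (g ζ) (hg.2 ζ (mem_ball_self one_pos)).2 hd]
    ring
  · intro g ζ₀ r hr hg h0 hne M
    set r₁ : ℝ := min (r / 2) 1 with hr₁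
    have hr₁0 : 0 < r₁ := lt_min (by linarith) one_pos
    have h1 := hG.meet g ζ₀ r hr hg h0 hne (M - K / c' * (2 * Real.log (1 / r₁)))
    have h2 : ∀ᶠ ζ in 𝓝[≠] ζ₀, ζ ∈ ball ζ₀ (r / 2) :=
      mem_nhdsWithin_of_mem_nhds (ball_mem_nhds _ (by linarith))
    filter_upwards [h1, h2] with ζ h1 h2
    have hsub : ball ζ r₁ ⊆ ball ζ₀ r := by
      apply ball_subset_ball'
      rw [mem_ball] at h2
      have : r₁ ≤ r / 2 := min_le_left _ _
      linarith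
    obtain ⟨-, h3, -, -, -⟩ := hA g ζ r₁ hr₁0 (hg.mono hsub)
    have h4 := mul_le_mul_of_nonneg_left (h3 (min_le_right _ _)) hKc
    show G ζ (g ζ) + _ ≤ M
    linarith

end Pool.Agent.VEB
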