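import Pool.Agent.VEB.SOF
import Pool.Agent.VEB.EQD

open scoped Manifold Topology
open Filter Metric Set

namespace Pool.Agent.VEB

open Pool.Agent.ELL Pool.Agent.EPO

variable {S : Type*} [MetricSpace S] [CompactSpace S] [ChartedSpace (ℂ × ℂ) S]
  [IsManifold 𝓘(ℂ, ℂ × ℂ) 1 S] {Λ : Submodule ℤ ℂ} [DiscreteTopology Λ] [IsZLattice ℝ Λ]
  {π : S → ℂ ⧸ Λ} {D : Set S} {B : Type*} [TopologicalSpace B] [T2Space B] [CompactSpace B]
  {f : B → S} {e : B → ℕ} {P : Set B}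

/-- If `f` agrees with `E` along one local section, then `f` maps `B` to the image of `E`. -/
theorem IDT [PreconnectedSpace B] (H : BDat π D f e P) {E : ℂ → S} (hE : E ∈ Sec π D) {ζ : ℂ}
    {r : ℝ} {s : ℂ → B} (hr : 0 < r) (hs : IsSec Λ (fun q => π (f q)) P (ball ζ r) s)
    (h : ∀ᶠ t in 𝓝 ζ, f (s t) = E t) : ∀ p, f p ∈ range E := by
  have hEhol : MDifferentiable 𝓘(ℂ, ℂ) 𝓘(ℂ, ℂ × ℂ) E := hE.1
  have hEc : Continuous E := hEhol.continuous
  have hcount : Countable Λ := by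
    rw [← TopologicalSpace.separableSpace_iff_countable]
    infer_instance
  set W : Set B := {p | ∀ᶠ q in 𝓝 p, f q ∈ range E} with hW
  have hWo : IsOpen W := by
    rw [isOpen_iff_mem_nhds]
    intro p hp
    exact eventually_eventually_nhds.2 hp
  have hWne : W.Nonempty := by
    refine ⟨s ζ, ?_⟩
    have hζ : ζ ∈ ball ζ r := mem_ball_self hr
    obtain ⟨ε, σ, hN⟩ := H.cov.nf (s ζ) ζ (hs.2 ζ hζ).1
    have he := H.cov.one _ (hs.2 ζ hζ).2
    rw [he] at hN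
    have h1 := SCA_local hN (hs.1 ζ hζ) (fun η hη => (hs.2 η hη).1) rfl
    rw [isOpen_ball.nhdsWithin_eq hζ] at h1
    obtain ⟨ρ, hρ, hρ'⟩ := Metric.eventually_nhds_iff_ball.1 (h1.and h)
    have hsub : ball (0 : ℂ) (min ε ρ) ⊆ ball 0 ε := ball_subset_ball (min_le_left _ _)
    have hmem : σ '' ball 0 (min ε ρ) ∈ 𝓝 (s ζ) := by
      refine (hN.opn _ hsub isOpen_ball).mem_nhds ⟨0, mem_ball_self (lt_min hN.pos hρ), hN.center⟩
    filter_upwards [hmem] with q hq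
    obtain ⟨u, hu, rfl⟩ := hq
    have hu' : ζ + u ∈ ball ζ ρ := by
      rw [mem_ball, dist_eq_norm, add_sub_cancel_left]
      exact (mem_ball_zero_iff.1 hu).trans_le (min_le_right _ _)
    obtain ⟨⟨_, h2⟩, h3⟩ := hρ' _ hu'
    rw [add_sub_cancel_left] at h2
    exact ⟨ζ + u, by rw [← h3, h2]⟩
  have hWc : IsClosed W := by
    rw [← closure_subset_iff_isClosed]
    intro p hp
    obtain ⟨a, ha⟩ := Λ.mkQ_surjective (π (f p))
    obtain ⟨ε, σ, hN⟩ := H.cov.nf p a ha.symm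
    have hopn : IsOpen (σ '' ball 0 ε) := hN.opn _ subset_rfl isOpen_ball
    have hpm : p ∈ σ '' ball 0 ε := ⟨0, mem_ball_self hN.pos, hN.center⟩
    obtain ⟨_, ⟨u₀, hu₀, rfl⟩, hu₀W⟩ := mem_closure_iff.1 hp _ hopn hpm
    -- near `u₀`
    have hO : ∀ᶠ u in 𝓝 u₀, σ u ∈ W :=
      (hN.cont.continuousAt (isOpen_ball.mem_nhds hu₀)).eventually_mem (hWo.mem_nhds hu₀W)
    obtain ⟨ρ, hρ, hρ'⟩ := Metric.eventually_nhds_iff_ball.1
      (hO.and (isOpen_ball.mem_nhds hu₀ : ball (0 : ℂ) ε ∈ 𝓝 u₀))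
    have hρ2 : closedBall u₀ (ρ / 2) ⊆ ball u₀ ρ := closedBall_subset_ball (by linarith)
    set F : Λ → Set ℂ := fun ω => (ball u₀ (ρ / 2))ᶜ ∪
      {u | u ∈ closedBall u₀ (ρ / 2) ∧ f (σ u) = E (a + u ^ e p + ω)} with hF
    have hFc : ∀ ω, IsClosed (F ω) := by
      intro ω
      refine isOpen_ball.isClosed_compl.union ?_
      have hc1 : ContinuousOn (fun u => f (σ u)) (closedBall u₀ (ρ / 2)) :=
        H.cont.comp_continuousOn (hN.cont.mono fun u hu => (hρ' u (hρ2 hu)).2)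
      have hc2 : ContinuousOn (fun u : ℂ => E (a + u ^ e p + ω)) (closedBall u₀ (ρ / 2)) :=
        (hEc.comp (by fun_prop)).continuousOn
      exact isClosed_closedBall.isClosed_eq hc1 hc2
    have hFU : ⋃ ω, F ω = univ := by
      rw [eq_univ_iff_forall]
      intro u
      rw [mem_iUnion]
      by_cases hu : u ∈ ball u₀ (ρ / 2)
      · obtain ⟨hu1, hu2⟩ := hρ' u (ball_subset_ball (by linarith) hu)
        obtain ⟨b, hb⟩ : f (σ u) ∈ range E := hu1.self_of_nhds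
        have h1 : Λ.mkQ b = Λ.mkQ (a + u ^ e p) := by
          rw [← hN.zlift u hu2, ← hE.2.2 b]
          show π (E b) = π (f (σ u))
          rw [hb]
        rw [FIB_mk] at h1
        refine ⟨⟨b - (a + u ^ e p), h1⟩, Or.inr ⟨ball_subset_closedBall hu, ?_⟩⟩
        show f (σ u) = E (a + u ^ e p + (b - (a + u ^ e p)))
        rw [add_sub_cancel, hb]
      · exact ⟨0, Or.inl hu⟩
    have hdense := dense_iUnion_interior_of_closed hFc hFU
    obtain ⟨u₁, hu₁, hu₁'⟩ := hdense.exists_mem_open isOpen_ball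
      ⟨u₀, mem_ball_self (show 0 < ρ / 2 by linarith)⟩
    obtain ⟨ω, hω⟩ := mem_iUnion.1 hu₁
    have hagree : ∀ᶠ u in 𝓝 u₁, f (σ u) = E (a + u ^ e p + ω) := by
      filter_upwards [isOpen_interior.mem_nhds hω, isOpen_ball.mem_nhds hu₁'] with u h1 h2
      rcases interior_subset h1 with h3 | h3
      · exact absurd h2 h3
      · exact h3.2
    have hu₁ε : u₁ ∈ ball (0 : ℂ) ε := (hρ' u₁ (ball_subset_ball (by linarith) hu₁')).2
    have hEq : EqOn (fun u => f (σ u)) (fun u => E (a + u ^ e p + ω)) (ball 0 ε) := by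
      refine EQD_univ isOpen_ball (convex_ball 0 ε).isPreconnected (fun u hu => hN.hol u hu)
        (fun u hu => ?_) hu₁ε hagree
      have h1 : MDifferentiableAt 𝓘(ℂ, ℂ) 𝓘(ℂ, ℂ) (fun v : ℂ => a + v ^ e p + ω) u := by
        apply DifferentiableAt.mdifferentiableAt
        fun_prop
      exact MDifferentiableAt.comp (g := E) u (hEhol _) h1
    filter_upwards [hopn.mem_nhds hpm] with q hq
    obtain ⟨u, hu, rfl⟩ := hq
    exact ⟨_, (hEq hu).symm⟩
  have huniv : W = univ := IsClopen.eq_univ ⟨hWc, hWo⟩ hWne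
  intro p
  have : p ∈ W := by rw [huniv]; trivial
  exact this.self_of_nhds

end Pool.Agent.VEB
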