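import Pool.Agent.VEB.FNE
import Pool.Agent.VEB.IDT
import Pool.Agent.VEB.DGC
import Pool.Agent.VEB.GPO
import Pool.Agent.VEB.CLO
import Pool.Agent.VEB.CEL
import Pool.Agent.VEB.GAM
import Pool.Agent.ELL.Main

open scoped Manifold Topology
open Filter Metric Set

namespace Pool.Agent.VEB

open Pool.Agent.ELL Pool.Agent.EPO

/-- The data of `Par` for every element of `Sec`. -/
theorem DEG_data {S : Type*} [MetricSpace S] [CompactSpace S] [ChartedSpace (ℂ × ℂ) S]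
    [IsManifold 𝓘(ℂ, ℂ × ℂ) 1 S] {Λ : Submodule ℤ ℂ} [DiscreteTopology Λ] [IsZLattice ℝ Λ]
    {π : S → ℂ ⧸ Λ} {D : Set S} {m : ℕ} {ι : Type} [Fintype ι] {σ : ι → PluriForm S m D}
    (hπ : HolTo Λ π) (hD : IsDivisor D) (hs : NoSecIn π D) (hσ : Separates π D σ)
    (hm : 0 < m) {H : (p : S) → TangentSpace 𝓘(ℂ, ℂ × ℂ) p → ℝ} {c C : ℝ}
    (hH : IsNeg π D H c C) :
    (Sec π D).Finite ∧ ∃ (Γ : Submodule ℤ ℂ) (_ : DiscreteTopology Γ) (_ : IsZLattice ℝ Γ)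
      (t₀ : ℂ) (γ : ℂ → ℂ) (R₀ δ₀ R R₁ θ : ℝ), 0 < R ∧ CloseSec π D θ R₁ R ∧ ∀ E ∈ Sec π D,
        ∃ (Fo : (ℂ → S) → ℂ → ℝ) (ε₁ η a A' C₂ C₃ : ℝ),
          Par π D Γ E Fo ε₁ η a A' C₂ C₃ t₀ γ R₀ δ₀ R R₁ θ := by
  have hfib : FibresHyperbolic π D := EQC_fib hH
  obtain ⟨hfin, ⟨n, hn, hper⟩, -⟩ := ELL.main hπ hD hfib hs hm σ hσ
  obtain ⟨Γ, hΓ1, hΓ2, hΓΛ, hΓ⟩ := GAM Λ hn
  have hperΓ : ∀ E ∈ Sec π D, ∀ ω ∈ Γ, ∀ ζ, E (ζ + ω) = E ζ := by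
    intro E hE ω hω ζ
    obtain ⟨ω', hω', rfl⟩ := hΓ ω hω
    exact hper E hE ω' hω' ζ
  obtain ⟨t₀, γ, R₀, δ₀, hcell⟩ := CEL hfin Γ hperΓ
  have hδ := hcell.δ_pos
  have hR₀ : 0 ≤ R₀ := (norm_nonneg _).trans (hcell.bdd 0)
  have h1 : ∀ E : Sec π D, ∃ (Fo : (ℂ → S) → ℂ → ℝ) (η a A' C₂ C₃ : ℝ),
      IsPot π D Γ (E : ℂ → S) Fo (δ₀ / 2) η a A' C₂ C₃ := fun E =>
    GPO hπ hD hs hσ hm hfib hH E.2 Γ (hperΓ E.1 E.2) (by positivity)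
  choose Fo η a A' C₂ C₃ hpot using h1
  have : Finite (Sec π D) := hfin.to_subtype
  obtain ⟨θ, hθ, hθ1, hθ2⟩ : ∃ θ : ℝ, 0 < θ ∧ θ ≤ δ₀ / 4 ∧ ∀ E : Sec π D, θ ≤ η E := by
    by_cases hne : Nonempty (Sec π D)
    · obtain ⟨E₀, hE₀⟩ := Finite.exists_min η
      exact ⟨min (δ₀ / 4) (η E₀), lt_min (by positivity) (hpot E₀).η_pos, min_le_left _ _,
        fun E => (min_le_right _ _).trans (hE₀ E)⟩
    · exact ⟨δ₀ / 4, by positivity, le_rfl, fun E => absurd ⟨E⟩ hne⟩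
  obtain ⟨R, hR1, hR, hclose⟩ := CLO (R₁ := R₀ + 2) hπ hD hs hH hθ
  refine ⟨hfin, Γ, hΓ1, hΓ2, t₀, γ, R₀, δ₀, R, R₀ + 2, θ, hR, hclose, fun E hE => ?_⟩
  refine ⟨Fo ⟨E, hE⟩, δ₀ / 2, η ⟨E, hE⟩, a ⟨E, hE⟩, A' ⟨E, hE⟩, C₂ ⟨E, hE⟩, C₃ ⟨E, hE⟩, ?_⟩
  exact
    { pot := hpot ⟨E, hE⟩
      cell := hcell
      close := hclose
      mem := hE
      le := hΓΛ
      per := hperΓ
      θ_pos := hθ
      h1 := by linarith
      h2 := hθ2 ⟨E, hE⟩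
      h3 := by linarith
      R₀_nonneg := hR₀
      h4 := le_rfl
      h5 := hR1 }

/-- The bound for the degree. -/
theorem DEG.{u} {S : Type*} [MetricSpace S] [CompactSpace S] [ChartedSpace (ℂ × ℂ) S]
    [IsManifold 𝓘(ℂ, ℂ × ℂ) 1 S] {Λ : Submodule ℤ ℂ} [DiscreteTopology Λ] [IsZLattice ℝ Λ]
    {π : S → ℂ ⧸ Λ} {D : Set S} {m : ℕ} {ι : Type} [Fintype ι] {σ : ι → PluriForm S m D}
    (hπ : HolTo Λ π) (hD : IsDivisor D) (hs : NoSecIn π D) (hσ : Separates π D σ)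
    (hm : 0 < m) {H : (p : S) → TangentSpace 𝓘(ℂ, ℂ × ℂ) p → ℝ} {c C : ℝ}
    (hH : IsNeg π D H c C) :
    ∃ A₂ : ℝ, 0 ≤ A₂ ∧ ∀ (B : Type u) [TopologicalSpace B] [T2Space B] [CompactSpace B]
      [PreconnectedSpace B] (f : B → S) (e : B → ℕ) (P : Set B), BDat π D f e P →
      (∃ E ∈ Sec π D, ∀ p, f p ∈ range E) ∨
      ∀ P' : Finset B, (∀ p, p ∈ P' ↔ p ∈ P) → ∀ b : ℂ,
        ((∑ᶠ q ∈ Fib Λ (fun q => π (f q)) b, e q : ℕ) : ℝ) ≤ A₂ * ∑ q ∈ P', (e q : ℝ) := by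
  classical
  obtain ⟨hfin, Γ, hΓ1, hΓ2, t₀, γ, R₀, δ₀, R, R₁, θ, hR, hclose, hpar⟩ :=
    DEG_data hπ hD hs hσ hm hH
  have h1 : ∀ E : Sec π D, ∃ A₁ : ℝ, 0 ≤ A₁ ∧ ∀ (B : Type u) [TopologicalSpace B] [T2Space B]
      [CompactSpace B] (f : B → S) (e : B → ℕ) (P : Set B), BDat π D f e P →
      (∀ (ζ : ℂ) (r : ℝ) (s : ℂ → B), 0 < r →
        IsSec Λ (fun q => π (f q)) P (ball ζ r) s →
          ¬ ∀ᶠ t in 𝓝 ζ, f (s t) = (E : ℂ → S) t) →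
      ∀ P' : Finset B, (∀ p, p ∈ P' ↔ p ∈ P) →
        ({p | p ∈ Fib Λ (fun q => π (f q)) t₀ ∧ Ty π P f R R₁ θ E t₀ t₀ p}.ncard : ℝ) ≤
          A₁ * ∑ q ∈ P', (e q : ℝ) := by
    intro E
    obtain ⟨Fo, ε₁, η, a, A', C₂, C₃, hp⟩ := hpar E.1 E.2
    exact FNE.{u} hp
  choose A₁ hA₁ hFNE using h1
  have : Fintype (Sec π D) := hfin.fintype
  obtain ⟨K, hK⟩ := LCT Λ (R + 0)
  refine ⟨1 + K + ∑ E : Sec π D, A₁ E, ?_, ?_⟩
  · have := Finset.sum_nonneg (s := Finset.univ) fun E _ => hA₁ E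
    positivity
  intro B _ _ _ _ f e P H0
  by_cases hcase : ∃ E ∈ Sec π D, ∃ (ζ : ℂ) (r : ℝ) (s : ℂ → B), 0 < r ∧
      IsSec Λ (fun q => π (f q)) P (ball ζ r) s ∧ ∀ᶠ t in 𝓝 ζ, f (s t) = E t
  · obtain ⟨E, hE, ζ, r, s, hr, hs', h⟩ := hcase
    exact Or.inl ⟨E, hE, IDT H0 hE hr hs' h⟩
  · right
    intro P' hP' b
    push Not at hcase
    rw [DGC H0 b t₀]
    have hF : (Fib Λ (fun q => π (f q)) t₀).Finite := Fib_finite H0.cov t₀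
    set z : B → ℂ ⧸ Λ := fun q => π (f q) with hz
    set F : Finset B := hF.toFinset with hFd
    have hFm : ∀ p, p ∈ F ↔ p ∈ Fib Λ z t₀ := fun p => by simp [hFd]
    have e1 : (∑ᶠ q ∈ Fib Λ z t₀, e q) = ∑ q ∈ F, e q := by
      rw [finsum_mem_eq_finite_toFinset_sum _ hF]
    rw [e1]
    -- the special points of the fibre
    have e2 : ∑ q ∈ F, e q ≤ ∑ q ∈ P', e q + (F.filter fun p => p ∉ P).card := by
      rw [← Finset.sum_filter_add_sum_filter_not F (fun p => p ∈ P)]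
      refine add_le_add ?_ ?_
      · refine Finset.sum_le_sum_of_subset ?_
        intro p hp
        rw [Finset.mem_filter] at hp
        exact (hP' p).2 hp.2
      · rw [Finset.card_eq_sum_ones]
        refine Finset.sum_le_sum fun p hp => ?_
        rw [Finset.mem_filter] at hp
        rw [H0.cov.one p hp.2]
    have e3 : (F.filter fun p => p ∉ P).card ≤
        {p | p ∈ Fib Λ z t₀ ∧ p ∉ P ∧ ¬ Gd Λ z P R t₀ t₀ p}.ncard +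
          ∑ E : Sec π D, {p | p ∈ Fib Λ z t₀ ∧ Ty π P f R R₁ θ E t₀ t₀ p}.ncard := by
      have hsub : ∀ Q : B → Prop, {p | p ∈ Fib Λ z t₀ ∧ Q p}.ncard =
          (F.filter fun p => Q p).card := by
        intro Q
        rw [← Set.ncard_coe_finset]
        congr 1
        ext p
        simp [hFm]
      rw [hsub (fun p => p ∉ P ∧ ¬ Gd Λ z P R t₀ t₀ p)]
      simp_rw [hsub]
      refine le_trans (Finset.card_le_card (t := (F.filter fun p => p ∉ P ∧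
        ¬ Gd Λ z P R t₀ t₀ p) ∪ Finset.univ.biUnion fun E : Sec π D =>
          F.filter fun p => Ty π P f R R₁ θ E t₀ t₀ p) ?_) ?_
      · intro p hp
        rw [Finset.mem_filter] at hp
        rw [Finset.mem_union, Finset.mem_filter, Finset.mem_biUnion]
        by_cases hg : Gd Λ z P R t₀ t₀ p
        · right
          obtain ⟨E, hE, hty⟩ := ty_of_gd H0 hclose hg
          exact ⟨⟨E, hE⟩, Finset.mem_univ _, Finset.mem_filter.2 ⟨hp.1, hty⟩⟩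
        · exact Or.inl ⟨hp.1, hp.2, hg⟩
      · refine (Finset.card_union_le _ _).trans (add_le_add (le_of_eq ?_) ?_)
        · congr!
        · exact Finset.card_biUnion_le
    have e4 : {p | p ∈ Fib Λ z t₀ ∧ p ∉ P ∧ ¬ Gd Λ z P R t₀ t₀ p}.ncard ≤
        K * ∑ q ∈ P', e q :=
      CNI_bad H0 hR (by simp) hK P' hP'
    have e5 : ∀ E : Sec π D,
        ({p | p ∈ Fib Λ z t₀ ∧ Ty π P f R R₁ θ E t₀ t₀ p}.ncard : ℝ) ≤
          A₁ E * ∑ q ∈ P', (e q : ℝ) := fun E =>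
      hFNE E B f e P H0 (fun ζ r s hr hs' h => hcase E.1 E.2 ζ r s hr hs'
        (by filter_upwards [h] with x hx; simpa using hx)) P' hP'
    have e6 : (∑ E : Sec π D,
        {p | p ∈ Fib Λ z t₀ ∧ Ty π P f R R₁ θ E t₀ t₀ p}.ncard : ℕ) ≤
          (∑ E : Sec π D, A₁ E) * ∑ q ∈ P', (e q : ℝ) := by
      push_cast
      rw [Finset.sum_mul]
      exact Finset.sum_le_sum fun E _ => e5 E
    have e7 : ((∑ q ∈ F, e q : ℕ) : ℝ) ≤ ((∑ q ∈ P', e q + (F.filter fun p => p ∉ P).card : ℕ) : ℝ) := by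
      exact_mod_cast e2
    have e8 : ((F.filter fun p => p ∉ P).card : ℝ) ≤
        (({p | p ∈ Fib Λ z t₀ ∧ p ∉ P ∧ ¬ Gd Λ z P R t₀ t₀ p}.ncard +
          ∑ E : Sec π D, {p | p ∈ Fib Λ z t₀ ∧ Ty π P f R R₁ θ E t₀ t₀ p}.ncard : ℕ) : ℝ) := by
      exact_mod_cast e3
    have e9 : ({p | p ∈ Fib Λ z t₀ ∧ p ∉ P ∧ ¬ Gd Λ z P R t₀ t₀ p}.ncard : ℝ) ≤
        K * ∑ q ∈ P', (e q : ℝ) := by
      exact_mod_cast e4
    rw [Nat.cast_add] at e7 e8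
    have e10 : ((∑ q ∈ P', e q : ℕ) : ℝ) = ∑ q ∈ P', (e q : ℝ) := by push_cast; rfl
    rw [e10] at e7
    linarith

end Pool.Agent.VEB
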