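import Pool.Agent.ELL.Defs
import Pool.Agent.EPO.Defs2

/-!
# Compact Riemann surfaces in surfaces fibred over an elliptic curve: definitions

`S` is a compact complex surface with a holomorphic map `π` to the elliptic curve `ℂ / Λ`, `D` a
closed subset which is locally the zero set of one holomorphic function. See `Pool.Agent.ELL.Defs`
for `HolOn`, `HolTo`, `IsDivisor`, `PluriForm`, `Separates`, `Sec`, `NoSecIn`, and
`Pool.Agent.EPO.Defs2` for `LL`: `LL ψ ζ c` says, by circle means, that a quarter of the Laplacian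
of `ψ` at `ζ` is at least `c`.
-/

open scoped Manifold Topology
open Filter Metric Set

namespace Pool.Agent.VEB

open Pool.Agent.ELL Pool.Agent.EPO

section S

variable {S : Type*} [TopologicalSpace S] [ChartedSpace (ℂ × ℂ) S]

/-- `g` is a holomorphic section of `π` over `U ⊆ ℂ` which avoids `D`. -/
def SecOn {Λ : Submodule ℤ ℂ} (π : S → ℂ ⧸ Λ) (D : Set S) (U : Set ℂ) (g : ℂ → S) : Prop :=
  MDifferentiableOn 𝓘(ℂ, ℂ) 𝓘(ℂ, ℂ × ℂ) g U ∧ ∀ ζ ∈ U, g ζ ∉ D ∧ π (g ζ) = Λ.mkQ ζ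

/-- The value of `H` on the velocity vector of `g` at `ζ`. -/
noncomputable def speed (H : (p : S) → TangentSpace 𝓘(ℂ, ℂ × ℂ) p → ℝ) (g : ℂ → S) (ζ : ℂ) : ℝ :=
  H (g ζ) (mfderiv 𝓘(ℂ, ℂ) 𝓘(ℂ, ℂ × ℂ) g ζ (1 : ℂ))

/-- `H` is a (square of a Finsler) metric on `S \ D`, bounded below by a continuous metric of `S`,
whose curvature along the holomorphic sections `g` of `π` is negative for large velocities:
`Δ log H(g') ≥ 4 (c H(g') - C)`. -/
structure IsNeg {Λ : Submodule ℤ ℂ} (π : S → ℂ ⧸ Λ) (D : Set S)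
    (H : (p : S) → TangentSpace 𝓘(ℂ, ℂ × ℂ) p → ℝ) (c C : ℝ) : Prop where
  c_pos : 0 < c
  pos : ∀ (g : ℂ → S) (ζ : ℂ) (r : ℝ), 0 < r → SecOn π D (ball ζ r) g → 0 < speed H g ζ
  cont : ∀ (g : ℂ → S) (ζ : ℂ) (r : ℝ), 0 < r → SecOn π D (ball ζ r) g →
    ContinuousAt (speed H g) ζ
  curv : ∀ (g : ℂ → S) (ζ : ℂ) (r : ℝ), 0 < r → SecOn π D (ball ζ r) g →
    LL (fun η => Real.log (speed H g η)) ζ (c * speed H g ζ - C)
  dom : ∀ p : S, ∃ U ∈ 𝓝 p, ∃ K : ℝ, ∀ (g : ℂ → S) (ζ : ℂ) (r : ℝ), 0 < r →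
    SecOn π D (ball ζ r) g → g ζ ∈ U →
      ‖deriv (fun η => chartAt (ℂ × ℂ) p (g η)) ζ‖ ^ 2 ≤ K * speed H g ζ

/-- On the neighbourhood `U` of `p` the forms `σ i` are `u • W i`, where the `W i` are holomorphic
without common zeros (also on `D`) and `u` has no zero outside `D`. -/
def GenAt {D : Set S} {m : ℕ} {ι : Type} (σ : ι → PluriForm S m D) (p : S) (U : Set S)
    (W : ι → S → ℂ) : Prop :=
  U ∈ 𝓝 p ∧ (∀ i, HolOn (W i) U) ∧ (∀ q ∈ U, ∃ i, W i q ≠ 0) ∧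
    ∃ u : S → ℂ, ∀ q ∈ U, q ∉ D → u q ≠ 0 ∧
      ∀ i, (σ i).coeff (chartAt (ℂ × ℂ) p) q = u q * W i q

end S

section RS

variable {S : Type*} [TopologicalSpace S] [ChartedSpace (ℂ × ℂ) S]
  {B : Type*} [TopologicalSpace B] [ChartedSpace ℂ B]

/-- `e` is the ramification index of `z` at the point `p` of the Riemann surface `B`; in particular
`z` is holomorphic and not constant near `p`. -/
def IsRam (Λ : Submodule ℤ ℂ) (z : B → ℂ ⧸ Λ) (p : B) (e : ℕ) : Prop :=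
  ∃ h : B → ℂ, HolAt h p ∧ (∀ᶠ q in 𝓝 p, z q = Λ.mkQ (h q)) ∧
    ordAt (fun q => h q - h p) p = e

/-- The pull back of the form `σ i` by `f`, as a section of the line bundle generated by the forms,
vanishes to the order `k` at `p`. -/
def IsVan {D : Set S} {m : ℕ} {ι : Type} (σ : ι → PluriForm S m D) (f : B → S) (i : ι) (p : B)
    (k : ℕ) : Prop :=
  ∃ U W, GenAt σ (f p) U W ∧ ordAt (fun q => W i (f q)) p = k

end RS

end Pool.Agent.VEB
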