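import Pool.Agent.VEB.Defs
import Pool.Agent.ELL.Defs2

/-!
# Working definitions (none of them occurs in the final statement)
-/

open scoped Manifold Topology
open Filter Metric Set

namespace Pool.Agent.VEB

open Pool.Agent.ELL Pool.Agent.EPO

/-! ### Real functions -/

/-- `ψ` has a quadratic upper bound at `ζ`, with constant `K`. -/
def UQ (ψ : ℂ → ℝ) (ζ : ℂ) (K : ℝ) : Prop :=
  ∃ b : ℂ, ‖b‖ ≤ K ∧ ∀ᶠ w in 𝓝 (0 : ℂ), ψ (ζ + w) ≤ ψ ζ + (b * w).re + K * ‖w‖ ^ 2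

/-! ### Ramified coverings of the elliptic curve -/

section RS

variable {B : Type*} [TopologicalSpace B]

/-- Local normal form of the covering at `q` over `a`: the coordinate disc `σ` around `q` of radius
`ε`, in which `z` is `u ↦ a + u ^ e`; the coordinate disc has the property `Φ` at all points. -/
structure NF (Λ : Submodule ℤ ℂ) (z : B → ℂ ⧸ Λ) (Φ : (ℂ → B) → ℂ → Prop) (P : Set B) (q : B)
    (e : ℕ) (a : ℂ) (ε : ℝ) (σ : ℂ → B) : Prop where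
  pos : 0 < ε
  epos : 0 < e
  cont : ContinuousOn σ (ball 0 ε)
  inj : InjOn σ (ball 0 ε)
  opn : ∀ V ⊆ ball (0 : ℂ) ε, IsOpen V → IsOpen (σ '' V)
  center : σ 0 = q
  zlift : ∀ u ∈ ball (0 : ℂ) ε, z (σ u) = Λ.mkQ (a + u ^ e)
  avoid : ∀ u ∈ ball (0 : ℂ) ε, u ≠ 0 → σ u ∉ P
  hol : ∀ u ∈ ball (0 : ℂ) ε, Φ σ u

/-- `z` is a ramified covering with ramification indices `e`, unramified outside `P`. -/
structure RCov (Λ : Submodule ℤ ℂ) (z : B → ℂ ⧸ Λ) (Φ : (ℂ → B) → ℂ → Prop) (e : B → ℕ)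
    (P : Set B) : Prop where
  nf : ∀ (q : B) (a : ℂ), z q = Λ.mkQ a → ∃ ε σ, NF Λ z Φ P q (e q) a ε σ
  one : ∀ q ∉ P, e q = 1

variable {S : Type*} [TopologicalSpace S] [ChartedSpace (ℂ × ℂ) S]

/-- The map `f` is holomorphic in the coordinate disc `σ` at `u`. -/
def Phf (f : B → S) (σ : ℂ → B) (u : ℂ) : Prop :=
  MDifferentiableAt 𝓘(ℂ, ℂ) 𝓘(ℂ, ℂ × ℂ) (fun v => f (σ v)) u

/-- `B` is a ramified covering of `ℂ / Λ` via `π ∘ f`, `f` is holomorphic and avoids `D` outside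
`P`. -/
structure BDat {Λ : Submodule ℤ ℂ} (π : S → ℂ ⧸ Λ) (D : Set S) (f : B → S) (e : B → ℕ)
    (P : Set B) : Prop where
  cov : RCov Λ (fun q => π (f q)) (Phf f) e P
  avoid : ∀ q ∉ P, f q ∉ D
  cont : Continuous f

end RS

end Pool.Agent.VEB
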