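import Pool.Agent.VEB.Defs2

/-!
# Working definitions: potentials, cells, sheets
-/

open scoped Manifold Topology
open Filter Metric Set

namespace Pool.Agent.VEB

open Pool.Agent.ELL Pool.Agent.EPO

section S

variable {S : Type*} [MetricSpace S] [ChartedSpace (ℂ × ℂ) S]

/-- A potential `Fo` for the section `E`: a function of germs of sections. -/
structure IsPot {Λ : Submodule ℤ ℂ} (π : S → ℂ ⧸ Λ) (D : Set S) (Γ : Submodule ℤ ℂ) (E : ℂ → S)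
    (Fo : (ℂ → S) → ℂ → ℝ) (ε₁ η a A' C₂ C₃ : ℝ) : Prop where
  η_pos : 0 < η
  a_pos : 0 < a
  A_nonneg : 0 ≤ A'
  C₂_nonneg : 0 ≤ C₂
  C₃_nonneg : 0 ≤ C₃
  germ : ∀ (g g' : ℂ → S) (ζ : ℂ), (∀ᶠ t in 𝓝 ζ, g t = g' t) → Fo g ζ = Fo g' ζ
  per : ∀ ω ∈ Γ, ∀ (g : ℂ → S) (ζ : ℂ) (r : ℝ), 0 < r → SecOn π D (ball (ζ + ω) r) g →
    Fo (fun t => g (t + ω)) ζ = Fo g (ζ + ω)
  reg : ∀ (g : ℂ → S) (ζ : ℂ) (r : ℝ), 0 < r → SecOn π D (ball ζ r) g → g ζ ≠ E ζ →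
    ContinuousAt (Fo g) ζ ∧ LL (Fo g) ζ (-C₂)
  good : ∀ (g : ℂ → S) (ζ : ℂ), SecOn π D (ball ζ 1) g →
    (∀ t ∈ ball ζ 1, dist (g t) (E t) < η) → g ζ ≠ E ζ → LL (Fo g) ζ a
  upper : ∀ (g : ℂ → S) (ζ : ℂ) (r : ℝ), 0 < r → r ≤ 1 → SecOn π D (ball ζ r) g →
    Fo g ζ ≤ A' * Real.log (1 / r) + C₃
  far : ∀ (g : ℂ → S) (ζ : ℂ), SecOn π D (ball ζ 1) g → ε₁ ≤ dist (g ζ) (E ζ) → Fo g ζ = 0
  meet : ∀ (g : ℂ → S) (ζ₀ : ℂ) (r : ℝ), 0 < r → SecOn π D (ball ζ₀ r) g → g ζ₀ = E ζ₀ →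
    (¬ ∀ᶠ t in 𝓝 ζ₀, g t = E t) → ∀ M : ℝ, ∀ᶠ ζ in 𝓝[≠] ζ₀, Fo g ζ ≤ M

/-- Cells of the plane: `γ ζ` is the index of the cell of `ζ`, `t₀ + γ ζ` its centre. Near the
boundaries of the cells different elements of `Sec π D` have distance at least `δ₀`. -/
structure IsCell {Λ : Submodule ℤ ℂ} (π : S → ℂ ⧸ Λ) (D : Set S) (Γ : Submodule ℤ ℂ) (t₀ : ℂ)
    (γ : ℂ → ℂ) (R₀ δ₀ : ℝ) : Prop where
  δ_pos : 0 < δ₀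
  mem : ∀ ζ, γ ζ ∈ Γ
  add : ∀ ω ∈ Γ, ∀ ζ, γ (ζ + ω) = γ ζ + ω
  bdd : ∀ ζ, ‖ζ - (t₀ + γ ζ)‖ ≤ R₀
  sep : ∀ ζ, (∀ᶠ t in 𝓝 ζ, γ t = γ ζ) ∨ ∀ᶠ t in 𝓝 ζ, ∀ E ∈ Sec π D, ∀ E' ∈ Sec π D,
    E ≠ E' → δ₀ ≤ dist (E t) (E' t)
  pt : ∃ b, ‖b - t₀‖ ≤ R₀ ∧ ∀ E ∈ Sec π D, ∀ E' ∈ Sec π D, E ≠ E' → δ₀ ≤ dist (E b) (E' b)

/-- Sections over large discs are close to elements of `Sec π D`. -/
def CloseSec {Λ : Submodule ℤ ℂ} (π : S → ℂ ⧸ Λ) (D : Set S) (θ R₁ R : ℝ) : Prop :=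
  ∀ (c : ℂ) (g : ℂ → S), SecOn π D (ball c R) g →
    ∃ E ∈ Sec π D, ∀ ζ ∈ ball c R₁, dist (g ζ) (E ζ) < θ

/-- All data for the estimate of the number of sheets near `E`. -/
structure Par {Λ : Submodule ℤ ℂ} (π : S → ℂ ⧸ Λ) (D : Set S) (Γ : Submodule ℤ ℂ) (E : ℂ → S)
    (Fo : (ℂ → S) → ℂ → ℝ) (ε₁ η a A' C₂ C₃ : ℝ) (t₀ : ℂ) (γ : ℂ → ℂ) (R₀ δ₀ R R₁ θ : ℝ) :
    Prop where
  pot : IsPot π D Γ E Fo ε₁ η a A' C₂ C₃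
  cell : IsCell π D Γ t₀ γ R₀ δ₀
  close : CloseSec π D θ R₁ R
  mem : E ∈ Sec π D
  le : Γ ≤ Λ
  per : ∀ F ∈ Sec π D, ∀ ω ∈ Γ, ∀ ζ, F (ζ + ω) = F ζ
  θ_pos : 0 < θ
  h1 : ε₁ + θ ≤ δ₀
  h2 : θ ≤ η
  h3 : 2 * θ ≤ δ₀
  R₀_nonneg : 0 ≤ R₀
  h4 : R₀ + 2 ≤ R₁
  h5 : R₁ ≤ R

end S

section RS

variable {B : Type*} [TopologicalSpace B]

open Classical in
/-- A local section of the covering through `p` over `ζ`. -/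
noncomputable def loc (Λ : Submodule ℤ ℂ) (z : B → ℂ ⧸ Λ) (P : Set B) (ζ : ℂ) (p : B) : ℂ → B :=
  if h : ∃ s, ∃ r > 0, IsSec Λ z P (ball ζ r) s ∧ s ζ = p then h.choose else fun _ => p

/-- There is a section over the disc of radius `R` around `c` which passes through `p` over `ζ`. -/
def Gd (Λ : Submodule ℤ ℂ) (z : B → ℂ ⧸ Λ) (P : Set B) (R : ℝ) (c ζ : ℂ) (p : B) : Prop :=
  ∃ s, IsSec Λ z P (ball c R) s ∧ s ζ = p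

variable {S : Type*} [MetricSpace S] [ChartedSpace (ℂ × ℂ) S]

/-- There is a section over the disc of radius `R` around `c` which passes through `p` over `ζ`
and which is mapped by `f` near `E`. -/
def Ty {Λ : Submodule ℤ ℂ} (π : S → ℂ ⧸ Λ) (P : Set B) (f : B → S) (R R₁ θ : ℝ)
    (E : ℂ → S) (c ζ : ℂ) (p : B) : Prop :=
  ∃ s, IsSec Λ (fun q => π (f q)) P (ball c R) s ∧ s ζ = p ∧
    ∀ t ∈ ball c R₁, dist (f (s t)) (E t) < θ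

/-- The same, for some element of `Sec π D` other than `E`. -/
def Off {Λ : Submodule ℤ ℂ} (π : S → ℂ ⧸ Λ) (D : Set S) (P : Set B) (f : B → S) (R R₁ θ : ℝ)
    (E : ℂ → S) (c ζ : ℂ) (p : B) : Prop :=
  ∃ E' ∈ Sec π D, E' ≠ E ∧ Ty π P f R R₁ θ E' c ζ p

open Classical in
/-- The value of the potential at the point `p` over `ζ`. -/
noncomputable def Jv {Λ : Submodule ℤ ℂ} (π : S → ℂ ⧸ Λ) (D : Set S) (P : Set B) (f : B → S)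
    (R R₁ θ : ℝ) (E : ℂ → S) (Fo : (ℂ → S) → ℂ → ℝ) (t₀ : ℂ) (γ : ℂ → ℂ) (ζ : ℂ) (p : B) : ℝ :=
  if Off π D P f R R₁ θ E (t₀ + γ ζ) ζ p then 0
  else Fo (fun t => f (loc Λ (fun q => π (f q)) P ζ p t)) ζ

/-- The sum of the potentials over the fibre. -/
noncomputable def Ts {Λ : Submodule ℤ ℂ} (π : S → ℂ ⧸ Λ) (D : Set S) (P : Set B) (f : B → S)
    (R R₁ θ : ℝ) (E : ℂ → S) (Fo : (ℂ → S) → ℂ → ℝ) (t₀ : ℂ) (γ : ℂ → ℂ) (ζ : ℂ) : ℝ :=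
  ∑ᶠ p ∈ Fib Λ (fun q => π (f q)) ζ, Jv π D P f R R₁ θ E Fo t₀ γ ζ p

end RS

end Pool.Agent.VEB
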