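import Pool.Agent.VEB.Defs3

open scoped Manifold Topology
open Filter Metric Set

namespace Pool.Agent.VEB

open Pool.Agent.ELL Pool.Agent.EPO

section

variable {S : Type*} [MetricSpace S] [ChartedSpace (ℂ × ℂ) S]

/-- Vertical charts `φ i` along the section `E`; `A i` is the set of parameters around which the
chart `φ i` can be used. -/
structure Tub {Λ : Submodule ℤ ℂ} (π : S → ℂ ⧸ Λ) (D : Set S)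
    (H : (p : S) → TangentSpace 𝓘(ℂ, ℂ × ℂ) p → ℝ) {m : ℕ} {ι : Type} [Fintype ι]
    (σ : ι → PluriForm S m D) (Γ : Submodule ℤ ℂ) (E : ℂ → S) {n : ℕ}
    (φ : Fin n → OpenPartialHomeomorph S (ℂ × ℂ)) (A : Fin n → Set ℂ) (ν ρ ε ε₁ K : ℝ) :
    Prop where
  ρ_pos : 0 < ρ
  ρ_le : ρ ≤ 1
  ε₁_pos : 0 < ε₁
  ε₁_lt : ε₁ < ε
  K_pos : 0 < K
  mem : ∀ i, φ i ∈ MA S
  closed : ∀ i, IsClosed (A i)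
  per : ∀ i, ∀ ω ∈ Γ, ∀ ζ ∈ A i, ζ + ω ∈ A i
  cover : ∀ ζ, ∃ i, ζ ∈ A i
  tube : ∀ i, ∀ c ∈ A i, ∀ ζ ∈ ball c (4 * ρ), closedBall (E ζ) ε ⊆ (φ i).source
  fst : ∀ i, ∀ c ∈ A i, ∀ ζ ∈ ball c (4 * ρ), ∀ p ∈ closedBall (E ζ) ε, π p = Λ.mkQ ζ →
    (φ i p).1 = (φ i (E ζ)).1
  ratio : ∀ i j, ∀ c ∈ A i, ∀ c' ∈ A j, ∀ ζ ∈ ball c (4 * ρ), ζ ∈ ball c' (4 * ρ) →
    ∀ p ∈ closedBall (E ζ) ε, π p = Λ.mkQ ζ →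
      PN σ (φ j) (E ζ) p ^ (2 / (m : ℝ)) ≤
        Real.exp (ν * ρ ^ 2) * PN σ (φ i) (E ζ) p ^ (2 / (m : ℝ))
  bdd : ∀ i, ∀ c ∈ A i, ∀ ζ ∈ ball c (4 * ρ),
    K⁻¹ ≤ ‖vec σ (φ i) (E ζ)‖ ∧ ‖vec σ (φ i) (E ζ)‖ ≤ K
  lower : ∀ i, ∀ c ∈ A i, ∀ ζ ∈ ball c (4 * ρ), ∀ p ∈ closedBall (E ζ) ε, π p = Λ.mkQ ζ →
    ε₁ ≤ dist p (E ζ) → K⁻¹ ≤ ‖(φ i p).2 - (φ i (E ζ)).2‖
  upper : ∀ i, ∀ c ∈ A i, ∀ ζ ∈ ball c (4 * ρ), ∀ p ∈ closedBall (E ζ) ε,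
    ‖(φ i p).2 - (φ i (E ζ)).2‖ ≤ K
  small : ∀ θ > 0, ∃ η > 0, η ≤ ε ∧ ∀ i, ∀ c ∈ A i, ∀ ζ ∈ ball c (4 * ρ), ∀ p,
    dist p (E ζ) < η → ‖(φ i p).2 - (φ i (E ζ)).2‖ < θ
  dom : ∀ i, ∀ c ∈ A i, ∀ ζ ∈ ball c (4 * ρ), ∀ (g : ℂ → S) (r : ℝ), 0 < r →
    SecOn π D (ball ζ r) g → dist (g ζ) (E ζ) ≤ ε →
      ‖deriv (fun t => (φ i (g t)).2 - (φ i (E t)).2) ζ‖ ^ 2 ≤ K * (1 + speed H g ζ)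

/-- The distance of `p` from `E ζ`, measured in the chart `φ` with the weights. -/
noncomputable def Qi {D : Set S} {m : ℕ} {ι : Type} [Fintype ι] (σ : ι → PluriForm S m D)
    (E : ℂ → S) (κ : ℂ → ℝ) (ν : ℝ) (φ : OpenPartialHomeomorph S (ℂ × ℂ)) (A : Set ℂ)
    (ζ : ℂ) (p : S) : ℝ :=
  PN σ φ (E ζ) p ^ (2 / (m : ℝ)) * Real.exp (κ ζ - ν * infDist ζ A ^ 2)

open Classical in
/-- The maximum over all charts which can be used. -/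
noncomputable def Qf {D : Set S} {m : ℕ} {ι : Type} [Fintype ι] (σ : ι → PluriForm S m D)
    (E : ℂ → S) (κ : ℂ → ℝ) (ν ρ : ℝ) {n : ℕ} (φ : Fin n → OpenPartialHomeomorph S (ℂ × ℂ))
    (A : Fin n → Set ℂ) (ζ : ℂ) (p : S) : ℝ :=
  ⨆ i, if ∃ c ∈ A i, ζ ∈ ball c (2 * ρ) then Qi σ E κ ν (φ i) (A i) ζ p else 0

open Classical in
/-- The truncated logarithm. -/
noncomputable def Gf {D : Set S} {m : ℕ} {ι : Type} [Fintype ι] (σ : ι → PluriForm S m D)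
    (E : ℂ → S) (κ : ℂ → ℝ) (ν ρ ε τ : ℝ) {n : ℕ}
    (φ : Fin n → OpenPartialHomeomorph S (ℂ × ℂ)) (A : Fin n → Set ℂ) (ζ : ℂ) (p : S) : ℝ :=
  if dist p (E ζ) < ε ∧ Qf σ E κ ν ρ φ A ζ p < τ then
    Real.log (Qf σ E κ ν ρ φ A ζ p / τ) + 1 - Qf σ E κ ν ρ φ A ζ p / τ else 0

/-- A truncated logarithmic distance from the section `E`. -/
structure IsG {Λ : Submodule ℤ ℂ} (π : S → ℂ ⧸ Λ) (D : Set S)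
    (H : (p : S) → TangentSpace 𝓘(ℂ, ℂ × ℂ) p → ℝ) (Γ : Submodule ℤ ℂ) (E : ℂ → S)
    (G : ℂ → S → ℝ) (ε₁ η a K : ℝ) : Prop where
  η_pos : 0 < η
  a_pos : 0 < a
  K_nonneg : 0 ≤ K
  per : ∀ ω ∈ Γ, ∀ ζ p, G (ζ + ω) p = G ζ p
  le_one : ∀ ζ p, G ζ p ≤ 1
  far : ∀ ζ p, π p = Λ.mkQ ζ → ε₁ ≤ dist p (E ζ) → G ζ p = 0
  cont : ∀ (g : ℂ → S) (ζ : ℂ) (r : ℝ), 0 < r → SecOn π D (ball ζ r) g → g ζ ≠ E ζ →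
    ContinuousAt (fun t => G t (g t)) ζ
  lap : ∀ (g : ℂ → S) (ζ : ℂ) (r : ℝ), 0 < r → SecOn π D (ball ζ r) g → g ζ ≠ E ζ →
    LL (fun t => G t (g t)) ζ (-(K * (1 + speed H g ζ)))
  good : ∀ (g : ℂ → S) (ζ : ℂ), SecOn π D (ball ζ 1) g →
    (∀ t ∈ ball ζ 1, dist (g t) (E t) < η) → g ζ ≠ E ζ → LL (fun t => G t (g t)) ζ a
  meet : ∀ (g : ℂ → S) (ζ₀ : ℂ) (r : ℝ), 0 < r → SecOn π D (ball ζ₀ r) g → g ζ₀ = E ζ₀ →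
    (¬ ∀ᶠ t in 𝓝 ζ₀, g t = E t) → ∀ M : ℝ, ∀ᶠ ζ in 𝓝[≠] ζ₀, G ζ (g ζ) ≤ M

end

end Pool.Agent.VEB
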