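import Pool.Agent.VEB.Defs4

open scoped Manifold Topology
open Filter Metric Set

namespace Pool.Agent.VEB

open Pool.Agent.ELL Pool.Agent.EPO

section

variable {S : Type*} [TopologicalSpace S] [ChartedSpace (ℂ × ℂ) S] {D : Set S} {m : ℕ}
  {ι : Type} [Fintype ι]

/-- The logarithm of the norm of the form `σ i` at `p`, relative to all the forms. -/
noncomputable def lam (σ : ι → PluriForm S m D) (i : ι) (p : S) : ℝ :=
  Real.log (‖(σ i).coeff (chartAt (ℂ × ℂ) p) p‖ / ‖vec σ (chartAt (ℂ × ℂ) p) p‖)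

/-- A height potential: a function of germs of sections which is bounded above by `2 L`, up to a
logarithm of the size of the disc, and whose Laplacian is bounded below outside `N`. -/
structure IsHt {Λ : Submodule ℤ ℂ} (π : S → ℂ ⧸ Λ) (D : Set S) (L : S → ℝ) (N : Set S)
    (Fo : (ℂ → S) → ℂ → ℝ) (A' C₂ : ℝ) : Prop where
  A_nonneg : 0 ≤ A'
  C₂_nonneg : 0 ≤ C₂
  germ : ∀ (g g' : ℂ → S) (ζ : ℂ), (∀ᶠ t in 𝓝 ζ, g t = g' t) → Fo g ζ = Fo g' ζ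
  per : ∀ ω ∈ Λ, ∀ (g : ℂ → S) (ζ : ℂ) (r : ℝ), 0 < r → SecOn π D (ball (ζ + ω) r) g →
    Fo (fun t => g (t + ω)) ζ = Fo g (ζ + ω)
  reg : ∀ (g : ℂ → S) (ζ : ℂ) (r : ℝ), 0 < r → SecOn π D (ball ζ r) g → g ζ ∉ N →
    ContinuousAt (Fo g) ζ ∧ LL (Fo g) ζ (-C₂)
  upper : ∀ (g : ℂ → S) (ζ : ℂ) (r : ℝ), 0 < r → r ≤ 1 → SecOn π D (ball ζ r) g →
    Fo g ζ ≤ 2 * L (g ζ) + A' * Real.log (1 / r)

variable {B : Type*} [TopologicalSpace B]

/-- The sum of a height potential over the fibre. -/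
noncomputable def Hs {Λ : Submodule ℤ ℂ} (π : S → ℂ ⧸ Λ) (P : Set B) (f : B → S)
    (Fo : (ℂ → S) → ℂ → ℝ) (ζ : ℂ) : ℝ :=
  ∑ᶠ p ∈ Fib Λ (fun q => π (f q)) ζ, Fo (fun t => f (loc Λ (fun q => π (f q)) P ζ p t)) ζ

/-- `L` is at most `k q * log |u| + C` in the coordinate discs around `q`, and `k` and the set `N`
are avoided outside the centre. -/
structure HLam {Λ : Submodule ℤ ℂ} (π : S → ℂ ⧸ Λ) (P : Set B) (f : B → S) (e k : B → ℕ)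
    (L : S → ℝ) (N : Set S) : Prop where
  loc : ∀ (q : B) (a : ℂ) (ε : ℝ) (s : ℂ → B),
    NF Λ (fun q => π (f q)) (Phf f) P q (e q) a ε s → ∃ C : ℝ, ∀ᶠ u in 𝓝[≠] (0 : ℂ),
      L (f (s u)) ≤ (k q : ℝ) * Real.log ‖u‖ + C ∧ f (s u) ∉ N ∧ k (s u) = 0
  zero : ∀ p, p ∉ P → f p ∈ N → k p ≠ 0

end

end Pool.Agent.VEB
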