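import Pool.Agent.VEB.Defs2

open scoped Manifold Topology
open Filter Metric Set

set_option linter.unusedSectionVars false

namespace Pool.Agent.VEB

open Pool.Agent.EPO

section FIBLat

variable {Λ : Submodule ℤ ℂ} [DiscreteTopology Λ]

/-- A ball around `0` in which the translate of the lattice has no point except possibly `0`. -/
theorem FIB_sep (c : ℂ) : ∃ δ > 0, ∀ v : ℂ, ‖v‖ < δ → v + c ∈ Λ → v = 0 := by
  have h1 : IsOpen ({0} : Set Λ) := isOpen_discrete _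
  rw [Metric.isOpen_singleton_iff] at h1
  obtain ⟨η, hη, hη2⟩ := h1
  have h2 : ∀ ω ∈ Λ, ‖ω‖ < η → ω = 0 := by
    intro ω hω hlt
    have h3 := hη2 ⟨ω, hω⟩ (by
      rw [Subtype.dist_eq, dist_eq_norm]
      simpa using hlt)
    exact congrArg Subtype.val h3
  by_cases hex : ∃ v₀ : ℂ, v₀ ≠ 0 ∧ ‖v₀‖ < η / 2 ∧ v₀ + c ∈ Λ
  · obtain ⟨v₀, hv0, hv1, hv2⟩ := hex
    refine ⟨‖v₀‖, norm_pos_iff.2 hv0, fun v hv hvc => ?_⟩
    have h3 : v - v₀ ∈ Λ := by
      have := Λ.sub_mem hvc hv2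
      rwa [add_sub_add_right_eq_sub] at this
    have h4 : ‖v - v₀‖ < η := by
      have := norm_sub_le v v₀
      linarith
    have h5 := sub_eq_zero.1 (h2 _ h3 h4)
    rw [h5] at hv
    exact absurd hv (lt_irrefl _)
  · refine ⟨η / 2, by positivity, fun v hv hvc => ?_⟩
    by_contra hne
    exact hex ⟨v, hne, hv, hvc⟩

omit [DiscreteTopology Λ] in
theorem FIB_mk {x y : ℂ} : Λ.mkQ x = Λ.mkQ y ↔ x - y ∈ Λ := by
  rw [Submodule.mkQ_apply, Submodule.mkQ_apply, Submodule.Quotient.eq]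

end FIBLat

/-- Small powers. -/
theorem FIB_pow {e₀ : ℕ} (he : 0 < e₀) {ε' η : ℝ} (h1 : ε' ≤ 1) (h2 : ε' ≤ η) {u : ℂ}
    (hu : ‖u‖ < ε') : ‖u ^ e₀‖ < η := by
  rw [norm_pow]
  have h3 : ‖u‖ ^ e₀ ≤ ‖u‖ := by
    have := pow_le_pow_of_le_one (norm_nonneg u) (hu.le.trans h1) (Nat.succ_le_of_lt he)
    simpa using this
  linarith

variable {Λ : Submodule ℤ ℂ} [DiscreteTopology Λ] [IsZLattice ℝ Λ]
  {C : Type*} [TopologicalSpace C] [T2Space C]
  {z : C → ℂ ⧸ Λ} {Φ : (ℂ → C) → ℂ → Prop} {e : C → ℕ} {P : Set C}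

/-- smaller coordinate discs -/
theorem NF.shrink {P : Set C} {q : C} {e₀ : ℕ} {a : ℂ} {ε ε' : ℝ} {σ : ℂ → C}
    (h : NF Λ z Φ P q e₀ a ε σ) (h0 : 0 < ε') (hle : ε' ≤ ε) :
    NF Λ z Φ P q e₀ a ε' σ := by
  have hsub : ball (0 : ℂ) ε' ⊆ ball 0 ε := ball_subset_ball hle
  exact ⟨h0, h.epos, h.cont.mono hsub, h.inj.mono hsub,
    fun V hV hVo => h.opn V (hV.trans hsub) hVo,
    h.center, fun u hu => h.zlift u (hsub hu), fun u hu hu0 => h.avoid u (hsub hu) hu0,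
    fun u hu => h.hol u (hsub hu)⟩

theorem Spec_finite [CompactSpace C] (H : RCov Λ z Φ e P) : P.Finite := by
  classical
  have h1 : ∀ q : C, ∃ U ∈ 𝓝 q, ∀ p ∈ U, p ∈ P → p = q := by
    intro q
    obtain ⟨a, ha⟩ := Λ.mkQ_surjective (z q)
    obtain ⟨ε, σ, h⟩ := H.nf q a ha.symm
    refine ⟨σ '' ball 0 ε, ?_, ?_⟩
    · refine (h.opn _ subset_rfl isOpen_ball).mem_nhds ?_
      exact ⟨0, mem_ball_self h.pos, h.center⟩
    · rintro _ ⟨u, hu, rfl⟩ hs
      by_cases hu0 : u = 0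
      · rw [hu0, h.center]
      · exact absurd hs (h.avoid u hu hu0)
  choose U hU hU2 using h1
  obtain ⟨t, ht⟩ := isCompact_univ.elim_nhds_subcover U (fun q _ => hU q)
  refine (t.finite_toSet).subset fun p hp => ?_
  obtain ⟨q, hq, hpq⟩ := mem_iUnion₂.1 (ht.2 (mem_univ p))
  rw [hU2 q p hpq hp]
  exact hq

theorem Fib_finite [CompactSpace C] (H : RCov Λ z Φ e P) (a : ℂ) : (Fib Λ z a).Finite := by
  classical
  have h1 : ∀ q : C, ∃ U ∈ 𝓝 q, ∀ p ∈ U, p ∈ Fib Λ z a → p = q := by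
    intro q
    obtain ⟨a', ha'⟩ := Λ.mkQ_surjective (z q)
    obtain ⟨ε, σ, h⟩ := H.nf q a' ha'.symm
    obtain ⟨δ, hδ, hδ2⟩ := FIB_sep (Λ := Λ) (a' - a)
    have hε' : 0 < min ε (min 1 δ) := lt_min h.pos (lt_min one_pos hδ)
    refine ⟨σ '' ball 0 (min ε (min 1 δ)), ?_, ?_⟩
    · refine (h.opn _ (ball_subset_ball (min_le_left _ _)) isOpen_ball).mem_nhds ?_
      exact ⟨0, mem_ball_self hε', h.center⟩
    · rintro _ ⟨u, hu, rfl⟩ hs
      have h2 := h.zlift u (ball_subset_ball (min_le_left _ _) hu)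
      have h3 : z (σ u) = Λ.mkQ a := hs
      rw [h2, FIB_mk] at h3
      have h4 : u ^ e q + (a' - a) ∈ Λ := by
        convert h3 using 1
        ring
      have h5 : ‖u ^ e q‖ < δ := by
        refine FIB_pow h.epos ?_ ?_ (mem_ball_zero_iff.1 hu)
        · exact (min_le_right _ _).trans (min_le_left _ _)
        · exact (min_le_right _ _).trans (min_le_right _ _)
      have h6 := hδ2 _ h5 h4
      have h7 : u = 0 := pow_eq_zero_iff h.epos.ne' |>.1 h6
      rw [h7, h.center]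
  choose U hU hU2 using h1
  obtain ⟨t, ht⟩ := isCompact_univ.elim_nhds_subcover U (fun q _ => hU q)
  refine (t.finite_toSet).subset fun p hp => ?_
  obtain ⟨q, hq, hpq⟩ := mem_iUnion₂.1 (ht.2 (mem_univ p))
  rw [hU2 q p hpq hp]
  exact hq

/-- The points near the fibre over `a`. -/
theorem FIB [CompactSpace C] (H : RCov Λ z Φ e P) (a : ℂ) :
    ∃ δ > 0, ∃ (ε : C → ℝ) (σ : C → ℂ → C),
      (∀ q ∈ Fib Λ z a, NF Λ z Φ P q (e q) a (ε q) (σ q) ∧
        2 * δ ≤ ε q ^ e q) ∧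
      (∀ q ∈ Fib Λ z a, ∀ q' ∈ Fib Λ z a, ∀ u ∈ ball (0 : ℂ) (ε q), ∀ u' ∈ ball (0 : ℂ) (ε q'),
        σ q u = σ q' u' → q = q') ∧
      ∀ ζ ∈ ball a δ, ∀ p, p ∈ Fib Λ z ζ ↔
        ∃ q ∈ Fib Λ z a, ∃ u ∈ ball (0 : ℂ) (ε q), u ^ e q = ζ - a ∧ p = σ q u := by
  classical
  have hfin := Fib_finite H a
  obtain ⟨U, hU, hUd⟩ := hfin.t2_separation
  obtain ⟨η, hη, hη2⟩ := FIB_sep (Λ := Λ) 0
  -- the coordinate discs at the points of the fibre
  have h1 : ∀ q ∈ Fib Λ z a, ∃ (ε : ℝ) (σ : ℂ → C),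
      NF Λ z Φ P q (e q) a ε σ ∧ (∀ u ∈ ball (0 : ℂ) ε, σ u ∈ U q) ∧
        ∀ u ∈ ball (0 : ℂ) ε, ‖u ^ e q‖ < η / 2 := by
    intro q hq
    obtain ⟨ε, σ, h⟩ := H.nf q a hq
    have hc : ContinuousAt σ 0 := h.cont.continuousAt (isOpen_ball.mem_nhds (mem_ball_self h.pos))
    have hev : ∀ᶠ u in 𝓝 (0 : ℂ), σ u ∈ U q := by
      apply hc.eventually_mem
      rw [h.center]
      exact (hU q).2.mem_nhds (hU q).1
    obtain ⟨ε₁, hε₁, hε₁'⟩ := Metric.eventually_nhds_iff_ball.1 hev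
    have hmin : 0 < min (min ε ε₁) (min 1 (η / 2)) :=
      lt_min (lt_min h.pos hε₁) (lt_min one_pos (by positivity))
    refine ⟨min (min ε ε₁) (min 1 (η / 2)), σ,
      h.shrink hmin ((min_le_left _ _).trans (min_le_left _ _)), ?_, ?_⟩
    · intro u hu
      exact hε₁' u (ball_subset_ball ((min_le_left _ _).trans (min_le_right _ _)) hu)
    · intro u hu
      refine FIB_pow h.epos ?_ ?_ (mem_ball_zero_iff.1 hu)
      · exact (min_le_right _ _).trans (min_le_left _ _)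
      · exact (min_le_right _ _).trans (min_le_right _ _)
  choose! ε σ hNF hσU hση using h1
  -- every point of `C` has a good neighbourhood
  have h2 : ∀ p : C, ∃ N ∈ 𝓝 p, ∃ δ > 0, ∀ p' ∈ N, ∀ ζ ∈ ball a δ, z p' = Λ.mkQ ζ →
      ∃ q ∈ Fib Λ z a, ∃ u ∈ ball (0 : ℂ) (ε q), u ^ e q = ζ - a ∧ p' = σ q u := by
    intro p
    by_cases hp : p ∈ Fib Λ z a
    · refine ⟨σ p '' ball 0 (ε p), ?_, η / 2, by positivity, ?_⟩
      · refine ((hNF p hp).opn _ subset_rfl isOpen_ball).mem_nhds ?_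
        exact ⟨0, mem_ball_self (hNF p hp).pos, (hNF p hp).center⟩
      · rintro _ ⟨u, hu, rfl⟩ ζ hζ hz
        refine ⟨p, hp, u, hu, ?_, rfl⟩
        rw [(hNF p hp).zlift u hu, FIB_mk] at hz
        have h3 : ‖u ^ e p - (ζ - a)‖ < η := by
          have h4 := norm_sub_le (u ^ e p) (ζ - a)
          have h5 := hση p hp u hu
          rw [mem_ball, dist_eq_norm] at hζ
          linarith
        have h6 : (u ^ e p - (ζ - a)) + 0 ∈ Λ := by
          convert hz using 1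
          ring
        exact sub_eq_zero.1 (hη2 _ h3 h6)
    · obtain ⟨a', ha'⟩ := Λ.mkQ_surjective (z p)
      obtain ⟨ε₁, σ₁, h⟩ := H.nf p a' ha'.symm
      obtain ⟨δ, hδ, hδ2⟩ := FIB_sep (Λ := Λ) (a' - a)
      have hnot : (0 : ℂ) + (a' - a) ∉ Λ := by
        intro hmem
        apply hp
        change z p = Λ.mkQ a
        rw [← ha', FIB_mk]
        simpa using hmem
      have hmin : 0 < min ε₁ (min 1 (δ / 2)) :=
        lt_min h.pos (lt_min one_pos (by positivity))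
      refine ⟨σ₁ '' ball 0 (min ε₁ (min 1 (δ / 2))), ?_, δ / 2, by positivity, ?_⟩
      · refine (h.opn _ (ball_subset_ball (min_le_left _ _)) isOpen_ball).mem_nhds ?_
        exact ⟨0, mem_ball_self hmin, h.center⟩
      · rintro _ ⟨u, hu, rfl⟩ ζ hζ hz
        exfalso
        rw [h.zlift u (ball_subset_ball (min_le_left _ _) hu), FIB_mk] at hz
        have h3 : ‖u ^ e p‖ < δ / 2 := by
          refine FIB_pow h.epos ?_ ?_ (mem_ball_zero_iff.1 hu)
          · exact (min_le_right _ _).trans (min_le_left _ _)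
          · exact (min_le_right _ _).trans (min_le_right _ _)
        have h4 : ‖u ^ e p - (ζ - a)‖ < δ := by
          have h5 := norm_sub_le (u ^ e p) (ζ - a)
          rw [mem_ball, dist_eq_norm] at hζ
          linarith
        have h6 : (u ^ e p - (ζ - a)) + (a' - a) ∈ Λ := by
          convert hz using 1
          ring
        have h7 := hδ2 _ h4 h6
        rw [h7] at h6
        exact hnot h6
  choose N hN d hd hNd using h2
  obtain ⟨t, ht⟩ := isCompact_univ.elim_nhds_subcover N (fun q _ => hN q)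
  -- the radius
  have hδ1 : ∃ δ > 0, (∀ p ∈ t, δ ≤ d p) ∧ ∀ q ∈ hfin.toFinset, 2 * δ ≤ ε q ^ e q := by
    have hA : ∀ s : Finset C, ∀ g : C → ℝ, (∀ p ∈ s, 0 < g p) → ∃ δ > 0, ∀ p ∈ s, δ ≤ g p := by
      intro s
      induction s using Finset.induction_on with
      | empty => exact fun g _ => ⟨1, one_pos, by simp⟩
      | insert p s _ ih =>
        intro g hg
        obtain ⟨δ, hδ, hδ'⟩ := ih g fun q hq => hg q (Finset.mem_insert_of_mem hq)
        refine ⟨min δ (g p), lt_min hδ (hg p (Finset.mem_insert_self _ _)), fun q hq => ?_⟩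
        rcases Finset.mem_insert.1 hq with rfl | hq
        · exact min_le_right _ _
        · exact (min_le_left _ _).trans (hδ' q hq)
    obtain ⟨δ₁, hδ₁, hδ₁'⟩ := hA t d fun p _ => hd p
    obtain ⟨δ₂, hδ₂, hδ₂'⟩ := hA hfin.toFinset (fun q => ε q ^ e q) fun q hq =>
      pow_pos (hNF q (hfin.mem_toFinset.1 hq)).pos _
    refine ⟨min δ₁ (δ₂ / 2), lt_min hδ₁ (by positivity), fun p hp =>
      (min_le_left _ _).trans (hδ₁' p hp), fun q hq => ?_⟩
    have h3 := hδ₂' q hq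
    have h4 := min_le_right δ₁ (δ₂ / 2)
    linarith
  obtain ⟨δ, hδ, hδt, hδq⟩ := hδ1
  refine ⟨δ, hδ, ε, σ, fun q hq => ⟨hNF q hq, hδq q (hfin.mem_toFinset.2 hq)⟩, ?_, ?_⟩
  · intro q hq q' hq' u hu u' hu' heq
    by_contra hne
    have h3 := hUd hq hq' hne
    have h4 : σ q u ∈ U q := hσU q hq u hu
    have h5 : σ q u ∈ U q' := by
      rw [heq]
      exact hσU q' hq' u' hu'
    exact Set.disjoint_left.1 h3 h4 h5
  · intro ζ hζ p
    constructor
    · intro hp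
      obtain ⟨p₀, hp₀, hpN⟩ := mem_iUnion₂.1 (ht.2 (mem_univ p))
      exact hNd p₀ p hpN ζ (ball_subset_ball (hδt p₀ hp₀) hζ) hp
    · rintro ⟨q, hq, u, hu, hue, rfl⟩
      change z (σ q u) = Λ.mkQ ζ
      rw [(hNF q hq).zlift u hu, hue, add_sub_cancel]

end Pool.Agent.VEB
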