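import Pool.Agent.VEB.Defs2
import Pool.Agent.EPO.LLB
import Pool.Agent.EPO.GTC

open scoped Manifold Topology
open Filter Metric Set

namespace Pool.Agent.VEB

open Pool.Agent.ELL Pool.Agent.EPO

/-- The maximum principle on the torus. -/
theorem MAXP (Γ : Submodule ℤ ℂ) [DiscreteTopology Γ] [IsZLattice ℝ Γ] {T : ℂ → ℝ} {Reg : Set ℂ}
    {c : ℝ} (hper : ∀ ω ∈ Γ, ∀ ζ ∈ Reg, T (ζ + ω) = T ζ) (hR : ∀ ω ∈ Γ, ∀ ζ ∈ Reg, ζ + ω ∈ Reg)
    (hiso : ∀ ζ₀, ∀ᶠ ζ in 𝓝[≠] ζ₀, ζ ∈ Reg) (hreg : ∀ ζ ∈ Reg, ContinuousAt T ζ ∧ LL T ζ c)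
    (hsing : ∀ ζ₀ ∉ Reg, ∀ M : ℝ, ∀ᶠ ζ in 𝓝[≠] ζ₀, T ζ ≤ M) : c ≤ 0 := by
  classical
  obtain ⟨z1, hz1⟩ := (hiso 0).exists
  obtain ⟨R, hR1, hcov⟩ := GTC_cover Γ
  have hopen : ∀ z ∈ Reg, ∀ᶠ w in 𝓝 z, w ∈ Reg := by
    intro z hz
    have h1 := hiso z
    rw [eventually_nhdsWithin_iff] at h1
    filter_upwards [h1] with w hw
    by_cases hwz : w = z
    · rw [hwz]; exact hz
    · exact hw hwz
  set T' : ℂ → ℝ := fun z => if z ∈ Reg then T z else T z1 - 1 with hT'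
  have hT'reg : ∀ z ∈ Reg, T' z = T z := fun z hz => by simp [hT', hz]
  have hT'sing : ∀ z, z ∉ Reg → T' z = T z1 - 1 := fun z hz => by simp [hT', hz]
  have hT'near : ∀ z ∈ Reg, T' =ᶠ[𝓝 z] T := by
    intro z hz
    filter_upwards [hopen z hz] with w hw using hT'reg w hw
  have husc : UpperSemicontinuous T' := by
    intro z
    by_cases hz : z ∈ Reg
    · exact ((hreg z hz).1.congr (hT'near z hz).symm).upperSemicontinuousAt
    · intro y hy
      rw [hT'sing z hz] at hy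
      have h1 := hsing z hz (T z1 - 1)
      rw [eventually_nhdsWithin_iff] at h1
      filter_upwards [h1] with w hw
      by_cases hwr : w ∈ Reg
      · rw [hT'reg w hwr]
        have hwz : w ≠ z := by
          rintro rfl
          exact hz hwr
        exact (hw hwz).trans_lt hy
      · rw [hT'sing w hwr]; exact hy
  have hT'per : ∀ ω ∈ Γ, ∀ z, T' (z + ω) = T' z := by
    intro ω hω z
    by_cases hz : z ∈ Reg
    · rw [hT'reg z hz, hT'reg _ (hR ω hω z hz), hper ω hω z hz]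
    · have hz' : z + ω ∉ Reg := by
        intro h
        apply hz
        have := hR (-ω) (Γ.neg_mem hω) _ h
        simpa using this
      rw [hT'sing z hz, hT'sing _ hz']
  obtain ⟨zs, hzs, hmax⟩ := UpperSemicontinuousOn.exists_isMaxOn
    (s := closedBall (0 : ℂ) R) ⟨0, mem_closedBall_self (by linarith)⟩ (isCompact_closedBall 0 R)
    (husc.upperSemicontinuousOn _)
  have hglob : ∀ z, T' z ≤ T' zs := by
    intro z
    obtain ⟨ω, hω, hlt⟩ := hcov z
    rw [← hT'per ω hω z]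
    exact hmax (by rw [mem_closedBall, dist_zero_right]; exact hlt.le)
  have hzsR : zs ∈ Reg := by
    by_contra h
    have h1 := hglob z1
    rw [hT'reg z1 hz1, hT'sing zs h] at h1
    linarith
  apply (hreg zs hzsR).2.nonpos_of_isLocalMax
  have h2 : ∀ᶠ w in 𝓝 zs, T w ≤ T zs := by
    filter_upwards [hopen zs hzsR] with w hw
    have := hglob w
    rwa [hT'reg w hw, hT'reg zs hzsR] at this
  exact h2

end Pool.Agent.VEB
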