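import Pool.Agent.VEB.Defs2
import Pool.Agent.EPO.GTC

open scoped Manifold Topology
open Filter Metric Set

namespace Pool.Agent.VEB

open Pool.Agent.ELL Pool.Agent.EPO

open Classical in
/-- Sums of periodic functions with logarithmic poles. -/
theorem PGS.{u} (Λ : Submodule ℤ ℂ) [DiscreteTopology Λ] [IsZLattice ℝ Λ] :
    ∃ c₁ c₂ : ℝ, 0 < c₁ ∧ 0 < c₂ ∧ ∀ (ι : Type u) (s : Finset ι) (a : ι → ℂ) (w : ι → ℝ),
      (∀ i ∈ s, 0 ≤ w i) → ∃ G : ℂ → ℝ, (∀ ω ∈ Λ, ∀ ζ, G (ζ + ω) = G ζ) ∧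
        (∀ ζ, (∀ i ∈ s, ζ - a i ∉ Λ) → ContinuousAt G ζ ∧ LL G ζ (c₁ * ∑ i ∈ s, w i) ∧
          LL (fun t => -G t) ζ (-(c₂ * ∑ i ∈ s, w i))) ∧
        ∀ ζ₀, ∃ C : ℝ, ∀ᶠ ζ in 𝓝[≠] ζ₀,
          |G ζ - (∑ i ∈ s with ζ₀ - a i ∈ Λ, w i) * Real.log (1 / ‖ζ - ζ₀‖)| ≤ C := by
  obtain ⟨g, c₁, c₂, hc₁, hc₂, hper, hreg, δ, hδ, C, hC⟩ := GTC Λ
  refine ⟨c₁, c₂, hc₁, hc₂, fun ι s a w hw => ?_⟩
  refine ⟨fun ζ => ∑ i ∈ s, w i * g (ζ + -a i), ?_, ?_, ?_⟩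
  · intro ω hω ζ
    refine Finset.sum_congr rfl fun i _ => ?_
    have e : ζ + ω + -a i = (ζ + -a i) + ω := by ring
    rw [e, hper ω hω]
  · intro ζ hζ
    have hζ' : ∀ i ∈ s, ζ + -a i ∉ (Λ : Set ℂ) := fun i hi h => hζ i hi (by
      rw [sub_eq_add_neg]
      exact h)
    refine ⟨?_, ?_, ?_⟩
    · refine tendsto_finsetSum s fun i hi => ?_
      have h1 : ContinuousAt (fun t : ℂ => g (t + -a i)) ζ :=
        ContinuousAt.comp (g := g) (f := fun t : ℂ => t + -a i) (hreg _ (hζ' i hi)).1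
          (by fun_prop)
      exact h1.const_mul (w i)
    · have h1 := LL.sum s (fun i t => w i * g (t + -a i)) (fun i => w i * c₁) ζ fun i hi =>
        LL.const_mul (hw i hi) (LL.comp_add (ψ := g) (-a i) (hreg _ (hζ' i hi)).2.1)
      rw [← Finset.sum_mul, mul_comm] at h1
      exact h1
    · have h1 := LL.sum s (fun i t => w i * -g (t + -a i)) (fun i => w i * -c₂) ζ fun i hi =>
        LL.const_mul (hw i hi)
          (LL.comp_add (ψ := fun t => -g t) (-a i) (hreg _ (hζ' i hi)).2.2)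
      have e1 : (fun t : ℂ => -∑ i ∈ s, w i * g (t + -a i)) =
          fun t => ∑ i ∈ s, w i * -g (t + -a i) := by
        funext t
        rw [← Finset.sum_neg_distrib]
        exact Finset.sum_congr rfl fun i _ => by ring
      have e2 : ∑ i ∈ s, w i * -c₂ = -(c₂ * ∑ i ∈ s, w i) := by
        rw [← Finset.sum_mul]
        ring
      rw [e2] at h1
      rw [e1]
      exact h1
  · intro ζ₀
    have key : ∀ i ∈ s, ∃ B : ℝ, ∀ᶠ ζ in 𝓝[≠] ζ₀,
        |w i * g (ζ + -a i) - (if ζ₀ - a i ∈ Λ then w i else 0) *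
          Real.log (1 / ‖ζ - ζ₀‖)| ≤ B := by
      intro i hi
      by_cases hmem : ζ₀ - a i ∈ Λ
      · refine ⟨w i * C, ?_⟩
        have h1 : ∀ᶠ ζ in 𝓝[≠] ζ₀, ζ ∈ ball ζ₀ δ := nhdsWithin_le_nhds (ball_mem_nhds ζ₀ hδ)
        filter_upwards [h1, self_mem_nhdsWithin] with ζ hζ hne
        rw [if_pos hmem]
        have h2 : 0 < ‖ζ - ζ₀‖ := norm_pos_iff.2 (sub_ne_zero.2 hne)
        have h3 : ‖ζ - ζ₀‖ < δ := by simpa [dist_eq_norm] using hζ
        have h4 := hC _ h2 h3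
        have e : ζ + -a i = (ζ - ζ₀) + (ζ₀ - a i) := by ring
        rw [e, hper _ hmem, ← mul_sub, abs_mul, abs_of_nonneg (hw i hi)]
        exact mul_le_mul_of_nonneg_left h4 (hw i hi)
      · have hmem' : ζ₀ + -a i ∉ (Λ : Set ℂ) := fun h => hmem (by
          rw [sub_eq_add_neg]
          exact h)
        have h1 : ContinuousAt (fun t : ℂ => w i * g (t + -a i)) ζ₀ :=
          (ContinuousAt.comp (g := g) (f := fun t : ℂ => t + -a i) (hreg _ hmem').1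
            (by fun_prop)).const_mul (w i)
        refine ⟨|w i * g (ζ₀ + -a i)| + 1, ?_⟩
        have h2 : ∀ᶠ ζ in 𝓝 ζ₀, |w i * g (ζ + -a i)| < |w i * g (ζ₀ + -a i)| + 1 :=
          h1.abs.eventually (gt_mem_nhds (by linarith))
        filter_upwards [nhdsWithin_le_nhds h2] with ζ hζ
        rw [if_neg hmem, zero_mul, sub_zero]
        exact hζ.le
    choose! B hB using key
    refine ⟨∑ i ∈ s, B i, ?_⟩
    have hall : ∀ᶠ ζ in 𝓝[≠] ζ₀, ∀ i ∈ s, |w i * g (ζ + -a i) -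
        (if ζ₀ - a i ∈ Λ then w i else 0) * Real.log (1 / ‖ζ - ζ₀‖)| ≤ B i :=
      (Filter.eventually_all_finset s).2 hB
    filter_upwards [hall] with ζ hζ
    have e : (∑ i ∈ s, w i * g (ζ + -a i)) - (∑ i ∈ s with ζ₀ - a i ∈ Λ, w i) *
        Real.log (1 / ‖ζ - ζ₀‖) = ∑ i ∈ s, (w i * g (ζ + -a i) -
        (if ζ₀ - a i ∈ Λ then w i else 0) * Real.log (1 / ‖ζ - ζ₀‖)) := by
      rw [Finset.sum_sub_distrib, ← Finset.sum_mul, Finset.sum_filter]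
    rw [e]
    exact (Finset.abs_sum_le_sum_abs _ _).trans (Finset.sum_le_sum hζ)

end Pool.Agent.VEB
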