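import Pool.Agent.VEB.FIB
import Pool.Agent.VEB.SCA
import Pool.Agent.VEB.SOF
import Pool.Agent.VEB.EQD

open scoped Manifold Topology
open Filter Metric Set

namespace Pool.Agent.VEB

open Pool.Agent.ELL Pool.Agent.EPO

variable {S : Type*} [MetricSpace S] [CompactSpace S] [ChartedSpace (ℂ × ℂ) S]
  [IsManifold 𝓘(ℂ, ℂ × ℂ) 1 S] {Λ : Submodule ℤ ℂ} [DiscreteTopology Λ] [IsZLattice ℝ Λ]
  {π : S → ℂ ⧸ Λ} {D : Set S} {B : Type*} [TopologicalSpace B] [T2Space B] [CompactSpace B]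
  {f : B → S} {e : B → ℕ} {P : Set B}

omit [MetricSpace S] [CompactSpace S] [ChartedSpace (ℂ × ℂ) S] [IsManifold 𝓘(ℂ, ℂ × ℂ) 1 S]
  [IsZLattice ℝ Λ] [T2Space B] [CompactSpace B] in
/-- A section in terms of a coordinate disc. -/
theorem RIS_loc {z : B → ℂ ⧸ Λ} {Φ : (ℂ → B) → ℂ → Prop} {q : B} {e₀ : ℕ} {a : ℂ} {ε : ℝ}
    {σ : ℂ → B} (hN : NF Λ z Φ P q e₀ a ε σ) {u₁ : ℂ} (hu₁ : u₁ ∈ ball (0 : ℂ) ε) {s : ℂ → B}
    (hs : ContinuousAt s (a + u₁ ^ e₀)) (hz : ∀ᶠ t in 𝓝 (a + u₁ ^ e₀), z (s t) = Λ.mkQ t)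
    (hsu : s (a + u₁ ^ e₀) = σ u₁) {Q : ℂ → Prop} (hQ : ∀ᶠ u in 𝓝 u₁, Q u) :
    ∀ᶠ t in 𝓝 (a + u₁ ^ e₀), ∃ u, Q u ∧ s t = σ u ∧ a + u ^ e₀ = t := by
  obtain ⟨η, hη, hη2⟩ := FIB_sep (Λ := Λ) 0
  have hc : ContinuousAt (fun u : ℂ => a + u ^ e₀) u₁ := by fun_prop
  have h1 : ∀ᶠ u in 𝓝 u₁, a + u ^ e₀ ∈ ball (a + u₁ ^ e₀) (η / 2) :=
    hc.eventually_mem (ball_mem_nhds _ (by positivity))
  obtain ⟨ρ, hρ, hρ'⟩ := Metric.eventually_nhds_iff_ball.1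
    ((hQ.and h1).and (isOpen_ball.mem_nhds hu₁ : ball (0 : ℂ) ε ∈ 𝓝 u₁))
  have hsub : ball u₁ ρ ⊆ ball (0 : ℂ) ε := fun u hu => (hρ' u hu).2
  have hopn : IsOpen (σ '' ball u₁ ρ) := hN.opn _ hsub isOpen_ball
  have hmem : ∀ᶠ t in 𝓝 (a + u₁ ^ e₀), s t ∈ σ '' ball u₁ ρ := by
    apply hs.eventually_mem
    rw [hsu]
    exact hopn.mem_nhds ⟨u₁, mem_ball_self hρ, rfl⟩
  filter_upwards [hmem, hz, ball_mem_nhds (a + u₁ ^ e₀) (half_pos hη)] with t ht hzt htb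
  obtain ⟨u, hu, hut⟩ := ht
  obtain ⟨⟨h2, h3⟩, h4⟩ := hρ' u hu
  refine ⟨u, h2, hut.symm, ?_⟩
  rw [← hut, hN.zlift u h4, FIB_mk] at hzt
  have h5 : ‖a + u ^ e₀ - t‖ < η := by
    have h6 := dist_triangle_right (a + u ^ e₀) t (a + u₁ ^ e₀)
    rw [mem_ball] at h3 htb
    rw [← dist_eq_norm]
    linarith
  exact sub_eq_zero.1 (hη2 _ h5 (by simpa using hzt))

/-- Near every point, except possibly over this point, there are no special points and `f` does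
not meet `E`. -/
theorem RIS (H : BDat π D f e P) {E : ℂ → S} (hmem : E ∈ Sec π D)
    (hE : ∀ (ζ : ℂ) (r : ℝ) (s : ℂ → B), 0 < r →
      IsSec Λ (fun q => π (f q)) P (ball ζ r) s → ¬ ∀ᶠ t in 𝓝 ζ, f (s t) = E t) (ζ₀ : ℂ) :
    ∀ᶠ ζ in 𝓝[≠] ζ₀, ∀ p ∈ Fib Λ (fun q => π (f q)) ζ, p ∉ P ∧ f p ≠ E ζ := by
  classical
  have hEhol : MDifferentiable 𝓘(ℂ, ℂ) 𝓘(ℂ, ℂ × ℂ) E := hmem.1
  obtain ⟨δ, hδ, ε, σ, hNF, -, hfib⟩ := FIB H.cov ζ₀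
  have hfin := Fib_finite H.cov ζ₀
  -- near every point of the fibre
  have h1 : ∀ q ∈ Fib Λ (fun q => π (f q)) ζ₀, ∃ η > 0, ∀ u ∈ ball (0 : ℂ) (ε q),
      u ≠ 0 → ‖u ^ e q‖ < η → f (σ q u) ≠ E (ζ₀ + u ^ e q) := by
    intro q hq
    obtain ⟨hN, -⟩ := hNF q hq
    have hg : ∀ᶠ u in 𝓝 (0 : ℂ), MDifferentiableAt 𝓘(ℂ, ℂ) 𝓘(ℂ, ℂ × ℂ) (fun u => f (σ q u)) u := by
      filter_upwards [ball_mem_nhds (0 : ℂ) hN.pos] with u hu using hN.hol u hu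
    have hg' : ∀ᶠ u in 𝓝 (0 : ℂ),
        MDifferentiableAt 𝓘(ℂ, ℂ) 𝓘(ℂ, ℂ × ℂ) (fun u => E (ζ₀ + u ^ e q)) u := by
      refine Eventually.of_forall fun u => ?_
      have h1 : MDifferentiableAt 𝓘(ℂ, ℂ) 𝓘(ℂ, ℂ) (fun v : ℂ => ζ₀ + v ^ e q) u := by
        apply DifferentiableAt.mdifferentiableAt
        fun_prop
      exact MDifferentiableAt.comp (g := E) u (hEhol _) h1
    rcases EQD hg hg' with h2 | h2
    · exfalso
      obtain ⟨ρ, hρ, hρ'⟩ := Metric.eventually_nhds_iff_ball.1 h2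
      -- a small point `u₁ ≠ 0` with `2 ‖u₁ ^ e‖ ≤ ε ^ e`
      have hcont : ContinuousAt (fun u : ℂ => 2 * ‖u ^ e q‖) 0 := by fun_prop
      have h3 : ∀ᶠ u in 𝓝 (0 : ℂ), 2 * ‖u ^ e q‖ < ε q ^ e q := by
        apply hcont.eventually_lt continuousAt_const
        rw [zero_pow hN.epos.ne', norm_zero, mul_zero]
        exact pow_pos hN.pos _
      obtain ⟨ρ₂, hρ₂, hρ₂'⟩ := Metric.eventually_nhds_iff_ball.1 h3
      obtain ⟨u₁, hu₁, hu₁0⟩ : ∃ u₁ : ℂ, u₁ ∈ ball (0 : ℂ) (min (min ρ ρ₂) (ε q)) ∧ u₁ ≠ 0 := by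
        have hpos : 0 < min (min ρ ρ₂) (ε q) := lt_min (lt_min hρ hρ₂) hN.pos
        refine ⟨((min (min ρ ρ₂) (ε q) / 2 : ℝ) : ℂ), ?_, ?_⟩
        · rw [mem_ball_zero_iff, Complex.norm_real, Real.norm_eq_abs, abs_of_pos (by positivity)]
          linarith
        · exact_mod_cast (by positivity : min (min ρ ρ₂) (ε q) / 2 ≠ 0)
      have hu₁ρ : u₁ ∈ ball (0 : ℂ) ρ :=
        ball_subset_ball ((min_le_left _ _).trans (min_le_left _ _)) hu₁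
      have hu₁ρ₂ : u₁ ∈ ball (0 : ℂ) ρ₂ :=
        ball_subset_ball ((min_le_left _ _).trans (min_le_right _ _)) hu₁
      have hu₁ε : u₁ ∈ ball (0 : ℂ) (ε q) := ball_subset_ball (min_le_right _ _) hu₁
      have hpow : u₁ ^ e q ≠ 0 := pow_ne_zero _ hu₁0
      have hsub : ζ₀ + u₁ ^ e q - ζ₀ = u₁ ^ e q := by ring
      obtain ⟨s, hs, hsu⟩ := sec_near (ζ := ζ₀ + u₁ ^ e q) (u := u₁) hN
        (fun hh => hpow (by rw [← hsub, hh, sub_self])) (by rw [hsub]; exact (hρ₂' _ hu₁ρ₂).le)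
        hsub.symm
      rw [hsub] at hs
      have hpos : 0 < ‖u₁ ^ e q‖ := norm_pos_iff.2 hpow
      apply hE (ζ₀ + u₁ ^ e q) _ s hpos hs
      have h4 := RIS_loc hN hu₁ε (hs.1.continuousAt (ball_mem_nhds _ hpos))
        (by filter_upwards [ball_mem_nhds (ζ₀ + u₁ ^ e q) hpos] with t ht using (hs.2 t ht).1) hsu
        (isOpen_ball.mem_nhds hu₁ρ : ∀ᶠ u in 𝓝 u₁, u ∈ ball (0 : ℂ) ρ)
      filter_upwards [h4] with t ht
      obtain ⟨u, hu, h5, h6⟩ := ht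
      rw [h5, hρ' u hu, h6]
    · rw [eventually_nhdsWithin_iff] at h2
      obtain ⟨ρ, hρ, hρ'⟩ := Metric.eventually_nhds_iff_ball.1 h2
      refine ⟨ρ ^ e q, pow_pos hρ _, fun u _ hu0 hlt => ?_⟩
      refine hρ' u ?_ hu0
      rw [norm_pow] at hlt
      exact mem_ball_zero_iff.2 (lt_of_pow_lt_pow_left₀ _ hρ.le hlt)
  choose! η hη hη' using h1
  obtain ⟨η₀, hη₀, hη₀'⟩ : ∃ η₀ > 0, ∀ q ∈ hfin.toFinset, η₀ ≤ η q := by
    have hA : ∀ s : Finset B, (∀ p ∈ s, 0 < η p) → ∃ δ > 0, ∀ p ∈ s, δ ≤ η p := by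
      intro s
      induction s using Finset.induction_on with
      | empty => exact fun _ => ⟨1, one_pos, by simp⟩
      | insert p s _ ih =>
        intro hg
        obtain ⟨δ, hδ, hδ'⟩ := ih fun q hq => hg q (Finset.mem_insert_of_mem hq)
        refine ⟨min δ (η p), lt_min hδ (hg p (Finset.mem_insert_self _ _)), fun q hq => ?_⟩
        rcases Finset.mem_insert.1 hq with rfl | hq
        · exact min_le_right _ _
        · exact (min_le_left _ _).trans (hδ' q hq)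
    exact hA _ fun p hp => hη p (hfin.mem_toFinset.1 hp)
  rw [eventually_nhdsWithin_iff]
  filter_upwards [ball_mem_nhds ζ₀ (lt_min hδ hη₀)] with ζ hζ hne p hp
  obtain ⟨q, hq, u, hu, hue, rfl⟩ :=
    (hfib ζ (ball_subset_ball (min_le_left _ _) hζ) p).1 hp
  obtain ⟨hN, -⟩ := hNF q hq
  have hu0 : u ≠ 0 := by
    rintro rfl
    rw [zero_pow hN.epos.ne'] at hue
    exact hne (sub_eq_zero.1 hue.symm)
  refine ⟨hN.avoid u hu hu0, ?_⟩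
  have h2 : ‖u ^ e q‖ < η q := by
    rw [hue, ← dist_eq_norm]
    exact (mem_ball.1 hζ).trans_le ((min_le_right _ _).trans (hη₀' q (hfin.mem_toFinset.2 hq)))
  have h3 := hη' q hq u hu hu0 h2
  rwa [hue, add_sub_cancel] at h3

end Pool.Agent.VEB
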