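import Pool.Agent.VEB.JVL
import Pool.Agent.VEB.FIB

open scoped Manifold Topology
open Filter Metric Set

namespace Pool.Agent.VEB

open Pool.Agent.ELL Pool.Agent.EPO

/-- The `e`-th roots of `w`. -/
noncomputable def TSU_rts (e : ℕ) (w : ℂ) : Finset ℂ :=
  open Classical in (Polynomial.nthRoots e w).toFinset

theorem TSU_mem {e : ℕ} (he : 0 < e) {w u : ℂ} : u ∈ TSU_rts e w ↔ u ^ e = w := by
  unfold TSU_rts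
  rw [Multiset.mem_toFinset, Polynomial.mem_nthRoots he]

theorem TSU_card {e : ℕ} (he : 0 < e) {w : ℂ} (hw : w ≠ 0) : (TSU_rts e w).card = e := by
  classical
  have hprim := Complex.isPrimitiveRoot_exp e he.ne'
  unfold TSU_rts
  rw [Multiset.toFinset_card_of_nodup (hprim.nthRoots_nodup hw), hprim.card_nthRoots,
    if_pos]
  obtain ⟨α, hα⟩ := IsAlgClosed.exists_pow_nat_eq w he
  exact ⟨α, hα⟩

/-- Sums over the fibres near `ζ₀`. -/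
theorem TSU_split {Λ : Submodule ℤ ℂ} [DiscreteTopology Λ] [IsZLattice ℝ Λ]
    {C : Type*} [TopologicalSpace C] [T2Space C] [CompactSpace C]
    {z : C → ℂ ⧸ Λ} {Φ : (ℂ → C) → ℂ → Prop} {e : C → ℕ} {P : Set C}
    (H : RCov Λ z Φ e P) (ζ₀ : ℂ) (J : ℂ → C → ℝ) :
    ∃ (F : Finset C) (ε : C → ℝ) (σ : C → ℂ → C), (∀ q, q ∈ F ↔ q ∈ Fib Λ z ζ₀) ∧
      (∀ q ∈ F, NF Λ z Φ P q (e q) ζ₀ (ε q) (σ q)) ∧
      ∀ᶠ ζ in 𝓝[≠] ζ₀, ∑ᶠ p ∈ Fib Λ z ζ, J ζ p =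
        ∑ q ∈ F, ∑ u ∈ TSU_rts (e q) (ζ - ζ₀), J ζ (σ q u) := by
  classical
  obtain ⟨δ, hδ, ε, σ, hNF, hdisj, hfib⟩ := FIB H ζ₀
  have hfin : (Fib Λ z ζ₀).Finite := Fib_finite H ζ₀
  set F : Finset C := hfin.toFinset with hF
  have hmemF : ∀ q, q ∈ F ↔ q ∈ Fib Λ z ζ₀ := fun q => by rw [hF, Set.Finite.mem_toFinset]
  refine ⟨F, ε, σ, hmemF, fun q hq => (hNF q ((hmemF q).1 hq)).1, ?_⟩
  have hev : ∀ᶠ ζ in 𝓝[≠] ζ₀, ζ ≠ ζ₀ ∧ dist ζ ζ₀ < δ := by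
    have hb : ∀ᶠ ζ in 𝓝[≠] ζ₀, dist ζ ζ₀ < δ := nhdsWithin_le_nhds (ball_mem_nhds ζ₀ hδ)
    have hne : ∀ᶠ ζ in 𝓝[≠] ζ₀, ζ ≠ ζ₀ := self_mem_nhdsWithin
    filter_upwards [hne, hb] with ζ h1 h2
    exact ⟨h1, h2⟩
  filter_upwards [hev] with ζ hζ'
  obtain ⟨hne, hd⟩ := hζ'
  have hw : ζ - ζ₀ ≠ 0 := sub_ne_zero.2 hne
  let T : Finset (Σ _ : C, ℂ) := F.sigma fun q => TSU_rts (e q) (ζ - ζ₀)
  let g : (Σ _ : C, ℂ) → C := fun t => σ t.1 t.2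
  have huε : ∀ q ∈ Fib Λ z ζ₀, ∀ u, u ^ (e q) = ζ - ζ₀ → u ∈ ball (0 : ℂ) (ε q) := by
    intro q hq u hu
    rw [mem_ball_zero_iff]
    by_contra hcon
    push Not at hcon
    have h1 : ε q ^ (e q) ≤ ‖u‖ ^ (e q) := pow_le_pow_left₀ (hNF q hq).1.pos.le hcon _
    rw [← norm_pow, hu, ← dist_eq_norm] at h1
    linarith [(hNF q hq).2]
  have hT : ∀ t, t ∈ T ↔ t.1 ∈ Fib Λ z ζ₀ ∧ t.2 ∈ TSU_rts (e t.1) (ζ - ζ₀) := by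
    intro t
    rw [Finset.mem_sigma, hmemF]
  have hinj : Set.InjOn g (T : Set (Σ _ : C, ℂ)) := by
    rintro ⟨q, u⟩ ht ⟨q', u'⟩ ht' heq
    rw [Finset.mem_coe, hT] at ht ht'
    have hq := ht.1
    have hq' := ht'.1
    have hu := (TSU_mem (hNF q hq).1.epos).1 ht.2
    have hu' := (TSU_mem (hNF q' hq').1.epos).1 ht'.2
    have h1 : q = q' := hdisj q hq q' hq' u (huε q hq u hu) u' (huε q' hq' u' hu') heq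
    subst h1
    have h2 : u = u' := (hNF q hq).1.inj (huε q hq u hu) (huε q hq' u' hu') heq
    rw [h2]
  have hFT : Fib Λ z ζ = ((T.image g : Finset C) : Set C) := by
    ext p
    rw [hfib ζ (by rw [mem_ball]; exact hd) p, Finset.mem_coe, Finset.mem_image]
    constructor
    · rintro ⟨q, hq, u, -, hu, rfl⟩
      exact ⟨⟨q, u⟩, (hT _).2 ⟨hq, (TSU_mem (hNF q hq).1.epos).2 hu⟩, rfl⟩
    · rintro ⟨⟨q, u⟩, ht, rfl⟩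
      rw [hT] at ht
      have hu := (TSU_mem (hNF q ht.1).1.epos).1 ht.2
      exact ⟨q, ht.1, u, huε q ht.1 u hu, hu, rfl⟩
  rw [hFT, finsum_mem_coe_finset, Finset.sum_image hinj, Finset.sum_sigma]

variable {S : Type*} [MetricSpace S] [CompactSpace S] [ChartedSpace (ℂ × ℂ) S]
  [IsManifold 𝓘(ℂ, ℂ × ℂ) 1 S] {Λ : Submodule ℤ ℂ} [DiscreteTopology Λ] [IsZLattice ℝ Λ]
  {π : S → ℂ ⧸ Λ} {D : Set S} {B : Type*} [TopologicalSpace B] [T2Space B] [CompactSpace B]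
  {f : B → S} {e : B → ℕ} {P : Set B}
  {Γ : Submodule ℤ ℂ} {E : ℂ → S}
  {Fo : (ℂ → S) → ℂ → ℝ} {ε₁ η a A' C₂ C₃ : ℝ} {t₀ : ℂ} {γ : ℂ → ℂ} {R₀ δ₀ R R₁ θ : ℝ}

/-- The general bound for the sum over the points near `q`. -/
theorem TSU_gen (H : BDat π D f e P) (hp : Par π D Γ E Fo ε₁ η a A' C₂ C₃ t₀ γ R₀ δ₀ R R₁ θ)
    {ζ₀ : ℂ} {q : B} {ε : ℝ} {σ : ℂ → B}
    (h : NF Λ (fun q => π (f q)) (Phf f) P q (e q) ζ₀ ε σ) :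
    ∀ᶠ ζ in 𝓝[≠] ζ₀, ∑ u ∈ TSU_rts (e q) (ζ - ζ₀), Jv π D P f R R₁ θ E Fo t₀ γ ζ (σ u) ≤
      (e q : ℝ) * (A' * Real.log (1 / ‖ζ - ζ₀‖) + C₃) := by
  have hεe : 0 < ε ^ (e q) := pow_pos h.pos _
  have hb : ∀ t : ℝ, 0 < t → ∀ᶠ ζ in 𝓝[≠] ζ₀, dist ζ ζ₀ < t := fun t ht =>
    nhdsWithin_le_nhds (ball_mem_nhds ζ₀ ht)
  have hne : ∀ᶠ ζ in 𝓝[≠] ζ₀, ζ ≠ ζ₀ := self_mem_nhdsWithin
  filter_upwards [hne, hb 1 one_pos, hb _ (half_pos hεe)] with ζ hne hd1 hd2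
  have hw : ζ - ζ₀ ≠ 0 := sub_ne_zero.2 hne
  have hnp : 0 < ‖ζ - ζ₀‖ := norm_pos_iff.2 hw
  rw [dist_eq_norm] at hd1 hd2
  have hterm : ∀ u ∈ TSU_rts (e q) (ζ - ζ₀), Jv π D P f R R₁ θ E Fo t₀ γ ζ (σ u) ≤
      A' * Real.log (1 / ‖ζ - ζ₀‖) + C₃ := by
    intro u hu
    rw [TSU_mem h.epos] at hu
    obtain ⟨s, hs, hsp⟩ := sec_near h hne (by linarith) hu
    rw [← hsp]
    exact Jv_upper H hp hnp hd1.le hs
  calc ∑ u ∈ TSU_rts (e q) (ζ - ζ₀), Jv π D P f R R₁ θ E Fo t₀ γ ζ (σ u)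
      ≤ ∑ u ∈ TSU_rts (e q) (ζ - ζ₀), (A' * Real.log (1 / ‖ζ - ζ₀‖) + C₃) :=
        Finset.sum_le_sum hterm
    _ = (e q : ℝ) * (A' * Real.log (1 / ‖ζ - ζ₀‖) + C₃) := by
        rw [Finset.sum_const, TSU_card h.epos hw, nsmul_eq_mul]

/-- The bound near a nonspecial `q`. -/
theorem TSU_reg (H : BDat π D f e P) (hp : Par π D Γ E Fo ε₁ η a A' C₂ C₃ t₀ γ R₀ δ₀ R R₁ θ)
    {ζ₀ : ℂ} {q : B} (hq : q ∉ P) {ε : ℝ} {σ : ℂ → B}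
    (h : NF Λ (fun q => π (f q)) (Phf f) P q (e q) ζ₀ ε σ) :
    ∀ᶠ ζ in 𝓝[≠] ζ₀, ∑ u ∈ TSU_rts (e q) (ζ - ζ₀), Jv π D P f R R₁ θ E Fo t₀ γ ζ (σ u) ≤
      A' * Real.log (1 / min 1 (ε / 2)) + C₃ := by
  have he : e q = 1 := H.cov.one q hq
  have hsr := sec_reg H.cov hq h
  have hr : 0 < min 1 (ε / 2) := lt_min one_pos (half_pos h.pos)
  have hb : ∀ t : ℝ, 0 < t → ∀ᶠ ζ in 𝓝[≠] ζ₀, dist ζ ζ₀ < t := fun t ht =>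
    nhdsWithin_le_nhds (ball_mem_nhds ζ₀ ht)
  filter_upwards [hb _ (half_pos h.pos)] with ζ hd
  have hsub : ball ζ (min 1 (ε / 2)) ⊆ ball ζ₀ ε := by
    intro t ht
    rw [mem_ball] at ht ⊢
    have h1 := min_le_right 1 (ε / 2)
    have h2 := dist_triangle t ζ ζ₀
    linarith
  have hsec : IsSec Λ (fun q => π (f q)) P (ball ζ (min 1 (ε / 2))) (fun ζ => σ (ζ - ζ₀)) :=
    IsSec.mono hsr hsub
  have hrts : TSU_rts (e q) (ζ - ζ₀) = {ζ - ζ₀} := by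
    ext u
    rw [TSU_mem h.epos, he, pow_one, Finset.mem_singleton]
  rw [hrts, Finset.sum_singleton]
  exact Jv_upper H hp hr (min_le_left _ _) hsec

open Classical in
/-- Upper bound for the sum of the potentials near an arbitrary point. -/
theorem TSU (H : BDat π D f e P) (hp : Par π D Γ E Fo ε₁ η a A' C₂ C₃ t₀ γ R₀ δ₀ R R₁ θ)
    (P' : Finset B) (hP : ∀ p, p ∈ P' ↔ p ∈ P) (ζ₀ : ℂ) :
    ∃ C' : ℝ, ∀ᶠ ζ in 𝓝[≠] ζ₀, Ts π D P f R R₁ θ E Fo t₀ γ ζ ≤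
      (∑ q ∈ P' with π (f q) = Λ.mkQ ζ₀, A' * (e q : ℝ)) * Real.log (1 / ‖ζ - ζ₀‖) + C' := by
  obtain ⟨F, ε, σ, hF, hNF, hsum⟩ := TSU_split H.cov ζ₀
    (fun ζ p => Jv π D P f R R₁ θ E Fo t₀ γ ζ p)
  have hloc : ∀ q ∈ F, ∃ C' : ℝ, ∀ᶠ ζ in 𝓝[≠] ζ₀,
      ∑ u ∈ TSU_rts (e q) (ζ - ζ₀), Jv π D P f R R₁ θ E Fo t₀ γ ζ (σ q u) ≤
        C' + (if q ∈ P' then A' * (e q : ℝ) else 0) * Real.log (1 / ‖ζ - ζ₀‖) := by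
    intro q hq
    by_cases hqP : q ∈ P'
    · refine ⟨(e q : ℝ) * C₃, ?_⟩
      filter_upwards [TSU_gen H hp (hNF q hq)] with ζ hζ
      rw [if_pos hqP]
      linarith
    · refine ⟨A' * Real.log (1 / min 1 (ε q / 2)) + C₃, ?_⟩
      filter_upwards [TSU_reg H hp (fun h => hqP ((hP q).2 h)) (hNF q hq)] with ζ hζ
      rw [if_neg hqP]
      linarith
  choose! C' hC' using hloc
  refine ⟨∑ q ∈ F, C' q, ?_⟩
  have hall : ∀ᶠ ζ in 𝓝[≠] ζ₀, ∀ q ∈ F,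
      ∑ u ∈ TSU_rts (e q) (ζ - ζ₀), Jv π D P f R R₁ θ E Fo t₀ γ ζ (σ q u) ≤
        C' q + (if q ∈ P' then A' * (e q : ℝ) else 0) * Real.log (1 / ‖ζ - ζ₀‖) := by
    rw [Finset.eventually_all]
    exact hC'
  filter_upwards [hall, hsum] with ζ hζ hs
  have hα : ∑ q ∈ F, (if q ∈ P' then A' * (e q : ℝ) else 0) =
      ∑ q ∈ P' with π (f q) = Λ.mkQ ζ₀, A' * (e q : ℝ) := by
    rw [← Finset.sum_filter]
    refine Finset.sum_congr ?_ fun _ _ => rfl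
    ext q
    rw [Finset.mem_filter, Finset.mem_filter, hF, and_comm]
    rfl
  unfold Ts
  rw [hs, ← hα]
  calc ∑ q ∈ F, ∑ u ∈ TSU_rts (e q) (ζ - ζ₀), Jv π D P f R R₁ θ E Fo t₀ γ ζ (σ q u)
      ≤ ∑ q ∈ F, (C' q + (if q ∈ P' then A' * (e q : ℝ) else 0) *
          Real.log (1 / ‖ζ - ζ₀‖)) := Finset.sum_le_sum hζ
    _ = _ := by rw [Finset.sum_add_distrib, Finset.sum_mul, add_comm]

end Pool.Agent.VEB
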