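import Pool.Agent.VEB.JVL
import Pool.Agent.VEB.FIB
import Pool.Agent.VEB.TSU

open scoped Manifold Topology
open Filter Metric Set

namespace Pool.Agent.VEB

open Pool.Agent.ELL Pool.Agent.EPO

variable {S : Type*} [MetricSpace S] [CompactSpace S] [ChartedSpace (ℂ × ℂ) S]
  [IsManifold 𝓘(ℂ, ℂ × ℂ) 1 S] {Λ : Submodule ℤ ℂ} [DiscreteTopology Λ] [IsZLattice ℝ Λ]
  {π : S → ℂ ⧸ Λ} {D : Set S} {B : Type*} [TopologicalSpace B] [T2Space B] [CompactSpace B]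
  {f : B → S} {e : B → ℕ} {P : Set B}
  {Γ : Submodule ℤ ℂ} {E : ℂ → S}
  {Fo : (ℂ → S) → ℂ → ℝ} {ε₁ η a A' C₂ C₃ : ℝ} {t₀ : ℂ} {γ : ℂ → ℂ} {R₀ δ₀ R R₁ θ : ℝ}

/-- The sum of the potentials near a point over which some sheet meets `E`. -/
theorem TME (H : BDat π D f e P) (hp : Par π D Γ E Fo ε₁ η a A' C₂ C₃ t₀ γ R₀ δ₀ R R₁ θ)
    (hE : ∀ (ζ : ℂ) (r : ℝ) (s : ℂ → B), 0 < r →
      IsSec Λ (fun q => π (f q)) P (ball ζ r) s → ¬ ∀ᶠ t in 𝓝 ζ, f (s t) = E t)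
    {ζ₀ : ℂ} (h1 : ∀ p ∈ Fib Λ (fun q => π (f q)) ζ₀, p ∉ P)
    (h2 : ∃ p ∈ Fib Λ (fun q => π (f q)) ζ₀,
      ¬ Off π D P f R R₁ θ E (t₀ + γ ζ₀) ζ₀ p ∧ f p = E ζ₀) (M : ℝ) :
    ∀ᶠ ζ in 𝓝[≠] ζ₀, Ts π D P f R R₁ θ E Fo t₀ γ ζ ≤ M := by
  classical
  obtain ⟨F, ε, σ, hF, hNF, hsum⟩ := TSU_split H.cov ζ₀
    (fun ζ p => Jv π D P f R R₁ θ E Fo t₀ γ ζ p)
  obtain ⟨p₀, hp₀, hoff, hfp⟩ := h2
  have hp₀F : p₀ ∈ F := (hF p₀).2 hp₀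
  set c : B → ℝ := fun q => A' * Real.log (1 / min 1 (ε q / 2)) + C₃ with hc
  have hall : ∀ᶠ ζ in 𝓝[≠] ζ₀, ∀ q ∈ F,
      ∑ u ∈ TSU_rts (e q) (ζ - ζ₀), Jv π D P f R R₁ θ E Fo t₀ γ ζ (σ q u) ≤ c q := by
    rw [Finset.eventually_all]
    intro q hq
    exact TSU_reg H hp (h1 q ((hF q).1 hq)) (hNF q hq)
  -- the sheet which meets the section
  have h := hNF p₀ hp₀F
  have hsr := sec_reg H.cov (h1 p₀ hp₀) h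
  have hs0 : (fun ζ => σ p₀ (ζ - ζ₀)) ζ₀ = p₀ := by
    show σ p₀ (ζ₀ - ζ₀) = p₀
    rw [sub_self, h.center]
  have hoff' : ¬ Off π D P f R R₁ θ E (t₀ + γ ζ₀) ζ₀ ((fun ζ => σ p₀ (ζ - ζ₀)) ζ₀) := by
    rw [hs0]
    exact hoff
  have hJ : ∀ᶠ ζ in 𝓝 ζ₀, Jv π D P f R R₁ θ E Fo t₀ γ ζ (σ p₀ (ζ - ζ₀)) =
      Fo (fun t => f (σ p₀ (t - ζ₀))) ζ := by
    rcases Jv_local H hp h.pos hsr with hh | hh
    · exact hh.2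
    · exact absurd hh.1 hoff'
  have hmeet := hp.pot.meet (fun t => f (σ p₀ (t - ζ₀))) ζ₀ (ε p₀) h.pos
    (SOF H isOpen_ball hsr) (by
      show f (σ p₀ (ζ₀ - ζ₀)) = E ζ₀
      rw [sub_self, h.center, hfp]) (hE ζ₀ (ε p₀) _ h.pos hsr)
    (M - ∑ q ∈ F.erase p₀, c q)
  filter_upwards [hall, hsum, hmeet, nhdsWithin_le_nhds hJ] with ζ hζ hs hm hJ
  have hrts : TSU_rts (e p₀) (ζ - ζ₀) = {ζ - ζ₀} := by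
    ext u
    rw [TSU_mem h.epos, H.cov.one p₀ (h1 p₀ hp₀), pow_one, Finset.mem_singleton]
  unfold Ts
  rw [hs, ← Finset.add_sum_erase F _ hp₀F, hrts, Finset.sum_singleton, hJ]
  have h3 : ∑ q ∈ F.erase p₀, ∑ u ∈ TSU_rts (e q) (ζ - ζ₀),
      Jv π D P f R R₁ θ E Fo t₀ γ ζ (σ q u) ≤ ∑ q ∈ F.erase p₀, c q :=
    Finset.sum_le_sum fun q hq => hζ q (Finset.mem_of_mem_erase hq)
  linarith

end Pool.Agent.VEB
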