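import Pool.Agent.VEB.TRG
import Pool.Agent.VEB.TSU
import Pool.Agent.VEB.TME
import Pool.Agent.VEB.RIS
import Pool.Agent.VEB.CNI
import Pool.Agent.VEB.PGS
import Pool.Agent.VEB.MAXP
import Pool.Agent.EPO.LCT

open scoped Manifold Topology
open Filter Metric Set

namespace Pool.Agent.VEB

open Pool.Agent.ELL Pool.Agent.EPO

/-- The number of sheets near `E` is bounded by the special points. -/
theorem FNE.{u} {S : Type*} [MetricSpace S] [CompactSpace S] [ChartedSpace (ℂ × ℂ) S]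
    [IsManifold 𝓘(ℂ, ℂ × ℂ) 1 S] {Λ : Submodule ℤ ℂ} [DiscreteTopology Λ] [IsZLattice ℝ Λ]
    {π : S → ℂ ⧸ Λ} {D : Set S} {Γ : Submodule ℤ ℂ} [DiscreteTopology Γ] [IsZLattice ℝ Γ]
    {E : ℂ → S} {Fo : (ℂ → S) → ℂ → ℝ} {ε₁ η a A' C₂ C₃ : ℝ} {t₀ : ℂ} {γ : ℂ → ℂ}
    {R₀ δ₀ R R₁ θ : ℝ} (hp : Par π D Γ E Fo ε₁ η a A' C₂ C₃ t₀ γ R₀ δ₀ R R₁ θ) :
    ∃ A₁ : ℝ, 0 ≤ A₁ ∧ ∀ (B : Type u) [TopologicalSpace B] [T2Space B] [CompactSpace B]
      (f : B → S) (e : B → ℕ) (P : Set B), BDat π D f e P →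
      (∀ (ζ : ℂ) (r : ℝ) (s : ℂ → B), 0 < r →
        IsSec Λ (fun q => π (f q)) P (ball ζ r) s → ¬ ∀ᶠ t in 𝓝 ζ, f (s t) = E t) →
      ∀ P' : Finset B, (∀ p, p ∈ P' ↔ p ∈ P) →
        ({p | p ∈ Fib Λ (fun q => π (f q)) t₀ ∧ Ty π P f R R₁ θ E t₀ t₀ p}.ncard : ℝ) ≤
          A₁ * ∑ q ∈ P', (e q : ℝ) := by
  obtain ⟨c₁, c₂, hc₁, hc₂, hG⟩ := PGS.{u} Λ
  obtain ⟨K, hK⟩ := LCT Λ (R + R₀)
  have hR : 0 < R := by
    have h1 := hp.R₀_nonneg
    have h2 := hp.h4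
    have h3 := hp.h5
    linarith
  have hA := hp.pot.A_nonneg
  have ha := hp.pot.a_pos
  have hC₂ := hp.pot.C₂_nonneg
  refine ⟨(C₂ * K + c₂ * (A' + 1)) / a, by positivity, ?_⟩
  intro B _ _ _ f e P H hE P' hP
  classical
  choose lf hlf using fun q : B => Submodule.mkQ_surjective Λ (π (f q))
  have hlf' : ∀ (q : B) (ζ : ℂ), ζ - lf q ∈ Λ ↔ π (f q) = Λ.mkQ ζ := by
    intro q ζ
    rw [← hlf q, Submodule.mkQ_apply, Submodule.mkQ_apply, eq_comm, Submodule.Quotient.eq]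
  obtain ⟨G, hGper, hGreg, hGs⟩ := hG B P' lf (fun q => A' * e q + 1)
    (fun q _ => by positivity)
  have hfib : ∀ ω ∈ Γ, ∀ ζ, Fib Λ (fun q => π (f q)) (ζ + ω) = Fib Λ (fun q => π (f q)) ζ := by
    intro ω hω ζ
    have h1 : Λ.mkQ (ζ + ω) = Λ.mkQ ζ := by
      rw [Submodule.mkQ_apply, Submodule.mkQ_apply, Submodule.Quotient.eq, add_sub_cancel_left]
      exact hp.le hω
    unfold Fib
    rw [h1]
  have hoff : ∀ ω ∈ Γ, ∀ (c ζ : ℂ) (p : B), Off π D P f R R₁ θ E (c + ω) (ζ + ω) p ↔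
      Off π D P f R R₁ θ E c ζ p := by
    intro ω hω c ζ p
    unfold Off
    constructor
    · rintro ⟨E', hE', hne, h⟩
      exact ⟨E', hE', hne, (ty_add (hp.le hω) (hp.per E' hE' ω hω)).mp h⟩
    · rintro ⟨E', hE', hne, h⟩
      exact ⟨E', hE', hne, (ty_add (hp.le hω) (hp.per E' hE' ω hω)).mpr h⟩
  set Reg : Set ℂ := {ζ | ∀ p ∈ Fib Λ (fun q => π (f q)) ζ, p ∉ P ∧
    (Off π D P f R R₁ θ E (t₀ + γ ζ) ζ p ∨ f p ≠ E ζ)} with hReg
  set n₀ : ℕ := {p | p ∈ Fib Λ (fun q => π (f q)) t₀ ∧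
    Ty π P f R R₁ θ E t₀ t₀ p}.ncard with hn₀
  set c : ℝ := (a * (n₀ : ℝ) - C₂ * ((K * ∑ q ∈ P', e q : ℕ) : ℝ)) +
    -(c₂ * ∑ q ∈ P', (A' * (e q : ℝ) + 1)) with hc
  have key : c ≤ 0 := by
    apply MAXP Γ (T := fun ζ => Ts π D P f R R₁ θ E Fo t₀ γ ζ + (fun t => -G t) ζ)
      (Reg := Reg) (c := c)
    · -- periodicity
      intro ω hω ζ hζ
      have h1 : Ts π D P f R R₁ θ E Fo t₀ γ (ζ + ω) = Ts π D P f R R₁ θ E Fo t₀ γ ζ := by
        unfold Ts
        rw [hfib ω hω ζ]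
        refine finsum_mem_congr rfl fun p hpf => ?_
        exact Jv_add H hp hω ζ p hpf (hζ p hpf).1
      show _ + -G (ζ + ω) = _ + -G ζ
      rw [h1, hGper ω (hp.le hω)]
    · intro ω hω ζ hζ p hpf
      rw [hfib ω hω ζ] at hpf
      obtain ⟨h1, h2⟩ := hζ p hpf
      refine ⟨h1, ?_⟩
      rw [hp.cell.add ω hω ζ, ← add_assoc, hoff ω hω, hp.per E hp.mem ω hω]
      exact h2
    · intro ζ₀
      filter_upwards [RIS H hp.mem hE ζ₀] with ζ hζ p hpf
      exact ⟨(hζ p hpf).1, Or.inr (hζ p hpf).2⟩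
    · intro ζ hζ
      obtain ⟨h1, h2⟩ := TRG H hp (fun p hpf => (hζ p hpf).1) (fun p hpf => (hζ p hpf).2)
      obtain ⟨h3, -, h4⟩ := hGreg ζ (by
        intro q hq hq'
        rw [hlf'] at hq'
        exact (hζ q hq').1 ((hP q).mp hq))
      refine ⟨h1.add h3.neg, ?_⟩
      refine LL.mono (h2.add h4) ?_
      rw [hc]
      have h5 := CNI H hp ζ
      have h6 := CNI_bad H (c := t₀ + γ ζ) (ζ := ζ) hR (hp.cell.bdd ζ) hK P' hP
      have h7 : {p | p ∈ Fib Λ (fun q => π (f q)) ζ ∧ p ∉ P ∧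
          ¬ Gd Λ (fun q => π (f q)) P R (t₀ + γ ζ) ζ p} =
          {p | p ∈ Fib Λ (fun q => π (f q)) ζ ∧
            ¬ Gd Λ (fun q => π (f q)) P R (t₀ + γ ζ) ζ p} := by
        ext p
        constructor
        · rintro ⟨h, -, h'⟩
          exact ⟨h, h'⟩
        · rintro ⟨h, h'⟩
          exact ⟨h, (hζ p h).1, h'⟩
      rw [h7] at h6
      have h5' : (n₀ : ℝ) ≤ ({p | p ∈ Fib Λ (fun q => π (f q)) ζ ∧
          Ty π P f R R₁ θ E (t₀ + γ ζ) ζ p}.ncard : ℝ) := by exact_mod_cast h5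
      have h6' : ({p | p ∈ Fib Λ (fun q => π (f q)) ζ ∧
            ¬ Gd Λ (fun q => π (f q)) P R (t₀ + γ ζ) ζ p}.ncard : ℝ) ≤
          ((K * ∑ q ∈ P', e q : ℕ) : ℝ) := by exact_mod_cast h6
      have h8 := mul_le_mul_of_nonneg_left h5' ha.le
      have h9 := mul_le_mul_of_nonneg_left h6' hC₂
      linarith
    · intro ζ₀ hζ₀ M
      obtain ⟨C, hC⟩ := hGs ζ₀
      by_cases hs : ∀ p ∈ Fib Λ (fun q => π (f q)) ζ₀, p ∉ P
      · -- a sheet meets `E`
        have h1 : ∃ p ∈ Fib Λ (fun q => π (f q)) ζ₀,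
            ¬ Off π D P f R R₁ θ E (t₀ + γ ζ₀) ζ₀ p ∧ f p = E ζ₀ := by
          by_contra hcon
          push Not at hcon
          apply hζ₀
          intro p hpf
          refine ⟨hs p hpf, ?_⟩
          by_cases ho : Off π D P f R R₁ θ E (t₀ + γ ζ₀) ζ₀ p
          · exact Or.inl ho
          · exact Or.inr (hcon p hpf ho)
        have h2 : (P'.filter fun q => ζ₀ - lf q ∈ Λ) = ∅ := by
          rw [Finset.filter_eq_empty_iff]
          intro q hq hq'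
          rw [hlf'] at hq'
          exact hs q hq' ((hP q).mp hq)
        filter_upwards [TME H hp hE hs h1 (M - C), hC] with ζ h3 h4
        rw [h2, Finset.sum_empty, zero_mul, sub_zero] at h4
        have h5 := (abs_le.mp h4).1
        show _ + -G ζ ≤ M
        linarith
      · push Not at hs
        obtain ⟨p₀, hp₀, hp₀'⟩ := hs
        obtain ⟨C', hC'⟩ := TSU H hp P' hP ζ₀
        have hF : (P'.filter fun q => ζ₀ - lf q ∈ Λ) =
            (P'.filter fun q => π (f q) = Λ.mkQ ζ₀) := by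
          apply Finset.filter_congr
          intro q _
          exact hlf' q ζ₀
        set F : Finset B := P'.filter fun q => π (f q) = Λ.mkQ ζ₀ with hFdef
        have hmem : p₀ ∈ F := by
          rw [hFdef, Finset.mem_filter]
          exact ⟨(hP p₀).mpr hp₀', hp₀⟩
        have hcard : (1 : ℝ) ≤ (F.card : ℝ) := by
          exact_mod_cast Finset.card_pos.mpr ⟨p₀, hmem⟩
        have hlog : ∀ᶠ ζ in 𝓝[≠] ζ₀, C' + C - M ≤ Real.log (1 / ‖ζ - ζ₀‖) ∧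
            0 ≤ Real.log (1 / ‖ζ - ζ₀‖) := by
          have h1 : Tendsto (fun ζ : ℂ => ‖ζ - ζ₀‖) (𝓝[≠] ζ₀) (𝓝[>] 0) :=
            tendsto_norm_sub_self_nhdsNE ζ₀
          have h2 : Tendsto (fun x : ℝ => Real.log (1 / x)) (𝓝[>] 0) atTop := by
            have h3 : (fun x : ℝ => Real.log (1 / x)) = fun x => -Real.log x := by
              funext x
              rw [one_div, Real.log_inv]
            rw [h3]
            exact tendsto_neg_atBot_atTop.comp Real.tendsto_log_nhdsGT_zero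
          have h4 := h2.comp h1
          exact (h4.eventually_ge_atTop (C' + C - M)).and (h4.eventually_ge_atTop 0)
        filter_upwards [hC', hC, hlog] with ζ h1 h2 h3
        rw [hF] at h2
        have h4 := (abs_le.mp h2).1
        rw [Finset.sum_add_distrib, Finset.sum_const, nsmul_eq_mul, mul_one] at h4
        show _ + -G ζ ≤ M
        set X := Real.log (1 / ‖ζ - ζ₀‖) with hX
        set Y := ∑ q ∈ F, A' * (e q : ℝ) with hY
        have h5 : X ≤ (F.card : ℝ) * X := le_mul_of_one_le_left h3.2 hcard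
        have h6 : (Y + (F.card : ℝ)) * X = Y * X + (F.card : ℝ) * X := by ring
        rw [h6] at h4
        have h7 := h3.1
        linarith
  -- conclusion
  have he : ∀ q, (1 : ℝ) ≤ (e q : ℝ) := by
    intro q
    obtain ⟨ε, σ, hN⟩ := H.cov.nf q (lf q) (hlf q).symm
    exact_mod_cast hN.epos
  have hs1 : ∑ q ∈ P', (A' * (e q : ℝ) + 1) ≤ (A' + 1) * ∑ q ∈ P', (e q : ℝ) := by
    rw [Finset.mul_sum]
    apply Finset.sum_le_sum
    intro q _
    have := he q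
    linarith
  rw [div_mul_eq_mul_div, le_div_iff₀ ha]
  rw [hc] at key
  push_cast at key
  have h10 := mul_le_mul_of_nonneg_left hs1 hc₂.le
  nlinarith [h10, key]

end Pool.Agent.VEB
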