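import Pool.Agent.VEB.Defs4
import Pool.Agent.VEB.AHS

open scoped Manifold Topology
open Filter Metric Set

namespace Pool.Agent.VEB

open Pool.Agent.ELL Pool.Agent.EPO

variable {S : Type*} [MetricSpace S] [CompactSpace S] [ChartedSpace (ℂ × ℂ) S]
  [IsManifold 𝓘(ℂ, ℂ × ℂ) 1 S] {Λ : Submodule ℤ ℂ} [DiscreteTopology Λ] [IsZLattice ℝ Λ]
  {π : S → ℂ ⧸ Λ} {D : Set S}

/-- The metric dominates every chart, uniformly on compact sets. -/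
theorem TDM {H : (p : S) → TangentSpace 𝓘(ℂ, ℂ × ℂ) p → ℝ} {c C : ℝ} (hH : IsNeg π D H c C)
    {φ : OpenPartialHomeomorph S (ℂ × ℂ)} (hφ : φ ∈ MA S) {T : Set S} (hT : IsCompact T)
    (hTφ : T ⊆ φ.source) : ∃ K : ℝ, 0 < K ∧ ∀ (g : ℂ → S) (ζ : ℂ) (r : ℝ), 0 < r →
      SecOn π D (ball ζ r) g → g ζ ∈ T → ‖deriv (fun t => φ (g t)) ζ‖ ^ 2 ≤ K * speed H g ζ := by
  refine hT.induction_on (p := fun s => ∃ K : ℝ, 0 < K ∧ ∀ (g : ℂ → S) (ζ : ℂ) (r : ℝ), 0 < r →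
    SecOn π D (ball ζ r) g → g ζ ∈ s → ‖deriv (fun t => φ (g t)) ζ‖ ^ 2 ≤ K * speed H g ζ)
    ⟨1, one_pos, fun g ζ r hr hg h => absurd h (notMem_empty _)⟩ ?_ ?_ ?_
  · rintro s t hst ⟨K, hK, h⟩
    exact ⟨K, hK, fun g ζ r hr hg hs => h g ζ r hr hg (hst hs)⟩
  · rintro s t ⟨K, hK, h⟩ ⟨K', hK', h'⟩
    refine ⟨max K K', lt_max_of_lt_left hK, fun g ζ r hr hg hs => ?_⟩
    have hpos := hH.pos g ζ r hr hg
    rcases hs with hs | hs
    · exact (h g ζ r hr hg hs).trans (mul_le_mul_of_nonneg_right (le_max_left _ _) hpos.le)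
    · exact (h' g ζ r hr hg hs).trans (mul_le_mul_of_nonneg_right (le_max_right _ _) hpos.le)
  · intro p hp
    obtain ⟨U, hU, K, hK⟩ := hH.dom p
    have hψ : chartAt (ℂ × ℂ) p ∈ MA S := IsManifold.chart_mem_maximalAtlas p
    have hpψ : p ∈ (chartAt (ℂ × ℂ) p).source := mem_chart_source _ _
    set ψ := chartAt (ℂ × ℂ) p with hψdef
    have hT1 : ContDiffAt ℂ 1 (φ ∘ ψ.symm) (ψ p) := contDiffAt_trans hψ hφ hpψ (hTφ hp)
    obtain ⟨M, hM⟩ : ∃ M : ℝ, ∀ᶠ v in 𝓝 (ψ p), ‖fderiv ℂ (φ ∘ ψ.symm) v‖ ≤ M := by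
      have h1 : ContinuousAt (fun v => ‖fderiv ℂ (φ ∘ ψ.symm) v‖) (ψ p) :=
        (hT1.continuousAt_fderiv one_ne_zero).norm
      refine ⟨‖fderiv ℂ (φ ∘ ψ.symm) (ψ p)‖ + 1, ?_⟩
      filter_upwards [h1.eventually (gt_mem_nhds (lt_add_one _))] with v hv using hv.le
    have hdiff : ∀ᶠ v in 𝓝 (ψ p), DifferentiableAt ℂ (φ ∘ ψ.symm) v := by
      filter_upwards [hT1.eventually (by simp)] with v hv using hv.differentiableAt one_ne_zero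
    have hψc : ContinuousAt ψ p := ψ.continuousAt hpψ
    have hN : ∀ᶠ q in 𝓝 p, q ∈ U ∧ q ∈ ψ.source ∧ q ∈ φ.source ∧
        ‖fderiv ℂ (φ ∘ ψ.symm) (ψ q)‖ ≤ M ∧ DifferentiableAt ℂ (φ ∘ ψ.symm) (ψ q) := by
      filter_upwards [hU, ψ.open_source.mem_nhds hpψ, φ.open_source.mem_nhds (hTφ hp),
        hψc.eventually hM, hψc.eventually hdiff] with q h1 h2 h3 h4 h5
      exact ⟨h1, h2, h3, h4, h5⟩
    refine ⟨_, mem_nhdsWithin_of_mem_nhds hN, M ^ 2 * |K| + 1, by positivity, ?_⟩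
    rintro g ζ r hr hg ⟨h1, h2, h3, h4, h5⟩
    have hpos := hH.pos g ζ r hr hg
    have hgm : MDifferentiableAt 𝓘(ℂ, ℂ) 𝓘(ℂ, ℂ × ℂ) g ζ := hg.mdiff isOpen_ball (mem_ball_self hr)
    have hgd : DifferentiableAt ℂ (fun t => ψ (g t)) ζ := mdiff_chart hgm hψ h2
    have hgc : ContinuousAt g ζ := hg.cont isOpen_ball (mem_ball_self hr)
    have hev : (fun t => φ (g t)) =ᶠ[𝓝 ζ] (φ ∘ ψ.symm) ∘ (fun t => ψ (g t)) := by
      filter_upwards [hgc.eventually (ψ.open_source.mem_nhds h2)] with t ht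
      simp only [Function.comp_apply]
      rw [ψ.left_inv ht]
    have hd : deriv (fun t => φ (g t)) ζ =
        fderiv ℂ (φ ∘ ψ.symm) (ψ (g ζ)) (deriv (fun t => ψ (g t)) ζ) := by
      rw [hev.deriv_eq]
      exact (HasFDerivAt.comp_hasDerivAt ζ h5.hasFDerivAt hgd.hasDerivAt).deriv
    have hM0 : 0 ≤ M := (norm_nonneg _).trans h4
    have h6 : ‖deriv (fun t => φ (g t)) ζ‖ ≤ M * ‖deriv (fun t => ψ (g t)) ζ‖ := by
      rw [hd]
      exact (ContinuousLinearMap.le_opNorm _ _).trans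
        (mul_le_mul_of_nonneg_right h4 (norm_nonneg _))
    have h7 := hK g ζ r hr hg h1
    calc ‖deriv (fun t => φ (g t)) ζ‖ ^ 2 ≤ (M * ‖deriv (fun t => ψ (g t)) ζ‖) ^ 2 :=
          pow_le_pow_left₀ (norm_nonneg _) h6 2
      _ = M ^ 2 * ‖deriv (fun t => ψ (g t)) ζ‖ ^ 2 := by ring
      _ ≤ M ^ 2 * (K * speed H g ζ) := mul_le_mul_of_nonneg_left h7 (by positivity)
      _ ≤ M ^ 2 * (|K| * speed H g ζ) :=
          mul_le_mul_of_nonneg_left (mul_le_mul_of_nonneg_right (le_abs_self K) hpos.le)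
            (by positivity)
      _ ≤ (M ^ 2 * |K| + 1) * speed H g ζ := by nlinarith [hpos.le]

end Pool.Agent.VEB
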