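import Pool.Agent.VEB.Defs4
import Pool.Agent.VEB.TDM
import Pool.Agent.ELL.Vcv
import Pool.Agent.ELL.Ovl
import Pool.Agent.ELL.Pai

open scoped Manifold Topology
open Filter Metric Set

namespace Pool.Agent.VEB

open Pool.Agent.ELL Pool.Agent.EPO

section TUBaux

variable {S : Type*} [MetricSpace S] [CompactSpace S] [ChartedSpace (ℂ × ℂ) S]

/-- uniform continuity of a chart near a compact set -/
theorem tub_unif {φ : OpenPartialHomeomorph S (ℂ × ℂ)} {Q : Set S} (hQ : IsCompact Q) {ε : ℝ}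
    (hε : 0 < ε) (hs : ∀ q ∈ Q, closedBall q ε ⊆ φ.source) {θ : ℝ} (hθ : 0 < θ) :
    ∀ᶠ η in 𝓝[>] (0 : ℝ), ∀ q ∈ Q, ∀ p, dist p q < η → ‖φ p - φ q‖ < θ := by
  have hT : IsCompact (cthickening ε Q) := isClosed_cthickening.isCompact
  have hTs : cthickening ε Q ⊆ φ.source := by
    rw [hQ.cthickening_eq_biUnion_closedBall hε.le]
    exact iUnion₂_subset hs
  have hu := hT.uniformContinuousOn_of_continuous (φ.continuousOn.mono hTs)
  rw [Metric.uniformContinuousOn_iff] at hu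
  obtain ⟨δ, hδ, h⟩ := hu θ hθ
  have h1 : Ioo (0 : ℝ) (min δ ε) ∈ 𝓝[>] (0 : ℝ) := Ioo_mem_nhdsGT (lt_min hδ hε)
  filter_upwards [h1] with η hη q hq p hp
  have hq' : q ∈ cthickening ε Q := self_subset_cthickening Q hq
  have hp' : p ∈ cthickening ε Q := by
    rw [hQ.cthickening_eq_biUnion_closedBall hε.le]
    refine mem_iUnion₂.2 ⟨q, hq, ?_⟩
    rw [mem_closedBall]
    exact (hp.trans (hη.2.trans_le (min_le_right _ _))).le
  have h2 := h p hp' q hq' (hp.trans (hη.2.trans_le (min_le_left _ _)))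
  rwa [dist_eq_norm] at h2

/-- injectivity of a chart near a compact set -/
theorem tub_inj {φ : OpenPartialHomeomorph S (ℂ × ℂ)} {Q : Set S} (hQ : IsCompact Q) {ε ε₁ : ℝ}
    (hε₁ : 0 < ε₁) (hs : ∀ q ∈ Q, closedBall q ε ⊆ φ.source) :
    ∃ a > 0, ∀ q ∈ Q, ∀ p ∈ closedBall q ε, ε₁ ≤ dist p q → a ≤ ‖φ p - φ q‖ := by
  have hZ : IsCompact {z : S × S | z.1 ∈ Q ∧ dist z.2 z.1 ≤ ε ∧ ε₁ ≤ dist z.2 z.1} := by
    have h1 : IsClosed {z : S × S | z.1 ∈ Q} := hQ.isClosed.preimage continuous_fst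
    have h2 : IsClosed {z : S × S | dist z.2 z.1 ≤ ε} :=
      isClosed_le (continuous_snd.dist continuous_fst) continuous_const
    have h3 : IsClosed {z : S × S | ε₁ ≤ dist z.2 z.1} :=
      isClosed_le continuous_const (continuous_snd.dist continuous_fst)
    exact (h1.inter (h2.inter h3)).isCompact
  have hcs : ∀ z ∈ {z : S × S | z.1 ∈ Q ∧ dist z.2 z.1 ≤ ε ∧ ε₁ ≤ dist z.2 z.1},
      z.1 ∈ φ.source ∧ z.2 ∈ φ.source := by
    rintro z ⟨h1, h2, h3⟩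
    refine ⟨hs _ h1 (mem_closedBall_self (dist_nonneg.trans h2)), hs _ h1 ?_⟩
    rw [mem_closedBall]
    exact h2
  have hF : ContinuousOn (fun z : S × S => ‖φ z.2 - φ z.1‖)
      {z : S × S | z.1 ∈ Q ∧ dist z.2 z.1 ≤ ε ∧ ε₁ ≤ dist z.2 z.1} := by
    refine ContinuousOn.norm (ContinuousOn.sub ?_ ?_)
    · exact φ.continuousOn.comp continuousOn_snd fun z hz => (hcs z hz).2
    · exact φ.continuousOn.comp continuousOn_fst fun z hz => (hcs z hz).1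
  obtain ⟨a, ha, h⟩ := hZ.exists_forall_le' hF (a := 0) (by
    rintro z hz
    rw [norm_pos_iff, sub_ne_zero]
    intro heq
    have h1 := φ.injOn (hcs z hz).2 (hcs z hz).1 heq
    have h2 : ε₁ ≤ dist z.2 z.1 := hz.2.2
    rw [h1, dist_self] at h2
    linarith)
  exact ⟨a, ha, fun q hq p hp h1 => h (q, p) ⟨hq, mem_closedBall.1 hp, h1⟩⟩

end TUBaux

variable {S : Type*} [MetricSpace S] [CompactSpace S] [ChartedSpace (ℂ × ℂ) S]
  [IsManifold 𝓘(ℂ, ℂ × ℂ) 1 S] {Λ : Submodule ℤ ℂ} [DiscreteTopology Λ] [IsZLattice ℝ Λ]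
  {π : S → ℂ ⧸ Λ} {D : Set S} {m : ℕ} {ι : Type} [Fintype ι] {σ : ι → PluriForm S m D}

/-- Existence of the vertical charts along `E`. -/
theorem TUB (hπ : HolTo Λ π) (hD : IsDivisor D) (hs : NoSecIn π D) (hσ : Separates π D σ)
    (hm : 0 < m) (hfib : FibresHyperbolic π D) {H : (p : S) → TangentSpace 𝓘(ℂ, ℂ × ℂ) p → ℝ}
    {c C : ℝ} (hH : IsNeg π D H c C) {E : ℂ → S} (hE : E ∈ Sec π D) (Γ : Submodule ℤ ℂ)
    [DiscreteTopology Γ] [IsZLattice ℝ Γ] (hper : ∀ ω ∈ Γ, ∀ ζ, E (ζ + ω) = E ζ)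
    {ν : ℝ} (hν : 0 < ν) {ε₀ : ℝ} (hε₀ : 0 < ε₀) :
    ∃ (n : ℕ) (φ : Fin n → OpenPartialHomeomorph S (ℂ × ℂ)) (A : Fin n → Set ℂ)
      (ρ ε ε₁ K : ℝ), ε₁ ≤ ε₀ ∧ Tub π D H σ Γ E φ A ν ρ ε ε₁ K := by
  classical
  obtain ⟨μ0, hμ0, hμΛ⟩ := lat_min Λ
  obtain ⟨V⟩ := exists_vcov (D := D) hπ hD hfib hs (μ := μ0 / 2) (by positivity)
  have hδ := V.δpos
  obtain ⟨δ1, hδ1, hmod⟩ := sec_modulus hπ hD hfib (ε := V.δ / 4) (by positivity)
  obtain ⟨ρ, hρ0, hρ1, hρδ⟩ : ∃ ρ > 0, ρ ≤ 1 ∧ 4 * ρ < δ1 :=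
    ⟨min 1 (δ1 / 8), by positivity, min_le_left _ _, by
      have := min_le_right 1 (δ1 / 8)
      linarith⟩
  have hEc : Continuous E := hE.1.cont
  set A : Fin V.n → Set ℂ := fun i => {z | ball (E z) V.δ ⊆ (V.φ i).source} with hA
  have hAcl : ∀ i, IsClosed (A i) := by
    intro i
    rw [← isSeqClosed_iff_isClosed]
    intro u z hu huz p hp
    have h1 : Tendsto (fun k => dist p (E (u k))) atTop (𝓝 (dist p (E z))) :=
      tendsto_const_nhds.dist ((hEc.tendsto z).comp huz)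
    have h2 : ∀ᶠ k in atTop, dist p (E (u k)) < V.δ := h1.eventually (gt_mem_nhds (mem_ball.1 hp))
    obtain ⟨k, hk⟩ := h2.exists
    exact hu k (mem_ball.2 hk)
  have hAper : ∀ i, ∀ ω ∈ Γ, ∀ ζ ∈ A i, ζ + ω ∈ A i := by
    intro i ω hω ζ hζ
    simp only [hA, mem_setOf_eq] at hζ ⊢
    rw [hper ω hω]
    exact hζ
  -- the enlarged sets
  set W : Fin V.n → Set ℂ := fun i => ⋃ x ∈ A i, closedBall x (4 * ρ) with hW
  have hWcl : ∀ i, IsClosed (W i) := by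
    intro i
    have := (hAcl i).cthickening_eq_biUnion_closedBall (δ := 4 * ρ) (by positivity)
    simp only [hW]
    rw [← this]
    exact isClosed_cthickening
  have hWper : ∀ i, ∀ ω ∈ Γ, ∀ ζ ∈ W i, ζ + ω ∈ W i := by
    intro i ω hω ζ hζ
    simp only [hW, mem_iUnion₂] at hζ ⊢
    obtain ⟨x, hx, hxζ⟩ := hζ
    refine ⟨x + ω, hAper i ω hω x hx, ?_⟩
    rw [mem_closedBall] at hxζ ⊢
    rwa [dist_add_right]
  have hballW : ∀ i, ∀ c ∈ A i, ∀ ζ ∈ ball c (4 * ρ), ζ ∈ W i := by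
    intro i c hc ζ hζ
    simp only [hW, mem_iUnion₂]
    exact ⟨c, hc, ball_subset_closedBall hζ⟩
  have hWsrc : ∀ i, ∀ ζ ∈ W i, closedBall (E ζ) (V.δ / 2) ⊆ (V.φ i).source := by
    intro i ζ hζ p hp
    simp only [hW, mem_iUnion₂] at hζ
    obtain ⟨x, hx, hxζ⟩ := hζ
    rw [mem_closedBall] at hxζ hp
    have h1 : dist (E ζ) (E x) ≤ V.δ / 4 := hmod E hE x ζ (hxζ.trans_lt hρδ)
    refine hx ?_
    rw [mem_ball]
    have := dist_triangle p (E ζ) (E x)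
    linarith
  obtain ⟨R', hR', hcov⟩ := lat_bdd Γ
  set Q : Fin V.n → Set S := fun i => E '' (W i ∩ closedBall 0 R') with hQdef
  have hQc : ∀ i, IsCompact (Q i) := fun i =>
    ((isCompact_closedBall (0 : ℂ) R').inter_left (hWcl i)).image hEc
  have hQmem : ∀ i, ∀ ζ ∈ W i, E ζ ∈ Q i := by
    intro i ζ hζ
    obtain ⟨ω, hω, hle⟩ := hcov ζ
    refine ⟨ζ - ω, ⟨?_, ?_⟩, ?_⟩
    · rw [sub_eq_add_neg]
      exact hWper i (-ω) (Γ.neg_mem hω) ζ hζ
    · rw [mem_closedBall, dist_zero_right]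
      exact hle
    · rw [sub_eq_add_neg]
      exact hper (-ω) (Γ.neg_mem hω) ζ
  have hQsrc : ∀ i, ∀ q ∈ Q i, closedBall q (V.δ / 2) ⊆ (V.φ i).source := by
    rintro i q ⟨ζ, hζ, rfl⟩
    exact hWsrc i ζ hζ.1
  have hQD : ∀ i, ∀ q ∈ Q i, q ∉ D := by
    rintro i q ⟨ζ, hζ, rfl⟩
    exact hE.2.1 ζ
  -- the ratio
  have hm' : (0 : ℝ) < m := by exact_mod_cast hm
  set τ : ℝ := Real.exp (ν * ρ ^ 2 * m / 2) - 1 with hτdef
  have hτ : 0 < τ := by
    have h1 : (0 : ℝ) < ν * ρ ^ 2 * m / 2 := by positivity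
    have h2 := Real.add_one_lt_exp h1.ne'
    rw [hτdef]
    linarith
  have hτpow : (1 + τ) ^ (2 / (m : ℝ)) = Real.exp (ν * ρ ^ 2) := by
    have h1 : 1 + τ = Real.exp (ν * ρ ^ 2 * m / 2) := by rw [hτdef]; ring
    rw [h1, ← Real.exp_mul]
    congr 1
    field_simp
  have hμ2 : ∀ ω ∈ Λ, ω ≠ 0 → 2 * (μ0 / 2) ≤ ‖ω‖ := by
    intro ω hω hne
    have := hμΛ ω hω hne
    linarith
  obtain ⟨ε', hε', hov⟩ := overlap hπ hD hfib hs hσ hm hμ2 V hτ
  obtain ⟨ε, hε, hεε', hεδ⟩ : ∃ ε > 0, ε ≤ ε' ∧ ε ≤ V.δ / 2 :=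
    ⟨min ε' (V.δ / 2), by positivity, min_le_left _ _, min_le_right _ _⟩
  obtain ⟨ε₁, hε₁, hε₁0, hε₁ε⟩ : ∃ ε₁ > 0, ε₁ ≤ ε₀ ∧ ε₁ < ε :=
    ⟨min ε₀ (ε / 2), by positivity, min_le_left _ _, by
      have := min_le_right ε₀ (ε / 2)
      linarith⟩
  have hWε : ∀ i, ∀ ζ ∈ W i, closedBall (E ζ) ε ⊆ (V.φ i).source := fun i ζ hζ =>
    (closedBall_subset_closedBall hεδ).trans (hWsrc i ζ hζ)
  have hQε : ∀ i, ∀ q ∈ Q i, closedBall q ε ⊆ (V.φ i).source := fun i q hq =>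
    (closedBall_subset_closedBall hεδ).trans (hQsrc i q hq)
  have hfst : ∀ i, ∀ ζ ∈ W i, ∀ p ∈ closedBall (E ζ) ε, π p = Λ.mkQ ζ →
      (V.φ i p).1 = (V.φ i (E ζ)).1 := by
    intro i ζ hζ p hp hπp
    have hp' := hWε i ζ hζ hp
    have hE' := hWε i ζ hζ (mem_closedBall_self hε.le)
    have h1 : Λ.mkQ (V.φ i p).1 = Λ.mkQ (V.φ i (E ζ)).1 := by
      rw [← V.vert i _ hp', ← V.vert i _ hE', hπp, hE.2.2 ζ]
    rw [mkQ_eq_iff] at h1
    by_contra hne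
    have h2 := hμΛ _ h1 (sub_ne_zero.2 hne)
    have h3 := V.osc i _ hp' _ hE'
    have h4 : ‖(V.φ i p).1 - (V.φ i (E ζ)).1‖ ≤ ‖V.φ i p - V.φ i (E ζ)‖ := by
      have := norm_fst_le (V.φ i p - V.φ i (E ζ))
      rwa [Prod.fst_sub] at this
    linarith
  -- constants
  have hcst : ∀ i, ∀ᶠ K : ℝ in atTop,
      (∀ ζ ∈ W i, K⁻¹ ≤ ‖vec σ (V.φ i) (E ζ)‖ ∧ ‖vec σ (V.φ i) (E ζ)‖ ≤ K) ∧
      (∀ ζ ∈ W i, ∀ p ∈ closedBall (E ζ) ε, ε₁ ≤ dist p (E ζ) →
        K⁻¹ ≤ ‖V.φ i p - V.φ i (E ζ)‖) ∧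
      (∀ ζ ∈ W i, ∀ p ∈ closedBall (E ζ) ε, ‖V.φ i p - V.φ i (E ζ)‖ ≤ K) ∧
      (∀ ζ ∈ W i, ∀ (g : ℂ → S) (r : ℝ), 0 < r → SecOn π D (ball ζ r) g →
        dist (g ζ) (E ζ) ≤ ε →
          ‖deriv (fun t => (V.φ i (g t)).2 - (V.φ i (E t)).2) ζ‖ ^ 2 ≤
            K * (1 + speed H g ζ)) := by
    intro i
    have hvc : ContinuousOn (fun q => ‖vec σ (V.φ i) q‖) (Q i) := by
      intro q hq
      exact (vec_contAt hD (V.mem i) (hQε i q hq (mem_closedBall_self hε.le))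
        (hQD i q hq)).norm.continuousWithinAt
    obtain ⟨a, ha, hle⟩ := (hQc i).exists_forall_le' hvc (a := 0) (by
      rintro q ⟨ζ, hζ, rfl⟩
      rw [norm_pos_iff]
      exact vec_ne_zero hσ hE ζ (V.mem i) (hWε i ζ hζ.1 (mem_closedBall_self hε.le)))
    obtain ⟨b, hb⟩ := (hQc i).exists_bound_of_continuousOn hvc
    obtain ⟨a', ha', hle'⟩ := tub_inj (hQc i) hε₁ (hQε i)
    have hT : IsCompact (cthickening ε (Q i)) := isClosed_cthickening.isCompact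
    have hTs : cthickening ε (Q i) ⊆ (V.φ i).source := by
      rw [(hQc i).cthickening_eq_biUnion_closedBall hε.le]
      exact iUnion₂_subset (hQε i)
    obtain ⟨K1, hK1, htdm⟩ := TDM hH (V.mem i) hT hTs
    have hc := hH.c_pos
    filter_upwards [eventually_gt_atTop (0 : ℝ), eventually_ge_atTop a⁻¹,
      eventually_ge_atTop b, eventually_ge_atTop a'⁻¹, eventually_ge_atTop (μ0 / 2),
      eventually_ge_atTop (2 * K1 * (1 + (|C| + 2) / c))] with K hK0 hKa hKb hKa' hKμ hKd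
    refine ⟨fun ζ hζ => ⟨?_, ?_⟩, fun ζ hζ p hp hd => ?_, fun ζ hζ p hp => ?_,
      fun ζ hζ g r hr hg hd => ?_⟩
    · exact (inv_le_of_inv_le₀ ha hKa).trans (hle _ (hQmem i ζ hζ))
    · have := hb _ (hQmem i ζ hζ)
      rw [norm_norm] at this
      exact this.trans hKb
    · exact (inv_le_of_inv_le₀ ha' hKa').trans (hle' _ (hQmem i ζ hζ) p hp hd)
    · exact ((V.osc i p (hWε i ζ hζ hp) _
        (hWε i ζ hζ (mem_closedBall_self hε.le))).le).trans hKμ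
    · have hgs : g ζ ∈ (V.φ i).source := hWε i ζ hζ (mem_closedBall.2 hd)
      have hEs : E ζ ∈ (V.φ i).source := hWε i ζ hζ (mem_closedBall_self hε.le)
      have hgT : g ζ ∈ cthickening ε (Q i) := by
        rw [(hQc i).cthickening_eq_biUnion_closedBall hε.le]
        exact mem_iUnion₂.2 ⟨E ζ, hQmem i ζ hζ, mem_closedBall.2 hd⟩
      have hET : E ζ ∈ cthickening ε (Q i) := self_subset_cthickening _ (hQmem i ζ hζ)
      have hEsec : SecOn π D (ball ζ 1) E := Sec.secOn hE _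
      have h1 := htdm g ζ r hr hg hgT
      have h2 := htdm E ζ 1 one_pos hEsec hET
      have h3 := AHS hH one_pos hEsec
      have hsp := hH.pos g ζ r hr hg
      have hgd : DifferentiableAt ℂ (fun t => V.φ i (g t)) ζ :=
        mdiff_chart (hg.mdiff isOpen_ball (mem_ball_self hr)) (V.mem i) hgs
      have hEd : DifferentiableAt ℂ (fun t => V.φ i (E t)) ζ :=
        mdiff_chart (hEsec.mdiff isOpen_ball (mem_ball_self one_pos)) (V.mem i) hEs
      have hg2 : HasDerivAt (fun t => (V.φ i (g t)).2) (deriv (fun t => V.φ i (g t)) ζ).2 ζ :=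
        (ContinuousLinearMap.snd ℂ ℂ ℂ).hasFDerivAt.comp_hasDerivAt ζ hgd.hasDerivAt
      have hE2 : HasDerivAt (fun t => (V.φ i (E t)).2) (deriv (fun t => V.φ i (E t)) ζ).2 ζ :=
        (ContinuousLinearMap.snd ℂ ℂ ℂ).hasFDerivAt.comp_hasDerivAt ζ hEd.hasDerivAt
      have h4 : deriv (fun t => (V.φ i (g t)).2 - (V.φ i (E t)).2) ζ =
          (deriv (fun t => V.φ i (g t)) ζ).2 - (deriv (fun t => V.φ i (E t)) ζ).2 :=
        (hg2.sub hE2).deriv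
      rw [h4]
      have h5 : ‖(deriv (fun t => V.φ i (g t)) ζ).2‖ ≤ ‖deriv (fun t => V.φ i (g t)) ζ‖ :=
        norm_snd_le _
      have h6 : ‖(deriv (fun t => V.φ i (E t)) ζ).2‖ ≤ ‖deriv (fun t => V.φ i (E t)) ζ‖ :=
        norm_snd_le _
      have h7 := norm_sub_le (deriv (fun t => V.φ i (g t)) ζ).2
        (deriv (fun t => V.φ i (E t)) ζ).2
      have h8 : ‖(deriv (fun t => V.φ i (g t)) ζ).2 - (deriv (fun t => V.φ i (E t)) ζ).2‖ ^ 2 ≤
          (‖deriv (fun t => V.φ i (g t)) ζ‖ + ‖deriv (fun t => V.φ i (E t)) ζ‖) ^ 2 :=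
        pow_le_pow_left₀ (norm_nonneg _) (by linarith) 2
      have h9 : K1 * speed H E ζ ≤ K1 * ((|C| + 2) / c) := by
        refine mul_le_mul_of_nonneg_left ?_ hK1.le
        refine h3.trans (le_of_eq ?_)
        norm_num
      have h10 : (0 : ℝ) ≤ (|C| + 2) / c := by positivity
      have h11 : 2 * K1 * (1 + (|C| + 2) / c) * (1 + speed H g ζ) ≤ K * (1 + speed H g ζ) :=
        mul_le_mul_of_nonneg_right hKd (by linarith)
      refine h8.trans (le_trans ?_ h11)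
      nlinarith [sq_nonneg (‖deriv (fun t => V.φ i (g t)) ζ‖ -
        ‖deriv (fun t => V.φ i (E t)) ζ‖), mul_nonneg hK1.le h10,
        mul_nonneg (mul_nonneg hK1.le h10) hsp.le, mul_nonneg hK1.le hsp.le]
  obtain ⟨K, hKall, hK0⟩ :=
    ((eventually_all.2 hcst).and (eventually_gt_atTop (0 : ℝ))).exists
  refine ⟨V.n, V.φ, A, ρ, ε, ε₁, K, hε₁0, ?_⟩
  exact
    { ρ_pos := hρ0
      ρ_le := hρ1
      ε₁_pos := hε₁
      ε₁_lt := hε₁ε
      K_pos := hK0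
      mem := V.mem
      closed := hAcl
      per := hAper
      cover := by
        intro ζ
        obtain ⟨i, hi⟩ := V.cover E hE ζ
        exact ⟨i, ball_subset_closedBall.trans hi⟩
      tube := fun i c hc ζ hζ => hWε i ζ (hballW i c hc ζ hζ)
      fst := fun i c hc ζ hζ => hfst i ζ (hballW i c hc ζ hζ)
      ratio := by
        intro i j c hc c' hc' ζ hζ hζ' p hp hπp
        have hi := hballW i c hc ζ hζ
        have hj := hballW j c' hc' ζ hζ'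
        have h1 := hov i j E hE ζ p ((mem_closedBall.1 hp).trans hεε') (hWsrc i ζ hi)
          (hWsrc j ζ hj) (hfst i ζ hi p hp hπp).symm
        have h2 : 0 ≤ PN σ (V.φ j) (E ζ) p := by unfold PN; positivity
        have h3 : 0 ≤ PN σ (V.φ i) (E ζ) p := by unfold PN; positivity
        have h4 : (0 : ℝ) ≤ 2 / (m : ℝ) := by positivity
        calc PN σ (V.φ j) (E ζ) p ^ (2 / (m : ℝ)) ≤
            ((1 + τ) * PN σ (V.φ i) (E ζ) p) ^ (2 / (m : ℝ)) := Real.rpow_le_rpow h2 h1 h4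
          _ = Real.exp (ν * ρ ^ 2) * PN σ (V.φ i) (E ζ) p ^ (2 / (m : ℝ)) := by
            rw [Real.mul_rpow (by positivity) h3, hτpow]
      bdd := fun i c hc ζ hζ => (hKall i).1 ζ (hballW i c hc ζ hζ)
      lower := by
        intro i c hc ζ hζ p hp hπp hd
        have hi := hballW i c hc ζ hζ
        have h1 := (hKall i).2.1 ζ hi p hp hd
        have h2 := hfst i ζ hi p hp hπp
        have h3 : ‖V.φ i p - V.φ i (E ζ)‖ = ‖(V.φ i p).2 - (V.φ i (E ζ)).2‖ := by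
          rw [Prod.norm_def, Prod.fst_sub, Prod.snd_sub, h2, sub_self, norm_zero]
          exact max_eq_right (norm_nonneg _)
        rwa [h3] at h1
      upper := by
        intro i c hc ζ hζ p hp
        have h1 := (hKall i).2.2.1 ζ (hballW i c hc ζ hζ) p hp
        have h2 := norm_snd_le (V.φ i p - V.φ i (E ζ))
        rw [Prod.snd_sub] at h2
        exact h2.trans h1
      small := by
        intro θ hθ
        have h1 : ∀ᶠ η in 𝓝[>] (0 : ℝ), ∀ i, ∀ q ∈ Q i, ∀ p, dist p q < η →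
            ‖V.φ i p - V.φ i q‖ < θ :=
          eventually_all.2 fun i => tub_unif (hQc i) hε (hQε i) hθ
        have h2 : Ioo (0 : ℝ) ε ∈ 𝓝[>] (0 : ℝ) := Ioo_mem_nhdsGT hε
        obtain ⟨η, hη, hη0, hηε⟩ := (h1.and h2).exists
        refine ⟨η, hη0, hηε.le, fun i c hc ζ hζ p hp => ?_⟩
        have h3 := hη i _ (hQmem i ζ (hballW i c hc ζ hζ)) p hp
        have h4 := norm_snd_le (V.φ i p - V.φ i (E ζ))
        rw [Prod.snd_sub] at h4
        exact h4.trans_lt h3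
      dom := fun i c hc ζ hζ g r hr hg hd =>
        (hKall i).2.2.2 ζ (hballW i c hc ζ hζ) g r hr hg hd }

end Pool.Agent.VEB
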