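import Pool.Agent.VEB.GLA
import Pool.Agent.VEB.TUB
import Pool.Agent.VEB.EQD

open scoped Manifold Topology
open Filter Metric Set

namespace Pool.Agent.VEB

open Pool.Agent.ELL Pool.Agent.EPO

variable {S : Type*} [MetricSpace S] [CompactSpace S] [ChartedSpace (ℂ × ℂ) S]
  [IsManifold 𝓘(ℂ, ℂ × ℂ) 1 S] {Λ : Submodule ℤ ℂ} [DiscreteTopology Λ] [IsZLattice ℝ Λ]
  {π : S → ℂ ⧸ Λ} {D : Set S} {m : ℕ} {ι : Type} [Fintype ι] {σ : ι → PluriForm S m D}

private theorem gex_neg {x : ℝ} (hx : 0 < x) (hx1 : x < 1) : Real.log x + 1 - x < 0 := by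
  have h1 := Real.log_lt_sub_one_of_pos hx hx1.ne
  linarith

private theorem gex_theta {K' ρ a₀ : ℝ} (hK' : 0 ≤ K') (hρ : 0 < ρ) (ha : 0 < a₀) :
    ∃ θ > 0, K' * (θ ^ 2 + (θ / (ρ / 2)) ^ 2) ≤ a₀ / 4 := by
  set B : ℝ := K' * (1 + (1 / (ρ / 2)) ^ 2) + 1 with hB
  have hBp : 0 < B := by positivity
  have h2 : 0 < a₀ / (4 * B) := by positivity
  refine ⟨Real.sqrt (a₀ / (4 * B)), Real.sqrt_pos.2 h2, ?_⟩
  have e1 : (Real.sqrt (a₀ / (4 * B)) / (ρ / 2)) ^ 2 =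
      a₀ / (4 * B) * (1 / (ρ / 2)) ^ 2 := by
    rw [div_pow, Real.sq_sqrt h2.le]
    ring
  rw [e1, Real.sq_sqrt h2.le]
  have e2 : K' * (a₀ / (4 * B) + a₀ / (4 * B) * (1 / (ρ / 2)) ^ 2) =
      a₀ / (4 * B) * (B - 1) := by
    rw [hB]
    ring
  rw [e2]
  have e3 : a₀ / (4 * B) * B = a₀ / 4 := by
    field_simp
  nlinarith

/-- Existence of the truncated logarithmic distance. -/
theorem GEX (hπ : HolTo Λ π) (hD : IsDivisor D) (hs : NoSecIn π D) (hσ : Separates π D σ)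
    (hm : 0 < m) (hfib : FibresHyperbolic π D) {H : (p : S) → TangentSpace 𝓘(ℂ, ℂ × ℂ) p → ℝ}
    {c C : ℝ} (hH : IsNeg π D H c C) {E : ℂ → S} (hE : E ∈ Sec π D) (Γ : Submodule ℤ ℂ)
    [DiscreteTopology Γ] [IsZLattice ℝ Γ] (hper : ∀ ω ∈ Γ, ∀ ζ, E (ζ + ω) = E ζ)
    {ε₁ : ℝ} (hε₁ : 0 < ε₁) : ∃ (G : ℂ → S → ℝ) (η a K : ℝ), IsG π D H Γ E G ε₁ η a K := by
  obtain ⟨κ, a₀, Kκ, ha₀, hKκ, hκc, hκper, hκb, hκU, hκL⟩ := STR hD hσ hm hE Γ hper
  have hν : 0 < a₀ / 2 := by positivity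
  obtain ⟨n, φ, A, ρ, ε, ε', K, hε', T⟩ := TUB hπ hD hs hσ hm hfib hH hE Γ hper hν hε₁
  obtain ⟨τ, hτ, hlow⟩ := QBD_lower T hm hκb
  obtain ⟨K', hK', hgla⟩ := GLA T hD hσ hE hm hν hκc hKκ hκb hκU hκL hτ hlow
  obtain ⟨θ, hθ, hθa⟩ := gex_theta hK' T.ρ_pos ha₀
  obtain ⟨η₁, hη₁, hη₁ε, hsmall⟩ := T.small θ hθ
  obtain ⟨η₂, hη₂, hQs⟩ := QBD_small T hm hν hκb hτ
  have hρ := T.ρ_pos
  have hKp := T.K_pos
  have hπg : ∀ {g : ℂ → S} {ζ : ℂ} {r : ℝ}, 0 < r → SecOn π D (ball ζ r) g →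
      π (g ζ) = Λ.mkQ ζ := fun hr hg => (hg.2 _ (mem_ball_self hr)).2
  refine ⟨fun ζ p => Gf σ E κ (a₀ / 2) ρ ε τ φ A ζ p, min η₁ η₂, a₀ / 4, K' * (K ^ 2 + K),
    ?_, ?_, ?_, ?_, ?_, ?_, ?_, ?_, ?_, ?_⟩
  · exact lt_min hη₁ hη₂
  · positivity
  · positivity
  · intro ω hω ζ p
    simp only [Gf, hper ω hω, QBD_per T hper hκper hω]
  · intro ζ p
    simp only [Gf]
    split_ifs with h
    · have h0 : 0 ≤ Qf σ E κ (a₀ / 2) ρ φ A ζ p := Qf_nonneg ζ p
      rcases h0.eq_or_lt with h1 | h1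
      · rw [← h1]
        simp
      · have := psi_nonpos (div_pos h1 hτ)
        linarith
    · exact zero_le_one
  · intro ζ p hp hd
    simp only [Gf]
    rw [if_neg]
    rintro ⟨h1, h2⟩
    have := hlow ζ p (mem_closedBall.2 h1.le) hp (hε'.trans hd)
    linarith
  · intro g ζ r hr hg hne
    exact GLA_cont T hD hE hm hν hκc hτ hlow hr hg hne
  · intro g ζ r hr hg hne
    have hsp := hH.pos g ζ r hr hg
    rcases hgla g ζ r hr hg hne with h | ⟨i, b, hb, hζb, hd, h⟩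
    · refine ((LL.const 0 ζ).congr h).mono ?_
      have : 0 ≤ K' * (K ^ 2 + K) * (1 + speed H g ζ) := by positivity
      linarith
    · refine h.mono ?_
      have hζ4 : ζ ∈ ball b (4 * ρ) := by
        rw [mem_ball, dist_eq_norm]
        linarith
      have h1 := T.upper i b hb ζ hζ4 (g ζ) (mem_closedBall.2 hd.le)
      have h2 := T.dom i b hb ζ hζ4 g r hr hg hd.le
      have h3 : ‖(φ i (g ζ)).2 - (φ i (E ζ)).2‖ ^ 2 ≤ K ^ 2 := by
        have := norm_nonneg ((φ i (g ζ)).2 - (φ i (E ζ)).2)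
        nlinarith
      have h4 : K' * (‖(φ i (g ζ)).2 - (φ i (E ζ)).2‖ ^ 2 +
          ‖deriv (fun t => (φ i (g t)).2 - (φ i (E t)).2) ζ‖ ^ 2) ≤
          K' * (K ^ 2 + K * (1 + speed H g ζ)) :=
        mul_le_mul_of_nonneg_left (add_le_add h3 h2) hK'
      have h5 : K' * (K ^ 2 + K * (1 + speed H g ζ)) ≤
          K' * (K ^ 2 + K) * (1 + speed H g ζ) := by
        have : 0 ≤ K' * K ^ 2 * speed H g ζ := by positivity
        nlinarith
      linarith
  · intro g ζ hg hη hne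
    have hζ : ζ ∈ ball ζ 1 := mem_ball_self one_pos
    have h0 := hη ζ hζ
    have hd : dist (g ζ) (E ζ) < ε := (h0.trans_le (min_le_left _ _)).trans_le hη₁ε
    have hpi := hπg one_pos hg
    have hQ1 : Qf σ E κ (a₀ / 2) ρ φ A ζ (g ζ) < τ := hQs ζ (g ζ) (h0.trans_le (min_le_right _ _))
    have hQ0 := (Qf_attained (κ := κ) T hm hν (mem_closedBall.2 hd.le) hpi hne).1
    rcases hgla g ζ 1 one_pos hg hne with h | ⟨i, b, hb, hζb, -, h⟩
    · exfalso
      have h1 := h.self_of_nhds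
      simp only [Gf] at h1
      rw [if_pos ⟨hd, hQ1⟩] at h1
      have := gex_neg (div_pos hQ0 hτ) ((div_lt_one hτ).2 hQ1)
      linarith
    · refine h.mono ?_
      have hb4 : ∀ t ∈ ball ζ ρ, t ∈ ball b (4 * ρ) := by
        intro t ht
        rw [mem_ball, dist_eq_norm] at ht ⊢
        have : t - b = (t - ζ) + (ζ - b) := by ring
        rw [this]
        have := norm_add_le (t - ζ) (ζ - b)
        linarith
      have hb1 : ∀ t ∈ ball ζ ρ, t ∈ ball ζ 1 := fun t ht => ball_subset_ball T.ρ_le ht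
      have hdt : ∀ t ∈ ball ζ ρ, ‖(φ i (g t)).2 - (φ i (E t)).2‖ < θ := fun t ht =>
        hsmall i b hb t (hb4 t ht) (g t) ((hη t (hb1 t ht)).trans_le (min_le_left _ _))
      have hsrc : ∀ t ∈ ball ζ ρ, g t ∈ (φ i).source ∧ E t ∈ (φ i).source := by
        intro t ht
        have h1 := T.tube i b hb t (hb4 t ht)
        have h2 := ((hη t (hb1 t ht)).trans_le (min_le_left _ _)).trans_le hη₁ε
        exact ⟨h1 (mem_closedBall.2 h2.le), h1 (mem_closedBall_self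
          ((dist_nonneg.trans_lt h2).le))⟩
      have hdiff : ∀ t ∈ ball ζ ρ,
          DifferentiableAt ℂ (fun t => (φ i (g t)).2 - (φ i (E t)).2) t := by
        intro t ht
        have h1 := mdiff_chart (hg.mdiff isOpen_ball (hb1 t ht)) (T.mem i) (hsrc t ht).1
        have h2 := mdiff_chart (hE.1 t) (T.mem i) (hsrc t ht).2
        exact h1.snd.sub h2.snd
      have hder : ‖deriv (fun t => (φ i (g t)).2 - (φ i (E t)).2) ζ‖ ≤ θ / (ρ / 2) := by
        apply Complex.norm_deriv_le_of_forall_mem_sphere_norm_le (by positivity)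
        · apply DifferentiableOn.diffContOnCl
          intro t ht
          rw [closure_ball _ (by positivity)] at ht
          exact (hdiff t (closedBall_subset_ball (by linarith) ht)).differentiableWithinAt
        · intro t ht
          exact (hdt t (closedBall_subset_ball (by linarith) (sphere_subset_closedBall ht))).le
      have h1 : ‖(φ i (g ζ)).2 - (φ i (E ζ)).2‖ ^ 2 ≤ θ ^ 2 := by
        have h2 := (hdt ζ (mem_ball_self hρ)).le
        have := norm_nonneg ((φ i (g ζ)).2 - (φ i (E ζ)).2)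
        nlinarith
      have h2 : ‖deriv (fun t => (φ i (g t)).2 - (φ i (E t)).2) ζ‖ ^ 2 ≤ (θ / (ρ / 2)) ^ 2 :=
        pow_le_pow_left₀ (norm_nonneg _) hder 2
      have h3 := mul_le_mul_of_nonneg_left (add_le_add h1 h2) hK'
      linarith
  · intro g ζ₀ r hr hg heq hnev M
    set τ' : ℝ := τ * min 1 (Real.exp (M - 1)) with hτ'
    have hmin : 0 < min 1 (Real.exp (M - 1)) := lt_min one_pos (Real.exp_pos _)
    have hτ'p : 0 < τ' := mul_pos hτ hmin
    obtain ⟨η', hη', hQ'⟩ := QBD_small T hm hν hκb hτ'p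
    have hgm : ∀ᶠ t in 𝓝 ζ₀, MDifferentiableAt 𝓘(ℂ, ℂ) 𝓘(ℂ, ℂ × ℂ) g t := by
      filter_upwards [isOpen_ball.mem_nhds (mem_ball_self (x := ζ₀) hr)] with t ht
      exact hg.mdiff isOpen_ball ht
    have hEm : ∀ᶠ t in 𝓝 ζ₀, MDifferentiableAt 𝓘(ℂ, ℂ) 𝓘(ℂ, ℂ × ℂ) E t :=
      Eventually.of_forall fun t => hE.1 t
    have hne : ∀ᶠ t in 𝓝[≠] ζ₀, g t ≠ E t := (EQD hgm hEm).resolve_left hnev
    have hcg : ContinuousAt g ζ₀ := hg.cont isOpen_ball (mem_ball_self hr)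
    have hcE : ContinuousAt E ζ₀ := hE.1.cont.continuousAt
    have hcd : ContinuousAt (fun t => dist (g t) (E t)) ζ₀ := hcg.dist hcE
    have hεp : 0 < ε := T.ε₁_pos.trans T.ε₁_lt
    have hev : ∀ᶠ t in 𝓝 ζ₀, dist (g t) (E t) < min η' ε := by
      refine hcd.eventually (gt_mem_nhds ?_)
      show dist (g ζ₀) (E ζ₀) < min η' ε
      rw [heq, dist_self]
      exact lt_min hη' hεp
    have hbr : ∀ᶠ t in 𝓝 ζ₀, t ∈ ball ζ₀ r := isOpen_ball.mem_nhds (mem_ball_self hr)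
    filter_upwards [hne, hev.filter_mono nhdsWithin_le_nhds,
      hbr.filter_mono nhdsWithin_le_nhds] with t h1 h2 h3
    have h4 : dist (g t) (E t) < ε := h2.trans_le (min_le_right _ _)
    have h5 := hQ' t (g t) (h2.trans_le (min_le_left _ _))
    have h6 := (Qf_attained (κ := κ) T hm hν (mem_closedBall.2 h4.le) (hg.2 t h3).2 h1).1
    have h7 : Qf σ E κ (a₀ / 2) ρ φ A t (g t) < τ := by
      have : τ' ≤ τ := by
        rw [hτ']
        nlinarith [min_le_left 1 (Real.exp (M - 1))]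
      linarith
    simp only [Gf]
    rw [if_pos ⟨h4, h7⟩]
    have h8 : 0 < Qf σ E κ (a₀ / 2) ρ φ A t (g t) / τ := div_pos h6 hτ
    have h9 : Qf σ E κ (a₀ / 2) ρ φ A t (g t) / τ ≤ Real.exp (M - 1) := by
      rw [div_le_iff₀ hτ]
      have : τ' ≤ Real.exp (M - 1) * τ := by
        rw [hτ', mul_comm]
        exact mul_le_mul_of_nonneg_right (min_le_right _ _) hτ.le
      linarith
    have h10 := Real.log_le_log h8 h9
    rw [Real.log_exp] at h10
    linarith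

end Pool.Agent.VEB
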