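import Pool.Agent.VEB.UQE
import Pool.Agent.EPO.LLH

open scoped Manifold Topology
open Filter Metric Set

namespace Pool.Agent.VEB

open Pool.Agent.ELL Pool.Agent.EPO

/-- The truncated logarithm of `‖h‖² e^b`. -/
theorem PSI {K : ℝ} (hK : 0 ≤ K) : ∃ C : ℝ, 0 ≤ C ∧ ∀ (h : ℂ → ℂ) (b : ℂ → ℝ) (ζ : ℂ) (τ a : ℝ),
    0 < τ → AnalyticAt ℂ h ζ → h ζ ≠ 0 → UQ b ζ K → b ζ ≤ K → (∀ᶠ t in 𝓝 ζ, ContinuousAt b t) →
      LL b ζ a →
        LL (fun t => Real.log (‖h t‖ ^ 2 * Real.exp (b t) / τ) + 1 -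
          ‖h t‖ ^ 2 * Real.exp (b t) / τ) ζ (a - C / τ * (‖h ζ‖ ^ 2 + ‖deriv h ζ‖ ^ 2)) := by
  obtain ⟨C, hC, hL⟩ := LL_neg_mul_exp hK
  refine ⟨C, hC, ?_⟩
  intro h b ζ τ a hτ ha h0 hb hbK hc hl
  have l1 := (LL_log_norm ha h0).const_mul (by norm_num : (0 : ℝ) ≤ 2)
  have l2 := (hL h b ζ ha hb hbK hc).const_mul (inv_nonneg.2 hτ.le)
  have l3 := ((l1.add hl).add (LL.const (1 - Real.log τ) ζ)).add l2
  refine (l3.congr ?_).mono ?_
  · filter_upwards [ha.continuousAt.eventually_ne h0] with t ht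
    have hn : ‖h t‖ ≠ 0 := norm_ne_zero_iff.2 ht
    rw [Real.log_div (mul_ne_zero (pow_ne_zero 2 hn) (Real.exp_pos _).ne') hτ.ne',
      Real.log_mul (pow_ne_zero 2 hn) (Real.exp_pos _).ne', Real.log_exp, Real.log_pow]
    push_cast
    rw [div_eq_inv_mul]
    ring
  · apply le_of_eq
    rw [div_eq_inv_mul]
    ring

/-- elementary properties of the truncated logarithm -/
theorem psi_nonpos {x : ℝ} (hx : 0 < x) : Real.log x + 1 - x ≤ 0 := by
  have := Real.log_le_sub_one_of_pos hx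
  linarith

theorem psi_mono {x y : ℝ} (hx : 0 < x) (hxy : x ≤ y) (hy : y ≤ 1) :
    Real.log x + 1 - x ≤ Real.log y + 1 - y := by
  have hy0 : 0 < y := hx.trans_le hxy
  have h1 := Real.one_sub_inv_le_log_of_pos (x := y / x) (by positivity)
  rw [Real.log_div hy0.ne' hx.ne'] at h1
  have h2 : y - x ≤ 1 - (y / x)⁻¹ := by
    rw [inv_div]
    have h3 : 1 - x / y = (y - x) / y := by
      field_simp
    rw [h3, le_div_iff₀ hy0]
    nlinarith
  linarith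

end Pool.Agent.VEB
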