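import Pool.Agent.VEB.QMX
import Pool.Agent.VEB.SCP

open scoped Manifold Topology
open Filter Metric Set

namespace Pool.Agent.VEB

open Pool.Agent.ELL Pool.Agent.EPO

variable {S : Type*} [MetricSpace S] [CompactSpace S] [ChartedSpace (ℂ × ℂ) S]
  [IsManifold 𝓘(ℂ, ℂ × ℂ) 1 S] {Λ : Submodule ℤ ℂ} [DiscreteTopology Λ] [IsZLattice ℝ Λ]
  {π : S → ℂ ⧸ Λ} {D : Set S} {m : ℕ} {ι : Type} [Fintype ι] {σ : ι → PluriForm S m D}
  {H : (p : S) → TangentSpace 𝓘(ℂ, ℂ × ℂ) p → ℝ} {Γ : Submodule ℤ ℂ} {E : ℂ → S} {n : ℕ}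
  {φ : Fin n → OpenPartialHomeomorph S (ℂ × ℂ)} {A : Fin n → Set ℂ} {ν ρ ε ε₁ K : ℝ}
  {κ : ℂ → ℝ}

/-- `Qf` is bounded below away from `E`. -/
theorem QBD_lower (T : Tub π D H σ Γ E φ A ν ρ ε ε₁ K) (hm : 0 < m) {Kκ : ℝ}
    (hκb : ∀ ζ, |κ ζ| ≤ Kκ) : ∃ τ > 0, ∀ ζ, ∀ p ∈ closedBall (E ζ) ε, π p = Λ.mkQ ζ →
      ε₁ ≤ dist p (E ζ) → τ ≤ Qf σ E κ ν ρ φ A ζ p := by
  have hK := T.K_pos
  refine ⟨(K⁻¹) ^ 2 * Real.exp (2 / (m : ℝ) * (-Real.log K) - Kκ), by positivity, ?_⟩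
  intro ζ p hp hπp hd
  obtain ⟨j, hj⟩ := T.cover ζ
  have hρ := T.ρ_pos
  have hζj2 : ζ ∈ ball ζ (2 * ρ) := mem_ball_self (by linarith)
  have hζj4 : ζ ∈ ball ζ (4 * ρ) := mem_ball_self (by linarith)
  refine le_trans ?_ (Qi_le_Qf hj hζj2 p)
  rw [Qi_eq T hm hj hζj4 p, infDist_zero_of_mem hj]
  have h1 := T.lower j ζ hj ζ hζj4 p hp hπp hd
  have h2 := (T.bdd j ζ hj ζ hζj4).1
  have hKi : 0 < K⁻¹ := inv_pos.2 hK
  have h3 : -Real.log K ≤ Real.log ‖vec σ (φ j) (E ζ)‖ := by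
    rw [← Real.log_inv]
    exact Real.log_le_log hKi h2
  have h4 : -Kκ ≤ κ ζ := (abs_le.1 (hκb ζ)).1
  apply mul_le_mul
  · exact pow_le_pow_left₀ hKi.le h1 2
  · apply Real.exp_le_exp.2
    have h5 : 2 / (m : ℝ) * (-Real.log K) ≤ 2 / (m : ℝ) * Real.log ‖vec σ (φ j) (E ζ)‖ :=
      mul_le_mul_of_nonneg_left h3 (by positivity)
    have h6 : ν * (0 : ℝ) ^ 2 = 0 := by ring
    rw [h6]
    linarith
  · exact (Real.exp_pos _).le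
  · positivity

/-- `Qf` is small near `E`. -/
theorem QBD_small (T : Tub π D H σ Γ E φ A ν ρ ε ε₁ K) (hm : 0 < m) (hν : 0 < ν) {Kκ : ℝ}
    (hκb : ∀ ζ, |κ ζ| ≤ Kκ) {τ : ℝ} (hτ : 0 < τ) : ∃ η > 0, ∀ ζ, ∀ p,
      dist p (E ζ) < η → Qf σ E κ ν ρ φ A ζ p < τ := by
  classical
  have hK := T.K_pos
  set M : ℝ := Real.exp (2 / (m : ℝ) * Real.log K + Kκ) with hM
  have hMpos : 0 < M := Real.exp_pos _
  have hθ : 0 < Real.sqrt (τ / M) := Real.sqrt_pos.2 (div_pos hτ hMpos)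
  obtain ⟨η, hη, -, hη2⟩ := T.small (Real.sqrt (τ / M)) hθ
  refine ⟨η, hη, ?_⟩
  intro ζ p hp
  obtain ⟨j, hj⟩ := T.cover ζ
  have : Nonempty (Fin n) := ⟨j⟩
  obtain ⟨i, hi⟩ := exists_eq_ciSup_of_finite (f := fun i => if ∃ c ∈ A i, ζ ∈ ball c (2 * ρ) then
    Qi σ E κ ν (φ i) (A i) ζ p else 0)
  have hi' : (if ∃ c ∈ A i, ζ ∈ ball c (2 * ρ) then Qi σ E κ ν (φ i) (A i) ζ p else 0) =
      Qf σ E κ ν ρ φ A ζ p := hi
  rw [← hi']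
  split_ifs with hex
  · obtain ⟨c, hc, hζc⟩ := hex
    have hρ := T.ρ_pos
    have hζ4 : ζ ∈ ball c (4 * ρ) := by
      rw [mem_ball] at hζc ⊢
      linarith
    rw [Qi_eq T hm hc hζ4 p]
    have h1 := hη2 i c hc ζ hζ4 p hp
    have h2 := T.bdd i c hc ζ hζ4
    have hv : 0 < ‖vec σ (φ i) (E ζ)‖ := lt_of_lt_of_le (inv_pos.2 hK) h2.1
    have h3 : Real.log ‖vec σ (φ i) (E ζ)‖ ≤ Real.log K := Real.log_le_log hv h2.2
    have h4 : κ ζ ≤ Kκ := (abs_le.1 (hκb ζ)).2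
    have h5 : 2 / (m : ℝ) * Real.log ‖vec σ (φ i) (E ζ)‖ ≤ 2 / (m : ℝ) * Real.log K :=
      mul_le_mul_of_nonneg_left h3 (by positivity)
    have h6 : 0 ≤ ν * infDist ζ (A i) ^ 2 := by positivity
    have h7 : Real.exp (2 / (m : ℝ) * Real.log ‖vec σ (φ i) (E ζ)‖ + κ ζ -
        ν * infDist ζ (A i) ^ 2) ≤ M := by
      rw [hM]
      apply Real.exp_le_exp.2
      linarith
    have h8 : ‖(φ i p).2 - (φ i (E ζ)).2‖ ^ 2 < τ / M := by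
      have := pow_lt_pow_left₀ h1 (norm_nonneg _) (two_ne_zero)
      rwa [Real.sq_sqrt (div_pos hτ hMpos).le] at this
    calc ‖(φ i p).2 - (φ i (E ζ)).2‖ ^ 2 * Real.exp (2 / (m : ℝ) *
          Real.log ‖vec σ (φ i) (E ζ)‖ + κ ζ - ν * infDist ζ (A i) ^ 2)
        ≤ ‖(φ i p).2 - (φ i (E ζ)).2‖ ^ 2 * M :=
          mul_le_mul_of_nonneg_left h7 (by positivity)
      _ < τ / M * M := mul_lt_mul_of_pos_right h8 hMpos
      _ = τ := div_mul_cancel₀ _ hMpos.ne'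
  · exact hτ

theorem QBD_per (T : Tub π D H σ Γ E φ A ν ρ ε ε₁ K) (hE : ∀ ω ∈ Γ, ∀ ζ, E (ζ + ω) = E ζ)
    (hκ : ∀ ω ∈ Γ, ∀ ζ, κ (ζ + ω) = κ ζ) {ω : ℂ} (hω : ω ∈ Γ) (ζ : ℂ) (p : S) :
    Qf σ E κ ν ρ φ A (ζ + ω) p = Qf σ E κ ν ρ φ A ζ p := by
  classical
  have hA : ∀ i, (fun z => z + ω) '' A i = A i := by
    intro i
    ext z
    constructor
    · rintro ⟨y, hy, rfl⟩
      exact T.per i ω hω y hy
    · intro hz
      refine ⟨z - ω, ?_, by simp⟩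
      have := T.per i (-ω) (Γ.neg_mem hω) z hz
      rwa [← sub_eq_add_neg] at this
  have hinf : ∀ i, infDist (ζ + ω) (A i) = infDist ζ (A i) := by
    intro i
    have hiso : Isometry (fun z : ℂ => z + ω) := by
      intro x y
      simp
    have := infDist_image hiso (x := ζ) (t := A i)
    rw [hA i] at this
    exact this
  unfold Qf
  congr 1
  funext i
  have hiff : (∃ c ∈ A i, ζ + ω ∈ ball c (2 * ρ)) ↔ ∃ c ∈ A i, ζ ∈ ball c (2 * ρ) := by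
    constructor
    · rintro ⟨c, hc, hb⟩
      refine ⟨c - ω, ?_, ?_⟩
      · have := T.per i (-ω) (Γ.neg_mem hω) c hc
        rwa [← sub_eq_add_neg] at this
      · rw [mem_ball, dist_eq_norm] at hb ⊢
        rwa [show ζ - (c - ω) = ζ + ω - c by ring]
    · rintro ⟨c, hc, hb⟩
      refine ⟨c + ω, T.per i ω hω c hc, ?_⟩
      rw [mem_ball, dist_eq_norm] at hb ⊢
      rwa [show ζ + ω - (c + ω) = ζ - c by ring]
  have hQ : Qi σ E κ ν (φ i) (A i) (ζ + ω) p = Qi σ E κ ν (φ i) (A i) ζ p := by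
    unfold Qi
    rw [hE ω hω ζ, hκ ω hω ζ, hinf i]
  by_cases hex : ∃ c ∈ A i, ζ ∈ ball c (2 * ρ)
  · rw [if_pos hex, if_pos (hiff.2 hex), hQ]
  · rw [if_neg hex, if_neg (fun h => hex (hiff.1 h))]

end Pool.Agent.VEB
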