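import Pool.Agent.VEB.Defs2
import Pool.Agent.EPO.LLQ

open scoped Manifold Topology
open Filter Metric Set

namespace Pool.Agent.VEB

open Pool.Agent.ELL Pool.Agent.EPO

variable {ι : Type} [Fintype ι]

private theorem llv_of_lt {ψ : ℂ → ℝ} {ζ : ℂ} {c : ℝ} (h : ∀ c' < c, LL ψ ζ c') : LL ψ ζ c := by
  intro c' hc'
  obtain ⟨d, hd1, hd2⟩ := exists_between hc'
  exact h d hd2 c' hd1

private theorem llv_cont {q : ℂ → EuclideanSpace ℂ ι} {ζ : ℂ} (ha : AnalyticAt ℂ q ζ) :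
    ∀ᶠ η in 𝓝 ζ, ContinuousAt (fun η => Real.log (1 + ‖q η‖ ^ 2)) η := by
  filter_upwards [ha.eventually_analyticAt] with η hη
  refine ContinuousAt.log ?_ (by positivity)
  exact continuousAt_const.add (hη.continuousAt.norm.pow 2)

private theorem llv_dslope {q : ℂ → EuclideanSpace ℂ ι} {ζ : ℂ} (hq : q ζ = 0) (η : ℂ) :
    ‖q η‖ ^ 2 = ‖η - ζ‖ ^ 2 * ‖dslope q ζ η‖ ^ 2 := by
  have h := sub_smul_dslope q ζ η
  rw [hq, sub_zero] at h
  rw [← h, norm_smul, mul_pow]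

private theorem llv_pos {q : ℂ → EuclideanSpace ℂ ι} {ζ : ℂ} (ha : AnalyticAt ℂ q ζ)
    (hq : q ζ = 0) :
    LL (fun η => Real.log (1 + ‖q η‖ ^ 2)) ζ (‖deriv q ζ‖ ^ 2) := by
  apply llv_of_lt
  intro c' hc'
  rcases lt_or_ge 0 (‖deriv q ζ‖ ^ 2) with hpos | hnon
  · obtain ⟨d, hd1, hd2⟩ := exists_between (max_lt hc' hpos)
    have hd0 : 0 ≤ d := (le_max_right c' 0).trans hd1.le
    have hd3 : c' ≤ d := (le_max_left c' 0).trans hd1.le
    have hF : ContinuousAt (fun η => ‖dslope q ζ η‖ ^ 2 / (1 + ‖q η‖ ^ 2)) ζ := by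
      have h1 : ContinuousAt (dslope q ζ) ζ := continuousAt_dslope_same.2 ha.differentiableAt
      refine ContinuousAt.div (h1.norm.pow 2)
        (continuousAt_const.add (ha.continuousAt.norm.pow 2)) ?_
      positivity
    have hF0 : d < ‖dslope q ζ ζ‖ ^ 2 / (1 + ‖q ζ‖ ^ 2) := by
      rw [dslope_same, hq]
      simpa using hd2
    have hev := hF.eventually_const_lt hF0
    have hLL : LL (fun η => d * ‖η - ζ‖ ^ 2) ζ d := by
      have := (LL_sq ζ ζ).const_mul hd0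
      rwa [mul_one] at this
    refine (LL.touch hLL ?_ ?_ (llv_cont ha)).mono hd3
    · filter_upwards [hev] with η hη
      have h2 : 1 - (1 + ‖q η‖ ^ 2)⁻¹ ≤ Real.log (1 + ‖q η‖ ^ 2) :=
        Real.one_sub_inv_le_log_of_pos (by positivity)
      refine le_trans ?_ h2
      have h3 : 1 - (1 + ‖q η‖ ^ 2)⁻¹ = ‖η - ζ‖ ^ 2 *
          (‖dslope q ζ η‖ ^ 2 / (1 + ‖q η‖ ^ 2)) := by
        rw [← mul_div_assoc, ← llv_dslope hq η]
        field_simp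
        ring
      rw [h3, mul_comm d]
      exact mul_le_mul_of_nonneg_left hη.le (by positivity)
    · simp [hq]
  · have h0 : ‖deriv q ζ‖ ^ 2 = 0 := le_antisymm hnon (by positivity)
    rw [h0] at hc'
    refine (LL.touch (LL.const 0 ζ) ?_ ?_ (llv_cont ha)).mono hc'.le
    · refine Eventually.of_forall fun η => Real.log_nonneg ?_
      have : 0 ≤ ‖q η‖ ^ 2 := by positivity
      linarith
    · simp [hq]

private theorem llv_neg {q : ℂ → EuclideanSpace ℂ ι} {ζ : ℂ} (ha : AnalyticAt ℂ q ζ)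
    (hq : q ζ = 0) :
    LL (fun η => -Real.log (1 + ‖q η‖ ^ 2)) ζ (-‖deriv q ζ‖ ^ 2) := by
  apply llv_of_lt
  intro c' hc'
  have hd : ‖deriv q ζ‖ ^ 2 < -c' := by linarith
  have hd0 : 0 ≤ -c' := le_trans (by positivity) hd.le
  have hF : ContinuousAt (fun η => ‖dslope q ζ η‖ ^ 2) ζ := by
    have h1 : ContinuousAt (dslope q ζ) ζ := continuousAt_dslope_same.2 ha.differentiableAt
    exact h1.norm.pow 2
  have hF0 : ‖dslope q ζ ζ‖ ^ 2 < -c' := by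
    rw [dslope_same]
    exact hd
  have hev := hF.eventually_lt_const hF0
  have hLL : LL (fun η => -c' * -‖η - ζ‖ ^ 2) ζ c' := by
    have := (LL_neg_sq ζ ζ).const_mul hd0
    rwa [mul_neg_one, neg_neg] at this
  refine LL.touch hLL ?_ ?_ ?_
  · filter_upwards [hev] with η hη
    have h2 : Real.log (1 + ‖q η‖ ^ 2) ≤ ‖q η‖ ^ 2 := by
      have := Real.log_le_sub_one_of_pos (x := 1 + ‖q η‖ ^ 2) (by positivity)
      linarith
    have h3 : ‖q η‖ ^ 2 ≤ ‖η - ζ‖ ^ 2 * -c' := by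
      rw [llv_dslope hq η]
      exact mul_le_mul_of_nonneg_left hη.le (by positivity)
    linarith
  · simp [hq]
  · filter_upwards [llv_cont ha] with η hη
    exact hη.neg

private theorem llv_setup {v : ℂ → EuclideanSpace ℂ ι} {ζ : ℂ} (hv : AnalyticAt ℂ v ζ)
    (h0 : v ζ ≠ 0) :
    ∃ (u : ℂ → ℂ) (q : ℂ → EuclideanSpace ℂ ι), AnalyticAt ℂ u ζ ∧ u ζ ≠ 0 ∧
      AnalyticAt ℂ q ζ ∧ q ζ = 0 ∧
      ‖deriv q ζ‖ ^ 2 = (‖v ζ‖ ^ 2 * ‖deriv v ζ‖ ^ 2 - ‖inner ℂ (v ζ) (deriv v ζ)‖ ^ 2) /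
        ‖v ζ‖ ^ 4 ∧
      ∀ᶠ η in 𝓝 ζ, Real.log ‖v η‖ = Real.log ‖u η‖ + -Real.log ‖v ζ‖ +
        1 / 2 * Real.log (1 + ‖q η‖ ^ 2) := by
  have hN : 0 < ‖v ζ‖ := norm_pos_iff.2 h0
  have hα : AnalyticAt ℂ (fun t => innerSL ℂ (v ζ) (v t)) ζ :=
    (innerSL ℂ (v ζ)).analyticAt _ |>.comp hv
  have hα' : AnalyticAt ℂ (fun t => inner ℂ (v ζ) (v t)) ζ := hα
  have hNc : ((‖v ζ‖ : ℝ) : ℂ) ≠ 0 := by exact_mod_cast hN.ne'
  have hα0 : inner ℂ (v ζ) (v ζ) = ((‖v ζ‖ : ℝ) : ℂ) ^ 2 := by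
    rw [inner_self_eq_norm_sq_to_K]
    rfl
  have hα1 : inner ℂ (v ζ) (v ζ) ≠ 0 := by
    rw [hα0]
    positivity
  set N : ℂ := ((‖v ζ‖ : ℝ) : ℂ) with hNdef
  set q : ℂ → EuclideanSpace ℂ ι := fun t =>
    (N / inner ℂ (v ζ) (v t)) • v t - N⁻¹ • v ζ with hq
  have hqa : AnalyticAt ℂ q ζ :=
    ((analyticAt_const.div hα' hα1).smul hv).sub analyticAt_const
  have hq0 : q ζ = 0 := by
    simp only [hq]
    rw [hα0, ← sub_smul]
    have : N / N ^ 2 - N⁻¹ = 0 := by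
      field_simp
      ring
    rw [this, zero_smul]
  refine ⟨fun t => inner ℂ (v ζ) (v t), q, hα', hα1, hqa, hq0, ?_, ?_⟩
  · have hd : HasDerivAt q ((N / inner ℂ (v ζ) (v ζ)) • deriv v ζ +
        ((0 * inner ℂ (v ζ) (v ζ) - N * inner ℂ (v ζ) (deriv v ζ)) /
          inner ℂ (v ζ) (v ζ) ^ 2) • v ζ) ζ := by
      have h1 : HasDerivAt v (deriv v ζ) ζ := hv.differentiableAt.hasDerivAt
      have h2 : HasDerivAt (fun t => inner ℂ (v ζ) (v t)) (inner ℂ (v ζ) (deriv v ζ)) ζ := by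
        have h3 := (innerSL ℂ (v ζ)).hasFDerivAt.comp_hasDerivAt ζ h1
        exact h3
      have h3 : HasDerivAt (fun t => N / inner ℂ (v ζ) (v t))
          ((0 * inner ℂ (v ζ) (v ζ) - N * inner ℂ (v ζ) (deriv v ζ)) /
            inner ℂ (v ζ) (v ζ) ^ 2) ζ :=
        (hasDerivAt_const ζ N).div h2 hα1
      have h4 := (h3.smul h1).sub_const (N⁻¹ • v ζ)
      exact h4
    have e1 : deriv q ζ = N⁻¹ • deriv v ζ - (inner ℂ (v ζ) (deriv v ζ) / N ^ 3) • v ζ := by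
      rw [hd.deriv, hα0]
      have e2 : N / N ^ 2 = N⁻¹ := by
        field_simp
      have e3 : (0 * N ^ 2 - N * inner ℂ (v ζ) (deriv v ζ)) / (N ^ 2) ^ 2 =
          -(inner ℂ (v ζ) (deriv v ζ) / N ^ 3) := by
        field_simp
        ring
      rw [e2, e3, neg_smul, sub_eq_add_neg]
    rw [e1, norm_sub_sq (𝕜 := ℂ), inner_smul_left, inner_smul_right, norm_smul, norm_smul]
    have e4 : inner ℂ (deriv v ζ) (v ζ) = (starRingEnd ℂ) (inner ℂ (v ζ) (deriv v ζ)) :=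
      (inner_conj_symm _ _).symm
    rw [e4]
    set b : ℂ := inner ℂ (v ζ) (deriv v ζ) with hb
    have e5 : (starRingEnd ℂ) N⁻¹ * (b / N ^ 3 * (starRingEnd ℂ) b) =
        ((‖b‖ ^ 2 / ‖v ζ‖ ^ 4 : ℝ) : ℂ) := by
      have e6 : b * (starRingEnd ℂ) b = ((‖b‖ ^ 2 : ℝ) : ℂ) := by
        rw [Complex.mul_conj, Complex.normSq_eq_norm_sq]
      rw [map_inv₀, hNdef, Complex.conj_ofReal]
      have e7 : ((‖v ζ‖ : ℝ) : ℂ)⁻¹ * (b / ((‖v ζ‖ : ℝ) : ℂ) ^ 3 * (starRingEnd ℂ) b) =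
          (b * (starRingEnd ℂ) b) / ((‖v ζ‖ : ℝ) : ℂ) ^ 4 := by
        field_simp
      rw [e7, e6]
      push_cast
      rfl
    rw [e5]
    simp only [RCLike.re_to_complex, Complex.ofReal_re, norm_inv, norm_div, norm_pow]
    have e8 : ‖N‖ = ‖v ζ‖ := by
      rw [hNdef, Complex.norm_real, norm_norm]
    rw [e8]
    field_simp
    ring
  · have hne : ∀ᶠ η in 𝓝 ζ, inner ℂ (v ζ) (v η) ≠ 0 := hα'.continuousAt.eventually_ne hα1
    filter_upwards [hne] with η hη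
    have hin : 0 < ‖inner ℂ (v ζ) (v η)‖ := norm_pos_iff.2 hη
    have hvη : 0 < ‖v η‖ := by
      rw [norm_pos_iff]
      intro h
      apply hη
      rw [h, inner_zero_right]
    have key : 1 + ‖q η‖ ^ 2 = ‖v ζ‖ ^ 2 * ‖v η‖ ^ 2 / ‖inner ℂ (v ζ) (v η)‖ ^ 2 := by
      simp only [hq]
      rw [norm_sub_sq (𝕜 := ℂ), inner_smul_left, inner_smul_right, norm_smul, norm_smul]
      have e4 : inner ℂ (v η) (v ζ) = (starRingEnd ℂ) (inner ℂ (v ζ) (v η)) :=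
        (inner_conj_symm _ _).symm
      rw [e4]
      set b : ℂ := inner ℂ (v ζ) (v η) with hb
      have hb' : (starRingEnd ℂ) b ≠ 0 := by
        rw [Ne, map_eq_zero]
        exact hη
      have e5 : (starRingEnd ℂ) (N / b) * (N⁻¹ * (starRingEnd ℂ) b) = 1 := by
        have e6 : (starRingEnd ℂ) N = N := by rw [hNdef, Complex.conj_ofReal]
        rw [map_div₀, e6]
        field_simp
      rw [e5]
      simp only [RCLike.re_to_complex, Complex.one_re, norm_div, norm_inv]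
      have e8 : ‖N‖ = ‖v ζ‖ := by
        rw [hNdef, Complex.norm_real, norm_norm]
      rw [e8]
      field_simp
      ring
    rw [key, Real.log_div (by positivity) (by positivity), Real.log_mul (by positivity)
      (by positivity), Real.log_pow, Real.log_pow, Real.log_pow]
    push_cast
    ring

/-- Laplacian of the logarithm of the norm of a holomorphic vector -/
theorem LLV {v : ℂ → EuclideanSpace ℂ ι} {ζ : ℂ} (hv : AnalyticAt ℂ v ζ) (h0 : v ζ ≠ 0) :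
    LL (fun t => Real.log ‖v t‖) ζ
      ((‖v ζ‖ ^ 2 * ‖deriv v ζ‖ ^ 2 - ‖inner ℂ (v ζ) (deriv v ζ)‖ ^ 2) / (2 * ‖v ζ‖ ^ 4)) := by
  obtain ⟨u, q, hu, hu0, hq, hq0, hd, hev⟩ := llv_setup hv h0
  have h1 := ((LL_log_norm hu hu0).add (LL.const (-Real.log ‖v ζ‖) ζ)).add
    ((llv_pos hq hq0).const_mul (by norm_num : (0 : ℝ) ≤ 1 / 2))
  rw [zero_add, zero_add, hd] at h1
  refine (h1.congr hev).mono (le_of_eq ?_)
  have : ‖v ζ‖ ≠ 0 := (norm_pos_iff.2 h0).ne'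
  field_simp

/-- the same with the opposite sign -/
theorem LLV_neg {v : ℂ → EuclideanSpace ℂ ι} {ζ : ℂ} (hv : AnalyticAt ℂ v ζ) (h0 : v ζ ≠ 0) :
    LL (fun t => -Real.log ‖v t‖) ζ (-(‖deriv v ζ‖ ^ 2 / (2 * ‖v ζ‖ ^ 2))) := by
  obtain ⟨u, q, hu, hu0, hq, hq0, hd, hev⟩ := llv_setup hv h0
  have h1 := ((LL_neg_log_norm hu hu0).add (LL.const (Real.log ‖v ζ‖) ζ)).add
    ((llv_neg hq hq0).const_mul (by norm_num : (0 : ℝ) ≤ 1 / 2))
  rw [zero_add, zero_add, hd] at h1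
  refine (h1.congr ?_).mono ?_
  · filter_upwards [hev] with η hη
    rw [hη]
    ring
  · have hN : 0 < ‖v ζ‖ := norm_pos_iff.2 h0
    have e : ‖deriv v ζ‖ ^ 2 / (2 * ‖v ζ‖ ^ 2) =
        1 / 2 * (‖v ζ‖ ^ 2 * ‖deriv v ζ‖ ^ 2 / ‖v ζ‖ ^ 4) := by
      field_simp
    rw [e]
    have h2 : (‖v ζ‖ ^ 2 * ‖deriv v ζ‖ ^ 2 - ‖inner ℂ (v ζ) (deriv v ζ)‖ ^ 2) / ‖v ζ‖ ^ 4 ≤
        ‖v ζ‖ ^ 2 * ‖deriv v ζ‖ ^ 2 / ‖v ζ‖ ^ 4 := by
      apply div_le_div_of_nonneg_right _ (by positivity)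
      have : 0 ≤ ‖inner ℂ (v ζ) (deriv v ζ)‖ ^ 2 := by positivity
      linarith
    linarith

theorem LLV_zero {v : ℂ → EuclideanSpace ℂ ι} {ζ : ℂ} (hv : AnalyticAt ℂ v ζ) (h0 : v ζ ≠ 0) :
    LL (fun t => Real.log ‖v t‖) ζ 0 := by
  refine (LLV hv h0).mono (div_nonneg ?_ (by positivity))
  have h1 : ‖inner ℂ (v ζ) (deriv v ζ)‖ ≤ ‖v ζ‖ * ‖deriv v ζ‖ := norm_inner_le_norm _ _
  have h2 := pow_le_pow_left₀ (norm_nonneg _) h1 2
  rw [mul_pow] at h2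
  linarith

end Pool.Agent.VEB
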