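import Pool.Agent.VEB.UQA
import Pool.Agent.EPO.LLH
import Pool.Agent.EPO.LCT
import Pool.Agent.EPO.GTC

open scoped Manifold Topology
open Filter Metric Set

namespace Pool.Agent.VEB

open Pool.Agent.ELL Pool.Agent.EPO

/-- The parabola used inside the small disc. -/
private noncomputable def kpq (r R t : ℝ) : ℝ :=
  (Real.log (2 * R / r) + 1 / (2 * R ^ 2) * t ^ 2) + 2 / r ^ 2 * (-t ^ 2)

/-- The profile: a parabola inside the small disc, a cut off logarithm outside. -/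
private noncomputable def kpk (r R : ℝ) (η : ℂ) : ℝ :=
  if ‖η‖ ≤ r / 2 then kpq r R ‖η‖ else gtcF R (min (max ‖η‖ (r / 2)) R)

private theorem kpk_ge {r R : ℝ} (hr : 0 < r) {η : ℂ} (h : r / 2 ≤ ‖η‖) (hR : r < R) :
    kpk r R η = gtcG R η := by
  unfold kpk gtcG
  split_ifs with h1
  · have h2 : ‖η‖ = r / 2 := le_antisymm h1 h
    rw [h2, min_eq_left (by linarith)]
    unfold kpq gtcF
    have hR0 : 0 < R := hr.trans hR
    rw [Real.log_div (by positivity) hr.ne', Real.log_mul two_ne_zero hR0.ne',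
      Real.log_div hr.ne' two_ne_zero]
    have : 2 / r ^ 2 * (-(r / 2) ^ 2) = -(1 / 2) := by field_simp
    rw [this]
    ring
  · rw [max_eq_left h]

private theorem kpk_le {r R : ℝ} {η : ℂ} (h : ‖η‖ ≤ r / 2) : kpk r R η = kpq r R ‖η‖ := by
  unfold kpk
  rw [if_pos h]

/-- The parabola lies below the logarithm. -/
private theorem kpq_le_F {r R t : ℝ} (hr : 0 < r) (hR : r < R) (ht : 0 < t) :
    kpq r R t ≤ gtcF R t := by
  have hR0 : 0 < R := hr.trans hR
  have h := Real.log_le_sub_one_of_pos (x := (2 * t / r) ^ 2) (by positivity)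
  rw [Real.log_pow, Real.log_div (by positivity) hr.ne', Real.log_mul two_ne_zero ht.ne'] at h
  unfold kpq gtcF
  rw [Real.log_div (by positivity) hr.ne', Real.log_mul two_ne_zero hR0.ne']
  push_cast at h
  have e : 2 / r ^ 2 * (-t ^ 2) = -((2 * t / r) ^ 2 / 2) := by field_simp
  rw [e]
  linarith

private theorem kpk_cont {r R : ℝ} (hr : 0 < r) (hR : r < R) : Continuous (kpk r R) := by
  have hR0 : 0 < R := hr.trans hR
  unfold kpk
  refine Continuous.if_le ?_ ?_ continuous_norm continuous_const ?_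
  · unfold kpq
    fun_prop
  · rw [continuous_iff_continuousAt]
    intro η
    have h1 : ContinuousAt (fun η : ℂ => min (max ‖η‖ (r / 2)) R) η := by fun_prop
    exact ContinuousAt.comp (g := gtcF R) (f := fun η : ℂ => min (max ‖η‖ (r / 2)) R)
      (gtcF_cont (lt_min (lt_max_of_lt_right (by linarith)) hR0)) h1
  · intro η hη
    have h1 := kpk_ge (R := R) hr hη.ge hR
    unfold kpk at h1
    rw [if_pos hη.le] at h1
    rw [h1]
    unfold gtcG
    rw [hη, max_self]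

private theorem kpq_abs {r R t : ℝ} (hr : 0 < r) (hR : r < R) (ht : 0 ≤ t) (htr : t ≤ r / 2) :
    |kpq r R t| ≤ |Real.log (2 * R / r)| + 1 := by
  have hR0 : 0 < R := hr.trans hR
  have h1 : 0 ≤ 1 / (2 * R ^ 2) * t ^ 2 := by positivity
  have h2 : 1 / (2 * R ^ 2) * t ^ 2 ≤ 1 / 2 := by
    rw [div_mul_eq_mul_div, one_mul, div_le_iff₀ (by positivity)]
    nlinarith
  have h3 : 0 ≤ 2 / r ^ 2 * t ^ 2 := by positivity
  have h4 : 2 / r ^ 2 * t ^ 2 ≤ 1 / 2 := by
    rw [div_mul_eq_mul_div, div_le_iff₀ (by positivity)]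
    nlinarith
  unfold kpq
  have h5 := le_abs_self (Real.log (2 * R / r))
  have h6 := neg_abs_le (Real.log (2 * R / r))
  rw [abs_le]
  constructor <;> linarith

private theorem kpk_abs {r R : ℝ} (hr : 0 < r) (hR : r < R) (η : ℂ) :
    |kpk r R η| ≤ |Real.log (2 * R / r)| + 1 := by
  have hR0 : 0 < R := hr.trans hR
  rcases le_total ‖η‖ (r / 2) with h | h
  · rw [kpk_le h]
    exact kpq_abs hr hR (norm_nonneg _) h
  · rw [kpk_ge hr h hR]
    have hη : η ≠ 0 := by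
      rw [← norm_pos_iff]
      linarith
    rw [abs_of_nonneg (gtcG_nonneg hR0 hη)]
    unfold gtcG gtcF
    set t := min ‖η‖ R with ht
    have ht1 : r / 2 ≤ t := le_min h (by linarith)
    have ht2 : t ≤ R := min_le_right _ _
    have ht0 : 0 < t := by linarith
    have h1 : Real.log (r / 2) ≤ Real.log t := Real.log_le_log (by linarith) ht1
    have h2 : 1 / (2 * R ^ 2) * t ^ 2 ≤ 1 / 2 := by
      rw [div_mul_eq_mul_div, one_mul, div_le_iff₀ (by positivity)]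
      nlinarith
    have h3 := le_abs_self (Real.log (2 * R / r))
    rw [Real.log_div (by positivity) hr.ne', Real.log_mul two_ne_zero hR0.ne'] at h3 ⊢
    rw [Real.log_div hr.ne' two_ne_zero] at h1
    linarith

/-- The lower bound of the Laplacian everywhere. -/
private theorem kpk_LL {r R : ℝ} (hr : 0 < r) (hR : r < R) (η : ℂ) :
    LL (kpk r R) η (-(2 / r ^ 2)) := by
  have hR0 : 0 < R := hr.trans hR
  have hK : 0 < 2 / r ^ 2 := by positivity
  have hq : LL (fun η => kpq r R ‖η‖) η (-(2 / r ^ 2)) := by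
    have h2 := LL.const_mul (a := 1 / (2 * R ^ 2)) (by positivity) (LL_sq 0 η)
    have h3 := LL.const (Real.log (2 * R / r)) η
    have h4 := LL.const_mul (a := 2 / r ^ 2) hK.le (LL_neg_sq 0 η)
    have h5 := (h3.add h2).add h4
    refine (h5.congr ?_).mono ?_
    · refine Eventually.of_forall fun ξ => ?_
      simp only [kpq, sub_zero]
    · have : 0 ≤ 1 / (2 * R ^ 2) := by positivity
      linarith
  rcases le_or_gt ‖η‖ (r / 2) with h | h
  · refine hq.touch ?_ (kpk_le h) (Eventually.of_forall fun ξ => (kpk_cont hr hR).continuousAt)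
    have hev : ∀ᶠ ξ : ℂ in 𝓝 η, ‖ξ‖ < R :=
      continuous_norm.continuousAt.eventually (gt_mem_nhds (by linarith))
    filter_upwards [hev] with ξ hξ
    rcases le_total ‖ξ‖ (r / 2) with h1 | h1
    · rw [kpk_le h1]
    · rw [kpk_ge hr h1 hR, gtcG_of_le hξ.le]
      exact kpq_le_F hr hR (by linarith)
  · have hη : η ≠ 0 := by
      rw [← norm_pos_iff]
      linarith
    refine ((gtc_LL_G hR0 hη).congr ?_).mono (by linarith)
    have hev : ∀ᶠ ξ : ℂ in 𝓝 η, r / 2 < ‖ξ‖ :=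
      continuous_norm.continuousAt.eventually (lt_mem_nhds h)
    filter_upwards [hev] with ξ hξ
    exact kpk_ge hr hξ.le hR

private theorem kpk_LL_far {r R : ℝ} (hr : 0 < r) (hR : r < R) {η : ℂ} (h : r / 2 < ‖η‖) :
    LL (kpk r R) η 0 := by
  have hR0 : 0 < R := hr.trans hR
  have hη : η ≠ 0 := by
    rw [← norm_pos_iff]
    linarith
  refine (gtc_LL_G hR0 hη).congr ?_
  have hev : ∀ᶠ ξ : ℂ in 𝓝 η, r / 2 < ‖ξ‖ :=
    continuous_norm.continuousAt.eventually (lt_mem_nhds h)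
  filter_upwards [hev] with ξ hξ
  exact kpk_ge hr hξ.le hR

private theorem kpk_LL_mid {r R : ℝ} (hr : 0 < r) (hR : r < R) {η : ℂ} (h : r / 2 < ‖η‖)
    (h' : ‖η‖ < R) : LL (kpk r R) η (1 / (2 * R ^ 2)) := by
  have hR0 : 0 < R := hr.trans hR
  have hη : η ≠ 0 := by
    rw [← norm_pos_iff]
    linarith
  refine (gtc_LL_G_lt hR0 hη h').congr ?_
  have hev : ∀ᶠ ξ : ℂ in 𝓝 η, r / 2 < ‖ξ‖ :=
    continuous_norm.continuousAt.eventually (lt_mem_nhds h)
  filter_upwards [hev] with ξ hξ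
  exact kpk_ge hr hξ.le hR

/-- Quadratic upper bounds. -/
private theorem kpk_UQ {r R : ℝ} (hr : 0 < r) (hR : r < R) (η : ℂ) :
    UQ (kpk r R) η (1 / (2 * R ^ 2) * (2 * R + 1) + 2 / r ^ 2 * (r + 1) +
      ((r / 2)⁻¹ + (r / 2)⁻¹ ^ 2)) := by
  have hR0 : 0 < R := hr.trans hR
  have hK : 0 < 2 / r ^ 2 := by positivity
  have hK1 : 0 < 1 / (2 * R ^ 2) := by positivity
  have hK2 : 0 < (r / 2)⁻¹ + (r / 2)⁻¹ ^ 2 := by positivity
  rcases lt_or_ge ‖η‖ (r / 2) with h | h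
  · have h2 := UQ.const_mul (a := 1 / (2 * R ^ 2)) hK1.le (UQ_sq 0 η)
    have h3 := UQ_const (Real.log (2 * R / r)) η
    have h4 := UQ.const_mul (a := 2 / r ^ 2) hK.le (UQ_neg_sq 0 η)
    have h5 := (h3.add h2).add h4
    have hev : ∀ᶠ ξ : ℂ in 𝓝 η, ‖ξ‖ < r / 2 :=
      continuous_norm.continuousAt.eventually (gt_mem_nhds h)
    refine (UQ.touch h5 ?_ ?_).mono ?_
    · filter_upwards [hev] with ξ hξ
      rw [kpk_le hξ.le]
      simp only [kpq, sub_zero]
      exact le_rfl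
    · rw [kpk_le h.le]
      simp only [kpq, sub_zero]
    · rw [sub_zero]
      have e1 : 1 / (2 * R ^ 2) * (2 * ‖η‖ + 1) ≤ 1 / (2 * R ^ 2) * (2 * R + 1) := by
        apply mul_le_mul_of_nonneg_left _ hK1.le
        linarith
      have e2 : 2 / r ^ 2 * (2 * ‖η‖ + 1) ≤ 2 / r ^ 2 * (r + 1) := by
        apply mul_le_mul_of_nonneg_left _ hK.le
        linarith
      linarith
  · rcases le_or_gt ‖η‖ R with h' | h'
    · have hη : η ≠ 0 := by
        rw [← norm_pos_iff]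
        linarith
      have h1 := UQ_log 0 η hη
      have h2 := UQ.const_mul (a := 1 / (2 * R ^ 2)) hK1.le (UQ_sq 0 η)
      have h3 := UQ_const (Real.log R - 1 / 2) η
      have h5 := (h3.add h1).add h2
      have hev : ∀ᶠ ξ : ℂ in 𝓝 η, 0 < ‖ξ‖ :=
        continuous_norm.continuousAt.eventually (lt_mem_nhds (by linarith))
      refine (UQ.touch h5 ?_ ?_).mono ?_
      · filter_upwards [hev] with ξ hξ
        have : kpk r R ξ ≤ gtcF R ‖ξ‖ := by
          rcases le_total ‖ξ‖ (r / 2) with h6 | h6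
          · rw [kpk_le h6]
            exact kpq_le_F hr hR hξ
          · rw [kpk_ge hr h6 hR]
            exact gtcG_le hR0 (norm_pos_iff.1 hξ)
        refine this.trans (le_of_eq ?_)
        simp only [gtcF, sub_zero]
        ring
      · rw [kpk_ge hr h hR, gtcG_of_le h']
        simp only [gtcF, sub_zero]
        ring
      · rw [sub_zero]
        have e1 : 1 / (2 * R ^ 2) * (2 * ‖η‖ + 1) ≤ 1 / (2 * R ^ 2) * (2 * R + 1) := by
          apply mul_le_mul_of_nonneg_left _ hK1.le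
          linarith
        have e2 : ‖η‖⁻¹ ≤ (r / 2)⁻¹ := inv_anti₀ (by positivity) h
        have e3 : ‖η‖⁻¹ ^ 2 ≤ (r / 2)⁻¹ ^ 2 := pow_le_pow_left₀ (by positivity) e2 2
        have e4 : 0 ≤ 2 / r ^ 2 * (r + 1) := by positivity
        linarith
    · have hev : ∀ᶠ ξ : ℂ in 𝓝 η, R < ‖ξ‖ :=
        continuous_norm.continuousAt.eventually (lt_mem_nhds h')
      refine (UQ.touch (UQ_const 0 η) ?_ ?_).mono (by positivity)
      · filter_upwards [hev] with ξ hξ
        rw [kpk_ge hr (by linarith) hR, gtcG_of_ge hR0 hξ.le]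
      · rw [kpk_ge hr h hR, gtcG_of_ge hR0 h'.le]

private theorem kp_UQ_comp {ψ : ℂ → ℝ} {ζ : ℂ} {K : ℝ} (a : ℂ) (h : UQ ψ (ζ + a) K) :
    UQ (fun t => ψ (t + a)) ζ K := by
  obtain ⟨b, hb, h⟩ := h
  refine ⟨b, hb, ?_⟩
  filter_upwards [h] with w hw
  have e : ζ + w + a = ζ + a + w := by ring
  rw [e]
  exact hw

private theorem kp_UQ_sum (s : Finset ℂ) (ψ : ℂ → ℂ → ℝ) (ζ : ℂ) (K : ℝ)
    (h : ∀ i ∈ s, UQ (ψ i) ζ K) : UQ (fun t => ∑ i ∈ s, ψ i t) ζ (s.card * K) := by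
  classical
  induction s using Finset.induction_on with
  | empty =>
    simp only [Finset.sum_empty, Finset.card_empty]
    exact (UQ_const 0 ζ).mono (by simp)
  | insert a s ha ih =>
    have h1 := ih fun i hi => h i (Finset.mem_insert_of_mem hi)
    have h2 := h a (Finset.mem_insert_self a s)
    have h3 := h2.add h1
    simp only [Finset.sum_insert ha]
    refine h3.mono ?_
    rw [Finset.card_insert_of_notMem ha]
    push_cast
    linarith

/-- A bounded periodic function which is strictly subharmonic outside small discs. -/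
theorem KAP (Γ : Submodule ℤ ℂ) [DiscreteTopology Γ] [IsZLattice ℝ Γ] (w : ℂ) {r : ℝ}
    (hr : 0 < r) : ∃ (κ : ℂ → ℝ) (c₁ K : ℝ), 0 < c₁ ∧ 0 ≤ K ∧ Continuous κ ∧
      (∀ ω ∈ Γ, ∀ ζ, κ (ζ + ω) = κ ζ) ∧ (∀ ζ, |κ ζ| ≤ K) ∧ (∀ ζ, UQ κ ζ K) ∧
      (∀ ζ, LL κ ζ (-K)) ∧ ∀ ζ, (∀ ω ∈ Γ, r ≤ ‖ζ - w - ω‖) → LL κ ζ c₁ := by
  classical
  obtain ⟨R₀, hR01, hcov0⟩ := GTC_cover Γ
  set R : ℝ := max R₀ (r + 1) with hRdef
  have hR : 0 < R := lt_of_lt_of_le (by linarith) (le_max_left _ _)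
  have hrR : r < R := lt_of_lt_of_le (by linarith) (le_max_right _ _)
  have hcov : ∀ ζ : ℂ, ∃ ω ∈ Γ, ‖ζ + ω‖ < R := fun ζ => by
    obtain ⟨ω, hω, h⟩ := hcov0 ζ
    exact ⟨ω, hω, h.trans_le (le_max_left _ _)⟩
  set g : ℂ → ℝ := fun ζ => ∑ᶠ ω : Γ, kpk r R (ζ - w + ω) with hg
  have hper : ∀ ω ∈ Γ, ∀ ζ, g (ζ + ω) = g ζ := by
    intro ω hω ζ
    simp only [hg]
    rw [← finsum_comp_equiv (Equiv.addLeft (⟨ω, hω⟩ : Γ)) (f := fun ω' : Γ =>
      kpk r R (ζ - w + ω'))]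
    refine finsum_congr fun ω' => ?_
    congr 1
    simp only [Equiv.coe_addLeft, Submodule.coe_add]
    ring
  set S : Finset ℂ := (GTC_finite Γ (2 * R + 1)).toFinset with hS
  have hSmem : ∀ ω, ω ∈ S ↔ ω ∈ Γ ∧ ‖ω‖ ≤ 2 * R + 1 := by
    intro ω
    simp [hS]
  have hloc : ∀ η : ℂ, ‖η - w‖ < R + 1 → g η = ∑ ω ∈ S, kpk r R (η - w + ω) := by
    intro η hη
    simp only [hg]
    have h1 : ∑ᶠ ω : Γ, kpk r R (η - w + ω) =
        ∑ᶠ (ω : ℂ) (_ : ω ∈ (Γ : Set ℂ)), kpk r R (η - w + ω) :=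
      finsum_set_coe_eq_finsum_mem (f := fun ω : ℂ => kpk r R (η - w + ω)) (Γ : Set ℂ)
    rw [h1]
    rw [finsum_mem_eq_sum_of_inter_support_eq (s := (Γ : Set ℂ)) (t := S)
      (f := fun ω : ℂ => kpk r R (η - w + ω))]
    ext ω
    simp only [Set.mem_inter_iff, Function.mem_support, hSmem, SetLike.mem_coe]
    constructor
    · rintro ⟨h2, h3⟩
      refine ⟨⟨h2, ?_⟩, h3⟩
      by_contra hcon
      push Not at hcon
      apply h3
      have h4 : ‖ω‖ ≤ ‖η - w + ω‖ + ‖η - w‖ := by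
        calc ‖ω‖ = ‖(η - w + ω) - (η - w)‖ := by ring_nf
          _ ≤ _ := norm_sub_le _ _
      rw [kpk_ge hr (by linarith) hrR]
      apply gtcG_of_ge hR
      linarith
    · rintro ⟨⟨h2, _⟩, h3⟩
      exact ⟨h2, h3⟩
  have hloc_ev : ∀ ζ : ℂ, ‖ζ - w‖ < R → g =ᶠ[𝓝 ζ] fun η => ∑ ω ∈ S, kpk r R (η - w + ω) := by
    intro ζ hζ
    have hc : ContinuousAt (fun η : ℂ => ‖η - w‖) ζ := by fun_prop
    have : ∀ᶠ η : ℂ in 𝓝 ζ, ‖η - w‖ < R + 1 := hc.eventually (gt_mem_nhds (by linarith))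
    filter_upwards [this] with η hη
    exact hloc η hη
  set c₁ : ℝ := 1 / (2 * R ^ 2) with hc₁
  have hc₁pos : 0 < c₁ := by positivity
  set K0 : ℝ := 2 / r ^ 2 with hK0
  have hK0pos : 0 < K0 := by positivity
  set K1 : ℝ := 1 / (2 * R ^ 2) * (2 * R + 1) + 2 / r ^ 2 * (r + 1) +
      ((r / 2)⁻¹ + (r / 2)⁻¹ ^ 2) with hK1
  have hK1pos : 0 < K1 := by positivity
  set K2 : ℝ := |Real.log (2 * R / r)| + 1 with hK2
  have hK2pos : 0 < K2 := by
    have := abs_nonneg (Real.log (2 * R / r))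
    linarith
  have hcard : (0 : ℝ) ≤ S.card := Nat.cast_nonneg _
  set K : ℝ := S.card * (K0 + K1 + K2) with hK
  have hshift : ∀ ω : ℂ, (fun η : ℂ => kpk r R (η - w + ω)) = fun η => kpk r R (η + (ω - w)) := by
    intro ω
    funext η
    congr 1
    ring
  -- the statements near `w`
  have hcont0 : ∀ ζ, ‖ζ - w‖ < R → ContinuousAt g ζ := by
    intro ζ hζ
    rw [continuousAt_congr (hloc_ev ζ hζ)]
    have hk := kpk_cont hr hrR
    have : Continuous fun η : ℂ => ∑ ω ∈ S, kpk r R (η - w + ω) := by fun_prop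
    exact this.continuousAt
  have habs0 : ∀ ζ, ‖ζ - w‖ < R → |g ζ| ≤ K := by
    intro ζ hζ
    rw [hloc ζ (by linarith)]
    refine (Finset.abs_sum_le_sum_abs _ _).trans ?_
    refine (Finset.sum_le_card_nsmul S _ K2 fun ω _ => kpk_abs hr hrR _).trans ?_
    rw [nsmul_eq_mul, hK]
    apply mul_le_mul_of_nonneg_left _ hcard
    linarith
  have hUQ0 : ∀ ζ, ‖ζ - w‖ < R → UQ g ζ K := by
    intro ζ hζ
    have h1 := kp_UQ_sum S (fun ω η => kpk r R (η - w + ω)) ζ K1 (by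
      intro ω _
      rw [hshift]
      exact kp_UQ_comp (ω - w) (kpk_UQ hr hrR _))
    have h2 : UQ g ζ (S.card * K1) := by
      refine UQ.touch h1 ?_ (hloc ζ (by linarith))
      filter_upwards [hloc_ev ζ hζ] with η hη
      rw [hη]
    refine h2.mono ?_
    rw [hK]
    apply mul_le_mul_of_nonneg_left _ hcard
    linarith
  have hLL0 : ∀ ζ, ‖ζ - w‖ < R → LL g ζ (-K) := by
    intro ζ hζ
    have h1 := LL.sum S (fun ω η => kpk r R (η - w + ω)) (fun _ => -K0) ζ (by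
      intro ω _
      rw [hshift]
      exact LL.comp_add (ψ := kpk r R) (ω - w) (kpk_LL hr hrR _))
    refine (h1.congr (hloc_ev ζ hζ)).mono ?_
    rw [Finset.sum_const, nsmul_eq_mul, hK]
    have : (S.card : ℝ) * K0 ≤ S.card * (K0 + K1 + K2) := by
      apply mul_le_mul_of_nonneg_left _ hcard
      linarith
    linarith
  have hLL1 : ∀ ζ, ‖ζ - w‖ < R → (∀ ω ∈ Γ, r ≤ ‖ζ - w + ω‖) → LL g ζ c₁ := by
    intro ζ hζ hfar
    have h0S : (0 : ℂ) ∈ S := by
      rw [hSmem]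
      refine ⟨Γ.zero_mem, ?_⟩
      rw [norm_zero]
      linarith
    have h1 := LL.sum S (fun ω η => kpk r R (η - w + ω)) (fun ω => if ω = 0 then c₁ else 0) ζ (by
      intro ω hω
      have h0 := hfar ω ((hSmem ω).1 hω).1
      have e : ζ - w + ω = ζ + (ω - w) := by ring
      rw [e] at h0
      rw [hshift]
      by_cases h : ω = 0
      · rw [if_pos h]
        refine LL.comp_add (ψ := kpk r R) (ω - w) (kpk_LL_mid hr hrR (by linarith) ?_)
        rw [← e, h, add_zero]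
        exact hζ
      · rw [if_neg h]
        exact LL.comp_add (ψ := kpk r R) (ω - w) (kpk_LL_far hr hrR (by linarith)))
    rw [Finset.sum_ite_eq' S 0, if_pos h0S] at h1
    exact h1.congr (hloc_ev ζ hζ)
  -- all points
  have hmove : ∀ ζ : ℂ, ∃ ω ∈ Γ, ‖ζ + ω - w‖ < R := by
    intro ζ
    obtain ⟨ω, hω, h⟩ := hcov (ζ - w)
    refine ⟨ω, hω, ?_⟩
    have e : ζ + ω - w = ζ - w + ω := by ring
    rw [e]
    exact h
  refine ⟨g, c₁, K, hc₁pos, ?_, ?_, hper, ?_, ?_, ?_, ?_⟩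
  · rw [hK]
    exact mul_nonneg hcard (by linarith)
  · rw [continuous_iff_continuousAt]
    intro ζ
    obtain ⟨ω, hω, h⟩ := hmove ζ
    have hgeq : (fun η => g (η + ω)) = g := funext fun η => hper ω hω η
    rw [← hgeq]
    exact ContinuousAt.comp (g := g) (f := fun η : ℂ => η + ω) (hcont0 _ h) (by fun_prop)
  · intro ζ
    obtain ⟨ω, hω, h⟩ := hmove ζ
    rw [← hper ω hω ζ]
    exact habs0 _ h
  · intro ζ
    obtain ⟨ω, hω, h⟩ := hmove ζ
    have hgeq : (fun η => g (η + ω)) = g := funext fun η => hper ω hω η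
    rw [← hgeq]
    exact kp_UQ_comp ω (hUQ0 _ h)
  · intro ζ
    obtain ⟨ω, hω, h⟩ := hmove ζ
    have hgeq : (fun η => g (η + ω)) = g := funext fun η => hper ω hω η
    rw [← hgeq]
    exact LL.comp_add (ψ := g) ω (hLL0 _ h)
  · intro ζ hfar
    obtain ⟨ω, hω, h⟩ := hmove ζ
    have hgeq : (fun η => g (η + ω)) = g := funext fun η => hper ω hω η
    rw [← hgeq]
    refine LL.comp_add (ψ := g) ω (hLL1 _ h ?_)
    intro ω' hω'
    have h1 := hfar (-(ω + ω')) (Γ.neg_mem (Γ.add_mem hω hω'))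
    have e : ζ + ω - w + ω' = ζ - w - -(ω + ω') := by ring
    rw [e]
    exact h1

end Pool.Agent.VEB
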