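import Pool.Agent.VEB.WRO
import Pool.Agent.VEB.KAP

open scoped Manifold Topology
open Filter Metric Set

namespace Pool.Agent.VEB

open Pool.Agent.ELL Pool.Agent.EPO

variable {S : Type*} [MetricSpace S] [CompactSpace S] [ChartedSpace (ℂ × ℂ) S]
  [IsManifold 𝓘(ℂ, ℂ × ℂ) 1 S] {Λ : Submodule ℤ ℂ} [DiscreteTopology Λ] [IsZLattice ℝ Λ]
  {π : S → ℂ ⧸ Λ} {D : Set S} {m : ℕ} {ι : Type} [Fintype ι] {σ : ι → PluriForm S m D}

/-- A periodic correction which makes the logarithm of the norm of the forms strictly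
subharmonic along `E`. -/
theorem STR (hD : IsDivisor D) (hσ : Separates π D σ) (hm : 0 < m) {E : ℂ → S}
    (hE : E ∈ Sec π D) (Γ : Submodule ℤ ℂ) [DiscreteTopology Γ] [IsZLattice ℝ Γ]
    (hper : ∀ ω ∈ Γ, ∀ ζ, E (ζ + ω) = E ζ) :
    ∃ (κ : ℂ → ℝ) (a₀ K : ℝ), 0 < a₀ ∧ 0 ≤ K ∧ Continuous κ ∧
      (∀ ω ∈ Γ, ∀ ζ, κ (ζ + ω) = κ ζ) ∧ (∀ ζ, |κ ζ| ≤ K) ∧ (∀ ζ, UQ κ ζ K) ∧
      ∀ ζ, ∀ φ ∈ MA S, E ζ ∈ φ.source →
        LL (fun t => 2 / (m : ℝ) * Real.log ‖vec σ φ (E t)‖ + κ t) ζ a₀ := by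
  obtain ⟨w, r, hr, ω₀, hω₀, hW⟩ := WRO hD hσ hE
  obtain ⟨κ₀, c₁, K₀, hc₁, hK₀, hκc, hκp, hκb, hκu, hκl, hκo⟩ := KAP Γ w hr
  have hm' : (0 : ℝ) < m := by exact_mod_cast hm
  set ε : ℝ := ω₀ / (m * (K₀ + 1)) with hε
  have hεpos : 0 < ε := by positivity
  have hεK : ε * K₀ ≤ ω₀ / m := by
    have h1 : ε * (K₀ + 1) = ω₀ / m := by
      rw [hε]
      field_simp
    nlinarith
  refine ⟨fun ζ => ε * κ₀ ζ, min (ω₀ / m) (ε * c₁), ε * K₀, ?_, by positivity,
    continuous_const.mul hκc, ?_, ?_, ?_, ?_⟩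
  · exact lt_min (by positivity) (by positivity)
  · intro ω hω ζ
    show ε * κ₀ (ζ + ω) = ε * κ₀ ζ
    rw [hκp ω hω ζ]
  · intro ζ
    show |ε * κ₀ ζ| ≤ _
    rw [abs_mul, abs_of_pos hεpos]
    exact mul_le_mul_of_nonneg_left (hκb ζ) hεpos.le
  · intro ζ
    obtain ⟨b, hb, hev⟩ := hκu ζ
    refine ⟨(ε : ℂ) * b, ?_, ?_⟩
    · rw [norm_mul, Complex.norm_real, Real.norm_of_nonneg hεpos.le]
      exact mul_le_mul_of_nonneg_left hb hεpos.le
    · filter_upwards [hev] with v hv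
      have h1 := mul_le_mul_of_nonneg_left hv hεpos.le
      have h2 : ((ε : ℂ) * b * v).re = ε * (b * v).re := by
        rw [mul_assoc, Complex.re_ofReal_mul]
      rw [h2]
      calc ε * κ₀ (ζ + v) ≤ ε * (κ₀ ζ + (b * v).re + K₀ * ‖v‖ ^ 2) := h1
        _ = _ := by ring
  · intro ζ φ hφ hs
    by_cases hcase : ∀ ω ∈ Γ, r ≤ ‖ζ - w - ω‖
    · have h1 := LL.const_mul (a := 2 / (m : ℝ)) (by positivity) (WRO_nonneg hD hσ hE hφ hs)
      have h2 := LL.const_mul hεpos.le (hκo ζ hcase)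
      refine (h1.add h2).mono ?_
      rw [mul_zero, zero_add]
      exact min_le_right _ _
    · push Not at hcase
      obtain ⟨ω, hω, hlt⟩ := hcase
      have hper' : ∀ η, E (η + -ω) = E η := by
        intro η
        have := hper ω hω (η + -ω)
        rw [neg_add_cancel_right] at this
        exact this.symm
      have hmem : ζ + -ω ∈ closedBall w r := by
        rw [mem_closedBall, dist_eq_norm]
        have e : ζ + -ω - w = ζ - w - ω := by ring
        rw [e]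
        exact hlt.le
      have h0 := hW (ζ + -ω) hmem φ hφ (by rw [hper']; exact hs)
      have h1 := LL.comp_add (-ω) h0
      have h2 : (fun η => Real.log ‖vec σ φ (E (η + -ω))‖) =
          fun η => Real.log ‖vec σ φ (E η)‖ := by
        funext η
        rw [hper']
      rw [h2] at h1
      have h3 := LL.const_mul (a := 2 / (m : ℝ)) (by positivity) h1
      have h4 := LL.const_mul hεpos.le (hκl ζ)
      refine (h3.add h4).mono ((min_le_left _ _).trans ?_)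
      have h5 : 2 / (m : ℝ) * ω₀ = 2 * (ω₀ / m) := by ring
      rw [h5]
      linarith

end Pool.Agent.VEB
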