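import Pool.Agent.VEB.Defs2

open scoped Manifold Topology
open Filter Metric Set

namespace Pool.Agent.VEB

open Pool.Agent.ELL Pool.Agent.EPO

private theorem uqa_shift {P : ℂ → Prop} {ζ : ℂ} (h : ∀ᶠ t in 𝓝 ζ, P t) :
    ∀ᶠ w in 𝓝 (0 : ℂ), P (ζ + w) := by
  have h1 : Tendsto (fun w : ℂ => ζ + w) (𝓝 0) (𝓝 ζ) := by
    have h2 : Continuous (fun w : ℂ => ζ + w) := by fun_prop
    have h3 := h2.tendsto 0
    simpa using h3
  exact h1.eventually h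

private theorem uqa_sq (a ζ w : ℂ) : ‖ζ + w - a‖ ^ 2 = ‖ζ - a‖ ^ 2 +
    (2 * (starRingEnd ℂ (ζ - a)) * w).re + ‖w‖ ^ 2 := by
  simp only [← Complex.normSq_eq_norm_sq, Complex.normSq_apply, Complex.add_re, Complex.add_im,
    Complex.mul_re, Complex.mul_im, Complex.conj_re, Complex.conj_im, Complex.sub_re,
    Complex.sub_im, Complex.re_ofNat, Complex.im_ofNat]
  ring

theorem UQ.mono {ψ : ℂ → ℝ} {ζ : ℂ} {K K' : ℝ} (h : UQ ψ ζ K) (hK : K ≤ K') : UQ ψ ζ K' := by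
  obtain ⟨b, hb, h⟩ := h
  refine ⟨b, hb.trans hK, ?_⟩
  filter_upwards [h] with w hw
  have := mul_le_mul_of_nonneg_right hK (sq_nonneg ‖w‖)
  linarith

theorem UQ.add {ψ φ : ℂ → ℝ} {ζ : ℂ} {K K' : ℝ} (h : UQ ψ ζ K) (h' : UQ φ ζ K') :
    UQ (fun t => ψ t + φ t) ζ (K + K') := by
  obtain ⟨b, hb, h⟩ := h
  obtain ⟨b', hb', h'⟩ := h'
  refine ⟨b + b', (norm_add_le _ _).trans (add_le_add hb hb'), ?_⟩
  filter_upwards [h, h'] with w hw hw'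
  have e : ((b + b') * w).re = (b * w).re + (b' * w).re := by
    rw [add_mul, Complex.add_re]
  rw [e, add_mul]
  linarith

theorem UQ.const_mul {ψ : ℂ → ℝ} {ζ : ℂ} {K a : ℝ} (ha : 0 ≤ a) (h : UQ ψ ζ K) :
    UQ (fun t => a * ψ t) ζ (a * K) := by
  obtain ⟨b, hb, h⟩ := h
  refine ⟨(a : ℂ) * b, ?_, ?_⟩
  · rw [norm_mul, Complex.norm_real, Real.norm_of_nonneg ha]
    exact mul_le_mul_of_nonneg_left hb ha
  · filter_upwards [h] with w hw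
    have e : ((a : ℂ) * b * w).re = a * (b * w).re := by
      rw [mul_assoc, Complex.re_ofReal_mul]
    have := mul_le_mul_of_nonneg_left hw ha
    rw [e]
    linarith

/-- touching from above -/
theorem UQ.touch {ψ φ : ℂ → ℝ} {ζ : ℂ} {K : ℝ} (h : UQ φ ζ K) (hle : ∀ᶠ t in 𝓝 ζ, ψ t ≤ φ t)
    (heq : ψ ζ = φ ζ) : UQ ψ ζ K := by
  obtain ⟨b, hb, h⟩ := h
  refine ⟨b, hb, ?_⟩
  filter_upwards [h, uqa_shift hle] with w hw hw'
  rw [heq]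
  exact hw'.trans hw

theorem UQ_const (a : ℝ) (ζ : ℂ) : UQ (fun _ => a) ζ 0 := by
  refine ⟨0, by simp, Eventually.of_forall fun w => ?_⟩
  simp

theorem UQ_sq (a ζ : ℂ) : UQ (fun t => ‖t - a‖ ^ 2) ζ (2 * ‖ζ - a‖ + 1) := by
  refine ⟨2 * (starRingEnd ℂ (ζ - a)), ?_, Eventually.of_forall fun w => ?_⟩
  · rw [norm_mul, RCLike.norm_conj]
    simp
  · show ‖ζ + w - a‖ ^ 2 ≤ _
    rw [uqa_sq]
    have : 0 ≤ ‖ζ - a‖ * ‖w‖ ^ 2 := by positivity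
    nlinarith

theorem UQ_neg_sq (a ζ : ℂ) : UQ (fun t => -‖t - a‖ ^ 2) ζ (2 * ‖ζ - a‖ + 1) := by
  refine ⟨-(2 * (starRingEnd ℂ (ζ - a))), ?_, Eventually.of_forall fun w => ?_⟩
  · rw [norm_neg, norm_mul, RCLike.norm_conj]
    simp
  · show -‖ζ + w - a‖ ^ 2 ≤ _
    rw [uqa_sq, neg_mul, Complex.neg_re]
    have : 0 ≤ ‖ζ - a‖ * ‖w‖ ^ 2 := by positivity
    have : 0 ≤ ‖w‖ ^ 2 := by positivity
    nlinarith

theorem UQ_log (a ζ : ℂ) (h : ζ ≠ a) :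
    UQ (fun t => -Real.log ‖t - a‖) ζ (‖ζ - a‖⁻¹ + ‖ζ - a‖⁻¹ ^ 2) := by
  have h0 : ζ - a ≠ 0 := sub_ne_zero.2 h
  have hn : 0 < ‖ζ - a‖ := norm_pos_iff.2 h0
  refine ⟨-(ζ - a)⁻¹, ?_, ?_⟩
  · rw [norm_neg, norm_inv]
    have : 0 ≤ ‖ζ - a‖⁻¹ ^ 2 := by positivity
    linarith
  · have h1 : ∀ᶠ w in 𝓝 (0 : ℂ), ‖w‖ < ‖ζ - a‖ / 2 := by
      have : ∀ᶠ w in 𝓝 (0 : ℂ), w ∈ ball (0 : ℂ) (‖ζ - a‖ / 2) :=
        ball_mem_nhds _ (by positivity)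
      filter_upwards [this] with w hw
      simpa using hw
    filter_upwards [h1] with w hw
    show -Real.log ‖ζ + w - a‖ ≤ _
    set x : ℂ := w * (ζ - a)⁻¹ with hx
    have hxn : ‖x‖ = ‖w‖ * ‖ζ - a‖⁻¹ := by
      rw [hx, norm_mul, norm_inv]
    have hx2 : ‖x‖ < 1 / 2 := by
      rw [hxn, ← div_eq_mul_inv, div_lt_iff₀ hn]
      linarith
    have e1 : ζ + w - a = (ζ - a) * (1 + x) := by
      rw [hx]
      field_simp
      ring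
    have h1x : 1 + x ≠ 0 := by
      intro h2
      have h3 : x = -1 := by
        linear_combination h2
      rw [h3] at hx2
      norm_num at hx2
    have h4 := Complex.norm_log_one_add_sub_self_le (z := x) (by linarith)
    have h5 : ‖x‖ ^ 2 * (1 - ‖x‖)⁻¹ / 2 ≤ ‖x‖ ^ 2 := by
      have h6 : (1 - ‖x‖)⁻¹ ≤ 2 := by
        rw [inv_le_comm₀ (by linarith) (by norm_num)]
        linarith
      have h7 : 0 ≤ ‖x‖ ^ 2 := by positivity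
      nlinarith
    have h8 : |(Complex.log (1 + x) - x).re| ≤ ‖x‖ ^ 2 :=
      (Complex.abs_re_le_norm _).trans (h4.trans h5)
    have h9 : (Complex.log (1 + x) - x).re = Real.log ‖1 + x‖ - x.re := by
      rw [Complex.sub_re, Complex.log_re]
    rw [h9] at h8
    have h10 := (abs_le.1 h8).1
    rw [e1, norm_mul, Real.log_mul hn.ne' (norm_ne_zero_iff.2 h1x)]
    have e2 : (-(ζ - a)⁻¹ * w).re = -x.re := by
      rw [hx, neg_mul, Complex.neg_re, mul_comm]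
    have e3 : (‖ζ - a‖⁻¹ + ‖ζ - a‖⁻¹ ^ 2) * ‖w‖ ^ 2 = ‖ζ - a‖⁻¹ * ‖w‖ ^ 2 + ‖x‖ ^ 2 := by
      rw [hxn]
      ring
    have e4 : 0 ≤ ‖ζ - a‖⁻¹ * ‖w‖ ^ 2 := by positivity
    rw [e2, e3]
    linarith

end Pool.Agent.VEB
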