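import Pool.Agent.VEB.UQA

open scoped Manifold Topology
open Filter Metric Set

namespace Pool.Agent.VEB

open Pool.Agent.ELL Pool.Agent.EPO

variable {ι : Type} [Fintype ι]

private theorem UQV_taylor {r K : ℝ} (hr : 0 < r)
    (v : ℂ → EuclideanSpace ℂ ι) (ζ : ℂ) (hd : DifferentiableOn ℂ v (ball ζ r))
    (hb : ∀ t ∈ ball ζ r, ‖v t‖ ≤ K) :
    ∃ v₁ : EuclideanSpace ℂ ι, ‖v₁‖ ≤ 2 * K / r ∧ ∀ w : ℂ, ‖w‖ < r →
      ∃ h : EuclideanSpace ℂ ι, ‖h‖ ≤ 2 * (2 * K / r) / r ∧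
        v (ζ + w) = v ζ + (w • v₁ + w ^ 2 • h) := by
  have hζ : ζ ∈ ball ζ r := mem_ball_self hr
  have hn : ball ζ r ∈ 𝓝 ζ := ball_mem_nhds ζ hr
  set L : ℝ := 2 * K / r with hL
  have hm1 : MapsTo v (ball ζ r) (closedBall (v ζ) (2 * K)) := by
    intro t ht
    rw [mem_closedBall, dist_eq_norm]
    have h1 := norm_sub_le (v t) (v ζ)
    have h2 := hb t ht
    have h3 := hb ζ hζ
    linarith
  have hg : ∀ t ∈ ball ζ r, ‖dslope v ζ t‖ ≤ L := fun t ht =>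
    Complex.norm_dslope_le_div_of_mapsTo_ball hd hm1 ht
  have hgd : DifferentiableOn ℂ (dslope v ζ) (ball ζ r) :=
    (Complex.differentiableOn_dslope hn).2 hd
  have hm2 : MapsTo (dslope v ζ) (ball ζ r) (closedBall (dslope v ζ ζ) (2 * L)) := by
    intro t ht
    rw [mem_closedBall, dist_eq_norm]
    have h1 := norm_sub_le (dslope v ζ t) (dslope v ζ ζ)
    have h2 := hg t ht
    have h3 := hg ζ hζ
    linarith
  refine ⟨dslope v ζ ζ, hg ζ hζ, fun w hw => ⟨dslope (dslope v ζ) ζ (ζ + w), ?_, ?_⟩⟩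
  · exact Complex.norm_dslope_le_div_of_mapsTo_ball hgd hm2 (by simpa [mem_ball] using hw)
  · have h1 := sub_smul_dslope v ζ (ζ + w)
    have h2 := sub_smul_dslope (dslope v ζ) ζ (ζ + w)
    have e : ζ + w - ζ = w := by ring
    rw [e] at h1 h2
    rw [pow_two, mul_smul, h2, ← smul_add, add_sub_cancel, h1, add_sub_cancel]

/-- quadratic upper bound of the logarithm of the norm of a holomorphic vector -/
theorem UQV {r K : ℝ} (hr : 0 < r) (hK : 0 < K) : ∃ C : ℝ, 0 ≤ C ∧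
    ∀ (v : ℂ → EuclideanSpace ℂ ι) (ζ : ℂ), DifferentiableOn ℂ v (ball ζ r) →
      (∀ t ∈ ball ζ r, ‖v t‖ ≤ K) → K⁻¹ ≤ ‖v ζ‖ → UQ (fun t => Real.log ‖v t‖) ζ C := by
  set L : ℝ := 2 * K / r with hL
  set L₂ : ℝ := 2 * (2 * K / r) / r with hL₂
  have hL0 : 0 ≤ L := by rw [hL]; positivity
  have hL20 : 0 ≤ L₂ := by rw [hL₂]; positivity
  set M : ℝ := 2 * (K * L₂) + (L + L₂) ^ 2 with hM
  have hM0 : 0 ≤ M := by rw [hM]; positivity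
  refine ⟨L * K + M * K ^ 2, by positivity, fun v ζ hd hb hv0 => ?_⟩
  obtain ⟨v₁, hv₁, hT⟩ := UQV_taylor hr v ζ hd hb
  have hn0 : 0 < ‖v ζ‖ := (inv_pos.2 hK).trans_le hv0
  have hne : v ζ ≠ 0 := norm_pos_iff.1 hn0
  have hinv : ‖v ζ‖⁻¹ ≤ K := by
    rw [inv_le_comm₀ hn0 hK]
    exact hv0
  have hζK : ‖v ζ‖ ≤ K := hb ζ (mem_ball_self hr)
  have hN : (0 : ℝ) < ‖v ζ‖ ^ 2 := by positivity
  refine ⟨inner ℂ (v ζ) v₁ / ((‖v ζ‖ ^ 2 : ℝ) : ℂ), ?_, ?_⟩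
  · rw [norm_div, Complex.norm_real, Real.norm_of_nonneg hN.le]
    have h1 : ‖inner ℂ (v ζ) v₁‖ ≤ ‖v ζ‖ * ‖v₁‖ := norm_inner_le_norm _ _
    calc ‖inner ℂ (v ζ) v₁‖ / ‖v ζ‖ ^ 2 ≤ ‖v ζ‖ * ‖v₁‖ / ‖v ζ‖ ^ 2 := by gcongr
      _ = ‖v₁‖ * ‖v ζ‖⁻¹ := by field_simp
      _ ≤ L * K := mul_le_mul hv₁ hinv (by positivity) hL0
      _ ≤ L * K + M * K ^ 2 := by
        have : 0 ≤ M * K ^ 2 := by positivity
        linarith
  · have hcont : ContinuousAt v ζ :=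
      (hd.differentiableAt (ball_mem_nhds ζ hr)).continuousAt
    have hev : ∀ᶠ t in 𝓝 ζ, v t ≠ 0 := hcont.eventually_ne hne
    have hev' : ∀ᶠ w in 𝓝 (0 : ℂ), v (ζ + w) ≠ 0 := by
      have : Tendsto (fun w : ℂ => ζ + w) (𝓝 0) (𝓝 ζ) := by
        have h : ContinuousAt (fun w : ℂ => ζ + w) 0 := by fun_prop
        simpa [ContinuousAt] using h
      exact this.eventually hev
    filter_upwards [hev', ball_mem_nhds (0 : ℂ) hr, ball_mem_nhds (0 : ℂ) one_pos] with w hw h1 h2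
    have hwr : ‖w‖ < r := by simpa [mem_ball] using h1
    have hw1 : ‖w‖ < 1 := by simpa [mem_ball] using h2
    obtain ⟨h, hh, hv⟩ := hT w hwr
    have hnw : 0 < ‖v (ζ + w)‖ := norm_pos_iff.2 hw
    -- the norm
    have e1 : ‖v (ζ + w)‖ ^ 2 = ‖v ζ‖ ^ 2 + 2 * (w * inner ℂ (v ζ) v₁).re +
        2 * (w ^ 2 * inner ℂ (v ζ) h).re + ‖w • v₁ + w ^ 2 • h‖ ^ 2 := by
      rw [hv, norm_add_sq (𝕜 := ℂ), inner_add_right, inner_smul_right, inner_smul_right, map_add]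
      simp only [RCLike.re_to_complex]
      ring
    have e2 : (w ^ 2 * inner ℂ (v ζ) h).re ≤ K * L₂ * ‖w‖ ^ 2 := by
      refine (Complex.re_le_norm _).trans ?_
      rw [norm_mul, norm_pow]
      have h3 : ‖inner ℂ (v ζ) h‖ ≤ ‖v ζ‖ * ‖h‖ := norm_inner_le_norm _ _
      have h4 : ‖v ζ‖ * ‖h‖ ≤ K * L₂ := mul_le_mul hζK hh (norm_nonneg _) hK.le
      rw [mul_comm]
      exact mul_le_mul_of_nonneg_right (h3.trans h4) (by positivity)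
    have e3 : ‖w • v₁ + w ^ 2 • h‖ ≤ ‖w‖ * (L + L₂) := by
      refine (norm_add_le _ _).trans ?_
      rw [norm_smul, norm_smul, norm_pow]
      have h3 : ‖w‖ * ‖v₁‖ ≤ ‖w‖ * L := mul_le_mul_of_nonneg_left hv₁ (norm_nonneg _)
      have h4 : ‖w‖ ^ 2 * ‖h‖ ≤ ‖w‖ * L₂ := by
        have h5 : ‖w‖ ^ 2 ≤ ‖w‖ := by nlinarith [norm_nonneg w]
        exact mul_le_mul h5 hh (norm_nonneg _) (norm_nonneg _)
      linarith
    have e4 : ‖w • v₁ + w ^ 2 • h‖ ^ 2 ≤ (L + L₂) ^ 2 * ‖w‖ ^ 2 := by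
      have := pow_le_pow_left₀ (norm_nonneg _) e3 2
      rw [mul_pow] at this
      linarith
    have e5 : ‖v (ζ + w)‖ ^ 2 ≤ ‖v ζ‖ ^ 2 + 2 * (w * inner ℂ (v ζ) v₁).re + M * ‖w‖ ^ 2 := by
      rw [e1, hM]
      linarith
    have e6 : Real.log ‖v (ζ + w)‖ ≤ Real.log ‖v ζ‖ +
        1 / 2 * (‖v (ζ + w)‖ ^ 2 / ‖v ζ‖ ^ 2 - 1) := by
      have h3 := Real.log_le_sub_one_of_pos (x := ‖v (ζ + w)‖ ^ 2 / ‖v ζ‖ ^ 2) (by positivity)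
      rw [Real.log_div (by positivity) (by positivity), Real.log_pow, Real.log_pow] at h3
      push_cast at h3
      linarith
    have e7 : ‖v (ζ + w)‖ ^ 2 / ‖v ζ‖ ^ 2 ≤ 1 + 2 * ((w * inner ℂ (v ζ) v₁).re / ‖v ζ‖ ^ 2) +
        M * ‖w‖ ^ 2 / ‖v ζ‖ ^ 2 := by
      rw [div_le_iff₀ hN]
      refine e5.trans (le_of_eq ?_)
      field_simp
    have e8 : (inner ℂ (v ζ) v₁ / ((‖v ζ‖ ^ 2 : ℝ) : ℂ) * w).re =
        (w * inner ℂ (v ζ) v₁).re / ‖v ζ‖ ^ 2 := by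
      rw [div_mul_eq_mul_div, Complex.div_ofReal_re, mul_comm w]
    have e9 : M * ‖w‖ ^ 2 / ‖v ζ‖ ^ 2 ≤ M * K ^ 2 * ‖w‖ ^ 2 := by
      have h3 : (‖v ζ‖⁻¹) ^ 2 ≤ K ^ 2 := pow_le_pow_left₀ (by positivity) hinv 2
      have h4 : M * ‖w‖ ^ 2 / ‖v ζ‖ ^ 2 = M * ‖w‖ ^ 2 * (‖v ζ‖⁻¹) ^ 2 := by
        rw [inv_pow]
        rfl
      rw [h4]
      calc M * ‖w‖ ^ 2 * (‖v ζ‖⁻¹) ^ 2 ≤ M * ‖w‖ ^ 2 * K ^ 2 :=
            mul_le_mul_of_nonneg_left h3 (by positivity)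
        _ = _ := by ring
    have e10 : 0 ≤ L * K * ‖w‖ ^ 2 := by positivity
    have e11 : 0 ≤ M * K ^ 2 * ‖w‖ ^ 2 := by positivity
    show Real.log ‖v (ζ + w)‖ ≤ Real.log ‖v ζ‖ + _ + _
    rw [e8, add_mul]
    linarith

end Pool.Agent.VEB
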