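import Pool.Agent.VEB.QMX
import Pool.Agent.VEB.SCP
import Pool.Agent.VEB.UQV
import Pool.Agent.VEB.LLV
import Pool.Agent.VEB.STR
import Pool.Agent.VEB.UQA
import Pool.Agent.EPO.LLH
import Pool.Agent.ELL.Vec

open scoped Manifold Topology
open Filter Metric Set

namespace Pool.Agent.VEB

open Pool.Agent.ELL Pool.Agent.EPO

variable {S : Type*} [MetricSpace S] [CompactSpace S] [ChartedSpace (ℂ × ℂ) S]
  [IsManifold 𝓘(ℂ, ℂ × ℂ) 1 S] {Λ : Submodule ℤ ℂ} [DiscreteTopology Λ] [IsZLattice ℝ Λ]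
  {π : S → ℂ ⧸ Λ} {D : Set S} {m : ℕ} {ι : Type} [Fintype ι] {σ : ι → PluriForm S m D}
  {H : (p : S) → TangentSpace 𝓘(ℂ, ℂ × ℂ) p → ℝ} {Γ : Submodule ℤ ℂ} {E : ℂ → S} {n : ℕ}
  {φ : Fin n → OpenPartialHomeomorph S (ℂ × ℂ)} {A : Fin n → Set ℂ} {ν ρ ε ε₁ K : ℝ}
  {κ : ℂ → ℝ}

/-- Lower support function of `Qf` along a section. -/
theorem QSU (T : Tub π D H σ Γ E φ A ν ρ ε ε₁ K) (hD : IsDivisor D) (hσ : Separates π D σ)
    (hE : E ∈ Sec π D) (hm : 0 < m) (hν : 0 < ν) (hκ : Continuous κ) {Kκ a₀ : ℝ}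
    (hK : 0 ≤ Kκ) (hκb : ∀ ζ, |κ ζ| ≤ Kκ) (hκU : ∀ ζ, UQ κ ζ Kκ)
    (hκL : ∀ ζ, ∀ ψ ∈ MA S, E ζ ∈ ψ.source →
      LL (fun t => 2 / (m : ℝ) * Real.log ‖vec σ ψ (E t)‖ + κ t) ζ a₀) :
    ∃ K' : ℝ, 0 ≤ K' ∧ ∀ (g : ℂ → S) (ζ : ℂ) (r : ℝ), 0 < r → SecOn π D (ball ζ r) g →
      g ζ ≠ E ζ → dist (g ζ) (E ζ) < ε → ∃ i, ∃ c ∈ A i, ‖ζ - c‖ ≤ ρ ∧ ∃ b : ℂ → ℝ,
        (∀ᶠ t in 𝓝 ζ, ‖(φ i (g t)).2 - (φ i (E t)).2‖ ^ 2 * Real.exp (b t) ≤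
          Qf σ E κ ν ρ φ A t (g t)) ∧
        Qf σ E κ ν ρ φ A ζ (g ζ) = ‖(φ i (g ζ)).2 - (φ i (E ζ)).2‖ ^ 2 * Real.exp (b ζ) ∧
        UQ b ζ K' ∧ |b ζ| ≤ K' ∧ (∀ᶠ t in 𝓝 ζ, ContinuousAt b t) ∧ LL b ζ (a₀ - ν) := by
  have hρ := T.ρ_pos
  have hKp := T.K_pos
  have hε : 0 < ε := T.ε₁_pos.trans T.ε₁_lt
  have hEc : Continuous E := hE.1.cont
  have h2m : 0 ≤ 2 / (m : ℝ) := by positivity
  obtain ⟨C, hC, hUQ⟩ := UQV (ι := ι) hρ hKp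
  refine ⟨2 / (m : ℝ) * C + Kκ + ν * (2 * ρ + 1) + (2 / (m : ℝ) * |Real.log K| + ν * ρ ^ 2),
    by positivity, ?_⟩
  intro g ζ r hr hg hne hd
  obtain ⟨-, i, c, hc, hcd, hcρ, hQ⟩ := Qf_attained (κ := κ) T hm hν
    (mem_closedBall.2 hd.le : g ζ ∈ closedBall (E ζ) ε) (hg.2 ζ (mem_ball_self hr)).2 hne
  have hζc : ζ ∈ ball c (4 * ρ) := by
    rw [mem_ball, dist_eq_norm]
    linarith
  -- near `ζ`
  have hnear : ∀ t ∈ ball ζ ρ, t ∈ ball c (2 * ρ) := by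
    intro t ht
    rw [mem_ball, dist_eq_norm] at ht ⊢
    have h1 : t - c = (t - ζ) + (ζ - c) := by ring
    rw [h1]
    have := norm_add_le (t - ζ) (ζ - c)
    linarith
  have hsrc : ∀ t ∈ ball ζ ρ, E t ∈ (φ i).source := fun t ht =>
    T.tube i c hc t (ball_subset_ball (by linarith) (hnear t ht)) (mem_closedBall_self hε.le)
  have hb : ∀ t ∈ ball ζ ρ, K⁻¹ ≤ ‖vec σ (φ i) (E t)‖ ∧ ‖vec σ (φ i) (E t)‖ ≤ K := fun t ht =>
    T.bdd i c hc t (ball_subset_ball (by linarith) (hnear t ht))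
  have hv : ∀ t ∈ ball ζ ρ, DifferentiableAt ℂ (fun s => vec σ (φ i) (E s)) t := fun t ht =>
    vec_hol (σ := σ) hD hE (T.mem i) (hsrc t ht)
  have hζρ : ζ ∈ ball ζ ρ := mem_ball_self hρ
  have hball : ∀ᶠ t in 𝓝 ζ, t ∈ ball ζ ρ := ball_mem_nhds _ hρ
  refine ⟨i, c, hc, hcρ, fun t => 2 / (m : ℝ) * Real.log ‖vec σ (φ i) (E t)‖ + κ t +
    ν * -‖t - c‖ ^ 2, ?_, ?_, ?_, ?_, ?_, ?_⟩
  · filter_upwards [hball] with t ht
    have h1 := Qi_le_Qf (σ := σ) (E := E) (κ := κ) (ν := ν) (φ := φ) hc (hnear t ht) (g t)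
    refine le_trans ?_ h1
    rw [Qi_eq T hm hc (ball_subset_ball (by linarith) (hnear t ht)) (g t)]
    refine mul_le_mul_of_nonneg_left ?_ (sq_nonneg _)
    apply Real.exp_le_exp.2
    have h2 : infDist t (A i) ≤ ‖t - c‖ := by
      rw [← dist_eq_norm]
      exact infDist_le_dist_of_mem hc
    have h3 : infDist t (A i) ^ 2 ≤ ‖t - c‖ ^ 2 := pow_le_pow_left₀ infDist_nonneg h2 2
    have h4 := mul_le_mul_of_nonneg_left h3 hν.le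
    linarith
  · rw [hQ, Qi_eq T hm hc hζc (g ζ), ← hcd]
    congr 2
    ring
  · have u1 := (hUQ (fun t => vec σ (φ i) (E t)) ζ (fun t ht => (hv t ht).differentiableWithinAt)
      (fun t ht => (hb t ht).2) (hb ζ hζρ).1).const_mul h2m
    have u2 := (u1.add (hκU ζ)).add ((UQ_neg_sq c ζ).const_mul hν.le)
    refine u2.mono ?_
    have h1 : ν * (2 * ‖ζ - c‖ + 1) ≤ ν * (2 * ρ + 1) :=
      mul_le_mul_of_nonneg_left (by linarith) hν.le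
    have h2 : 0 ≤ 2 / (m : ℝ) * |Real.log K| + ν * ρ ^ 2 := by positivity
    linarith
  · obtain ⟨b1, b2⟩ := hb ζ hζρ
    have b0 : 0 < ‖vec σ (φ i) (E ζ)‖ := (inv_pos.2 hKp).trans_le b1
    have h1 : |Real.log ‖vec σ (φ i) (E ζ)‖| ≤ |Real.log K| := by
      have h2 : Real.log ‖vec σ (φ i) (E ζ)‖ ≤ Real.log K := Real.log_le_log b0 b2
      have h3 : -Real.log K ≤ Real.log ‖vec σ (φ i) (E ζ)‖ := by
        rw [← Real.log_inv]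
        exact Real.log_le_log (inv_pos.2 hKp) b1
      rw [abs_le]
      have h4 := le_abs_self (Real.log K)
      constructor <;> linarith
    have h5 : |2 / (m : ℝ) * Real.log ‖vec σ (φ i) (E ζ)‖| ≤ 2 / (m : ℝ) * |Real.log K| := by
      rw [abs_mul, abs_of_nonneg h2m]
      exact mul_le_mul_of_nonneg_left h1 h2m
    have h6 : |ν * -‖ζ - c‖ ^ 2| ≤ ν * ρ ^ 2 := by
      rw [abs_mul, abs_neg, abs_of_nonneg hν.le, abs_of_nonneg (sq_nonneg _)]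
      exact mul_le_mul_of_nonneg_left (pow_le_pow_left₀ (norm_nonneg _) hcρ 2) hν.le
    have h7 : |2 / (m : ℝ) * Real.log ‖vec σ (φ i) (E ζ)‖ + κ ζ + ν * -‖ζ - c‖ ^ 2| ≤
        2 / (m : ℝ) * |Real.log K| + Kκ + ν * ρ ^ 2 := by
      refine (abs_add_le _ _).trans (add_le_add ?_ h6)
      exact (abs_add_le _ _).trans (add_le_add h5 (hκb ζ))
    have h8 : 0 ≤ 2 / (m : ℝ) * C + ν * (2 * ρ + 1) := by positivity
    show |2 / (m : ℝ) * Real.log ‖vec σ (φ i) (E ζ)‖ + κ ζ + ν * -‖ζ - c‖ ^ 2| ≤ _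
    linarith
  · filter_upwards [hball] with t ht
    have h0 : ‖vec σ (φ i) (E t)‖ ≠ 0 := ((inv_pos.2 hKp).trans_le (hb t ht).1).ne'
    have h1 : ContinuousAt (fun s => Real.log ‖vec σ (φ i) (E s)‖) t :=
      (hv t ht).continuousAt.norm.log h0
    have h2 : ContinuousAt (fun s : ℂ => ν * -‖s - c‖ ^ 2) t := by
      have : Continuous (fun s : ℂ => ν * -‖s - c‖ ^ 2) := by fun_prop
      exact this.continuousAt
    exact ((continuousAt_const.mul h1).add hκ.continuousAt).add h2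
  · have l1 := (hκL ζ (φ i) (T.mem i) (hsrc ζ hζρ)).add ((LL_neg_sq c ζ).const_mul hν.le)
    refine l1.mono (le_of_eq ?_)
    ring

end Pool.Agent.VEB
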