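import Pool.Agent.VEB.QCT
import Pool.Agent.VEB.QSU
import Pool.Agent.VEB.QBD
import Pool.Agent.VEB.PSI

open scoped Manifold Topology
open Filter Metric Set

namespace Pool.Agent.VEB

open Pool.Agent.ELL Pool.Agent.EPO

variable {S : Type*} [MetricSpace S] [CompactSpace S] [ChartedSpace (ℂ × ℂ) S]
  [IsManifold 𝓘(ℂ, ℂ × ℂ) 1 S] {Λ : Submodule ℤ ℂ} [DiscreteTopology Λ] [IsZLattice ℝ Λ]
  {π : S → ℂ ⧸ Λ} {D : Set S} {m : ℕ} {ι : Type} [Fintype ι] {σ : ι → PluriForm S m D}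
  {H : (p : S) → TangentSpace 𝓘(ℂ, ℂ × ℂ) p → ℝ} {Γ : Submodule ℤ ℂ} {E : ℂ → S} {n : ℕ}
  {φ : Fin n → OpenPartialHomeomorph S (ℂ × ℂ)} {A : Fin n → Set ℂ} {ν ρ ε ε₁ K : ℝ}
  {κ : ℂ → ℝ}

/-- `x ↦ log (min x 1) + 1 - min x 1` is continuous at positive points. -/
theorem gla_cont_fun {x : ℝ} (hx : 0 < x) :
    ContinuousAt (fun x : ℝ => Real.log (min x 1) + 1 - min x 1) x := by
  have h1 : ContinuousAt (fun x : ℝ => min x 1) x := (continuous_id.min continuous_const).continuousAt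
  have h2 : min x 1 ≠ 0 := (lt_min hx one_pos).ne'
  exact ((h1.log h2).add continuousAt_const).sub h1

theorem gla_eq {q τ : ℝ} (hτ : 0 < τ) :
    (if q < τ then Real.log (q / τ) + 1 - q / τ else 0) =
      Real.log (min (q / τ) 1) + 1 - min (q / τ) 1 := by
  split_ifs with h
  · rw [min_eq_left ((div_lt_one hτ).2 h).le]
  · rw [min_eq_right ((one_le_div hτ).2 (not_lt.1 h))]
    simp

theorem gla_dist_cont {g : ℂ → S} {ζ : ℂ} (hg : ContinuousAt g ζ) (hE : ContinuousAt E ζ) :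
    ContinuousAt (fun t => dist (g t) (E t)) ζ := hg.dist hE

/-- away from the tube the function vanishes -/
theorem gla_far (hE : E ∈ Sec π D) (hε : ε₁ < ε) {τ : ℝ}
    (hlow : ∀ ζ, ∀ p ∈ closedBall (E ζ) ε, π p = Λ.mkQ ζ → ε₁ ≤ dist p (E ζ) →
      τ ≤ Qf σ E κ ν ρ φ A ζ p)
    {g : ℂ → S} {ζ : ℂ} {r : ℝ} (hr : 0 < r) (hg : SecOn π D (ball ζ r) g)
    (hd : ε ≤ dist (g ζ) (E ζ)) :
    ∀ᶠ t in 𝓝 ζ, Gf σ E κ ν ρ ε τ φ A t (g t) = 0 := by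
  have hgc : ContinuousAt g ζ := hg.cont isOpen_ball (mem_ball_self hr)
  have hEc : ContinuousAt E ζ := hE.1.cont.continuousAt
  have h1 : ∀ᶠ t in 𝓝 ζ, ε₁ < dist (g t) (E t) :=
    (gla_dist_cont hgc hEc).eventually (lt_mem_nhds (hε.trans_le hd))
  have h2 : ∀ᶠ t in 𝓝 ζ, t ∈ ball ζ r := ball_mem_nhds ζ hr
  filter_upwards [h1, h2] with t ht1 ht2
  unfold Gf
  rw [if_neg]
  rintro ⟨ht3, ht4⟩
  have := hlow t (g t) (mem_closedBall.2 ht3.le) (hg.2 t ht2).2 ht1.le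
  linarith

/-- The truncated logarithm along sections: continuity. -/
theorem GLA_cont (T : Tub π D H σ Γ E φ A ν ρ ε ε₁ K) (hD : IsDivisor D) (hE : E ∈ Sec π D)
    (hm : 0 < m) (hν : 0 < ν) (hκ : Continuous κ) {τ : ℝ} (hτ : 0 < τ)
    (hlow : ∀ ζ, ∀ p ∈ closedBall (E ζ) ε, π p = Λ.mkQ ζ → ε₁ ≤ dist p (E ζ) →
      τ ≤ Qf σ E κ ν ρ φ A ζ p)
    {g : ℂ → S} {ζ : ℂ} {r : ℝ} (hr : 0 < r) (hg : SecOn π D (ball ζ r) g) (hne : g ζ ≠ E ζ) :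
    ContinuousAt (fun t => Gf σ E κ ν ρ ε τ φ A t (g t)) ζ := by
  have hgc : ContinuousAt g ζ := hg.cont isOpen_ball (mem_ball_self hr)
  have hEc : ContinuousAt E ζ := hE.1.cont.continuousAt
  rcases le_or_gt ε (dist (g ζ) (E ζ)) with hd | hd
  · have h1 := gla_far hE T.ε₁_lt hlow hr hg hd
    refine ContinuousAt.congr (f := fun _ : ℂ => (0 : ℝ)) continuousAt_const ?_
    filter_upwards [h1] with t ht
    exact ht.symm
  · have hQ : ContinuousAt (fun t => Qf σ E κ ν ρ φ A t (g t)) ζ :=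
      QCT T hD hE hm hν hκ hr hg hne hd
    have hpos : 0 < Qf σ E κ ν ρ φ A ζ (g ζ) :=
      (Qf_attained T hm hν (mem_closedBall.2 hd.le) (hg.2 ζ (mem_ball_self hr)).2 hne).1
    have h1 : ∀ᶠ t in 𝓝 ζ, dist (g t) (E t) < ε :=
      (gla_dist_cont hgc hEc).eventually (gt_mem_nhds hd)
    have h2 : ContinuousAt (fun t => Real.log (min (Qf σ E κ ν ρ φ A t (g t) / τ) 1) + 1 -
        min (Qf σ E κ ν ρ φ A t (g t) / τ) 1) ζ :=
      ContinuousAt.comp (g := fun x : ℝ => Real.log (min x 1) + 1 - min x 1)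
        (f := fun t => Qf σ E κ ν ρ φ A t (g t) / τ)
        (gla_cont_fun (div_pos hpos hτ)) (hQ.div_const τ)
    refine h2.congr ?_
    filter_upwards [h1] with t ht
    rw [← gla_eq hτ]
    unfold Gf
    simp only [ht, true_and]

/-- The truncated logarithm along sections: Laplacian. Either it vanishes near `ζ`, or the lower
bound holds. -/
theorem GLA (T : Tub π D H σ Γ E φ A ν ρ ε ε₁ K) (hD : IsDivisor D) (hσ : Separates π D σ)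
    (hE : E ∈ Sec π D) (hm : 0 < m) (hν : 0 < ν) (hκ : Continuous κ) {Kκ a₀ : ℝ}
    (hK : 0 ≤ Kκ) (hκb : ∀ ζ, |κ ζ| ≤ Kκ) (hκU : ∀ ζ, UQ κ ζ Kκ)
    (hκL : ∀ ζ, ∀ ψ ∈ MA S, E ζ ∈ ψ.source →
      LL (fun t => 2 / (m : ℝ) * Real.log ‖vec σ ψ (E t)‖ + κ t) ζ a₀) {τ : ℝ} (hτ : 0 < τ)
    (hlow : ∀ ζ, ∀ p ∈ closedBall (E ζ) ε, π p = Λ.mkQ ζ → ε₁ ≤ dist p (E ζ) →
      τ ≤ Qf σ E κ ν ρ φ A ζ p) :
    ∃ K' : ℝ, 0 ≤ K' ∧ ∀ (g : ℂ → S) (ζ : ℂ) (r : ℝ), 0 < r → SecOn π D (ball ζ r) g →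
      g ζ ≠ E ζ → (∀ᶠ t in 𝓝 ζ, Gf σ E κ ν ρ ε τ φ A t (g t) = 0) ∨
        ∃ i, ∃ c ∈ A i, ‖ζ - c‖ ≤ ρ ∧ dist (g ζ) (E ζ) < ε ∧
          LL (fun t => Gf σ E κ ν ρ ε τ φ A t (g t)) ζ
            (a₀ - ν - K' * (‖(φ i (g ζ)).2 - (φ i (E ζ)).2‖ ^ 2 +
              ‖deriv (fun t => (φ i (g t)).2 - (φ i (E t)).2) ζ‖ ^ 2)) := by
  obtain ⟨K₀, hK₀, hsu⟩ := QSU T hD hσ hE hm hν hκ hK hκb hκU hκL
  obtain ⟨C, hC, hpsi⟩ := PSI hK₀
  refine ⟨C / τ, by positivity, ?_⟩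
  intro g ζ r hr hg hne
  have hζr : ζ ∈ ball ζ r := mem_ball_self hr
  have hgc : ContinuousAt g ζ := hg.cont isOpen_ball hζr
  have hEc : ContinuousAt E ζ := hE.1.cont.continuousAt
  rcases le_or_gt ε (dist (g ζ) (E ζ)) with hd | hd
  · exact Or.inl (gla_far hE T.ε₁_lt hlow hr hg hd)
  have hdn : ∀ᶠ t in 𝓝 ζ, dist (g t) (E t) < ε :=
    (gla_dist_cont hgc hEc).eventually (gt_mem_nhds hd)
  have hQ : ContinuousAt (fun t => Qf σ E κ ν ρ φ A t (g t)) ζ :=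
    QCT T hD hE hm hν hκ hr hg hne hd
  rcases lt_or_ge τ (Qf σ E κ ν ρ φ A ζ (g ζ)) with hq | hq
  · left
    have h1 : ∀ᶠ t in 𝓝 ζ, τ < Qf σ E κ ν ρ φ A t (g t) := hQ.eventually (lt_mem_nhds hq)
    filter_upwards [h1] with t ht
    unfold Gf
    rw [if_neg]
    rintro ⟨-, h2⟩
    linarith
  right
  obtain ⟨i, c, hc, hζc, b, hble, hbeq, hbU, hbb, hbc, hbL⟩ := hsu g ζ r hr hg hne hd
  have hρ := T.ρ_pos
  have hζ4 : ζ ∈ ball c (4 * ρ) := by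
    rw [mem_ball, dist_eq_norm]
    linarith
  have hsrc : closedBall (E ζ) ε ⊆ (φ i).source := T.tube i c hc ζ hζ4
  have hgs : g ζ ∈ (φ i).source := hsrc (mem_closedBall.2 hd.le)
  have hεpos : 0 < ε := T.ε₁_pos.trans T.ε₁_lt
  have hEs : E ζ ∈ (φ i).source := hsrc (mem_closedBall_self hεpos.le)
  set d : ℂ → ℂ := fun t => (φ i (g t)).2 - (φ i (E t)).2 with hd_def
  have hEsec : SecOn π D (ball ζ r) E := Sec.secOn hE _
  -- analyticity of `d`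
  have hdiff : ∀ᶠ t in 𝓝 ζ, DifferentiableAt ℂ d t := by
    have h1 : ∀ᶠ t in 𝓝 ζ, g t ∈ (φ i).source :=
      hgc.eventually ((φ i).open_source.mem_nhds hgs)
    have h2 : ∀ᶠ t in 𝓝 ζ, E t ∈ (φ i).source :=
      hEc.eventually ((φ i).open_source.mem_nhds hEs)
    have h3 : ∀ᶠ t in 𝓝 ζ, t ∈ ball ζ r := ball_mem_nhds ζ hr
    filter_upwards [h1, h2, h3] with t ht1 ht2 ht3
    have e1 := mdiff_chart (hg.mdiff isOpen_ball ht3) (T.mem i) ht1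
    have e2 := mdiff_chart (hEsec.mdiff isOpen_ball ht3) (T.mem i) ht2
    exact e1.snd.sub e2.snd
  have hdan : AnalyticAt ℂ d ζ := by
    rw [Complex.analyticAt_iff_eventually_differentiableAt]
    exact hdiff
  have hd0 : d ζ ≠ 0 := by
    intro h0
    apply hne
    apply (φ i).injOn hgs hEs
    have h1 : (φ i (g ζ)).1 = (φ i (E ζ)).1 :=
      T.fst i c hc ζ hζ4 (g ζ) (mem_closedBall.2 hd.le) (hg.2 ζ hζr).2
    have h2 : (φ i (g ζ)).2 = (φ i (E ζ)).2 := sub_eq_zero.1 h0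
    exact Prod.ext h1 h2
  have hLL := hpsi d b ζ τ (a₀ - ν) hτ hdan hd0 hbU ((le_abs_self _).trans hbb) hbc hbL
  refine ⟨i, c, hc, hζc, hd, ?_⟩
  refine LL.touch hLL ?_ ?_ ?_
  · -- inequality
    have h1 : ∀ᶠ t in 𝓝 ζ, d t ≠ 0 := hdan.continuousAt.eventually_ne hd0
    filter_upwards [hble, hdn, h1] with t ht1 ht2 ht3
    have hqpos : 0 < ‖d t‖ ^ 2 * Real.exp (b t) := by
      have : 0 < ‖d t‖ := norm_pos_iff.2 ht3
      positivity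
    unfold Gf
    simp only [ht2, true_and]
    split_ifs with h2
    · exact psi_mono (div_pos hqpos hτ) (div_le_div_of_nonneg_right ht1 hτ.le)
        ((div_le_one hτ).2 h2.le)
    · exact psi_nonpos (div_pos hqpos hτ)
  · -- equality
    show Gf σ E κ ν ρ ε τ φ A ζ (g ζ) = _
    unfold Gf
    simp only [hd, true_and]
    rw [← hbeq]
    split_ifs with h2
    · rfl
    · have h3 : Qf σ E κ ν ρ φ A ζ (g ζ) = τ := le_antisymm hq (not_lt.1 h2)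
      rw [h3, div_self hτ.ne']
      simp
  · -- continuity
    have h1 : ∀ᶠ t in 𝓝 ζ, t ∈ ball ζ r := ball_mem_nhds ζ hr
    have h2 : ∀ᶠ t in 𝓝 ζ, g t ≠ E t := by
      have h3 : ∀ᶠ t in 𝓝 ζ, 0 < dist (g t) (E t) :=
        (gla_dist_cont hgc hEc).eventually (lt_mem_nhds (dist_pos.2 hne))
      filter_upwards [h3] with t ht
      exact dist_pos.1 ht
    filter_upwards [h1, h2] with t ht1 ht2
    obtain ⟨r', hr', hsub⟩ := Metric.isOpen_iff.1 isOpen_ball t ht1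
    exact GLA_cont T hD hE hm hν hκ hτ hlow hr' (hg.mono hsub) ht2

end Pool.Agent.VEB
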