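import Pool.Agent.VEB.Defs5
import Pool.Agent.VEB.FIB

open scoped Manifold Topology
open Filter Metric Set

namespace Pool.Agent.VEB

open Pool.Agent.ELL Pool.Agent.EPO

variable {S : Type*} [MetricSpace S] [CompactSpace S] [ChartedSpace (ℂ × ℂ) S]
  [IsManifold 𝓘(ℂ, ℂ × ℂ) 1 S] {Λ : Submodule ℤ ℂ} [DiscreteTopology Λ] [IsZLattice ℝ Λ]
  {π : S → ℂ ⧸ Λ} {D : Set S} {B : Type*} [TopologicalSpace B] [T2Space B] [CompactSpace B]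
  {f : B → S} {e : B → ℕ} {P : Set B}
  {k : B → ℕ} {L : S → ℝ} {N : Set S} {Fo : (ℂ → S) → ℂ → ℝ} {A' C₂ : ℝ}

/-- The roots tend to `0`. -/
theorem HKF_root {Q : ℂ → Prop} (hQ : ∀ᶠ u in 𝓝[≠] (0 : ℂ), Q u) {n : ℕ} (hn : 0 < n)
    (ζ₀ : ℂ) : ∀ᶠ ζ in 𝓝[≠] ζ₀, ∀ u : ℂ, u ^ n = ζ - ζ₀ → Q u := by
  rw [eventually_nhdsWithin_iff] at hQ
  obtain ⟨δ, hδ, hQ⟩ := Metric.eventually_nhds_iff_ball.1 hQ
  have hδn : 0 < δ ^ n := pow_pos hδ n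
  have h1 : ∀ᶠ ζ in 𝓝[≠] ζ₀, dist ζ ζ₀ < δ ^ n :=
    nhdsWithin_le_nhds (ball_mem_nhds ζ₀ hδn)
  have h2 : ∀ᶠ ζ in 𝓝[≠] ζ₀, ζ ≠ ζ₀ := self_mem_nhdsWithin
  filter_upwards [h1, h2] with ζ h3 h4 u hu
  apply hQ u
  · rw [mem_ball_zero_iff]
    rw [dist_eq_norm, ← hu, norm_pow] at h3
    exact lt_of_pow_lt_pow_left₀ _ hδ.le h3
  · rintro rfl
    rw [zero_pow hn.ne'] at hu
    exact h4 (sub_eq_zero.1 hu.symm)

/-- The multiplicities `k` have finite support. -/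
theorem HKF (H : BDat π D f e P) (hl : HLam π P f e k L N) : {p | k p ≠ 0}.Finite := by
  classical
  have h1 : ∀ q : B, ∃ U ∈ 𝓝 q, ∀ p ∈ U, k p ≠ 0 → p = q := by
    intro q
    obtain ⟨a, ha⟩ := Λ.mkQ_surjective (π (f q))
    obtain ⟨ε, σ, h⟩ := H.cov.nf q a ha.symm
    obtain ⟨C, hC⟩ := hl.loc q a ε σ h
    rw [eventually_nhdsWithin_iff] at hC
    obtain ⟨δ, hδ, hC⟩ := Metric.eventually_nhds_iff_ball.1 hC
    have hm : 0 < min ε δ := lt_min h.pos hδ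
    have hsub : ball (0 : ℂ) (min ε δ) ⊆ ball 0 ε := ball_subset_ball (min_le_left _ _)
    refine ⟨σ '' ball 0 (min ε δ), ?_, ?_⟩
    · refine (h.opn _ hsub isOpen_ball).mem_nhds ?_
      exact ⟨0, mem_ball_self hm, h.center⟩
    · rintro _ ⟨u, hu, rfl⟩ hk
      by_cases hu0 : u = 0
      · rw [hu0, h.center]
      · exact absurd (hC u (ball_subset_ball (min_le_right _ _) hu) hu0).2.2 hk
  choose U hU hU2 using h1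
  obtain ⟨t, ht⟩ := isCompact_univ.elim_nhds_subcover U (fun q _ => hU q)
  refine (t.finite_toSet).subset fun p hp => ?_
  obtain ⟨q, hq, hpq⟩ := mem_iUnion₂.1 (ht.2 (mem_univ p))
  rw [hU2 q p hpq hp]
  exact hq

/-- Near every point, except possibly over this point, there are no special points. -/
theorem HKF_iso (H : BDat π D f e P) (hl : HLam π P f e k L N) (ζ₀ : ℂ) :
    ∀ᶠ ζ in 𝓝[≠] ζ₀, ∀ p ∈ Fib Λ (fun q => π (f q)) ζ, p ∉ P ∧ f p ∉ N ∧ k p = 0 := by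
  obtain ⟨δ, hδ, ε, σ, hNF, hdisj, hfib⟩ := FIB H.cov ζ₀
  have hfin := Fib_finite H.cov ζ₀
  have h1 : ∀ᶠ ζ in 𝓝[≠] ζ₀, ∀ q ∈ Fib Λ (fun q => π (f q)) ζ₀, ∀ u : ℂ,
      u ^ e q = ζ - ζ₀ → f (σ q u) ∉ N ∧ k (σ q u) = 0 := by
    rw [Filter.eventually_all_finite hfin]
    intro q hq
    obtain ⟨C, hC⟩ := hl.loc q ζ₀ (ε q) (σ q) (hNF q hq).1
    exact HKF_root (hC.mono fun u hu => hu.2) (hNF q hq).1.epos ζ₀
  have h2 : ∀ᶠ ζ in 𝓝[≠] ζ₀, ζ ≠ ζ₀ := self_mem_nhdsWithin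
  have h3 : ∀ᶠ ζ in 𝓝[≠] ζ₀, ζ ∈ ball ζ₀ δ := nhdsWithin_le_nhds (ball_mem_nhds ζ₀ hδ)
  filter_upwards [h1, h2, h3] with ζ hζ hne hζδ p hp
  obtain ⟨q, hq, u, hu, hue, rfl⟩ := (hfib ζ hζδ p).1 hp
  refine ⟨(hNF q hq).1.avoid u hu ?_, hζ q hq u hue⟩
  rintro rfl
  rw [zero_pow (hNF q hq).1.epos.ne'] at hue
  exact hne (sub_eq_zero.1 hue.symm)

end Pool.Agent.VEB
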