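import Pool.Agent.VEB.Defs5
import Pool.Agent.VEB.FIB
import Pool.Agent.VEB.SOF

open scoped Manifold Topology
open Filter Metric Set

namespace Pool.Agent.VEB

open Pool.Agent.ELL Pool.Agent.EPO

variable {S : Type*} [MetricSpace S] [CompactSpace S] [ChartedSpace (ℂ × ℂ) S]
  [IsManifold 𝓘(ℂ, ℂ × ℂ) 1 S] {Λ : Submodule ℤ ℂ} [DiscreteTopology Λ] [IsZLattice ℝ Λ]
  {π : S → ℂ ⧸ Λ} {D : Set S} {B : Type*} [TopologicalSpace B] [T2Space B] [CompactSpace B]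
  {f : B → S} {e : B → ℕ} {P : Set B}
  {k : B → ℕ} {L : S → ℝ} {N : Set S} {Fo : (ℂ → S) → ℂ → ℝ} {A' C₂ : ℝ}

/-- The `e`-th roots of `w`. -/
private noncomputable def rts (e : ℕ) (w : ℂ) : Finset ℂ :=
  open Classical in (Polynomial.nthRoots e w).toFinset

private theorem mem_rts {e : ℕ} (he : 0 < e) {w u : ℂ} : u ∈ rts e w ↔ u ^ e = w := by
  unfold rts
  rw [Multiset.mem_toFinset, Polynomial.mem_nthRoots he]

private theorem card_rts {e : ℕ} (he : 0 < e) {w : ℂ} (hw : w ≠ 0) : (rts e w).card = e := by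
  classical
  have hprim := Complex.isPrimitiveRoot_exp e he.ne'
  unfold rts
  rw [Multiset.toFinset_card_of_nodup (hprim.nthRoots_nodup hw), hprim.card_nthRoots,
    if_pos]
  obtain ⟨α, hα⟩ := IsAlgClosed.exists_pow_nat_eq w he
  exact ⟨α, hα⟩

private theorem hsi_val (H : BDat π D f e P) (hh : IsHt π D L N Fo A' C₂) {ζ : ℂ} {r : ℝ}
    {s : ℂ → B} (hr : 0 < r) (hs : IsSec Λ (fun q => π (f q)) P (ball ζ r) s) :
    Fo (fun t => f (loc Λ (fun q => π (f q)) P ζ (s ζ) t)) ζ = Fo (fun t => f (s t)) ζ := by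
  apply hh.germ
  filter_upwards [loc_eq H hr hs] with t ht
  rw [ht]

/-- roots tend to zero -/
private theorem hsi_root {Q : ℂ → Prop} (hQ : ∀ᶠ u in 𝓝[≠] (0 : ℂ), Q u) {n : ℕ} (hn : 0 < n)
    (ζ₀ : ℂ) : ∀ᶠ ζ in 𝓝[≠] ζ₀, ∀ u : ℂ, u ^ n = ζ - ζ₀ → Q u := by
  rw [eventually_nhdsWithin_iff] at hQ
  obtain ⟨δ, hδ, hQ⟩ := Metric.eventually_nhds_iff_ball.1 hQ
  have hδn : 0 < δ ^ n := pow_pos hδ n
  have h1 : ∀ᶠ ζ in 𝓝[≠] ζ₀, dist ζ ζ₀ < δ ^ n :=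
    nhdsWithin_le_nhds (ball_mem_nhds ζ₀ hδn)
  have h2 : ∀ᶠ ζ in 𝓝[≠] ζ₀, ζ ≠ ζ₀ := self_mem_nhdsWithin
  filter_upwards [h1, h2] with ζ h3 h4 u hu
  apply hQ u
  · rw [mem_ball_zero_iff]
    rw [dist_eq_norm, ← hu, norm_pow] at h3
    exact lt_of_pow_lt_pow_left₀ _ hδ.le h3
  · rintro rfl
    rw [zero_pow hn.ne'] at hu
    exact h4 (sub_eq_zero.1 hu.symm)

/-- The upper bound for one value. -/
private theorem hsi_one (H : BDat π D f e P) (hh : IsHt π D L N Fo A' C₂)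
    (hl : HLam π P f e k L N) {ζ₀ : ℂ} {q : B} {ε : ℝ} {σ : ℂ → B}
    (h : NF Λ (fun q => π (f q)) (Phf f) P q (e q) ζ₀ ε σ) :
    ∃ C' : ℝ, ∀ᶠ ζ in 𝓝[≠] ζ₀, ∀ u : ℂ, u ^ e q = ζ - ζ₀ →
      Fo (fun t => f (loc Λ (fun q => π (f q)) P ζ (σ u) t)) ζ ≤
        2 * ((k q : ℝ) * Real.log ‖u‖) + (open Classical in if q ∈ P then A' * Real.log (1 / ‖ζ - ζ₀‖) else 0) + C' := by
  classical
  obtain ⟨C, hC⟩ := hl.loc q ζ₀ ε σ h
  have hC' := hsi_root (hC.mono fun u hu => hu.1) h.epos ζ₀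
  have hεe : 0 < ε ^ e q := pow_pos h.pos _
  have hb : ∀ t : ℝ, 0 < t → ∀ᶠ ζ in 𝓝[≠] ζ₀, dist ζ ζ₀ < t := fun t ht =>
    nhdsWithin_le_nhds (ball_mem_nhds ζ₀ ht)
  have hne : ∀ᶠ ζ in 𝓝[≠] ζ₀, ζ ≠ ζ₀ := self_mem_nhdsWithin
  by_cases hq : q ∈ P
  · refine ⟨2 * C, ?_⟩
    filter_upwards [hC', hne, hb 1 one_pos, hb _ (half_pos hεe)] with ζ h1 h2 h3 h4 u hu
    have hnp : 0 < ‖ζ - ζ₀‖ := norm_pos_iff.2 (sub_ne_zero.2 h2)
    rw [dist_eq_norm] at h3 h4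
    obtain ⟨s, hs, hsp⟩ := sec_near h h2 (by linarith) hu
    have e1 := hsi_val H hh hnp hs
    rw [hsp] at e1
    rw [e1, if_pos hq]
    have h5 := hh.upper (fun t => f (s t)) ζ ‖ζ - ζ₀‖ hnp h3.le (SOF H isOpen_ball hs)
    simp only [hsp] at h5
    have h6 := h1 u hu
    linarith
  · have he : e q = 1 := H.cov.one q hq
    have hr0 : 0 < min (ε / 2) 1 := lt_min (half_pos h.pos) one_pos
    refine ⟨2 * C + A' * Real.log (1 / min (ε / 2) 1), ?_⟩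
    filter_upwards [hC', hne, hb _ (half_pos h.pos)] with ζ h1 h2 h3 u hu
    have hsr := sec_reg H.cov hq h
    have hu' : u = ζ - ζ₀ := by rw [← hu, he, pow_one]
    have hsub : ball ζ (min (ε / 2) 1) ⊆ ball ζ₀ ε := by
      apply ball_subset_ball'
      have := min_le_left (ε / 2) (1 : ℝ)
      linarith
    have hs : IsSec Λ (fun q => π (f q)) P (ball ζ (min (ε / 2) 1)) (fun η => σ (η - ζ₀)) :=
      ⟨hsr.1.mono hsub, fun y hy => hsr.2 y (hsub hy)⟩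
    have e1 := hsi_val H hh hr0 hs
    simp only [← hu'] at e1
    rw [e1, if_neg hq]
    have h5 := hh.upper _ ζ _ hr0 (min_le_right _ _) (SOF H isOpen_ball hs)
    simp only [← hu'] at h5
    have h6 := h1 u hu
    linarith

/-- The bound for the sum over the points near `q`. -/
private theorem hsi_near (H : BDat π D f e P) (hh : IsHt π D L N Fo A' C₂)
    (hl : HLam π P f e k L N) {ζ₀ : ℂ} {q : B} {ε : ℝ} {σ : ℂ → B}
    (h : NF Λ (fun q => π (f q)) (Phf f) P q (e q) ζ₀ ε σ) :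
    ∃ C' : ℝ, ∀ᶠ ζ in 𝓝[≠] ζ₀, ∑ u ∈ rts (e q) (ζ - ζ₀),
      Fo (fun t => f (loc Λ (fun q => π (f q)) P ζ (σ u) t)) ζ ≤
        C' + ((open Classical in if q ∈ P then A' * (e q : ℝ) else 0) - 2 * (k q : ℝ)) * Real.log (1 / ‖ζ - ζ₀‖) := by
  classical
  obtain ⟨C', hC'⟩ := hsi_one H hh hl h
  refine ⟨(e q : ℝ) * C', ?_⟩
  have hne : ∀ᶠ ζ in 𝓝[≠] ζ₀, ζ ≠ ζ₀ := self_mem_nhdsWithin
  filter_upwards [hC', hne] with ζ h1 h2
  have hw : ζ - ζ₀ ≠ 0 := sub_ne_zero.2 h2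
  have he : (e q : ℝ) ≠ 0 := by exact_mod_cast h.epos.ne'
  have hterm : ∀ u ∈ rts (e q) (ζ - ζ₀),
      Fo (fun t => f (loc Λ (fun q => π (f q)) P ζ (σ u) t)) ζ ≤
        2 * ((k q : ℝ) * (-(Real.log (1 / ‖ζ - ζ₀‖)) / (e q : ℝ))) +
          (if q ∈ P then A' * Real.log (1 / ‖ζ - ζ₀‖) else 0) + C' := by
    intro u hu
    rw [mem_rts h.epos] at hu
    have hun : ‖u‖ ^ (e q) = ‖ζ - ζ₀‖ := by rw [← norm_pow, hu]
    have h5 : Real.log ‖u‖ = -(Real.log (1 / ‖ζ - ζ₀‖)) / (e q : ℝ) := by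
      rw [one_div, Real.log_inv, neg_neg, ← hun, Real.log_pow]
      field_simp
    have h6 := h1 u hu
    rw [h5] at h6
    exact h6
  calc ∑ u ∈ rts (e q) (ζ - ζ₀), Fo (fun t => f (loc Λ (fun q => π (f q)) P ζ (σ u) t)) ζ
      ≤ ∑ u ∈ rts (e q) (ζ - ζ₀), (2 * ((k q : ℝ) * (-(Real.log (1 / ‖ζ - ζ₀‖)) / (e q : ℝ))) +
          (if q ∈ P then A' * Real.log (1 / ‖ζ - ζ₀‖) else 0) + C') := Finset.sum_le_sum hterm
    _ = _ := by
        rw [Finset.sum_const, card_rts h.epos hw, nsmul_eq_mul]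
        split_ifs
        · field_simp
          ring
        · field_simp
          ring

open Classical in
/-- Upper bound for the sum of the height potentials near an arbitrary point. -/
theorem HSI (H : BDat π D f e P) (hh : IsHt π D L N Fo A' C₂) (hl : HLam π P f e k L N)
    (P' K' : Finset B) (hP : ∀ p, p ∈ P' ↔ p ∈ P) (hK : ∀ p, p ∈ K' ↔ k p ≠ 0) (ζ₀ : ℂ) :
    ∃ C' : ℝ, ∀ᶠ ζ in 𝓝[≠] ζ₀, Hs π P f Fo ζ ≤
      ((∑ q ∈ P' with π (f q) = Λ.mkQ ζ₀, A' * (e q : ℝ)) -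
        ∑ q ∈ K' with π (f q) = Λ.mkQ ζ₀, 2 * (k q : ℝ)) * Real.log (1 / ‖ζ - ζ₀‖) + C' := by
  obtain ⟨δ, hδ, ε, σ, hNF, hdisj, hfib⟩ := FIB H.cov ζ₀
  have hfin : (Fib Λ (fun q => π (f q)) ζ₀).Finite := Fib_finite H.cov ζ₀
  set F : Finset B := hfin.toFinset with hF
  have hmemF : ∀ q, q ∈ F ↔ q ∈ Fib Λ (fun q => π (f q)) ζ₀ := fun q => by
    rw [hF, Set.Finite.mem_toFinset]
  -- the coefficient
  let α : B → ℝ := fun q => (if q ∈ P then A' * (e q : ℝ) else 0) - 2 * (k q : ℝ)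
  have hloc : ∀ q ∈ Fib Λ (fun q => π (f q)) ζ₀, ∃ C₂ : ℝ, ∀ᶠ ζ in 𝓝[≠] ζ₀,
      ∑ u ∈ rts (e q) (ζ - ζ₀), Fo (fun t => f (loc Λ (fun q => π (f q)) P ζ (σ q u) t)) ζ ≤
        C₂ + α q * Real.log (1 / ‖ζ - ζ₀‖) := by
    intro q hq
    exact hsi_near H hh hl (hNF q hq).1
  choose! C₂ hC₂ using hloc
  refine ⟨∑ q ∈ F, C₂ q, ?_⟩
  have hall : ∀ᶠ ζ in 𝓝[≠] ζ₀, ∀ q ∈ F,
      ∑ u ∈ rts (e q) (ζ - ζ₀), Fo (fun t => f (loc Λ (fun q => π (f q)) P ζ (σ q u) t)) ζ ≤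
        C₂ q + α q * Real.log (1 / ‖ζ - ζ₀‖) := by
    rw [Finset.eventually_all]
    intro q hq
    exact hC₂ q ((hmemF q).1 hq)
  have hev : ∀ᶠ ζ in 𝓝[≠] ζ₀, ζ ≠ ζ₀ ∧ dist ζ ζ₀ < δ := by
    have hb : ∀ t : ℝ, 0 < t → ∀ᶠ ζ in 𝓝[≠] ζ₀, dist ζ ζ₀ < t := fun t ht =>
      nhdsWithin_le_nhds (ball_mem_nhds ζ₀ ht)
    have hne : ∀ᶠ ζ in 𝓝[≠] ζ₀, ζ ≠ ζ₀ := self_mem_nhdsWithin
    filter_upwards [hne, hb δ hδ] with ζ h1 h2
    exact ⟨h1, h2⟩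
  filter_upwards [hall, hev] with ζ hζ hζ'
  obtain ⟨hne, hd⟩ := hζ'
  have hw : ζ - ζ₀ ≠ 0 := sub_ne_zero.2 hne
  -- the fibre as a finite set
  let T : Finset (Σ _ : B, ℂ) := F.sigma fun q => rts (e q) (ζ - ζ₀)
  let g : (Σ _ : B, ℂ) → B := fun t => σ t.1 t.2
  have huε : ∀ q ∈ Fib Λ (fun q => π (f q)) ζ₀, ∀ u, u ^ (e q) = ζ - ζ₀ →
      u ∈ ball (0 : ℂ) (ε q) := by
    intro q hq u hu
    rw [mem_ball_zero_iff]
    by_contra hcon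
    push Not at hcon
    have h1 : ε q ^ (e q) ≤ ‖u‖ ^ (e q) := pow_le_pow_left₀ (hNF q hq).1.pos.le hcon _
    rw [← norm_pow, hu, ← dist_eq_norm] at h1
    linarith [(hNF q hq).2]
  have hT : ∀ t, t ∈ T ↔ t.1 ∈ Fib Λ (fun q => π (f q)) ζ₀ ∧ t.2 ∈ rts (e t.1) (ζ - ζ₀) := by
    intro t
    rw [Finset.mem_sigma, hmemF]
  have hinj : Set.InjOn g (T : Set (Σ _ : B, ℂ)) := by
    rintro ⟨q, u⟩ ht ⟨q', u'⟩ ht' heq
    rw [Finset.mem_coe, hT] at ht ht'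
    have hq := ht.1
    have hq' := ht'.1
    have hu := (mem_rts (hNF q hq).1.epos).1 ht.2
    have hu' := (mem_rts (hNF q' hq').1.epos).1 ht'.2
    have h1 : q = q' := hdisj q hq q' hq' u (huε q hq u hu) u' (huε q' hq' u' hu') heq
    subst h1
    have h2 : u = u' := (hNF q hq).1.inj (huε q hq u hu) (huε q hq' u' hu') heq
    rw [h2]
  have hFT : Fib Λ (fun q => π (f q)) ζ = ((T.image g : Finset B) : Set B) := by
    ext p
    rw [hfib ζ (by rw [mem_ball]; exact hd) p, Finset.mem_coe, Finset.mem_image]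
    constructor
    · rintro ⟨q, hq, u, -, hu, rfl⟩
      exact ⟨⟨q, u⟩, (hT _).2 ⟨hq, (mem_rts (hNF q hq).1.epos).2 hu⟩, rfl⟩
    · rintro ⟨⟨q, u⟩, ht, rfl⟩
      rw [hT] at ht
      have hu := (mem_rts (hNF q ht.1).1.epos).1 ht.2
      exact ⟨q, ht.1, u, huε q ht.1 u hu, hu, rfl⟩
  have hPsi : Hs π P f Fo ζ =
      ∑ q ∈ F, ∑ u ∈ rts (e q) (ζ - ζ₀),
        Fo (fun t => f (loc Λ (fun q => π (f q)) P ζ (σ q u) t)) ζ := by
    unfold Hs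
    rw [hFT, finsum_mem_coe_finset, Finset.sum_image hinj, Finset.sum_sigma]
  have hα : ∑ q ∈ F, α q = (∑ q ∈ P' with π (f q) = Λ.mkQ ζ₀, A' * (e q : ℝ)) -
        ∑ q ∈ K' with π (f q) = Λ.mkQ ζ₀, 2 * (k q : ℝ) := by
    simp only [α]
    rw [Finset.sum_sub_distrib]
    congr 1
    · rw [← Finset.sum_filter]
      refine Finset.sum_congr ?_ fun q _ => rfl
      ext q
      rw [Finset.mem_filter, Finset.mem_filter, hmemF, hP, and_comm]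
      rfl
    · symm
      refine Finset.sum_subset_zero_on_sdiff ?_ ?_ fun q _ => rfl
      · intro q hq
        rw [Finset.mem_filter] at hq
        rw [hmemF]
        exact hq.2
      · intro q hq
        rw [Finset.mem_sdiff, Finset.mem_filter, hmemF] at hq
        have h0 : k q = 0 := by
          by_contra hk
          exact hq.2 ⟨(hK q).2 hk, hq.1⟩
        rw [h0]
        simp
  rw [hPsi]
  calc ∑ q ∈ F, ∑ u ∈ rts (e q) (ζ - ζ₀),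
        Fo (fun t => f (loc Λ (fun q => π (f q)) P ζ (σ q u) t)) ζ
      ≤ ∑ q ∈ F, (C₂ q + α q * Real.log (1 / ‖ζ - ζ₀‖)) := Finset.sum_le_sum hζ
    _ = ∑ q ∈ F, C₂ q + (∑ q ∈ F, α q) * Real.log (1 / ‖ζ - ζ₀‖) := by
        rw [Finset.sum_add_distrib, Finset.sum_mul]
    _ = _ := by rw [hα]; ring

end Pool.Agent.VEB
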