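import Pool.Agent.VEB.HRG
import Pool.Agent.VEB.HKF
import Pool.Agent.VEB.HSI
import Pool.Agent.VEB.PGS
import Pool.Agent.VEB.MAXP

open scoped Manifold Topology
open Filter Metric Set

namespace Pool.Agent.VEB

open Pool.Agent.ELL Pool.Agent.EPO

/-- The number of zeros of the form is bounded by the special points and the degree. -/
theorem HFN.{u} {S : Type*} [MetricSpace S] [CompactSpace S] [ChartedSpace (ℂ × ℂ) S]
    [IsManifold 𝓘(ℂ, ℂ × ℂ) 1 S] {Λ : Submodule ℤ ℂ} [DiscreteTopology Λ] [IsZLattice ℝ Λ]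
    (π : S → ℂ ⧸ Λ) (D : Set S) (A' C₂ : ℝ) :
    ∃ A₃ : ℝ, 0 ≤ A₃ ∧ ∀ (L : S → ℝ) (N : Set S) (Fo : (ℂ → S) → ℂ → ℝ),
      IsHt π D L N Fo A' C₂ → ∀ (B : Type u) [TopologicalSpace B] [T2Space B] [CompactSpace B]
      (f : B → S) (e k : B → ℕ) (P : Set B), BDat π D f e P → HLam π P f e k L N →
      ∀ (P' K' : Finset B), (∀ p, p ∈ P' ↔ p ∈ P) → (∀ p, p ∈ K' ↔ k p ≠ 0) → ∀ M : ℝ,
        (∀ b : ℂ, ((∑ᶠ q ∈ Fib Λ (fun q => π (f q)) b, e q : ℕ) : ℝ) ≤ M) →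
          ∑ p ∈ K', (k p : ℝ) ≤ A₃ * (∑ q ∈ P', (e q : ℝ) + M) := by
  obtain ⟨c₁, c₂, hc₁, hc₂, hG⟩ := PGS.{u} Λ
  refine ⟨(|C₂| + c₂ * (|A'| + 1)) / c₁, by positivity, ?_⟩
  intro L N Fo hh B _ _ _ f e k P H hl P' K' hP hK M hM
  classical
  have hA := hh.A_nonneg
  have hC₂ := hh.C₂_nonneg
  choose lf hlf using fun q : B => Submodule.mkQ_surjective Λ (π (f q))
  have hlf' : ∀ (q : B) (ζ : ℂ), ζ - lf q ∈ Λ ↔ π (f q) = Λ.mkQ ζ := by
    intro q ζ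
    rw [← hlf q, Submodule.mkQ_apply, Submodule.mkQ_apply, eq_comm, Submodule.Quotient.eq]
  obtain ⟨G₁, hGper₁, hGreg₁, hGs₁⟩ := hG B K' lf (fun q => (k q : ℝ))
    (fun q _ => Nat.cast_nonneg _)
  obtain ⟨G₂, hGper₂, hGreg₂, hGs₂⟩ := hG B P' lf (fun q => A' * e q + 1)
    (fun q _ => by positivity)
  have he : ∀ q, 1 ≤ e q := by
    intro q
    obtain ⟨ε, σ, hN⟩ := H.cov.nf q (lf q) (hlf q).symm
    exact hN.epos
  have hfin : ∀ ζ, (Fib Λ (fun q => π (f q)) ζ).Finite := fun ζ => Fib_finite H.cov ζ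
  have hcardM : ∀ ζ, ((Fib Λ (fun q => π (f q)) ζ).ncard : ℝ) ≤ M := by
    intro ζ
    refine le_trans ?_ (hM ζ)
    rw [finsum_mem_eq_finite_toFinset_sum _ (hfin ζ), Set.ncard_eq_toFinset_card _ (hfin ζ)]
    norm_cast
    rw [Finset.card_eq_sum_ones]
    exact Finset.sum_le_sum fun q _ => he q
  have hM0 : 0 ≤ M := le_trans (Nat.cast_nonneg _) (hcardM 0)
  have hfib : ∀ ω ∈ Λ, ∀ ζ, Fib Λ (fun q => π (f q)) (ζ + ω) = Fib Λ (fun q => π (f q)) ζ := by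
    intro ω hω ζ
    have h1 : Λ.mkQ (ζ + ω) = Λ.mkQ ζ := by
      rw [Submodule.mkQ_apply, Submodule.mkQ_apply, Submodule.Quotient.eq, add_sub_cancel_left]
      exact hω
    unfold Fib
    rw [h1]
  set Reg : Set ℂ := {ζ | ∀ p ∈ Fib Λ (fun q => π (f q)) ζ, p ∉ P ∧ f p ∉ N ∧ k p = 0} with hReg
  set c : ℝ := (-(C₂ * M) + c₁ * ∑ q ∈ K', (k q : ℝ)) +
    -(c₂ * ∑ q ∈ P', (A' * (e q : ℝ) + 1)) with hc
  have key : c ≤ 0 := by
    apply MAXP Λ (T := fun ζ => (fun t => Hs π P f Fo t + G₁ t) ζ + (fun t => -G₂ t) ζ)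
      (Reg := Reg) (c := c)
    · intro ω hω ζ hζ
      show Hs π P f Fo (ζ + ω) + G₁ (ζ + ω) + -G₂ (ζ + ω) = Hs π P f Fo ζ + G₁ ζ + -G₂ ζ
      rw [HRG_per H hh (fun p hpf => (hζ p hpf).1) hω, hGper₁ ω hω, hGper₂ ω hω]
    · intro ω hω ζ hζ p hpf
      rw [hfib ω hω ζ] at hpf
      exact hζ p hpf
    · intro ζ₀
      exact HKF_iso H hl ζ₀
    · intro ζ hζ
      obtain ⟨h1, h2⟩ := HRG H hh (fun p hpf => ⟨(hζ p hpf).1, (hζ p hpf).2.1⟩)
      obtain ⟨h3, h4, -⟩ := hGreg₁ ζ (by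
        intro q hq hq'
        rw [hlf'] at hq'
        exact (hK q).mp hq (hζ q hq').2.2)
      obtain ⟨h5, -, h6⟩ := hGreg₂ ζ (by
        intro q hq hq'
        rw [hlf'] at hq'
        exact (hζ q hq').1 ((hP q).mp hq))
      refine ⟨(h1.add h3).add h5.neg, ?_⟩
      refine LL.mono ((h2.add h4).add h6) ?_
      rw [hc]
      have h7 := mul_le_mul_of_nonneg_left (hcardM ζ) hC₂
      linarith
    · intro ζ₀ hζ₀ M'
      obtain ⟨C₁', hC₁'⟩ := hGs₁ ζ₀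
      obtain ⟨C₂', hC₂'⟩ := hGs₂ ζ₀
      obtain ⟨C', hC'⟩ := HSI H hh hl P' K' hP hK ζ₀
      have hF₁ : (K'.filter fun q => ζ₀ - lf q ∈ Λ) =
          (K'.filter fun q => π (f q) = Λ.mkQ ζ₀) :=
        Finset.filter_congr fun q _ => hlf' q ζ₀
      have hF₂ : (P'.filter fun q => ζ₀ - lf q ∈ Λ) =
          (P'.filter fun q => π (f q) = Λ.mkQ ζ₀) :=
        Finset.filter_congr fun q _ => hlf' q ζ₀
      rw [hF₁] at hC₁'
      rw [hF₂] at hC₂'
      set FK : Finset B := K'.filter fun q => π (f q) = Λ.mkQ ζ₀ with hFK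
      set FP : Finset B := P'.filter fun q => π (f q) = Λ.mkQ ζ₀ with hFP
      have hone : (1 : ℝ) ≤ ∑ q ∈ FK, (k q : ℝ) + (FP.card : ℝ) := by
        have hnat : 1 ≤ ∑ q ∈ FK, k q + FP.card := by
          have hex : ∃ p ∈ Fib Λ (fun q => π (f q)) ζ₀, p ∈ P ∨ k p ≠ 0 := by
            by_contra hcon
            push Not at hcon
            apply hζ₀
            intro p hpf
            obtain ⟨h1, h2⟩ := hcon p hpf
            exact ⟨h1, fun h3 => hl.zero p h1 h3 h2, h2⟩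
          obtain ⟨p, hpf, h | h⟩ := hex
          · have h1 : p ∈ FP := by
              rw [hFP, Finset.mem_filter]
              exact ⟨(hP p).mpr h, hpf⟩
            have h2 := Finset.card_pos.mpr ⟨p, h1⟩
            omega
          · have h1 : p ∈ FK := by
              rw [hFK, Finset.mem_filter]
              exact ⟨(hK p).mpr h, hpf⟩
            have h2 : k p ≤ ∑ q ∈ FK, k q :=
              Finset.single_le_sum (f := k) (fun q _ => Nat.zero_le _) h1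
            omega
        exact_mod_cast hnat
      have hlog : ∀ᶠ ζ in 𝓝[≠] ζ₀, C' + C₁' + C₂' - M' ≤ Real.log (1 / ‖ζ - ζ₀‖) ∧
          0 ≤ Real.log (1 / ‖ζ - ζ₀‖) := by
        have h1 : Tendsto (fun ζ : ℂ => ‖ζ - ζ₀‖) (𝓝[≠] ζ₀) (𝓝[>] 0) :=
          tendsto_norm_sub_self_nhdsNE ζ₀
        have h2 : Tendsto (fun x : ℝ => Real.log (1 / x)) (𝓝[>] 0) atTop := by
          have h3 : (fun x : ℝ => Real.log (1 / x)) = fun x => -Real.log x := by
            funext x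
            rw [one_div, Real.log_inv]
          rw [h3]
          exact tendsto_neg_atBot_atTop.comp Real.tendsto_log_nhdsGT_zero
        have h4 := h2.comp h1
        exact (h4.eventually_ge_atTop (C' + C₁' + C₂' - M')).and (h4.eventually_ge_atTop 0)
      filter_upwards [hC', hC₁', hC₂', hlog] with ζ h1 h2 h3 h4
      have h5 := (abs_le.mp h2).2
      have h6 := (abs_le.mp h3).1
      rw [Finset.sum_add_distrib, Finset.sum_const, nsmul_eq_mul, mul_one] at h6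
      rw [← Finset.mul_sum (s := FK)] at h1
      show Hs π P f Fo ζ + G₁ ζ + -G₂ ζ ≤ M'
      set X := Real.log (1 / ‖ζ - ζ₀‖) with hX
      set Y := ∑ q ∈ FP, A' * (e q : ℝ) with hY
      set Z := ∑ q ∈ FK, (k q : ℝ) with hZ
      have h7 : X ≤ (Z + (FP.card : ℝ)) * X := le_mul_of_one_le_left h4.2 hone
      have h8 := h4.1
      nlinarith [h1, h5, h6, h7, h8]
  -- conclusion
  have hs1 : ∑ q ∈ P', (A' * (e q : ℝ) + 1) ≤ (A' + 1) * ∑ q ∈ P', (e q : ℝ) := by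
    rw [Finset.mul_sum]
    apply Finset.sum_le_sum
    intro q _
    have h1 : (1 : ℝ) ≤ (e q : ℝ) := by exact_mod_cast he q
    linarith
  have hE0 : 0 ≤ ∑ q ∈ P', (e q : ℝ) := Finset.sum_nonneg fun q _ => Nat.cast_nonneg _
  rw [abs_of_nonneg hA, abs_of_nonneg hC₂, div_mul_eq_mul_div, le_div_iff₀ hc₁]
  rw [hc] at key
  have h10 := mul_le_mul_of_nonneg_left hs1 hc₂.le
  have h11 : 0 ≤ C₂ * ∑ q ∈ P', (e q : ℝ) := mul_nonneg hC₂ hE0
  have h12 : 0 ≤ c₂ * (A' + 1) * M := by positivity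
  nlinarith [h10, key, h11, h12]

end Pool.Agent.VEB
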