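import Pool.Agent.VEB.LMS
import Pool.Agent.EPO.LLB

open scoped Manifold Topology
open Filter Metric Set

namespace Pool.Agent.VEB

open Pool.Agent.ELL Pool.Agent.EPO

variable {S : Type*} [MetricSpace S] [CompactSpace S] [ChartedSpace (ℂ × ℂ) S]
  [IsManifold 𝓘(ℂ, ℂ × ℂ) 1 S] {Λ : Submodule ℤ ℂ} [DiscreteTopology Λ] [IsZLattice ℝ Λ]
  {π : S → ℂ ⧸ Λ} {D : Set S} {m : ℕ} {ι : Type} [Fintype ι] {σ : ι → PluriForm S m D}

/-- Existence of height potentials. -/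
theorem HPO (hgen : ∀ p : S, ∃ U W, GenAt σ p U W)
    {H : (p : S) → TangentSpace 𝓘(ℂ, ℂ × ℂ) p → ℝ} {c C : ℝ} (hH : IsNeg π D H c C) :
    ∃ A' C₂ : ℝ, ∀ i : ι, ∃ Fo : (ℂ → S) → ℂ → ℝ,
      IsHt π D (lam σ i) {p | (σ i).coeff (chartAt (ℂ × ℂ) p) p = 0} Fo A' C₂ := by
  obtain ⟨K, hK, hL⟩ := LMS hgen hH
  obtain ⟨C₁, c', M₁, hc', hM₁, hA⟩ := AHS_trunc hH
  have hA₀ : 0 ≤ 2 * K / c' := by positivity
  refine ⟨2 * (2 * K / c'), 2 * K * M₁, fun i =>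
    ⟨fun g t => 2 * lam σ i (g t) + 2 * K / c' * max (Real.log (speed H g t) - C₁) 0, ?_⟩⟩
  refine ⟨by positivity, by positivity, ?_, ?_, ?_, ?_⟩
  · intro g g' ζ h
    rw [speed_congr h, h.self_of_nhds]
  · intro ω _ g ζ r hr hg
    simp only
    rw [speed_translate (hg.mdiff isOpen_ball (mem_ball_self hr))]
  · intro g ζ r hr hg hN
    obtain ⟨h1, h2⟩ := hL i g ζ r hr hg hN
    obtain ⟨-, -, h3, h4, -⟩ := hA g ζ r hr hg
    refine ⟨(h1.const_mul 2).add (h3.const_mul _), ?_⟩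
    refine ((h2.const_mul (by norm_num : (0:ℝ) ≤ 2)).add (h4.const_mul hA₀)).mono ?_
    have e1 : 2 * K / c' * (c' * (speed H g ζ - M₁)) = 2 * K * (speed H g ζ - M₁) := by
      field_simp
    rw [e1]
    apply le_of_eq
    ring
  · intro g ζ r hr hr1 hg
    obtain ⟨-, h2, -⟩ := hA g ζ r hr hg
    have h3 := mul_le_mul_of_nonneg_left (h2 hr1) hA₀
    have e1 : 2 * K / c' * (2 * Real.log (1 / r)) = 2 * (2 * K / c') * Real.log (1 / r) := by ring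
    rw [e1] at h3
    linarith

end Pool.Agent.VEB
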