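import Pool.Agent.VEB.Defs5
import Pool.Agent.VEB.FIB
import Pool.Agent.VEB.SOF
import Pool.Agent.EPO.LLB

open scoped Manifold Topology
open Filter Metric Set

namespace Pool.Agent.VEB

open Pool.Agent.ELL Pool.Agent.EPO

variable {S : Type*} [MetricSpace S] [CompactSpace S] [ChartedSpace (ℂ × ℂ) S]
  [IsManifold 𝓘(ℂ, ℂ × ℂ) 1 S] {Λ : Submodule ℤ ℂ} [DiscreteTopology Λ] [IsZLattice ℝ Λ]
  {π : S → ℂ ⧸ Λ} {D : Set S} {B : Type*} [TopologicalSpace B] [T2Space B] [CompactSpace B]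
  {f : B → S} {e : B → ℕ} {P : Set B}
  {k : B → ℕ} {L : S → ℝ} {N : Set S} {Fo : (ℂ → S) → ℂ → ℝ} {A' C₂ : ℝ}

/-- The value of the potential at a point, by means of a local section. -/
theorem HRG_val (H : BDat π D f e P) (hh : IsHt π D L N Fo A' C₂) {ζ : ℂ} {r : ℝ} {s : ℂ → B}
    (hr : 0 < r) (hs : IsSec Λ (fun q => π (f q)) P (ball ζ r) s) :
    Fo (fun t => f (loc Λ (fun q => π (f q)) P ζ (s ζ) t)) ζ = Fo (fun t => f (s t)) ζ := by
  apply hh.germ
  filter_upwards [loc_eq H hr hs] with t ht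
  rw [ht]

/-- Local description of the sum near a regular point. -/
private theorem hrg_loc (H : BDat π D f e P) (hh : IsHt π D L N Fo A' C₂) {ζ : ℂ}
    (hP : ∀ p ∈ Fib Λ (fun q => π (f q)) ζ, p ∉ P) :
    ∃ r > 0, ∃ g : B → ℂ → S, (∀ q ∈ Fib Λ (fun q => π (f q)) ζ,
      SecOn π D (ball ζ r) (g q) ∧ g q ζ = f q) ∧
      ∀ η ∈ ball ζ r, Hs π P f Fo η = ∑ q ∈ (Fib_finite H.cov ζ).toFinset, Fo (g q) η := by
  obtain ⟨δ, hδ, ε, σ, h1, h2, h3⟩ := FIB H.cov ζ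
  have he : ∀ q ∈ Fib Λ (fun q => π (f q)) ζ, e q = 1 := fun q hq => H.cov.one q (hP q hq)
  have hε : ∀ q ∈ Fib Λ (fun q => π (f q)) ζ, δ < ε q := by
    intro q hq
    have h := (h1 q hq).2
    rw [he q hq, pow_one] at h
    linarith
  have hsec : ∀ q ∈ Fib Λ (fun q => π (f q)) ζ,
      IsSec Λ (fun q => π (f q)) P (ball ζ δ) (fun η => σ q (η - ζ)) := by
    intro q hq
    have h := sec_reg H.cov (hP q hq) (h1 q hq).1
    have hsub : ball ζ δ ⊆ ball ζ (ε q) := ball_subset_ball (hε q hq).le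
    exact ⟨h.1.mono hsub, fun η hη => h.2 η (hsub hη)⟩
  refine ⟨δ, hδ, fun q η => f (σ q (η - ζ)), fun q hq => ⟨SOF H isOpen_ball (hsec q hq), ?_⟩, ?_⟩
  · simp only [sub_self]
    rw [(h1 q hq).1.center]
  · intro η hη
    have hu : ∀ q ∈ Fib Λ (fun q => π (f q)) ζ, η - ζ ∈ ball (0 : ℂ) (ε q) := by
      intro q hq
      rw [mem_ball_zero_iff]
      have h := mem_ball.1 hη
      rw [dist_eq_norm] at h
      exact h.trans (hε q hq)
    have himg : Fib Λ (fun q => π (f q)) η =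
        (fun q => σ q (η - ζ)) '' Fib Λ (fun q => π (f q)) ζ := by
      ext p
      rw [h3 η hη p]
      constructor
      · rintro ⟨q, hq, u, hu', hue, rfl⟩
        rw [he q hq, pow_one] at hue
        exact ⟨q, hq, by rw [hue]⟩
      · rintro ⟨q, hq, rfl⟩
        exact ⟨q, hq, η - ζ, hu q hq, by rw [he q hq, pow_one], rfl⟩
    have hinj : InjOn (fun q => σ q (η - ζ)) (Fib Λ (fun q => π (f q)) ζ) := by
      intro q hq q' hq' hqq
      exact h2 q hq q' hq' _ (hu q hq) _ (hu q' hq') hqq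
    unfold Hs
    rw [himg, finsum_mem_image hinj]
    rw [finsum_mem_eq_finite_toFinset_sum _ (Fib_finite H.cov ζ)]
    refine Finset.sum_congr rfl fun q hq => ?_
    have hq' : q ∈ Fib Λ (fun q => π (f q)) ζ := by simpa using hq
    have hr' : 0 < δ - dist η ζ := by
      have h := mem_ball.1 hη
      linarith
    have hsub : ball η (δ - dist η ζ) ⊆ ball ζ δ := by
      apply ball_subset_ball'
      linarith
    have hs' : IsSec Λ (fun q => π (f q)) P (ball η (δ - dist η ζ)) (fun η => σ q (η - ζ)) :=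
      ⟨(hsec q hq').1.mono hsub, fun y hy => (hsec q hq').2 y (hsub hy)⟩
    exact HRG_val H hh hr' hs'

/-- The sum of the height potentials at regular points. -/
theorem HRG (H : BDat π D f e P) (hh : IsHt π D L N Fo A' C₂) {ζ : ℂ}
    (h1 : ∀ p ∈ Fib Λ (fun q => π (f q)) ζ, p ∉ P ∧ f p ∉ N) :
    ContinuousAt (Hs π P f Fo) ζ ∧
      LL (Hs π P f Fo) ζ (-(C₂ * ((Fib Λ (fun q => π (f q)) ζ).ncard : ℝ))) := by
  obtain ⟨r, hr, g, hg, hHs⟩ := hrg_loc H hh (fun p hp => (h1 p hp).1)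
  have hev : Hs π P f Fo =ᶠ[𝓝 ζ]
      fun η => ∑ q ∈ (Fib_finite H.cov ζ).toFinset, Fo (g q) η := by
    filter_upwards [ball_mem_nhds ζ hr] with η hη
    exact hHs η hη
  have hkey : ∀ q ∈ (Fib_finite H.cov ζ).toFinset,
      ContinuousAt (Fo (g q)) ζ ∧ LL (Fo (g q)) ζ (-C₂) := by
    intro q hq
    have hq' : q ∈ Fib Λ (fun q => π (f q)) ζ := by simpa using hq
    refine hh.reg (g q) ζ r hr (hg q hq').1 ?_
    rw [(hg q hq').2]
    exact (h1 q hq').2
  constructor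
  · refine ContinuousAt.congr ?_ hev.symm
    exact tendsto_finsetSum _ fun q hq => (hkey q hq).1
  · refine LL.congr ?_ hev
    have hsum : LL (fun η => ∑ q ∈ (Fib_finite H.cov ζ).toFinset, Fo (g q) η) ζ
        (∑ q ∈ (Fib_finite H.cov ζ).toFinset, (-C₂)) :=
      LL.sum _ _ _ ζ fun q hq => (hkey q hq).2
    refine hsum.mono ?_
    have hcard : ((Fib_finite H.cov ζ).toFinset.card : ℝ) =
        (Fib Λ (fun q => π (f q)) ζ).ncard := by
      rw [Set.ncard_eq_toFinset_card _ (Fib_finite H.cov ζ)]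
    rw [Finset.sum_const, nsmul_eq_mul, hcard]
    apply le_of_eq
    ring

/-- Periodicity. -/
theorem HRG_per (H : BDat π D f e P) (hh : IsHt π D L N Fo A' C₂) {ζ : ℂ}
    (h1 : ∀ p ∈ Fib Λ (fun q => π (f q)) ζ, p ∉ P) {ω : ℂ} (hω : ω ∈ Λ) :
    Hs π P f Fo (ζ + ω) = Hs π P f Fo ζ := by
  have hmk : ∀ t : ℂ, Λ.mkQ (t + ω) = Λ.mkQ t := by
    intro t
    rw [FIB_mk]
    simpa using hω
  have hfib : Fib Λ (fun q => π (f q)) (ζ + ω) = Fib Λ (fun q => π (f q)) ζ := by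
    unfold Fib
    rw [hmk ζ]
  unfold Hs
  rw [hfib]
  refine finsum_mem_congr rfl fun p hp => ?_
  have hp' : p ∈ Fib Λ (fun q => π (f q)) (ζ + ω) := by rwa [hfib]
  obtain ⟨s, r, hr, -, hs, hsp⟩ := exists_loc H hp' (h1 p hp)
  have hm : ∀ t ∈ ball ζ r, t + ω ∈ ball (ζ + ω) r := by
    intro t ht
    rw [mem_ball, dist_eq_norm] at ht ⊢
    rwa [add_sub_add_right_eq_sub]
  have hs' : IsSec Λ (fun q => π (f q)) P (ball ζ r) (fun t => s (t + ω)) := by
    refine ⟨hs.1.comp (by fun_prop) hm, fun t ht => ⟨?_, (hs.2 _ (hm t ht)).2⟩⟩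
    rw [(hs.2 _ (hm t ht)).1, hmk]
  have e1 := HRG_val H hh hr hs
  have e2 := HRG_val H hh hr hs'
  have e3 := hh.per ω hω (fun t => f (s t)) ζ r hr (SOF H isOpen_ball hs)
  simp only [hsp] at e1 e2
  rw [e1, e2, e3]

end Pool.Agent.VEB
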