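import Pool.Agent.VEB.TYP

open scoped Manifold Topology
open Filter Metric Set

namespace Pool.Agent.VEB

open Pool.Agent.ELL Pool.Agent.EPO

variable {S : Type*} [MetricSpace S] [CompactSpace S] [ChartedSpace (ℂ × ℂ) S]
  [IsManifold 𝓘(ℂ, ℂ × ℂ) 1 S] {Λ : Submodule ℤ ℂ} [DiscreteTopology Λ] [IsZLattice ℝ Λ]
  {π : S → ℂ ⧸ Λ} {D : Set S} {B : Type*} [TopologicalSpace B] [T2Space B] [CompactSpace B]
  {f : B → S} {e : B → ℕ} {P : Set B}
  {Γ : Submodule ℤ ℂ} {E : ℂ → S}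
  {Fo : (ℂ → S) → ℂ → ℝ} {ε₁ η a A' C₂ C₃ : ℝ} {t₀ : ℂ} {γ : ℂ → ℂ} {R₀ δ₀ R R₁ θ : ℝ}

set_option linter.unusedSectionVars false

/-- the value of `Jv` in terms of a local section -/
theorem Jv_eq (H : BDat π D f e P) (hp : Par π D Γ E Fo ε₁ η a A' C₂ C₃ t₀ γ R₀ δ₀ R R₁ θ)
    {ζ : ℂ} {r : ℝ} {s : ℂ → B} (hr : 0 < r)
    (hs : IsSec Λ (fun q => π (f q)) P (ball ζ r) s)
    (hoff : ¬ Off π D P f R R₁ θ E (t₀ + γ ζ) ζ (s ζ)) :
    Jv π D P f R R₁ θ E Fo t₀ γ ζ (s ζ) = Fo (fun t => f (s t)) ζ := by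
  unfold Jv
  rw [if_neg hoff]
  refine hp.pot.germ _ _ _ ?_
  filter_upwards [loc_eq H hr hs] with t ht
  rw [ht]

/-- upper bound -/
theorem Jv_upper (H : BDat π D f e P) (hp : Par π D Γ E Fo ε₁ η a A' C₂ C₃ t₀ γ R₀ δ₀ R R₁ θ)
    {ζ : ℂ} {r : ℝ} {s : ℂ → B} (hr : 0 < r) (hr1 : r ≤ 1)
    (hs : IsSec Λ (fun q => π (f q)) P (ball ζ r) s) :
    Jv π D P f R R₁ θ E Fo t₀ γ ζ (s ζ) ≤ A' * Real.log (1 / r) + C₃ := by
  by_cases hoff : Off π D P f R R₁ θ E (t₀ + γ ζ) ζ (s ζ)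
  · unfold Jv
    rw [if_pos hoff]
    have h1 : 0 ≤ Real.log (1 / r) := Real.log_nonneg (by rw [le_div_iff₀ hr]; linarith)
    have h2 := mul_nonneg hp.pot.A_nonneg h1
    have h3 := hp.pot.C₃_nonneg
    linarith
  · rw [Jv_eq H hp hr hs hoff]
    exact hp.pot.upper _ _ _ hr hr1 (SOF H isOpen_ball hs)

/-- A sheet near another element of `Sec` has potential zero where these are separated. -/
private theorem jvl_far (H : BDat π D f e P)
    (hp : Par π D Γ E Fo ε₁ η a A' C₂ C₃ t₀ γ R₀ δ₀ R R₁ θ)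
    {ζ c : ℂ} {r : ℝ} {s s' : ℂ → B} (hr : 0 < r)
    (hs : IsSec Λ (fun q => π (f q)) P (ball ζ r) s) (hc : ‖ζ - c‖ < R₀ + 1)
    (hs' : IsSec Λ (fun q => π (f q)) P (ball c R) s') (h1 : s' ζ = s ζ) {E' : ℂ → S}
    (hd : ∀ t ∈ ball c R₁, dist (f (s' t)) (E' t) < θ) (hsep : δ₀ ≤ dist (E' ζ) (E ζ)) :
    Fo (fun t => f (s t)) ζ = 0 := by
  have hR₁ := hp.h4
  have hR := hp.h5
  have hsub : ball ζ 1 ⊆ ball c R₁ := by
    intro t ht
    rw [mem_ball, dist_eq_norm] at ht ⊢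
    have h2 := norm_add_le (t - ζ) (ζ - c)
    rw [sub_add_sub_cancel] at h2
    linarith
  have hζ : ζ ∈ ball c R₁ := hsub (mem_ball_self one_pos)
  have hζR : ζ ∈ ball c R := ball_subset_ball hR hζ
  have h2 : Fo (fun t => f (s' t)) ζ = 0 := by
    refine hp.pot.far _ _ ?_ ?_
    · exact SOF H isOpen_ball (IsSec.mono hs' (hsub.trans (ball_subset_ball hR)))
    · have h3 := hd ζ hζ
      have h4 := dist_triangle_left (E' ζ) (E ζ) (f (s' ζ))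
      have h5 := hp.h1
      linarith
  rw [← h2]
  refine hp.pot.germ _ _ _ ?_
  have hpre : IsPreconnected (ball c R ∩ ball ζ r) :=
    ((convex_ball c R).inter (convex_ball ζ r)).isPreconnected
  have heq := sec_unique H.cov hpre (IsSec.mono hs' inter_subset_left)
    (IsSec.mono hs inter_subset_right) ⟨hζR, mem_ball_self hr⟩ h1
  filter_upwards [isOpen_ball.mem_nhds hζR, ball_mem_nhds ζ hr] with t h3 h4
  rw [heq ⟨h3, h4⟩]

/-- Along a section near `ζ₀`, either `Jv` is the potential, or the sheet is near another element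
of `Sec` and `Jv` vanishes. -/
theorem Jv_local (H : BDat π D f e P) (hp : Par π D Γ E Fo ε₁ η a A' C₂ C₃ t₀ γ R₀ δ₀ R R₁ θ)
    {ζ₀ : ℂ} {r : ℝ} {s : ℂ → B} (hr : 0 < r)
    (hs : IsSec Λ (fun q => π (f q)) P (ball ζ₀ r) s) :
    (¬ Off π D P f R R₁ θ E (t₀ + γ ζ₀) ζ₀ (s ζ₀) ∧
      ∀ᶠ ζ in 𝓝 ζ₀, Jv π D P f R R₁ θ E Fo t₀ γ ζ (s ζ) = Fo (fun t => f (s t)) ζ) ∨
    (Off π D P f R R₁ θ E (t₀ + γ ζ₀) ζ₀ (s ζ₀) ∧
      ∀ᶠ ζ in 𝓝 ζ₀, Jv π D P f R R₁ θ E Fo t₀ γ ζ (s ζ) = 0) := by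
  have hR₁ := hp.h4
  have hR := hp.h5
  have hc₀ : ζ₀ ∈ ball (t₀ + γ ζ₀) R := by
    rw [mem_ball, dist_eq_norm]
    have := hp.cell.bdd ζ₀
    linarith
  -- small discs
  have hsm : ∀ ζ ∈ ball ζ₀ (r / 2), IsSec Λ (fun q => π (f q)) P (ball ζ (r / 2)) s := by
    intro ζ hζ
    refine IsSec.mono hs ?_
    intro t ht
    rw [mem_ball] at ht hζ ⊢
    have := dist_triangle t ζ ζ₀
    linarith
  have hr2 : 0 < r / 2 := by linarith
  rcases hp.cell.sep ζ₀ with hγ | hsep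
  · have halong := off_along H hr hs (R₁ := R₁) (θ := θ) hc₀ E
    by_cases hoff : Off π D P f R R₁ θ E (t₀ + γ ζ₀) ζ₀ (s ζ₀)
    · right
      refine ⟨hoff, ?_⟩
      filter_upwards [hγ, halong] with ζ h1 h2
      unfold Jv
      rw [if_pos]
      rw [h1]
      exact h2.2 hoff
    · left
      refine ⟨hoff, ?_⟩
      filter_upwards [hγ, halong, ball_mem_nhds ζ₀ hr2] with ζ h1 h2 h3
      refine Jv_eq H hp hr2 (hsm ζ h3) ?_
      rw [h1]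
      exact fun h => hoff (h2.1 h)
  · -- in all cases the value is the potential
    have hall : ∀ᶠ ζ in 𝓝 ζ₀, Jv π D P f R R₁ θ E Fo t₀ γ ζ (s ζ) = Fo (fun t => f (s t)) ζ := by
      filter_upwards [hsep, ball_mem_nhds ζ₀ hr2] with ζ h1 h3
      by_cases hoff : Off π D P f R R₁ θ E (t₀ + γ ζ) ζ (s ζ)
      · have h4 : Fo (fun t => f (s t)) ζ = 0 := by
          obtain ⟨E', hE', hne, s', hs', h5, h6⟩ := hoff
          refine jvl_far H hp hr2 (hsm ζ h3) ?_ hs' h5 h6 (h1 E' hE' E hp.mem hne)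
          have := hp.cell.bdd ζ
          linarith
        rw [h4]
        unfold Jv
        rw [if_pos hoff]
      · exact Jv_eq H hp hr2 (hsm ζ h3) hoff
    by_cases hoff : Off π D P f R R₁ θ E (t₀ + γ ζ₀) ζ₀ (s ζ₀)
    · right
      refine ⟨hoff, ?_⟩
      obtain ⟨E', hE', hne, s', hs', h5, h6⟩ := hoff
      have hpre : IsPreconnected (ball (t₀ + γ ζ₀) R ∩ ball ζ₀ r) :=
        ((convex_ball _ R).inter (convex_ball ζ₀ r)).isPreconnected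
      have heq := sec_unique H.cov hpre (IsSec.mono hs' inter_subset_left)
        (IsSec.mono hs inter_subset_right) ⟨hc₀, mem_ball_self hr⟩ h5
      filter_upwards [hall, hsep, ball_mem_nhds ζ₀ hr2, ball_mem_nhds ζ₀ one_pos,
        isOpen_ball.mem_nhds hc₀, ball_mem_nhds ζ₀ hr] with ζ h1 h2 h3 h4 h7 h8
      rw [h1]
      refine jvl_far H hp hr2 (hsm ζ h3) ?_ hs' (heq ⟨h7, h8⟩) h6 (h2 E' hE' E hp.mem hne)
      have h9 := hp.cell.bdd ζ₀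
      have h10 := norm_add_le (ζ - ζ₀) (ζ₀ - (t₀ + γ ζ₀))
      rw [sub_add_sub_cancel] at h10
      rw [mem_ball, dist_eq_norm] at h4
      linarith
    · exact Or.inl ⟨hoff, hall⟩

/-- Translation. -/
theorem Jv_add (H : BDat π D f e P) (hp : Par π D Γ E Fo ε₁ η a A' C₂ C₃ t₀ γ R₀ δ₀ R R₁ θ)
    {ω : ℂ} (hω : ω ∈ Γ) (ζ : ℂ) (p : B) (hpζ : p ∈ Fib Λ (fun q => π (f q)) ζ) (hP : p ∉ P) :
    Jv π D P f R R₁ θ E Fo t₀ γ (ζ + ω) p = Jv π D P f R R₁ θ E Fo t₀ γ ζ p := by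
  have hωΛ : ω ∈ Λ := hp.le hω
  have hoffiff : Off π D P f R R₁ θ E (t₀ + γ (ζ + ω)) (ζ + ω) p ↔
      Off π D P f R R₁ θ E (t₀ + γ ζ) ζ p := by
    rw [hp.cell.add ω hω ζ, ← add_assoc]
    unfold Off
    constructor
    · rintro ⟨E', hE', hne, h⟩
      exact ⟨E', hE', hne, (ty_add hωΛ (hp.per E' hE' ω hω)).1 h⟩
    · rintro ⟨E', hE', hne, h⟩
      exact ⟨E', hE', hne, (ty_add hωΛ (hp.per E' hE' ω hω)).2 h⟩
  by_cases hoff : Off π D P f R R₁ θ E (t₀ + γ ζ) ζ p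
  · unfold Jv
    rw [if_pos hoff, if_pos (hoffiff.2 hoff)]
  · obtain ⟨s, r, hr, -, hs, hsp⟩ := exists_loc H hpζ hP
    have hm : ∀ t ∈ ball (ζ + ω) r, t - ω ∈ ball ζ r := by
      intro t ht
      rw [mem_ball, dist_eq_norm] at ht ⊢
      rwa [sub_sub, add_comm ω ζ]
    have hs' : IsSec Λ (fun q => π (f q)) P (ball (ζ + ω) r) (fun t => s (t - ω)) := by
      refine ⟨hs.1.comp (by fun_prop) hm, fun t ht => ⟨?_, (hs.2 _ (hm t ht)).2⟩⟩
      show π (f (s (t - ω))) = Λ.mkQ t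
      have h1 : π (f (s (t - ω))) = Λ.mkQ (t - ω) := (hs.2 _ (hm t ht)).1
      rw [h1, Submodule.mkQ_apply, Submodule.mkQ_apply, Submodule.Quotient.eq]
      simpa using hωΛ
    have hsp' : s (ζ + ω - ω) = p := by
      simpa using hsp
    have h1 := Jv_eq H hp hr hs (by rw [hsp]; exact hoff)
    have h2 := Jv_eq H hp hr hs' (by rw [hsp']; exact fun h => hoff (hoffiff.1 h))
    rw [hsp] at h1
    rw [hsp'] at h2
    rw [h1, h2]
    have h3 := hp.pot.per ω hω (fun t => f (s (t - ω))) ζ r hr (SOF H isOpen_ball hs')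
    rw [← h3]
    simp only [add_sub_cancel_right]

end Pool.Agent.VEB
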