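import Pool.Agent.VEB.Defs5
import Pool.Agent.VEB.SCP

open scoped Manifold Topology
open Filter Metric Set

namespace Pool.Agent.VEB

open Pool.Agent.ELL Pool.Agent.EPO

variable {S : Type*} [MetricSpace S] [CompactSpace S] [ChartedSpace (ℂ × ℂ) S]
  [IsManifold 𝓘(ℂ, ℂ × ℂ) 1 S] {Λ : Submodule ℤ ℂ} [DiscreteTopology Λ] [IsZLattice ℝ Λ]
  {π : S → ℂ ⧸ Λ} {D : Set S} {m : ℕ} {ι : Type} [Fintype ι] {σ : ι → PluriForm S m D}

/-- `lam` in terms of local generators. -/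
theorem LMC_eq (hgen : ∀ p : S, ∃ U W, GenAt σ p U W) {p : S} {U : Set S} {W : ι → S → ℂ}
    (h : GenAt σ p U W) : ∀ᶠ q in 𝓝 p, q ∉ D → ∀ i,
      lam σ i q = Real.log (‖W i q‖ / ‖(WithLp.toLp 2 (fun j => W j q) : EuclideanSpace ℂ ι)‖) ∧
        ((σ i).coeff (chartAt (ℂ × ℂ) q) q = 0 ↔ W i q = 0) := by
  obtain ⟨hU, hW, hne, u, hu⟩ := h
  have hsrc : (chartAt (ℂ × ℂ) p).source ∈ 𝓝 p :=
    (chartAt (ℂ × ℂ) p).open_source.mem_nhds (mem_chart_source _ p)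
  filter_upwards [hU, hsrc] with q hqU hqs hqD
  obtain ⟨hu0, hcoef⟩ := hu q hqU hqD
  have hp1 : chartAt (ℂ × ℂ) p ∈ MA S := IsManifold.chart_mem_maximalAtlas p
  have hq1 : chartAt (ℂ × ℂ) q ∈ MA S := IsManifold.chart_mem_maximalAtlas q
  have hqq : q ∈ (chartAt (ℂ × ℂ) q).source := mem_chart_source _ q
  set J : ℂ := (fderiv ℂ (chartAt (ℂ × ℂ) p ∘ (chartAt (ℂ × ℂ) q).symm)
    (chartAt (ℂ × ℂ) q q)).det ^ m with hJ
  have h1 : ∀ j, (σ j).coeff (chartAt (ℂ × ℂ) q) q = (J * u q) * W j q := by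
    intro j
    rw [(σ j).trans _ hq1 _ hp1 q ⟨hqq, hqs⟩ hqD, hcoef j]
    ring
  have hJ0 : J ≠ 0 := by
    intro h0
    obtain ⟨j, hj⟩ := hne q hqU
    have h2 : (σ j).coeff (chartAt (ℂ × ℂ) p) q = 0 := by
      rw [(σ j).trans _ hp1 _ hq1 q ⟨hqs, hqq⟩ hqD, h1 j, h0]
      ring
    rw [hcoef j] at h2
    exact (mul_ne_zero hu0 hj) h2
  have hk0 : J * u q ≠ 0 := mul_ne_zero hJ0 hu0
  have hkn : ‖J * u q‖ ≠ 0 := norm_ne_zero_iff.2 hk0
  intro i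
  constructor
  · unfold lam vec
    have hv : (WithLp.toLp 2 (fun i => (σ i).coeff (chartAt (ℂ × ℂ) q) q) :
        EuclideanSpace ℂ ι) = (J * u q) • (WithLp.toLp 2 (fun j => W j q) :
        EuclideanSpace ℂ ι) := by
      ext j
      simp only [PiLp.smul_apply, smul_eq_mul]
      exact h1 j
    rw [hv, norm_smul, h1 i, norm_mul, mul_div_mul_left _ _ hkn]
  · rw [h1 i]
    constructor
    · intro h0
      exact (mul_eq_zero.1 h0).resolve_left hk0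
    · intro h0
      rw [h0, mul_zero]

theorem LMC_nonpos (i : ι) (p : S) : lam σ i p ≤ 0 := by
  unfold lam
  apply Real.log_nonpos (by positivity)
  apply div_le_one_of_le₀ _ (norm_nonneg _)
  exact PiLp.norm_apply_le (vec σ (chartAt (ℂ × ℂ) p) p) i

end Pool.Agent.VEB
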