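import Pool.Agent.VEB.LMC
import Pool.Agent.VEB.LLV
import Pool.Agent.VEB.AHS
import Pool.Agent.VEB.TDM
import Pool.Agent.EPO.LLH

open scoped Manifold Topology
open Filter Metric Set

namespace Pool.Agent.VEB

open Pool.Agent.ELL Pool.Agent.EPO

variable {S : Type*} [MetricSpace S] [CompactSpace S] [ChartedSpace (ℂ × ℂ) S]
  [IsManifold 𝓘(ℂ, ℂ × ℂ) 1 S] {Λ : Submodule ℤ ℂ} [DiscreteTopology Λ] [IsZLattice ℝ Λ]
  {π : S → ℂ ⧸ Λ} {D : Set S} {m : ℕ} {ι : Type} [Fintype ι] {σ : ι → PluriForm S m D}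

/-- The statement near one point. -/
private theorem LMS_local (hgen : ∀ p : S, ∃ U W, GenAt σ p U W)
    {H : (p : S) → TangentSpace 𝓘(ℂ, ℂ × ℂ) p → ℝ} {c C : ℝ} (hH : IsNeg π D H c C) (p : S) :
    ∃ N ∈ 𝓝 p, ∃ K : ℝ, 0 ≤ K ∧ ∀ (i : ι) (g : ℂ → S) (ζ : ℂ) (r : ℝ), 0 < r →
      SecOn π D (ball ζ r) g → g ζ ∈ N →
      (σ i).coeff (chartAt (ℂ × ℂ) (g ζ)) (g ζ) ≠ 0 →
        ContinuousAt (fun t => lam σ i (g t)) ζ ∧
        LL (fun t => lam σ i (g t)) ζ (-(K * speed H g ζ)) := by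
  obtain ⟨U, W, hG⟩ := hgen p
  have hE := LMC_eq hgen hG
  obtain ⟨hU, hW, hne, -⟩ := hG
  have hψ : chartAt (ℂ × ℂ) p ∈ MA S := IsManifold.chart_mem_maximalAtlas p
  have hpψ : p ∈ (chartAt (ℂ × ℂ) p).source := mem_chart_source _ _
  set ψ := chartAt (ℂ × ℂ) p with hψdef
  -- the vector of generators in the chart
  let w : ℂ × ℂ → EuclideanSpace ℂ ι := fun x => WithLp.toLp 2 (fun j => W j (ψ.symm x))
  have hw1 : ContDiffAt ℂ 1 w (ψ p) := by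
    have h1 : ContDiffAt ℂ 1 (fun x => fun j => W j (ψ.symm x)) (ψ p) :=
      contDiffAt_pi.2 fun j => (hW j).contDiffAt hψ hpψ hU
    exact (PiLp.continuousLinearEquiv 2 ℂ (fun _ : ι => ℂ)).symm.contDiff.contDiffAt.comp _ h1
  have hw0 : w (ψ p) ≠ 0 := by
    obtain ⟨j, hj⟩ := hne p (mem_of_mem_nhds hU)
    intro h0
    apply hj
    have := congrArg (fun x : EuclideanSpace ℂ ι => x j) h0
    simpa [w, ψ.left_inv hpψ] using this
  obtain ⟨M, hM⟩ : ∃ M : ℝ, ∀ᶠ v in 𝓝 (ψ p), ‖fderiv ℂ w v‖ ≤ M := by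
    have h1 : ContinuousAt (fun v => ‖fderiv ℂ w v‖) (ψ p) :=
      (hw1.continuousAt_fderiv one_ne_zero).norm
    refine ⟨‖fderiv ℂ w (ψ p)‖ + 1, ?_⟩
    filter_upwards [h1.eventually (gt_mem_nhds (lt_add_one _))] with v hv using hv.le
  have hdiff : ∀ᶠ v in 𝓝 (ψ p), DifferentiableAt ℂ w v := by
    filter_upwards [hw1.eventually (by simp)] with v hv using hv.differentiableAt one_ne_zero
  have hn0 : 0 < ‖w (ψ p)‖ / 2 := by positivity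
  have hlow : ∀ᶠ v in 𝓝 (ψ p), ‖w (ψ p)‖ / 2 ≤ ‖w v‖ := by
    have h1 : ContinuousAt (fun v => ‖w v‖) (ψ p) := hw1.continuousAt.norm
    filter_upwards [h1.eventually (lt_mem_nhds (half_lt_self (norm_pos_iff.2 hw0)))] with v hv
      using hv.le
  have hψc : ContinuousAt ψ p := ψ.continuousAt hpψ
  -- a compact neighbourhood in the chart
  obtain ⟨T, hTn, hTs, hTc⟩ := local_compact_nhds (ψ.open_source.mem_nhds hpψ)
  obtain ⟨K1, hK1, hTDM⟩ := TDM hH hψ hTc hTs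
  have hN : ∀ᶠ q in 𝓝 p, (U ∈ 𝓝 q) ∧ q ∈ T ∧
      (∀ᶠ q' in 𝓝 q, q' ∉ D → ∀ i,
      lam σ i q' = Real.log (‖W i q'‖ / ‖(WithLp.toLp 2 (fun j => W j q') :
        EuclideanSpace ℂ ι)‖) ∧
        ((σ i).coeff (chartAt (ℂ × ℂ) q') q' = 0 ↔ W i q' = 0)) ∧
      ‖fderiv ℂ w (ψ q)‖ ≤ M ∧ DifferentiableAt ℂ w (ψ q) ∧ ‖w (ψ p)‖ / 2 ≤ ‖w (ψ q)‖ := by
    filter_upwards [eventually_mem_nhds_iff.2 hU, hTn, hE.eventually_nhds, hψc.eventually hM,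
      hψc.eventually hdiff, hψc.eventually hlow] with q h1 h2 h3 h4 h5 h6
    exact ⟨h1, h2, h3, h4, h5, h6⟩
  have hM0 : 0 ≤ M := (norm_nonneg _).trans hM.self_of_nhds
  refine ⟨_, hN, M ^ 2 * K1 / (2 * (‖w (ψ p)‖ / 2) ^ 2), by positivity, ?_⟩
  rintro i g ζ r hr hg ⟨hUq, hTq, hEq, hMq, hdq, hlq⟩ hcoef
  have hgs : g ζ ∈ ψ.source := hTs hTq
  have hgc : ContinuousAt g ζ := hg.cont isOpen_ball (mem_ball_self hr)
  have hball : ∀ᶠ t in 𝓝 ζ, t ∈ ball ζ r := ball_mem_nhds ζ hr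
  have hgD : g ζ ∉ D := (hg.2 ζ (mem_ball_self hr)).1
  -- eventually, in the parameter
  have hUt : ∀ᶠ t in 𝓝 ζ, U ∈ 𝓝 (g t) := hgc.eventually (eventually_mem_nhds_iff.2 hUq)
  have hWd : ∀ j, ∀ᶠ t in 𝓝 ζ, DifferentiableAt ℂ (fun s => W j (g s)) t := by
    intro j
    filter_upwards [hUt, hball] with t h1 h2
    exact mdiff_fn (hg.mdiff isOpen_ball h2) (hW j) h1
  have hWa : ∀ j, AnalyticAt ℂ (fun s => W j (g s)) ζ := fun j =>
    Complex.analyticAt_iff_eventually_differentiableAt.2 (hWd j)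
  let v : ℂ → EuclideanSpace ℂ ι := fun t => WithLp.toLp 2 (fun j => W j (g t))
  have hvd : ∀ᶠ t in 𝓝 ζ, DifferentiableAt ℂ v t := by
    filter_upwards [eventually_all.2 hWd] with t ht
    have h1 : DifferentiableAt ℂ (fun s => fun j => W j (g s)) t := differentiableAt_pi.2 ht
    exact ((PiLp.continuousLinearEquiv 2 ℂ (fun _ : ι => ℂ)).symm.differentiableAt).comp t h1
  have hva : AnalyticAt ℂ v ζ := Complex.analyticAt_iff_eventually_differentiableAt.2 hvd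
  have hvw : v =ᶠ[𝓝 ζ] fun t => w (ψ (g t)) := by
    filter_upwards [hgc.eventually (ψ.open_source.mem_nhds hgs)] with t ht
    simp only [v, w]
    rw [ψ.left_inv ht]
  have hgm : MDifferentiableAt 𝓘(ℂ, ℂ) 𝓘(ℂ, ℂ × ℂ) g ζ := hg.mdiff isOpen_ball (mem_ball_self hr)
  have hgd : DifferentiableAt ℂ (fun t => ψ (g t)) ζ := mdiff_chart hgm hψ hgs
  have hvd' : deriv v ζ = fderiv ℂ w (ψ (g ζ)) (deriv (fun t => ψ (g t)) ζ) := by
    rw [hvw.deriv_eq]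
    exact (HasFDerivAt.comp_hasDerivAt ζ hdq.hasFDerivAt hgd.hasDerivAt).deriv
  have hvζ : v ζ = w (ψ (g ζ)) := hvw.self_of_nhds
  have hvlow : ‖w (ψ p)‖ / 2 ≤ ‖v ζ‖ := by rw [hvζ]; exact hlq
  have hv0 : v ζ ≠ 0 := by
    intro h0
    rw [h0, norm_zero] at hvlow
    linarith
  have hWi : W i (g ζ) ≠ 0 := fun h0 =>
    hcoef (((hEq.self_of_nhds hgD i).2).2 h0)
  -- the formula for `lam`
  have hform : (fun t => lam σ i (g t)) =ᶠ[𝓝 ζ]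
      fun t => Real.log ‖W i (g t)‖ + -Real.log ‖v t‖ := by
    have hWne : ∀ᶠ t in 𝓝 ζ, W i (g t) ≠ 0 := (hWa i).continuousAt.eventually_ne hWi
    have hvne : ∀ᶠ t in 𝓝 ζ, v t ≠ 0 := hva.continuousAt.eventually_ne hv0
    filter_upwards [hgc.eventually hEq, hball, hWne, hvne] with t h1 h2 h3 h4
    rw [(h1 (hg.2 t h2).1 i).1, Real.log_div (norm_ne_zero_iff.2 h3) (norm_ne_zero_iff.2 h4)]
    rfl
  have hpos := hH.pos g ζ r hr hg
  have hbound : ‖deriv v ζ‖ ^ 2 / (2 * ‖v ζ‖ ^ 2) ≤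
      M ^ 2 * K1 / (2 * (‖w (ψ p)‖ / 2) ^ 2) * speed H g ζ := by
    have h1 : ‖deriv v ζ‖ ≤ M * ‖deriv (fun t => ψ (g t)) ζ‖ := by
      rw [hvd']
      exact (ContinuousLinearMap.le_opNorm _ _).trans
        (mul_le_mul_of_nonneg_right hMq (norm_nonneg _))
    have h2 := hTDM g ζ r hr hg hTq
    have h3 : ‖deriv v ζ‖ ^ 2 ≤ M ^ 2 * (K1 * speed H g ζ) := by
      calc ‖deriv v ζ‖ ^ 2 ≤ (M * ‖deriv (fun t => ψ (g t)) ζ‖) ^ 2 :=
            pow_le_pow_left₀ (norm_nonneg _) h1 2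
        _ = M ^ 2 * ‖deriv (fun t => ψ (g t)) ζ‖ ^ 2 := by ring
        _ ≤ M ^ 2 * (K1 * speed H g ζ) := mul_le_mul_of_nonneg_left h2 (by positivity)
    have h4 : 2 * (‖w (ψ p)‖ / 2) ^ 2 ≤ 2 * ‖v ζ‖ ^ 2 :=
      mul_le_mul_of_nonneg_left (pow_le_pow_left₀ hn0.le hvlow 2) (by norm_num)
    calc ‖deriv v ζ‖ ^ 2 / (2 * ‖v ζ‖ ^ 2) ≤ M ^ 2 * (K1 * speed H g ζ) /
          (2 * (‖w (ψ p)‖ / 2) ^ 2) :=
          div_le_div₀ (by positivity) h3 (by positivity) h4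
      _ = M ^ 2 * K1 / (2 * (‖w (ψ p)‖ / 2) ^ 2) * speed H g ζ := by ring
  constructor
  · have h1 : ContinuousAt (fun t => Real.log ‖W i (g t)‖ + -Real.log ‖v t‖) ζ :=
      ((hWa i).continuousAt.norm.log (norm_ne_zero_iff.2 hWi)).add
        (hva.continuousAt.norm.log (norm_ne_zero_iff.2 hv0)).neg
    exact h1.congr hform.symm
  · have h1 := (LL_log_norm (hWa i) hWi).add (LLV_neg hva hv0)
    refine (h1.congr hform).mono ?_
    linarith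

/-- `lam` along sections. -/
theorem LMS (hgen : ∀ p : S, ∃ U W, GenAt σ p U W)
    {H : (p : S) → TangentSpace 𝓘(ℂ, ℂ × ℂ) p → ℝ} {c C : ℝ} (hH : IsNeg π D H c C) :
    ∃ K : ℝ, 0 ≤ K ∧ ∀ (i : ι) (g : ℂ → S) (ζ : ℂ) (r : ℝ), 0 < r →
      SecOn π D (ball ζ r) g → (σ i).coeff (chartAt (ℂ × ℂ) (g ζ)) (g ζ) ≠ 0 →
        ContinuousAt (fun t => lam σ i (g t)) ζ ∧
        LL (fun t => lam σ i (g t)) ζ (-(K * speed H g ζ)) := by
  have key : ∃ K : ℝ, 0 ≤ K ∧ ∀ (i : ι) (g : ℂ → S) (ζ : ℂ) (r : ℝ), 0 < r →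
      SecOn π D (ball ζ r) g → g ζ ∈ (univ : Set S) →
      (σ i).coeff (chartAt (ℂ × ℂ) (g ζ)) (g ζ) ≠ 0 →
        ContinuousAt (fun t => lam σ i (g t)) ζ ∧
        LL (fun t => lam σ i (g t)) ζ (-(K * speed H g ζ)) := by
    refine isCompact_univ.induction_on (p := fun s : Set S => ∃ K : ℝ, 0 ≤ K ∧
      ∀ (i : ι) (g : ℂ → S) (ζ : ℂ) (r : ℝ), 0 < r →
      SecOn π D (ball ζ r) g → g ζ ∈ s →
      (σ i).coeff (chartAt (ℂ × ℂ) (g ζ)) (g ζ) ≠ 0 →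
        ContinuousAt (fun t => lam σ i (g t)) ζ ∧
        LL (fun t => lam σ i (g t)) ζ (-(K * speed H g ζ)))
      ⟨0, le_rfl, fun i g ζ r hr hg h => absurd h (notMem_empty _)⟩ ?_ ?_ ?_
    · rintro s t hst ⟨K, hK, h⟩
      exact ⟨K, hK, fun i g ζ r hr hg hs => h i g ζ r hr hg (hst hs)⟩
    · rintro s t ⟨K, hK, h⟩ ⟨K', hK', h'⟩
      refine ⟨max K K', le_max_of_le_left hK, fun i g ζ r hr hg hs hc => ?_⟩
      have hpos := hH.pos g ζ r hr hg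
      rcases hs with hs | hs
      · obtain ⟨h1, h2⟩ := h i g ζ r hr hg hs hc
        exact ⟨h1, h2.mono (neg_le_neg (mul_le_mul_of_nonneg_right (le_max_left _ _) hpos.le))⟩
      · obtain ⟨h1, h2⟩ := h' i g ζ r hr hg hs hc
        exact ⟨h1, h2.mono (neg_le_neg (mul_le_mul_of_nonneg_right (le_max_right _ _) hpos.le))⟩
    · intro p _
      obtain ⟨N, hN, K, hK, h⟩ := LMS_local hgen hH p
      exact ⟨N, mem_nhdsWithin_of_mem_nhds hN, K, hK, h⟩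
  obtain ⟨K, hK, h⟩ := key
  exact ⟨K, hK, fun i g ζ r hr hg hc => h i g ζ r hr hg (mem_univ _) hc⟩

end Pool.Agent.VEB
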