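import Pool.Agent.VEB.Defs2
import Pool.Agent.EPO.CNN
import Pool.Agent.VEB.SCP

open scoped Manifold Topology
open Filter Metric Set

namespace Pool.Agent.VEB

open Pool.Agent.ELL Pool.Agent.EPO

variable {S : Type*} [MetricSpace S] [CompactSpace S] [ChartedSpace (ℂ × ℂ) S]
  [IsManifold 𝓘(ℂ, ℂ × ℂ) 1 S] {Λ : Submodule ℤ ℂ} [DiscreteTopology Λ] [IsZLattice ℝ Λ]
  {π : S → ℂ ⧸ Λ} {B : Type*} [TopologicalSpace B] [T2Space B] [ChartedSpace ℂ B]
  [IsManifold 𝓘(ℂ, ℂ) 1 B] {f : B → S}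

omit [CompactSpace S] [T2Space B] [IsManifold 𝓘(ℂ, ℂ × ℂ) 1 S] in
/-- A holomorphic function on the surface is holomorphic along `f`. -/
theorem RAM_hol (hf : MDifferentiable 𝓘(ℂ, ℂ) 𝓘(ℂ, ℂ × ℂ) f) {F : S → ℂ} {U : Set S} {p : B}
    (hF : HolOn F U) (hU : U ∈ 𝓝 (f p)) : HolAt (fun q => F (f q)) p := by
  have hc : Continuous f := hf.continuous
  have hφm : chartAt ℂ p ∈ IsManifold.maximalAtlas 𝓘(ℂ, ℂ) 1 B :=
    IsManifold.chart_mem_maximalAtlas p
  have h1 : ∀ᶠ t in 𝓝 (chartAt ℂ p p), t ∈ (chartAt ℂ p).target :=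
    (chartAt ℂ p).open_target.mem_nhds (mem_chart_target ℂ p)
  have h2 : ∀ᶠ t in 𝓝 (chartAt ℂ p p), f ((chartAt ℂ p).symm t) ∈ interior U := by
    have h3 : ContinuousAt (chartAt ℂ p).symm (chartAt ℂ p p) :=
      (chartAt ℂ p).continuousAt_symm (mem_chart_target ℂ p)
    have h4 := (hc.continuousAt (x := (chartAt ℂ p).symm (chartAt ℂ p p))).comp h3
    refine h4.eventually (isOpen_interior.mem_nhds ?_)
    simp only [Function.comp_apply]
    rw [(chartAt ℂ p).left_inv (mem_chart_source ℂ p)]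
    exact mem_interior_iff_mem_nhds.2 hU
  refine Complex.analyticAt_iff_eventually_differentiableAt.2 ?_
  filter_upwards [h1, h2] with t ht ht'
  have a1 : MDifferentiableAt 𝓘(ℂ, ℂ) 𝓘(ℂ, ℂ) (chartAt ℂ p).symm t :=
    mdifferentiableAt_symm_of_mem_maximalAtlas hφm ht
  have a2 : MDifferentiableAt 𝓘(ℂ, ℂ × ℂ) 𝓘(ℂ, ℂ) F (f ((chartAt ℂ p).symm t)) :=
    (ContMDiffOn.contMDiffAt hF (mem_interior_iff_mem_nhds.1 ht')).mdifferentiableAt one_ne_zero
  have a3 : MDifferentiableAt 𝓘(ℂ, ℂ) 𝓘(ℂ, ℂ) (F ∘ f) ((chartAt ℂ p).symm t) :=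
    a2.comp _ (hf _)
  have a4 : MDifferentiableAt 𝓘(ℂ, ℂ) 𝓘(ℂ, ℂ) ((F ∘ f) ∘ (chartAt ℂ p).symm) t :=
    a3.comp t a1
  exact a4.differentiableAt

/-- Existence of the ramification indices. -/
theorem RAM [PreconnectedSpace B] (hπ : HolTo Λ π)
    (hf : MDifferentiable 𝓘(ℂ, ℂ) 𝓘(ℂ, ℂ × ℂ) f) (hne : ∃ p q, π (f p) ≠ π (f q)) :
    ∃ e : B → ℕ, ∀ p, IsRam Λ (fun q => π (f q)) p (e p) := by
  have hc : Continuous f := hf.continuous
  choose U hU h hh hUh using hπ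
  have hmk : ∀ a b : ℂ, Λ.mkQ a = Λ.mkQ b → a - b ∈ Λ := by
    intro a b hab
    rw [← Submodule.Quotient.mk_eq_zero Λ]
    have : Λ.mkQ (a - b) = 0 := by rw [map_sub, hab, sub_self]
    exact this
  obtain ⟨g, hg⟩ : ∃ g : B → B → ℂ, g = fun p q => h (f p) (f q) := ⟨_, rfl⟩
  have hgh : ∀ p, HolAt (g p) p := by
    intro p
    rw [hg]
    exact RAM_hol hf (hh (f p)) (hU (f p))
  have hgl : ∀ p, ∀ᶠ q in 𝓝 p, π (f q) = Λ.mkQ (g p q) := by
    intro p
    filter_upwards [(hc.continuousAt (x := p)).eventually (hU (f p))] with q hq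
    rw [hg]
    exact hUh (f p) _ hq
  -- `π ∘ f` is nowhere locally constant
  have hT : ∀ p, ¬ ∀ᶠ q in 𝓝 p, π (f q) = π (f p) := by
    set T : Set B := {p | ∀ᶠ q in 𝓝 p, π (f q) = π (f p)} with hTdef
    have hTo : IsOpen T := by
      rw [isOpen_iff_mem_nhds]
      intro p hp
      have hp' : ∀ᶠ q in 𝓝 p, π (f q) = π (f p) := hp
      filter_upwards [hp'.eventually_nhds, hp'] with q h1 h2
      show ∀ᶠ q' in 𝓝 q, π (f q') = π (f q)
      filter_upwards [h1] with q' h3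
      rw [h3, h2]
    have hTc : IsOpen Tᶜ := by
      rw [isOpen_iff_mem_nhds]
      intro p hp
      filter_upwards [CNN_id (hgh p), CNN_cont' (hgh p), (hgl p).eventually_nhds]
        with q h1 h2 h3 h4
      apply hp
      have h5 : ∀ᶠ q' in 𝓝 q, g p q' - g p q ∈ Λ := by
        have h4' : ∀ᶠ q' in 𝓝 q, π (f q') = π (f q) := h4
        filter_upwards [h3, h4'] with q' h6 h7
        apply hmk
        rw [← h6, h7]
        exact h3.self_of_nhds
      have h6 := (h1 (CNN_lat h5 h2)).2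
      show ∀ᶠ q in 𝓝 p, π (f q) = π (f p)
      filter_upwards [h6, hgl p] with q' h7 h8
      rw [h8, h7]
      exact (hgl p).self_of_nhds.symm
    have hclopen : IsClopen T := ⟨isOpen_compl_iff.1 hTc, hTo⟩
    rcases isClopen_iff.1 hclopen with h1 | h1
    · intro p hp
      have : p ∈ T := hp
      rw [h1] at this
      exact this
    · exfalso
      obtain ⟨p, q, hpq⟩ := hne
      apply hpq
      have hlc : IsLocallyConstant (fun p => π (f p)) := by
        rw [IsLocallyConstant.iff_eventually_eq]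
        intro p
        have : p ∈ T := by rw [h1]; trivial
        exact this
      exact hlc.apply_eq_of_preconnectedSpace p q
  have e1 : ∀ p, ordAt (fun q => g p q - g p p) p ≠ ⊤ := by
    intro p htop
    apply hT p
    have h1 := analyticOrderAt_eq_top.1 htop
    have h2 : ∀ᶠ q in 𝓝 p, g p q - g p p = 0 := by
      rw [CNN_ev]
      exact h1
    filter_upwards [h2, hgl p] with q h3 h4
    rw [h4, sub_eq_zero.1 h3]
    exact (hgl p).self_of_nhds.symm
  exact ⟨fun p => (ordAt (fun q => g p q - g p p) p).toNat,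
    fun p => ⟨g p, hgh p, hgl p, (ENat.natCast_toNat (e1 p)).symm⟩⟩

end Pool.Agent.VEB
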