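import Pool.Agent.VEB.Defs2
import Pool.Agent.EPO.CRD
import Pool.Agent.VEB.SCP
import Pool.Agent.VEB.RAM
import Pool.Agent.EPO.LIF

open scoped Manifold Topology
open Filter Metric Set

namespace Pool.Agent.VEB

open Pool.Agent.ELL Pool.Agent.EPO

variable {S : Type*} [MetricSpace S] [CompactSpace S] [ChartedSpace (ℂ × ℂ) S]
  [IsManifold 𝓘(ℂ, ℂ × ℂ) 1 S] {Λ : Submodule ℤ ℂ} [DiscreteTopology Λ] [IsZLattice ℝ Λ]
  {π : S → ℂ ⧸ Λ} {D : Set S} {B : Type*} [TopologicalSpace B] [T2Space B] [ChartedSpace ℂ B]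
  [IsManifold 𝓘(ℂ, ℂ) 1 B] {f : B → S} {e : B → ℕ}

omit [IsManifold 𝓘(ℂ, ℂ) 1 B] [T2Space B] [IsZLattice ℝ Λ] in
/-- Two lifts of the same map have the same order. -/
theorem LNB_lift {z : B → ℂ ⧸ Λ} {p : B} {h h' : B → ℂ} (hh : HolAt h p) (hh' : HolAt h' p)
    (hl : ∀ᶠ q in 𝓝 p, z q = Λ.mkQ (h q)) (hl' : ∀ᶠ q in 𝓝 p, z q = Λ.mkQ (h' q)) :
    (∀ᶠ q in 𝓝 p, h' q - h' p = h q - h p) ∧
      ordAt (fun q => h' q - h' p) p = ordAt (fun q => h q - h p) p := by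
  have h1 : ∀ᶠ q in 𝓝 p, (h' q - h q) - (h' p - h p) ∈ Λ := by
    have e0 : h' p - h p ∈ Λ := by
      have := hl.self_of_nhds
      rw [hl'.self_of_nhds] at this
      exact (Submodule.Quotient.eq Λ).1 this
    filter_upwards [hl, hl'] with q a1 a2
    rw [a1] at a2
    exact Λ.sub_mem ((Submodule.Quotient.eq Λ).1 a2.symm) e0
  have hc : ContinuousAt (fun q => h' q - h q) p := (CNN_cont hh').sub (CNN_cont hh)
  have h2 := CNN_lat (g := fun q => h' q - h q) h1 hc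
  have h3 : ∀ᶠ q in 𝓝 p, h' q - h' p = h q - h p := by
    filter_upwards [h2] with q hq
    have hq' : h' q - h q = h' p - h p := hq
    linear_combination hq'
  refine ⟨h3, ?_⟩
  unfold ordAt
  refine analyticOrderAt_congr ?_
  rw [CNN_ev] at h3
  filter_upwards [h3] with t ht
  exact ht

omit [IsManifold 𝓘(ℂ, ℂ) 1 B] [T2Space B] in
theorem LNB_tend {p : B} {Q : ℂ → Prop} (h : ∀ᶠ t in 𝓝[≠] (chartAt ℂ p p), Q t) :
    ∀ᶠ q in 𝓝[≠] p, Q (chartAt ℂ p q) := by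
  have hmap : Tendsto (chartAt ℂ p) (𝓝[≠] p) (𝓝[≠] (chartAt ℂ p p)) := by
    refine tendsto_nhdsWithin_of_tendsto_nhds_of_eventually_within _
      (((chartAt ℂ p).continuousAt (mem_chart_source ℂ p)).tendsto.mono_left
        nhdsWithin_le_nhds) ?_
    filter_upwards [mem_nhdsWithin_of_mem_nhds (chart_source_mem_nhds ℂ p),
      self_mem_nhdsWithin] with q hq hq' h1
    exact hq' ((chartAt ℂ p).injOn hq (mem_chart_source ℂ p) h1)
  exact hmap.eventually h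

omit [T2Space B] [IsZLattice ℝ Λ] in
/-- The points of ramification are isolated. -/
theorem LNB_ram {z : B → ℂ ⧸ Λ} (he : ∀ p, IsRam Λ z p (e p)) (p : B) :
    ∀ᶠ q in 𝓝[≠] p, e q = 1 := by
  obtain ⟨h, hh, hl, ho⟩ := he p
  have hH : AnalyticAt ℂ (fun t => h ((chartAt ℂ p).symm t)) (chartAt ℂ p p) := hh
  have hφt : (chartAt ℂ p).symm (chartAt ℂ p p) = p := (chartAt ℂ p).left_inv (mem_chart_source ℂ p)
  -- the derivative does not vanish near `t₀`
  have d1 : ∀ᶠ t in 𝓝[≠] (chartAt ℂ p p), deriv (fun t => h ((chartAt ℂ p).symm t)) t ≠ 0 := by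
    rcases hH.deriv.eventually_eq_zero_or_eventually_ne_zero with h1 | h1
    · exfalso
      have h2 : ∀ᶠ t in 𝓝 (chartAt ℂ p p), h ((chartAt ℂ p).symm t) - h p = 0 := by
        obtain ⟨r, hr, hr'⟩ := Metric.eventually_nhds_iff_ball.1
          (h1.and hH.eventually_analyticAt)
        refine Metric.eventually_nhds_iff_ball.2 ⟨r, hr, fun t ht => ?_⟩
        have h3 := (convex_ball (chartAt ℂ p p) r).is_const_of_fderivWithin_eq_zero (𝕜 := ℂ)
          (f := fun t => h ((chartAt ℂ p).symm t))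
          (fun y hy => (hr' y hy).2.differentiableAt.differentiableWithinAt)
          (fun y hy => by
            rw [fderivWithin_of_isOpen isOpen_ball hy]
            ext
            simpa using (hr' y hy).1) ht (mem_ball_self hr)
        have h3' : h ((chartAt ℂ p).symm t) = h ((chartAt ℂ p).symm (chartAt ℂ p p)) := h3
        rw [h3', hφt, sub_self]
      have h4 : ordAt (fun q => h q - h p) p = ⊤ := analyticOrderAt_eq_top.2 h2
      rw [ho] at h4
      exact ENat.natCast_ne_top _ h4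
    · exact h1
  have d2 := LNB_tend d1
  filter_upwards [d2, (HolAt_near hh).filter_mono nhdsWithin_le_nhds,
    hl.eventually_nhds.filter_mono nhdsWithin_le_nhds,
    mem_nhdsWithin_of_mem_nhds (chart_source_mem_nhds ℂ p),
    LNB_tend (hH.eventually_analyticAt.filter_mono nhdsWithin_le_nhds)] with q a1 a2 a3 a4 a5
  obtain ⟨h', hh', hl', ho'⟩ := he q
  obtain ⟨b1, b2, b3⟩ := a2
  have c1 := (LNB_lift b1 hh' a3 hl').2
  rw [ho', b3] at c1
  have hφq : (chartAt ℂ p).symm (chartAt ℂ p q) = q := (chartAt ℂ p).left_inv a4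
  have h10 := a5.analyticOrderAt_sub_eq_one_of_deriv_ne_zero a1
  simp only [hφq] at h10
  have h11 : (e q : ℕ∞) = 1 := c1.trans h10
  exact_mod_cast h11

/-- The special points are isolated. -/
theorem LNB_iso [PreconnectedSpace B] (hD : IsDivisor D)
    (hf : MDifferentiable 𝓘(ℂ, ℂ) 𝓘(ℂ, ℂ × ℂ) f) (hne : ∃ p, f p ∉ D)
    (he : ∀ p, IsRam Λ (fun q => π (f q)) p (e p)) (p : B) :
    ∀ᶠ q in 𝓝[≠] p, e q = 1 ∧ f q ∉ D := by
  have hc : Continuous f := hf.continuous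
  refine (LNB_ram he p).and ?_
  -- dichotomy at every point of `f ⁻¹ D`
  have hdi : ∀ p, f p ∈ D → (∀ᶠ q in 𝓝 p, f q ∈ D) ∨ ∀ᶠ q in 𝓝[≠] p, f q ∉ D := by
    intro p hp
    obtain ⟨U, hU, F, hF, hUF⟩ := hD.2 _ hp
    have hH : HolAt (fun q => F (f q)) p := RAM_hol hf hF hU
    have hev : ∀ᶠ q in 𝓝 p, (f q ∈ D ↔ F (f q) = 0) := by
      filter_upwards [(hc.continuousAt (x := p)).eventually hU] with q hq
      exact hUF _ hq
    rcases AnalyticAt.eventually_eq_zero_or_eventually_ne_zero hH with h1 | h1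
    · left
      have h2 : ∀ᶠ q in 𝓝 p, F (f q) = 0 := by
        rw [CNN_ev]
        exact h1
      filter_upwards [h2, hev] with q a1 a2
      exact a2.2 a1
    · right
      filter_upwards [LNB_tend h1, hev.filter_mono nhdsWithin_le_nhds,
        mem_nhdsWithin_of_mem_nhds (chart_source_mem_nhds ℂ p)] with q a1 a2 a3
      rw [a2]
      simpa [(chartAt ℂ p).left_inv a3] using a1
  set T : Set B := {p | ∀ᶠ q in 𝓝 p, f q ∈ D} with hTdef
  have hTo : IsOpen T := by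
    rw [isOpen_iff_mem_nhds]
    intro p hp
    have hp' : ∀ᶠ q in 𝓝 p, f q ∈ D := hp
    exact hp'.eventually_nhds
  have hTc : IsOpen Tᶜ := by
    rw [isOpen_iff_mem_nhds]
    intro p hp
    by_cases hpD : f p ∈ D
    · rcases hdi p hpD with h1 | h1
      · exact absurd h1 hp
      · have h2 : ∀ᶠ q in 𝓝 p, q ≠ p → f q ∉ D := eventually_nhdsWithin_iff.1 h1
        filter_upwards [h2] with q h3
        by_cases hqp : q = p
        · rw [hqp]; exact hp
        · intro h4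
          have h5 : ∀ᶠ q' in 𝓝 q, f q' ∈ D := h4
          exact h3 hqp h5.self_of_nhds
    · filter_upwards [(hc.continuousAt (x := p)).eventually
        (hD.1.isOpen_compl.mem_nhds hpD)] with q h3 h4
      have h5 : ∀ᶠ q' in 𝓝 q, f q' ∈ D := h4
      exact h3 h5.self_of_nhds
  have hclopen : IsClopen T := ⟨isOpen_compl_iff.1 hTc, hTo⟩
  have hTe : ∀ p, p ∉ T := by
    rcases isClopen_iff.1 hclopen with h1 | h1
    · intro p hp
      rw [h1] at hp
      exact hp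
    · exfalso
      obtain ⟨p, hp⟩ := hne
      have h15 : ∀ᶠ q in 𝓝 p, f q ∈ D := by
        have : p ∈ T := by rw [h1]; trivial
        exact this
      exact hp h15.self_of_nhds
  by_cases hpD : f p ∈ D
  · rcases hdi p hpD with h1 | h1
    · exact absurd h1 (hTe p)
    · exact h1
  · exact ((hc.continuousAt (x := p)).eventually
      (hD.1.isOpen_compl.mem_nhds hpD)).filter_mono nhdsWithin_le_nhds

/-- Local normal forms. -/
theorem LNB (hf : MDifferentiable 𝓘(ℂ, ℂ) 𝓘(ℂ, ℂ × ℂ) f)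
    (he : ∀ p, IsRam Λ (fun q => π (f q)) p (e p))
    (hiso : ∀ p, ∀ᶠ q in 𝓝[≠] p, e q = 1 ∧ f q ∉ D) :
    BDat π D f e {q | e q ≠ 1 ∨ f q ∈ D} := by
  have hc : Continuous f := hf.continuous
  refine ⟨⟨fun q a hqa => ?_, fun q hq => ?_⟩, fun q hq => ?_, hc⟩
  swap
  · by_contra h1
    exact hq (Or.inl h1)
  swap
  · intro h1
    exact hq (Or.inr h1)
  obtain ⟨h0, hh0, hl0, he0⟩ := he q
  have hz0 : π (f q) = Λ.mkQ (h0 q) := hl0.self_of_nhds
  have hω : a - h0 q ∈ Λ := by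
    rw [hqa] at hz0
    exact (Submodule.Quotient.eq Λ).1 hz0
  obtain ⟨h, hh⟩ : ∃ h : B → ℂ, h = fun p => h0 p + (a - h0 q) := ⟨_, rfl⟩
  have hhq : h q = a := by rw [hh]; ring
  have hhol : HolAt h q := by
    rw [hh]
    exact AnalyticAt.add hh0 analyticAt_const
  have hl : ∀ᶠ p in 𝓝 q, π (f p) = Λ.mkQ (h p) := by
    filter_upwards [hl0] with p hp
    have h1 : Λ.mkQ (a - h0 q) = 0 := (Submodule.Quotient.mk_eq_zero Λ).2 hω
    rw [hp, hh, map_add, h1, add_zero]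
  have ho1 : ordAt (fun p => h p - h q) q = e q := by
    rw [(LNB_lift hh0 hhol hl0 hl).2, he0]
  obtain ⟨φ, hφ⟩ : ∃ φ, φ = chartAt ℂ q := ⟨_, rfl⟩
  have hφm : φ ∈ IsManifold.maximalAtlas 𝓘(ℂ, ℂ) 1 B := by
    rw [hφ]; exact IsManifold.chart_mem_maximalAtlas q
  have hqs : q ∈ φ.source := by rw [hφ]; exact mem_chart_source ℂ q
  obtain ⟨t₀, ht₀⟩ : ∃ t₀, t₀ = φ q := ⟨_, rfl⟩
  have hst : φ.symm t₀ = q := by rw [ht₀]; exact φ.left_inv hqs
  have htt : Tendsto φ.symm (𝓝 t₀) (𝓝 q) := by rw [ht₀]; exact φ.tendsto_symm hqs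
  have hAh : AnalyticAt ℂ (h ∘ φ.symm) t₀ := by rw [ht₀, hφ]; exact hhol
  have hht : (h ∘ φ.symm) t₀ = a := by rw [Function.comp_apply, hst, hhq]
  have hoe : analyticOrderAt (fun t => (h ∘ φ.symm) t - (h ∘ φ.symm) t₀) t₀ = e q := by
    rw [← ho1, ordAt, ← hφ, ← ht₀, hht, ← hhq]
    rfl
  have hepos : 0 < e q := by
    rcases Nat.eq_zero_or_pos (e q) with h0e | h0e
    · exfalso
      rw [h0e] at hoe
      have h3 : AnalyticAt ℂ (fun t => (h ∘ φ.symm) t - (h ∘ φ.symm) t₀) t₀ :=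
        hAh.sub analyticAt_const
      have := h3.analyticOrderAt_eq_zero.1 (by exact_mod_cast hoe)
      exact this (sub_self _)
    · exact h0e
  -- the neighbourhood
  have hiso' := hiso q
  rw [eventually_nhdsWithin_iff] at hiso'
  have hW : ∀ᶠ t in 𝓝 t₀, t ∈ φ.target ∧
      π (f (φ.symm t)) = Λ.mkQ (h (φ.symm t)) ∧
      (φ.symm t ≠ q → e (φ.symm t) = 1 ∧ f (φ.symm t) ∉ D) := by
    have h1 : ∀ᶠ t in 𝓝 t₀, t ∈ φ.target :=
      φ.open_target.mem_nhds (by rw [ht₀]; exact φ.map_source hqs)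
    filter_upwards [h1, htt.eventually hl, htt.eventually hiso'] with t a1 a4 a6
    exact ⟨a1, a4, a6⟩
  obtain ⟨ε₀, hε₀, τ, hτd, hτi, hτ0, hτW, hτo, hτn, hτh⟩ := CRD hAh hepos hoe hW
  rw [hht] at hτh
  have h0ε : (0 : ℂ) ∈ ball (0 : ℂ) ε₀ := mem_ball_self hε₀
  refine ⟨ε₀, fun u => φ.symm (τ u), ?_⟩
  refine ⟨hε₀, hepos, ?_, ?_, ?_, ?_, ?_, ?_, ?_⟩
  · -- continuity
    intro u hu
    have hd := hτd.differentiableAt (isOpen_ball.mem_nhds hu)
    have h2 : ContinuousAt φ.symm (τ u) := φ.continuousAt_symm (hτW u hu).1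
    exact (ContinuousAt.comp (f := τ) (g := φ.symm) h2 hd.continuousAt).continuousWithinAt
  · intro u hu v hv huv
    have h1 : τ u = τ v := φ.symm.injOn (by simpa using (hτW u hu).1)
      (by simpa using (hτW v hv).1) huv
    exact hτi hu hv h1
  · intro V hV hVo
    have h1 : (fun u => φ.symm (τ u)) '' V = φ.symm '' (τ '' V) := by
      rw [image_image]
    rw [h1]
    refine φ.isOpen_image_symm_of_subset_target (hτo V hV hVo) ?_
    rintro _ ⟨u, hu, rfl⟩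
    exact (hτW u (hV hu)).1
  · show φ.symm (τ 0) = q
    rw [hτ0, hst]
  · intro u hu
    show π (f (φ.symm (τ u))) = _
    rw [(hτW u hu).2.1]
    exact congrArg _ (hτh u hu)
  · intro u hu hu0 hsp
    have h1 : τ u ≠ t₀ := by
      intro h2
      exact hu0 (hτi hu h0ε (by rw [h2, hτ0]))
    have h2 : φ.symm (τ u) ≠ q := by
      intro h3
      apply h1
      rw [ht₀, ← h3, φ.right_inv (hτW u hu).1]
    obtain ⟨h3, h4⟩ := (hτW u hu).2.2 h2
    rcases hsp with h5 | h5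
    · exact h5 h3
    · exact h4 h5
  · intro u hu
    have hd : MDifferentiableAt 𝓘(ℂ, ℂ) 𝓘(ℂ, ℂ) τ u :=
      (hτd.differentiableAt (isOpen_ball.mem_nhds hu)).mdifferentiableAt
    have a1 : MDifferentiableAt 𝓘(ℂ, ℂ) 𝓘(ℂ, ℂ) φ.symm (τ u) :=
      mdifferentiableAt_symm_of_mem_maximalAtlas hφm (hτW u hu).1
    have a2 : MDifferentiableAt 𝓘(ℂ, ℂ) 𝓘(ℂ, ℂ × ℂ) (f ∘ φ.symm) (τ u) := (hf _).comp _ a1
    have a3 : MDifferentiableAt 𝓘(ℂ, ℂ) 𝓘(ℂ, ℂ × ℂ) ((f ∘ φ.symm) ∘ τ) u := a2.comp u hd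
    exact a3

end Pool.Agent.VEB
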