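import Pool.Agent.VEB.LMC
import Pool.Agent.VEB.LNB

open scoped Manifold Topology
open Filter Metric Set

namespace Pool.Agent.VEB

open Pool.Agent.ELL Pool.Agent.EPO

variable {S : Type*} [MetricSpace S] [CompactSpace S] [ChartedSpace (ℂ × ℂ) S]
  [IsManifold 𝓘(ℂ, ℂ × ℂ) 1 S] {Λ : Submodule ℤ ℂ} [DiscreteTopology Λ] [IsZLattice ℝ Λ]
  {π : S → ℂ ⧸ Λ} {D : Set S} {m : ℕ} {ι : Type} [Fintype ι] {σ : ι → PluriForm S m D}

/-- Order zero means nonvanishing. -/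
theorem LMV_ord {B : Type*} [TopologicalSpace B] [ChartedSpace ℂ B] {g : B → ℂ} {p : B}
    (hg : HolAt g p) : ordAt g p = 0 ↔ g p ≠ 0 := by
  have h1 : AnalyticAt ℂ (g ∘ (chartAt ℂ p).symm) (chartAt ℂ p p) := hg
  unfold ordAt
  rw [h1.analyticOrderAt_eq_zero]
  simp [(chartAt ℂ p).left_inv (mem_chart_source ℂ p)]

/-- Factorisation of a function of finite order, along a continuous map into the surface. -/
theorem LMV_fac {B : Type*} [TopologicalSpace B] [ChartedSpace ℂ B] {g : B → ℂ} {p : B} {k : ℕ}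
    (hg : HolAt g p) (hk : ordAt g p = k) {s : ℂ → B} (hs : ContinuousAt s 0) (hs0 : s 0 = p) :
    ∃ G : ℂ → ℂ, ContinuousAt G 0 ∧ G 0 ≠ 0 ∧
      ∀ᶠ u in 𝓝 (0 : ℂ), g (s u) = (chartAt ℂ p (s u) - chartAt ℂ p p) ^ k * G u := by
  have h1 : AnalyticAt ℂ (g ∘ (chartAt ℂ p).symm) (chartAt ℂ p p) := hg
  obtain ⟨G, hGa, hG0, hG⟩ := h1.analyticOrderAt_eq_natCast.1 hk
  have hsp : Tendsto s (𝓝 0) (𝓝 p) := by
    have := hs.tendsto
    rwa [hs0] at this
  have hφs : Tendsto (fun u => chartAt ℂ p (s u)) (𝓝 0) (𝓝 (chartAt ℂ p p)) :=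
    ((chartAt ℂ p).continuousAt (mem_chart_source ℂ p)).tendsto.comp hsp
  have hv : chartAt ℂ p (s 0) = chartAt ℂ p p := by rw [hs0]
  refine ⟨fun u => G (chartAt ℂ p (s u)), ?_, ?_, ?_⟩
  · show Tendsto _ _ (𝓝 (G (chartAt ℂ p (s 0))))
    rw [hv]
    exact hGa.continuousAt.tendsto.comp hφs
  · simp only [hv]
    exact hG0
  · filter_upwards [hφs.eventually hG, hsp.eventually (chart_source_mem_nhds ℂ p)] with u a1 a2
    simp only [Function.comp_apply, smul_eq_mul] at a1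
    rw [(chartAt ℂ p).left_inv a2] at a1
    exact a1

/-- `lam` near a point where the form vanishes to the order `k`. -/
theorem LMV {B : Type*} [TopologicalSpace B] [T2Space B] [ChartedSpace ℂ B]
    [IsManifold 𝓘(ℂ, ℂ) 1 B] {f : B → S} (hf : MDifferentiable 𝓘(ℂ, ℂ) 𝓘(ℂ, ℂ × ℂ) f)
    {e : B → ℕ} (he : ∀ p, IsRam Λ (fun q => π (f q)) p (e p))
    (hiso : ∀ p, ∀ᶠ q in 𝓝[≠] p, e q = 1 ∧ f q ∉ D)
    (hgen : ∀ p : S, ∃ U W, GenAt σ p U W) {i : ι} {k : B → ℕ}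
    (hk : ∀ p, IsVan σ f i p (k p)) {P : Set B} (hP : ∀ p, p ∉ P → f p ∉ D) :
    HLam π P f e k (lam σ i) {p | (σ i).coeff (chartAt (ℂ × ℂ) p) p = 0} := by
  have hc : Continuous f := hf.continuous
  have hkey : ∀ p, f p ∉ D →
      ((σ i).coeff (chartAt (ℂ × ℂ) (f p)) (f p) = 0 ↔ k p ≠ 0) := by
    intro p hp
    obtain ⟨U, W, hG, ho⟩ := hk p
    have h1 := (((LMC_eq hgen hG).self_of_nhds) hp i).2
    have h2 : HolAt (fun q => W i (f q)) p := RAM_hol hf (hG.2.1 i) hG.1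
    have h3 := LMV_ord h2
    rw [ho] at h3
    rw [h1]
    constructor
    · intro h4 h5
      rw [h5] at h3
      exact h3.1 rfl h4
    · intro h4
      by_contra h5
      exact h4 (by exact_mod_cast h3.2 h5)
  refine ⟨fun q a ε s hn => ?_, fun p hp hN => (hkey p (hP p hp)).1 hN⟩
  obtain ⟨U, W, hG, ho⟩ := hk q
  have hWi : HolAt (fun q => W i (f q)) q := RAM_hol hf (hG.2.1 i) hG.1
  obtain ⟨h, hh, hl, hoh⟩ := he q
  have hb : ball (0 : ℂ) ε ∈ 𝓝 (0 : ℂ) := ball_mem_nhds _ hn.pos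
  have hsc : ContinuousAt s 0 := hn.cont.continuousAt hb
  have hst : Tendsto s (𝓝 0) (𝓝 q) := by
    have := hsc.tendsto
    rwa [hn.center] at this
  have hft : Tendsto (fun u => f (s u)) (𝓝 0) (𝓝 (f q)) := (hc.continuousAt (x := q)).tendsto.comp hst
  obtain ⟨G, hGc, hG0, hGe⟩ := LMV_fac hWi ho hsc hn.center
  have hhh : HolAt (fun p => h p - h q) q := AnalyticAt.sub hh analyticAt_const
  obtain ⟨G', hGc', hG0', hGe'⟩ := LMV_fac hhh hoh hsc hn.center
  -- the lift along `s`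
  have hhs : ∀ᶠ u in 𝓝 (0 : ℂ), h (s u) - h q = u ^ e q := by
    have h1 : ∀ᶠ u in 𝓝 (0 : ℂ), (h (s u) - u ^ e q) - (h (s 0) - (0 : ℂ) ^ e q) ∈ Λ := by
      have b0 : Λ.mkQ (h (s 0)) = Λ.mkQ a := by
        have := hn.zlift 0 (mem_ball_self hn.pos)
        rw [zero_pow hn.epos.ne', add_zero] at this
        rw [← this, hn.center]
        exact hl.self_of_nhds.symm
      have b0' : h (s 0) - a ∈ Λ := (Submodule.Quotient.eq Λ).1 b0
      filter_upwards [hst.eventually hl, hb] with u a1 a2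
      have a3 := hn.zlift u a2
      rw [a1] at a3
      have a4 : h (s u) - (a + u ^ e q) ∈ Λ := (Submodule.Quotient.eq Λ).1 a3
      have a5 := Λ.sub_mem a4 b0'
      rw [zero_pow hn.epos.ne']
      convert a5 using 1
      ring
    have h2 : ContinuousAt (fun u : ℂ => h (s u) - u ^ e q) 0 := by
      have h3 : ContinuousAt h (s 0) := by
        rw [hn.center]; exact CNN_cont hh
      exact (ContinuousAt.comp (f := s) (g := h) h3 hsc).sub (continuousAt_id.pow _)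
    have h4 := CNN_lat (g := fun u : ℂ => h (s u) - u ^ e q) h1 h2
    filter_upwards [h4] with u hu
    have hu' : h (s u) - u ^ e q = h (s 0) - (0 : ℂ) ^ e q := hu
    rw [zero_pow hn.epos.ne', hn.center] at hu'
    linear_combination hu'
  -- the norm of the vector
  obtain ⟨V, hV⟩ : ∃ V : ℂ → ℝ,
      V = fun u => ‖(WithLp.toLp 2 (fun j => W j (f (s u))) : EuclideanSpace ℂ ι)‖ := ⟨_, rfl⟩
  have hVc : ContinuousAt V 0 := by
    rw [hV]
    have h1 : ContinuousAt (fun u => fun j => W j (f (s u))) (0 : ℂ) := by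
      refine continuousAt_pi.2 fun j => ?_
      have h2 : ContinuousAt (W j) (f (s 0)) := by
        rw [hn.center]
        exact (hG.2.1 j).contAt hG.1
      have h3 : ContinuousAt (fun u => f (s u)) 0 := (hc.continuousAt).comp hsc
      exact ContinuousAt.comp (f := fun u => f (s u)) (g := W j) h2 h3
    have h4 : ContinuousAt (fun u => (WithLp.toLp 2 (fun j => W j (f (s u))) : EuclideanSpace ℂ ι))
        (0 : ℂ) := (PiLp.continuous_toLp 2 _).continuousAt.comp h1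
    exact h4.norm
  have hV0 : V 0 ≠ 0 := by
    rw [hV]
    simp only [hn.center]
    obtain ⟨j, hj⟩ := hG.2.2.1 _ (mem_of_mem_nhds hG.1)
    rw [norm_ne_zero_iff]
    intro h1
    apply hj
    have h2 := congrArg (fun w : EuclideanSpace ℂ ι => w j) h1
    simpa using h2
  -- the bounded remainder
  obtain ⟨ψ, hψ⟩ : ∃ ψ : ℂ → ℝ, ψ = fun u => -((k q : ℝ) / (e q : ℝ)) * Real.log ‖G' u‖ +
      Real.log ‖G u‖ - Real.log (V u) := ⟨_, rfl⟩
  have hψc : ContinuousAt ψ 0 := by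
    rw [hψ]
    have h1 : ContinuousAt (fun u => Real.log ‖G' u‖) 0 :=
      ContinuousAt.log hGc'.norm (norm_ne_zero_iff.2 hG0')
    have h2 : ContinuousAt (fun u => Real.log ‖G u‖) 0 :=
      ContinuousAt.log hGc.norm (norm_ne_zero_iff.2 hG0)
    have h3 : ContinuousAt (fun u => Real.log (V u)) 0 := ContinuousAt.log hVc hV0
    exact ((continuousAt_const.mul h1).add h2).sub h3
  refine ⟨ψ 0 + 1, ?_⟩
  have hbd : ∀ᶠ u in 𝓝 (0 : ℂ), ψ u < ψ 0 + 1 := hψc.eventually_lt_const (by linarith)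
  filter_upwards [mem_nhdsWithin_of_mem_nhds hbd, mem_nhdsWithin_of_mem_nhds hb,
    self_mem_nhdsWithin, mem_nhdsWithin_of_mem_nhds hGe, mem_nhdsWithin_of_mem_nhds hGe',
    mem_nhdsWithin_of_mem_nhds hhs, mem_nhdsWithin_of_mem_nhds (hGc.eventually_ne hG0),
    mem_nhdsWithin_of_mem_nhds (hGc'.eventually_ne hG0'),
    mem_nhdsWithin_of_mem_nhds (hVc.eventually_ne hV0),
    mem_nhdsWithin_of_mem_nhds (hft.eventually (LMC_eq hgen hG))]
    with u a1 a2 a3 a4 a5 a6 a7 a8 a9 a10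
  have hu0 : u ≠ 0 := a3
  have hD : f (s u) ∉ D := hP _ (hn.avoid u a2 hu0)
  have a4' : W i (f (s u)) = (chartAt ℂ q (s u) - chartAt ℂ q q) ^ k q * G u := a4
  have a5' : h (s u) - h q = (chartAt ℂ q (s u) - chartAt ℂ q q) ^ e q * G' u := a5
  obtain ⟨v, hv⟩ : ∃ v, v = chartAt ℂ q (s u) - chartAt ℂ q q := ⟨_, rfl⟩
  rw [← hv] at a4' a5'
  have hv0 : v ≠ 0 := by
    intro h0
    rw [h0, zero_pow hn.epos.ne', zero_mul, a6] at a5'
    exact hu0 (pow_eq_zero_iff hn.epos.ne' |>.1 a5')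
  have hWne : W i (f (s u)) ≠ 0 := by
    rw [a4']
    exact mul_ne_zero (pow_ne_zero _ hv0) a7
  obtain ⟨b1, b2⟩ := a10 hD i
  have hcoe : (σ i).coeff (chartAt (ℂ × ℂ) (f (s u))) (f (s u)) ≠ 0 := fun h0 => hWne (b2.1 h0)
  refine ⟨?_, hcoe, ?_⟩
  · have hVu : V u = ‖(WithLp.toLp 2 (fun j => W j (f (s u))) : EuclideanSpace ℂ ι)‖ := by rw [hV]
    rw [b1, ← hVu, Real.log_div (norm_ne_zero_iff.2 hWne) a9, a4', norm_mul, norm_pow,
      Real.log_mul (pow_ne_zero _ (norm_ne_zero_iff.2 hv0)) (norm_ne_zero_iff.2 a7), Real.log_pow]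
    have e1 : (e q : ℝ) * Real.log ‖u‖ = (e q : ℝ) * Real.log ‖v‖ + Real.log ‖G' u‖ := by
      have h1 : ‖u‖ ^ e q = ‖v‖ ^ e q * ‖G' u‖ := by
        rw [← norm_pow, ← norm_pow, ← norm_mul, ← a5', a6]
      have h2 := congrArg Real.log h1
      rw [Real.log_mul (pow_ne_zero _ (norm_ne_zero_iff.2 hv0)) (norm_ne_zero_iff.2 a8),
        Real.log_pow, Real.log_pow] at h2
      exact h2
    have hepos : (0 : ℝ) < e q := by exact_mod_cast hn.epos
    have e2 : Real.log ‖v‖ = Real.log ‖u‖ - Real.log ‖G' u‖ / (e q : ℝ) := by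
      field_simp
      linarith
    have e3 : ψ u = -((k q : ℝ) / (e q : ℝ)) * Real.log ‖G' u‖ +
      Real.log ‖G u‖ - Real.log (V u) := by rw [hψ]
    have a1' : ψ u < ψ 0 + 1 := a1
    rw [e2]
    have e4 : (k q : ℝ) * (Real.log ‖u‖ - Real.log ‖G' u‖ / (e q : ℝ)) + Real.log ‖G u‖ -
        Real.log (V u) = (k q : ℝ) * Real.log ‖u‖ + ψ u := by
      rw [e3]
      ring
    rw [e4]
    linarith
  · by_contra h0
    exact hcoe ((hkey (s u) hD).2 h0)

end Pool.Agent.VEB
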