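import Pool.Agent.VEB.DEG
import Pool.Agent.VEB.LNB
import Pool.Agent.VEB.LMV
import Pool.Agent.VEB.HPO
import Pool.Agent.VEB.HFN
import Pool.Agent.VEB.RAM

open scoped Manifold Topology
open Filter Metric Set

namespace Pool.Agent.VEB

open Pool.Agent.ELL Pool.Agent.EPO

/-- The main theorem. -/
theorem MAIN.{u} {S : Type*} [MetricSpace S] [CompactSpace S] [ChartedSpace (ℂ × ℂ) S]
    [IsManifold 𝓘(ℂ, ℂ × ℂ) 1 S] {Λ : Submodule ℤ ℂ} [DiscreteTopology Λ] [IsZLattice ℝ Λ]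
    {π : S → ℂ ⧸ Λ} {D : Set S} {m : ℕ} {ι : Type} [Fintype ι] {σ : ι → PluriForm S m D}
    (hπ : HolTo Λ π) (hD : IsDivisor D) (hs : NoSecIn π D) (hσ : Separates π D σ)
    (hm : 0 < m) {H : (p : S) → TangentSpace 𝓘(ℂ, ℂ × ℂ) p → ℝ} {c C : ℝ}
    (hH : IsNeg π D H c C) :
    (Sec π D).Finite ∧ (∃ n : ℕ, 0 < n ∧ ∀ E ∈ Sec π D, ∀ ω ∈ Λ, ∀ ζ, E (ζ + n * ω) = E ζ) ∧
    ∃ A : ℝ, ∀ (B : Type u) [TopologicalSpace B] [T2Space B] [CompactSpace B]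
      [ConnectedSpace B] [ChartedSpace ℂ B] [IsManifold 𝓘(ℂ, ℂ) 1 B] (f : B → S),
      MDifferentiable 𝓘(ℂ, ℂ) 𝓘(ℂ, ℂ × ℂ) f → (∃ p q, π (f p) ≠ π (f q)) → (∃ p, f p ∉ D) →
      ∃ (e : B → ℕ) (P : Finset B), (∀ p, IsRam Λ (fun q => π (f q)) p (e p)) ∧
        (∀ p, p ∈ P ↔ e p ≠ 1 ∨ f p ∈ D) ∧
        ((∃ E ∈ Sec π D, ∀ p, f p ∈ range E) ∨
          ((∀ b : ℂ ⧸ Λ, ∃ Q : Finset B, (∀ p, p ∈ Q ↔ π (f p) = b) ∧ ∑ p ∈ Q, (e p : ℝ) ≤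
            A * (∑ p ∈ P, ((e p : ℝ) - 1) + {p : B | f p ∈ D}.ncard)) ∧
          ((∀ p : S, ∃ U W, GenAt σ p U W) → ∀ (i : ι) (k : B → ℕ),
            (∀ p, IsVan σ f i p (k p)) → ∃ Q : Finset B, (∀ p, p ∈ Q ↔ k p ≠ 0) ∧
              ∑ p ∈ Q, (k p : ℝ) ≤
                A * (∑ p ∈ P, ((e p : ℝ) - 1) + {p : B | f p ∈ D}.ncard)))) := by
  classical
  obtain ⟨hfin, hper, -⟩ := ELL.main hπ hD (EQC_fib hH) hs hm σ hσ
  refine ⟨hfin, hper, ?_⟩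
  obtain ⟨A₂, hA₂, hDEG⟩ := DEG.{u} hπ hD hs hσ hm hH
  -- the constants of the height part
  obtain ⟨A₃, hA₃, hHFN⟩ : ∃ A₃ : ℝ, 0 ≤ A₃ ∧ ((∀ p : S, ∃ U W, GenAt σ p U W) → ∀ (i : ι)
      (B : Type u) [TopologicalSpace B] [T2Space B] [CompactSpace B]
      (f : B → S) (e k : B → ℕ) (P : Set B), BDat π D f e P →
      HLam π P f e k (lam σ i) {p | (σ i).coeff (chartAt (ℂ × ℂ) p) p = 0} →
      ∀ (P' K' : Finset B), (∀ p, p ∈ P' ↔ p ∈ P) → (∀ p, p ∈ K' ↔ k p ≠ 0) → ∀ M : ℝ,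
        (∀ b : ℂ, ((∑ᶠ q ∈ Fib Λ (fun q => π (f q)) b, e q : ℕ) : ℝ) ≤ M) →
          ∑ p ∈ K', (k p : ℝ) ≤ A₃ * (∑ q ∈ P', (e q : ℝ) + M)) := by
    by_cases hgen : ∀ p : S, ∃ U W, GenAt σ p U W
    · obtain ⟨A', C₂, h1⟩ := HPO hgen hH
      obtain ⟨A₃, hA₃, h2⟩ := HFN.{u} π D A' C₂
      refine ⟨A₃, hA₃, fun _ i B _ _ _ f e k P h3 h4 P' K' h5 h6 M h7 => ?_⟩
      obtain ⟨Fo, hFo⟩ := h1 i
      exact h2 _ _ Fo hFo B f e k P h3 h4 P' K' h5 h6 M h7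
    · exact ⟨0, le_rfl, fun h => absurd h hgen⟩
  refine ⟨2 * A₂ + 2 * (A₃ * (1 + A₂)), ?_⟩
  intro B _ _ _ _ _ _ f hf hne hfD
  obtain ⟨e, he⟩ := RAM hπ hf hne
  have hiso := LNB_iso hD hf hfD he
  have H0 : BDat π D f e {q | e q ≠ 1 ∨ f q ∈ D} := LNB hf he hiso
  have hPfin : ({q | e q ≠ 1 ∨ f q ∈ D} : Set B).Finite := Spec_finite H0.cov
  set P : Finset B := hPfin.toFinset with hPd
  have hP : ∀ p, p ∈ P ↔ e p ≠ 1 ∨ f p ∈ D := fun p => by simp [hPd]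
  have hP2 : ∀ p, p ∈ P ↔ p ∈ ({q | e q ≠ 1 ∨ f q ∈ D} : Set B) := fun p => by simp [hPd]
  refine ⟨e, P, he, hP, ?_⟩
  have hepos : ∀ p, 0 < e p := by
    intro p
    obtain ⟨a, ha⟩ := Submodule.mkQ_surjective Λ (π (f p))
    obtain ⟨ε, s, h⟩ := H0.cov.nf p a ha.symm
    exact h.epos
  have hcard : ({p : B | f p ∈ D}.ncard : ℝ) = ∑ p ∈ P, if f p ∈ D then (1 : ℝ) else 0 := by
    rw [← Finset.sum_filter, Finset.sum_const, nsmul_eq_mul, mul_one]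
    rw [← Set.ncard_coe_finset]
    congr 2
    ext p
    simp only [Set.mem_ofPred_eq, Finset.coe_filter, hP]
    tauto
  have hsum : ∑ p ∈ P, (e p : ℝ) ≤
      2 * (∑ p ∈ P, ((e p : ℝ) - 1) + {p : B | f p ∈ D}.ncard) := by
    rw [hcard, ← Finset.sum_add_distrib, Finset.mul_sum]
    refine Finset.sum_le_sum fun p hp => ?_
    have h9 : (1 : ℝ) ≤ e p := by exact_mod_cast hepos p
    by_cases hk : f p ∈ D
    · rw [if_pos hk]
      linarith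
    · rw [if_neg hk]
      have h10 : e p ≠ 1 := ((hP p).1 hp).resolve_right hk
      have h11 : 2 ≤ e p := by have := hepos p; omega
      have h12 : (2 : ℝ) ≤ e p := by exact_mod_cast h11
      linarith
  set X : ℝ := ∑ p ∈ P, ((e p : ℝ) - 1) + {p : B | f p ∈ D}.ncard with hX
  have hX0 : 0 ≤ X := by
    have : 0 ≤ ∑ p ∈ P, (e p : ℝ) := by positivity
    linarith
  rcases hDEG B f e _ H0 with h | h
  · exact Or.inl h
  · right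
    have hdeg := h P hP2
    refine ⟨fun b => ?_, fun hgen i k hk => ?_⟩
    · obtain ⟨b', rfl⟩ := Submodule.mkQ_surjective Λ b
      have hF : (Fib Λ (fun q => π (f q)) b').Finite := Fib_finite H0.cov b'
      refine ⟨hF.toFinset, fun p => ?_, ?_⟩
      · rw [Set.Finite.mem_toFinset]
        rfl
      · have h1 := hdeg b'
        rw [finsum_mem_eq_finite_toFinset_sum _ hF] at h1
        push_cast at h1
        have h2 : A₂ * ∑ q ∈ P, (e q : ℝ) ≤ A₂ * (2 * X) := mul_le_mul_of_nonneg_left hsum hA₂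
        have h3 : 0 ≤ 2 * (A₃ * (1 + A₂)) * X := by positivity
        linarith
    · have hlam : HLam π {q | e q ≠ 1 ∨ f q ∈ D} f e k (lam σ i)
          {p | (σ i).coeff (chartAt (ℂ × ℂ) p) p = 0} :=
        LMV hf he hiso hgen hk (fun p hp h => hp (Or.inr h))
      have hKfin := HKF H0 hlam
      have hK : ∀ p, p ∈ hKfin.toFinset ↔ k p ≠ 0 := fun p => by simp
      refine ⟨hKfin.toFinset, hK, ?_⟩
      have h1 := hHFN hgen i B f e k _ H0 hlam P hKfin.toFinset hP2 hK _ hdeg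
      have h2 : A₃ * (∑ q ∈ P, (e q : ℝ) + A₂ * ∑ q ∈ P, (e q : ℝ)) ≤
          A₃ * ((1 + A₂) * (2 * X)) := by
        apply mul_le_mul_of_nonneg_left _ hA₃
        have : (1 + A₂) * ∑ q ∈ P, (e q : ℝ) ≤ (1 + A₂) * (2 * X) :=
          mul_le_mul_of_nonneg_left hsum (by positivity)
        linarith
      have h3 : 0 ≤ 2 * A₂ * X := by positivity
      linarith

end Pool.Agent.VEB
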