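import Pool.Agent.VEB.SCA
import Pool.Agent.VEB.FIB

open scoped Manifold Topology
open Filter Metric Set

set_option linter.unusedSectionVars false

namespace Pool.Agent.VEB

open Pool.Agent.EPO

section PLTglue

/-- Gluing two paths. -/
theorem PLT_glue {C : Type*} [TopologicalSpace C] {γ₁ γ₂ : ℝ → C} {T₁ T₂ : ℝ}
    (h₁ : ContinuousOn γ₁ (Icc 0 T₁)) (h₂ : ContinuousOn γ₂ (Icc T₁ T₂)) (h0 : 0 ≤ T₁)
    (h12 : T₁ ≤ T₂) (h : γ₁ T₁ = γ₂ T₁) :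
    ∃ γ : ℝ → C, ContinuousOn γ (Icc 0 T₂) ∧ (∀ t ≤ T₁, γ t = γ₁ t) ∧ ∀ t ≥ T₁, γ t = γ₂ t := by
  classical
  have e1 : ∀ t ≤ T₁, (fun t => if t ≤ T₁ then γ₁ t else γ₂ t) t = γ₁ t := fun t ht => if_pos ht
  have e2 : ∀ t ≥ T₁, (fun t => if t ≤ T₁ then γ₁ t else γ₂ t) t = γ₂ t := by
    intro t ht
    rcases eq_or_lt_of_le ht with h3 | h3
    · rw [← h3, e1 _ le_rfl, h]
    · exact if_neg (not_le.2 h3)
  refine ⟨fun t => if t ≤ T₁ then γ₁ t else γ₂ t, ?_, e1, e2⟩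
  have h3 : Icc 0 T₂ = Icc 0 T₁ ∪ Icc T₁ T₂ := (Icc_union_Icc_eq_Icc h0 h12).symm
  rw [h3]
  refine ContinuousOn.union_of_isClosed ?_ ?_ isClosed_Icc isClosed_Icc
  · exact h₁.congr fun t ht => e1 t ht.2
  · exact h₂.congr fun t ht => e2 t ht.1

end PLTglue

variable {Λ : Submodule ℤ ℂ} [DiscreteTopology Λ] [IsZLattice ℝ Λ]
  {C : Type*} [TopologicalSpace C] [T2Space C] [CompactSpace C]
  {z : C → ℂ ⧸ Λ} {Φ : (ℂ → C) → ℂ → Prop} {e : C → ℕ} {P : Set C}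

/-- `[0, T]` has a good lift. -/
private def PLTGood (Λ : Submodule ℤ ℂ) {C : Type*} [TopologicalSpace C] (z : C → ℂ ⧸ Λ)
    (P : Set C) (p : C) (a b : ℂ) (T : ℝ) (γ : ℝ → C) : Prop :=
  ContinuousOn γ (Icc 0 T) ∧ γ 0 = p ∧
      (∀ t ∈ Icc (0 : ℝ) T, z (γ t) = Λ.mkQ (a + t * (b - a))) ∧
      (∀ t ∈ Ico (0 : ℝ) T, γ t ∉ P)

omit [DiscreteTopology Λ] [IsZLattice ℝ Λ] [T2Space C] [CompactSpace C] in
/-- Extension of a lift beyond a nonspecial end point. -/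
private theorem PLT_ext (H : RCov Λ z Φ e P) {p : C} {a b : ℂ} {T : ℝ} (hT : 0 ≤ T) {γ : ℝ → C}
    (hG : PLTGood Λ z (P) p a b T γ) (hend : γ T ∉ P) :
    ∃ τ₀ > 0, ∀ τ > 0, τ ≤ τ₀ → ∃ γ', PLTGood Λ z (P) p a b (T + τ) γ' := by
  obtain ⟨hc, h0, hz, hav⟩ := hG
  obtain ⟨ε, σ, h⟩ := H.nf (γ T) _ (hz T ⟨hT, le_rfl⟩)
  have he : e (γ T) = 1 := H.one _ hend
  have hB : 0 < ‖b - a‖ + 1 := by positivity
  have hd : 0 < ε / (‖b - a‖ + 1) := div_pos h.pos hB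
  refine ⟨ε / (‖b - a‖ + 1) / 2, by positivity, fun τ hτ hτ0 => ?_⟩
  have hin : ∀ t ∈ Icc T (T + τ), ((t : ℂ) - T) * (b - a) ∈ ball (0 : ℂ) ε := by
    intro t ht
    rw [mem_ball_zero_iff, norm_mul]
    have h1 : ‖((t : ℂ) - T)‖ = t - T := by
      rw [← Complex.ofReal_sub, Complex.norm_real, Real.norm_eq_abs, abs_of_nonneg]
      linarith [ht.1]
    rw [h1]
    have h2 : t - T ≤ ε / (‖b - a‖ + 1) / 2 := by linarith [ht.2]
    have h3 : (t - T) * ‖b - a‖ ≤ (ε / (‖b - a‖ + 1) / 2) * (‖b - a‖ + 1) := by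
      apply mul_le_mul h2 (by linarith) (norm_nonneg _)
      positivity
    have h4 : (ε / (‖b - a‖ + 1) / 2) * (‖b - a‖ + 1) = ε / 2 := by
      field_simp
    rw [h4] at h3
    have := h.pos
    linarith
  obtain ⟨γ', hγ'c, hγ1, hγ2⟩ := PLT_glue (γ₁ := γ)
    (γ₂ := fun t => σ (((t : ℂ) - T) * (b - a))) (T₁ := T) (T₂ := T + τ) hc
    (h.cont.comp (by fun_prop) hin) hT (by linarith) (by
      simp only [sub_self, zero_mul]
      exact h.center.symm)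
  refine ⟨γ', hγ'c, ?_, ?_, ?_⟩
  · rw [hγ1 0 hT, h0]
  · intro t ht
    rcases le_total t T with h5 | h5
    · rw [hγ1 t h5]
      exact hz t ⟨ht.1, h5⟩
    · rw [hγ2 t h5, h.zlift _ (hin t ⟨h5, ht.2⟩), he, pow_one]
      congr 1
      ring
  · intro t ht
    rcases lt_or_ge t T with h5 | h5
    · rw [hγ1 t h5.le]
      exact hav t ⟨ht.1, h5⟩
    · rw [hγ2 t h5]
      by_cases h6 : ((t : ℂ) - T) * (b - a) = 0
      · simp only [h6, h.center]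
        exact hend
      · exact h.avoid _ (hin t ⟨h5, ht.2.le⟩) h6

/-- Extension of a lift to a nearby time. -/
private theorem PLT_lim (H : RCov Λ z Φ e P) {p : C} {a b : ℂ} (hab : b ≠ a) {T : ℝ}
    (hT : 0 < T) (hS : ∀ τ > 0, ∃ T₁, 0 < T₁ ∧ T₁ ≤ T ∧ T - τ < T₁ ∧
      ∃ γ, PLTGood Λ z (P) p a b T₁ γ) :
    ∃ γ, PLTGood Λ z (P) p a b T γ := by
  obtain ⟨δ, hδ, ε, σ, hNF, -, hfib⟩ := FIB H (a + T * (b - a))
  have hB : 0 < ‖b - a‖ + 1 := by positivity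
  obtain ⟨T₁, hT₁, hT₁T, hclose, γ₁, hc, h0, hz, hav⟩ := hS (δ / (‖b - a‖ + 1)) (by positivity)
  rcases eq_or_lt_of_le hT₁T with rfl | hlt
  · exact ⟨γ₁, hc, h0, hz, hav⟩
  -- the point at time `T₁`
  have hmem : a + T₁ * (b - a) ∈ ball (a + T * (b - a)) δ := by
    rw [mem_ball, dist_eq_norm]
    have h1 : a + T₁ * (b - a) - (a + T * (b - a)) = ((T₁ - T : ℝ) : ℂ) * (b - a) := by
      push_cast
      ring
    rw [h1, norm_mul, Complex.norm_real, Real.norm_eq_abs, abs_of_neg (by linarith)]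
    have h2 : -(T₁ - T) < δ / (‖b - a‖ + 1) := by linarith
    have h3 : -(T₁ - T) * ‖b - a‖ ≤ -(T₁ - T) * (‖b - a‖ + 1) := by
      apply mul_le_mul_of_nonneg_left (by linarith) (by linarith)
    have h4 : -(T₁ - T) * (‖b - a‖ + 1) < δ := by
      rwa [lt_div_iff₀ hB] at h2
    linarith
  obtain ⟨q, hq, u, hu, hue, hγq⟩ := (hfib _ hmem (γ₁ T₁)).1 (hz T₁ ⟨hT₁.le, le_rfl⟩)
  obtain ⟨h, -⟩ := hNF q hq
  have hsub : a + T₁ * (b - a) - (a + T * (b - a)) = ((T₁ : ℂ) - T) * (b - a) := by ring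
  rw [hsub] at hue
  have hepos := h.epos
  -- the real root
  let ρ : ℝ → ℝ := fun t => ((T - t) / (T - T₁)) ^ (1 / (e q : ℝ))
  have hTT : 0 < T - T₁ := by linarith
  have hρc : Continuous ρ := by
    refine Continuous.rpow_const (by fun_prop) fun t => Or.inr (by positivity)
  have hρ1 : ρ T₁ = 1 := by
    simp only [ρ]
    rw [div_self hTT.ne', Real.one_rpow]
  have hρpow : ∀ t ∈ Icc T₁ T, ρ t ^ e q = (T - t) / (T - T₁) := by
    intro t ht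
    simp only [ρ]
    rw [← Real.rpow_natCast, ← Real.rpow_mul (div_nonneg (by linarith [ht.2]) hTT.le),
      one_div, inv_mul_cancel₀ (by exact_mod_cast hepos.ne'), Real.rpow_one]
  have hρ0 : ∀ t ∈ Icc T₁ T, 0 ≤ ρ t := by
    intro t ht
    exact Real.rpow_nonneg (div_nonneg (by linarith [ht.2]) hTT.le) _
  have hρle : ∀ t ∈ Icc T₁ T, ρ t ≤ 1 := by
    intro t ht
    apply Real.rpow_le_one (div_nonneg (by linarith [ht.2]) hTT.le) _ (by positivity)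
    rw [div_le_one hTT]
    linarith [ht.1]
  have hin : ∀ t ∈ Icc T₁ T, u * (ρ t : ℂ) ∈ ball (0 : ℂ) (ε q) := by
    intro t ht
    rw [mem_ball_zero_iff, norm_mul, Complex.norm_real, Real.norm_eq_abs, abs_of_nonneg (hρ0 t ht)]
    have h1 : ‖u‖ * ρ t ≤ ‖u‖ * 1 := mul_le_mul_of_nonneg_left (hρle t ht) (norm_nonneg u)
    rw [mem_ball_zero_iff] at hu
    linarith
  obtain ⟨γ', hγ'c, hγ1, hγ2⟩ := PLT_glue (γ₁ := γ₁)
    (γ₂ := fun t => σ q (u * (ρ t : ℂ))) (T₁ := T₁) (T₂ := T) hc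
    (h.cont.comp (by fun_prop) hin) hT₁.le hlt.le (by
      simp only [hρ1, Complex.ofReal_one, mul_one]
      exact hγq)
  have hTTc : (T : ℂ) - T₁ ≠ 0 := by
    rw [← Complex.ofReal_sub]
    exact_mod_cast hTT.ne'
  refine ⟨γ', hγ'c, ?_, ?_, ?_⟩
  · rw [hγ1 0 hT₁.le, h0]
  · intro t ht
    rcases le_total t T₁ with h5 | h5
    · rw [hγ1 t h5]
      exact hz t ⟨ht.1, h5⟩
    · rw [hγ2 t h5, h.zlift _ (hin t ⟨h5, ht.2⟩), mul_pow, hue, ← Complex.ofReal_pow,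
        hρpow t ⟨h5, ht.2⟩]
      congr 1
      push_cast
      field_simp
      ring
  · intro t ht
    rcases lt_or_ge t T₁ with h5 | h5
    · rw [hγ1 t h5.le]
      exact hav t ⟨ht.1, h5⟩
    · rw [hγ2 t h5]
      refine h.avoid _ (hin t ⟨h5, ht.2.le⟩) ?_
      apply mul_ne_zero
      · intro hu0
        rw [hu0, zero_pow hepos.ne'] at hue
        have h6 := mul_eq_zero.1 hue.symm
        rcases h6 with h6 | h6
        · apply hTTc
          rw [← neg_eq_zero, neg_sub]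
          exact h6
        · exact hab (sub_eq_zero.1 h6)
      · have h6 : 0 < ρ t := by
          apply Real.rpow_pos_of_pos
          apply div_pos _ hTT
          linarith [ht.2]
        exact_mod_cast h6.ne'

/-- Segments can be lifted until the lift meets a special point. -/
theorem PLT (H : RCov Λ z Φ e P) {p : C} (hp : p ∉ P) {a : ℂ} (ha : z p = Λ.mkQ a)
    (b : ℂ) : ∃ T : ℝ, 0 < T ∧ T ≤ 1 ∧ ∃ γ : ℝ → C, ContinuousOn γ (Icc 0 T) ∧ γ 0 = p ∧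
      (∀ t ∈ Icc (0 : ℝ) T, z (γ t) = Λ.mkQ (a + t * (b - a))) ∧
      (∀ t ∈ Ico (0 : ℝ) T, γ t ∉ P) ∧ (γ T ∈ P ∨ T = 1) := by
  by_cases hab : b = a
  · refine ⟨1, one_pos, le_rfl, fun _ => p, continuousOn_const, rfl, ?_, fun _ _ => hp,
      Or.inr rfl⟩
    intro t _
    rw [hab, sub_self, mul_zero, add_zero]
    exact ha
  -- the constant lift over `[0, 0]`
  have hG0 : PLTGood Λ z (P) p a b 0 (fun _ => p) := by
    refine ⟨continuousOn_const, rfl, ?_, fun _ _ => hp⟩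
    intro t ht
    have h1 : t = 0 := le_antisymm ht.2 ht.1
    rw [h1, Complex.ofReal_zero, zero_mul, add_zero]
    exact ha
  let S : Set ℝ := {T | 0 < T ∧ T ≤ 1 ∧ ∃ γ, PLTGood Λ z (P) p a b T γ}
  have hSne : S.Nonempty := by
    obtain ⟨τ₀, hτ₀, hext⟩ := PLT_ext H le_rfl hG0 hp
    obtain ⟨γ, hγ⟩ := hext (min τ₀ 1) (lt_min hτ₀ one_pos) (min_le_left _ _)
    rw [zero_add] at hγ
    exact ⟨min τ₀ 1, lt_min hτ₀ one_pos, min_le_right _ _, γ, hγ⟩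
  have hSb : BddAbove S := ⟨1, fun T hT => hT.2.1⟩
  have hpos : 0 < sSup S := by
    obtain ⟨T, hT⟩ := hSne
    exact hT.1.trans_le (le_csSup hSb hT)
  have hle1 : sSup S ≤ 1 := csSup_le hSne fun T hT => hT.2.1
  obtain ⟨γ, hγ⟩ := PLT_lim H hab hpos (T := sSup S) (by
    intro τ hτ
    obtain ⟨T₁, hT₁, hlt⟩ := exists_lt_of_lt_csSup hSne (show sSup S - τ < sSup S by linarith)
    exact ⟨T₁, hT₁.1, le_csSup hSb hT₁, hlt, hT₁.2.2⟩)
  refine ⟨sSup S, hpos, hle1, γ, hγ.1, hγ.2.1, hγ.2.2.1, hγ.2.2.2, ?_⟩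
  by_contra hcon
  rw [not_or] at hcon
  have hlt1 : sSup S < 1 := lt_of_le_of_ne hle1 hcon.2
  obtain ⟨τ₀, hτ₀, hext⟩ := PLT_ext H hpos.le hγ hcon.1
  obtain ⟨γ', hγ'⟩ := hext (min τ₀ (1 - sSup S)) (lt_min hτ₀ (by linarith)) (min_le_left _ _)
  have hmin : 0 < min τ₀ (1 - sSup S) := lt_min hτ₀ (by linarith)
  have h7 : sSup S + min τ₀ (1 - sSup S) ∈ S := by
    refine ⟨by linarith, ?_, γ', hγ'⟩
    have := min_le_right τ₀ (1 - sSup S)
    linarith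
  have h8 := le_csSup hSb h7
  linarith

end Pool.Agent.VEB
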