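import Pool.Agent.VEB.PLT

open scoped Manifold Topology
open Filter Metric Set

set_option linter.unusedSectionVars false

namespace Pool.Agent.VEB

open Pool.Agent.EPO

variable {Λ : Submodule ℤ ℂ} [DiscreteTopology Λ] [IsZLattice ℝ Λ]
  {C : Type*} [TopologicalSpace C] [T2Space C] [CompactSpace C]
  {z : C → ℂ ⧸ Λ} {Φ : (ℂ → C) → ℂ → Prop} {e : C → ℕ} {P : Set C}

omit [IsZLattice ℝ Λ] in
private theorem PTH_disc : ∃ δ > 0, ∀ ω ∈ Λ, ‖ω‖ < δ → ω = 0 := by
  have h0 : (0 : ℂ) ∈ (Λ : Set ℂ) := Λ.zero_mem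
  obtain ⟨δ, hδ, h⟩ := Metric.exists_ball_inter_eq_singleton_of_mem_discrete
    (s := (Λ : Set ℂ)) (DiscreteTopology.isDiscrete (s := (Λ : Set ℂ))) h0
  refine ⟨δ, hδ, fun ω hω hn => ?_⟩
  have h1 : ω ∈ ball (0 : ℂ) δ ∩ (Λ : Set ℂ) := ⟨mem_ball_zero_iff.2 hn, hω⟩
  rw [h] at h1
  exact h1

/-- The points over the plane. -/
private def PTH_E (Λ : Submodule ℤ ℂ) (z : C → ℂ ⧸ Λ) (P : Set C) : Type _ :=
  {y : C × ℂ // y.1 ∉ P ∧ z y.1 = Λ.mkQ y.2}

private instance PTH_top : TopologicalSpace (PTH_E Λ z P) :=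
  inferInstanceAs (TopologicalSpace {y : C × ℂ // y.1 ∉ P ∧ z y.1 = Λ.mkQ y.2})

private instance PTH_t2 : T2Space (PTH_E Λ z P) :=
  inferInstanceAs (T2Space {y : C × ℂ // y.1 ∉ P ∧ z y.1 = Λ.mkQ y.2})

private theorem PTH_locHomeo (H : RCov Λ z Φ e P) :
    IsLocalHomeomorph (fun y : PTH_E Λ z P => y.1.2) := by
  classical
  refine IsLocalHomeomorph.mk _ fun y => ?_
  obtain ⟨⟨q, ζ₀⟩, hq, hz⟩ := y
  obtain ⟨ε, σ, hNF⟩ := H.nf q ζ₀ hz
  have he : e q = 1 := H.one _ hq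
  rw [he] at hNF
  obtain ⟨δ, hδ, hdisc⟩ := PTH_disc (Λ := Λ)
  set ε' : ℝ := min ε (δ / 2) with hε'
  have hε'0 : 0 < ε' := lt_min hNF.pos (by linarith)
  have hsub : ball (0 : ℂ) ε' ⊆ ball 0 ε := ball_subset_ball (min_le_left _ _)
  have hσq : ∀ u ∈ ball (0 : ℂ) ε', σ u ∉ P := by
    intro u hu
    by_cases h0 : u = 0
    · rw [h0, hNF.center]
      exact hq
    · exact hNF.avoid u (hsub hu) h0
  have hmem : ∀ ζ ∈ ball ζ₀ ε', ζ - ζ₀ ∈ ball (0 : ℂ) ε' := by
    intro ζ hζ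
    rw [mem_ball_zero_iff, ← dist_eq_norm]
    exact hζ
  have hσz : ∀ ζ ∈ ball ζ₀ ε', z (σ (ζ - ζ₀)) = Λ.mkQ ζ := by
    intro ζ hζ
    rw [hNF.zlift _ (hsub (hmem ζ hζ)), pow_one, add_sub_cancel]
  let inv : ℂ → PTH_E Λ z P := fun ζ =>
    if h : ζ ∈ ball ζ₀ ε' then ⟨(σ (ζ - ζ₀), ζ), hσq _ (hmem ζ h), hσz ζ h⟩
    else ⟨(q, ζ₀), hq, hz⟩
  have hinv : ∀ ζ (h : ζ ∈ ball ζ₀ ε'), inv ζ = ⟨(σ (ζ - ζ₀), ζ), hσq _ (hmem ζ h), hσz ζ h⟩ :=
    fun ζ h => dif_pos h
  let Φ : OpenPartialHomeomorph (PTH_E Λ z P) ℂ :=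
    { toFun := fun y => y.1.2
      invFun := inv
      source := {y | y.1.1 ∈ σ '' ball 0 ε' ∧ y.1.2 ∈ ball ζ₀ ε'}
      target := ball ζ₀ ε'
      map_source' := fun y hy => hy.2
      map_target' := by
        intro ζ hζ
        rw [hinv ζ hζ]
        exact ⟨⟨ζ - ζ₀, hmem ζ hζ, rfl⟩, hζ⟩
      left_inv' := by
        intro y hy
        obtain ⟨⟨u, hu, hu2⟩, hy2⟩ := hy
        rw [hinv _ hy2]
        have h1 : z y.1.1 = Λ.mkQ y.1.2 := y.2.2
        rw [← hu2, hNF.zlift u (hsub hu), pow_one] at h1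
        have h2 : ζ₀ + u - y.1.2 ∈ Λ := by
          have := (Submodule.Quotient.eq Λ).1 h1
          exact this
        have h3 : ‖ζ₀ + u - y.1.2‖ < δ := by
          have h4 : ‖u‖ < ε' := mem_ball_zero_iff.1 hu
          have h5 : ‖y.1.2 - ζ₀‖ < ε' := by
            rw [← dist_eq_norm]
            exact hy2
          have h6 : ε' ≤ δ / 2 := min_le_right _ _
          calc ‖ζ₀ + u - y.1.2‖ = ‖u - (y.1.2 - ζ₀)‖ := by congr 1; ring
            _ ≤ ‖u‖ + ‖y.1.2 - ζ₀‖ := norm_sub_le _ _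
            _ < δ := by linarith
        have h7 := hdisc _ h2 h3
        have h8 : y.1.2 - ζ₀ = u := by linear_combination -h7
        apply Subtype.ext
        refine Prod.ext ?_ rfl
        show σ (y.1.2 - ζ₀) = y.1.1
        rw [h8, hu2]
      right_inv' := by
        intro ζ hζ
        rw [hinv ζ hζ]
      open_source := by
        have h1 : IsOpen (σ '' ball 0 ε') := hNF.opn _ hsub isOpen_ball
        have c1 : Continuous (fun y : PTH_E Λ z P => y.1.1) :=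
          continuous_fst.comp continuous_subtype_val
        have c2 : Continuous (fun y : PTH_E Λ z P => y.1.2) :=
          continuous_snd.comp continuous_subtype_val
        exact (h1.preimage c1).inter (isOpen_ball.preimage c2)
      open_target := isOpen_ball
      continuousOn_toFun := (continuous_snd.comp continuous_subtype_val).continuousOn
      continuousOn_invFun := by
        rw [continuousOn_iff_continuous_domRestrict]
        have h1 : (ball ζ₀ ε').domRestrict inv = fun ζ =>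
            (⟨(σ (ζ.1 - ζ₀), ζ.1), hσq _ (hmem ζ.1 ζ.2), hσz ζ.1 ζ.2⟩ : PTH_E Λ z P) := by
          funext ζ
          exact hinv ζ.1 ζ.2
        rw [h1]
        refine Continuous.subtype_mk ?_ _
        refine Continuous.prodMk ?_ continuous_subtype_val
        have h2 : ContinuousOn σ (ball 0 ε') := hNF.cont.mono hsub
        exact h2.comp_continuous (continuous_subtype_val.sub continuous_const)
          (fun ζ => hmem ζ.1 ζ.2) }
  refine ⟨Φ, ⟨⟨0, mem_ball_self hε'0, hNF.center⟩, mem_ball_self hε'0⟩, fun y _ => rfl⟩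

/-- Either there is a section over a large disc, or a segment leads to a special point. -/
theorem PTH (H : RCov Λ z Φ e P) {p : C} (hp : p ∉ P) {a : ℂ} (ha : z p = Λ.mkQ a)
    {R : ℝ} (hR : 0 < R) :
    (∃ s, IsSec Λ z (P) (ball a R) s ∧ s a = p) ∨
      ∃ b : ℂ, ‖b - a‖ ≤ R ∧ ∃ γ : ℝ → C, ContinuousOn γ (Icc 0 1) ∧ γ 0 = p ∧
        γ 1 ∈ P ∧ (∀ t ∈ Icc (0 : ℝ) 1, z (γ t) = Λ.mkQ (a + t * (b - a))) ∧
        ∀ t ∈ Ico (0 : ℝ) 1, γ t ∉ P := by
  classical
  by_cases hcase : ∃ b : ℂ, ‖b - a‖ ≤ R ∧ ∃ T : ℝ, 0 < T ∧ T ≤ 1 ∧ ∃ γ : ℝ → C,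
      ContinuousOn γ (Icc 0 T) ∧ γ 0 = p ∧
      (∀ t ∈ Icc (0 : ℝ) T, z (γ t) = Λ.mkQ (a + t * (b - a))) ∧
      (∀ t ∈ Ico (0 : ℝ) T, γ t ∉ P) ∧ γ T ∈ P
  · right
    obtain ⟨b, hb, T, hT0, hT1, γ, h1, h2, h3, h4, h5⟩ := hcase
    refine ⟨a + T * (b - a), ?_, fun t => γ (T * t), ?_, ?_, ?_, ?_, ?_⟩
    · rw [add_sub_cancel_left, norm_mul, Complex.norm_real, Real.norm_eq_abs, abs_of_pos hT0]
      calc T * ‖b - a‖ ≤ 1 * ‖b - a‖ := by gcongr
        _ ≤ R := by rw [one_mul]; exact hb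
    · refine h1.comp (continuous_const.mul continuous_id).continuousOn ?_
      intro t ht
      exact ⟨mul_nonneg hT0.le ht.1, by nlinarith [ht.2]⟩
    · simp only [mul_zero]
      exact h2
    · simp only [mul_one]
      exact h5
    · intro t ht
      have h6 := h3 (T * t) ⟨mul_nonneg hT0.le ht.1, by nlinarith [ht.2]⟩
      rw [h6]
      congr 1
      push_cast
      ring
    · intro t ht
      exact h4 (T * t) ⟨mul_nonneg hT0.le ht.1, by nlinarith [ht.2]⟩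
  · left
    have hpath : ∀ b : ball a R, ∃ γ : ℝ → C, ContinuousOn γ (Icc 0 1) ∧ γ 0 = p ∧
        (∀ t ∈ Icc (0 : ℝ) 1, z (γ t) = Λ.mkQ (a + t * (b - a))) ∧
        ∀ t ∈ Icc (0 : ℝ) 1, γ t ∉ P := by
      intro b
      have hbR : ‖(b : ℂ) - a‖ ≤ R := by
        rw [← dist_eq_norm]
        exact (mem_ball.1 b.2).le
      obtain ⟨T, hT0, hT1, γ, h1, h2, h3, h4, h5⟩ := PLT H hp ha (b : ℂ)
      have h6 : γ T ∉ P := fun h =>
        hcase ⟨b, hbR, T, hT0, hT1, γ, h1, h2, h3, h4, h⟩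
      have h7 : T = 1 := h5.resolve_left h6
      subst h7
      refine ⟨γ, h1, h2, h3, fun t ht => ?_⟩
      rcases eq_or_lt_of_le ht.2 with h8 | h8
      · rw [h8]
        exact h6
      · exact h4 t ⟨ht.1, h8⟩
    choose γ hγc hγ0 hγz hγS using hpath
    have homeo := PTH_locHomeo H
    have sep : IsSeparatedMap (fun y : PTH_E Λ z P => y.1.2) := T2Space.isSeparatedMap _
    let F : C(unitInterval × ball a R, ℂ) :=
      ⟨fun tb => a + ((tb.1 : ℝ) : ℂ) * ((tb.2 : ℂ) - a), by fun_prop⟩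
    let g : unitInterval × ball a R → PTH_E Λ z P := fun tb =>
      ⟨(γ tb.2 tb.1, a + ((tb.1 : ℝ) : ℂ) * ((tb.2 : ℂ) - a)), hγS tb.2 tb.1 tb.1.2,
        hγz tb.2 tb.1 tb.1.2⟩
    have cont_A : ∀ b, Continuous (fun t => g (t, b)) := by
      intro b
      refine Continuous.subtype_mk ?_ _
      refine Continuous.prodMk ?_ (by fun_prop)
      exact (hγc b).comp_continuous continuous_subtype_val (fun t => t.2)
    have cont_0 : Continuous (fun b => g (0, b)) := by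
      refine Continuous.subtype_mk ?_ _
      refine Continuous.prodMk ?_ (by fun_prop)
      have h1 : (fun b : ball a R => γ b ((0 : unitInterval) : ℝ)) = fun _ => p := by
        funext b
        exact hγ0 b
      exact h1 ▸ continuous_const
    have hg : Continuous g := homeo.continuous_lift sep F (g := g) rfl cont_0 cont_A
    have haR : a ∈ ball a R := mem_ball_self hR
    refine ⟨fun ζ => if h : ζ ∈ ball a R then γ ⟨ζ, h⟩ 1 else p, ⟨?_, ?_⟩, ?_⟩
    · rw [continuousOn_iff_continuous_domRestrict]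
      have h1 : (ball a R).domRestrict (fun ζ => if h : ζ ∈ ball a R then γ ⟨ζ, h⟩ 1 else p) =
          fun b => (g (1, b)).1.1 := by
        funext b
        simp only [domRestrict_apply]
        rw [dif_pos b.2]
        rfl
      rw [h1]
      exact continuous_fst.comp (continuous_subtype_val.comp
        (hg.comp (Continuous.prodMk_right (1 : unitInterval))))
    · intro ζ hζ
      simp only [dif_pos hζ]
      refine ⟨?_, hγS ⟨ζ, hζ⟩ 1 ⟨zero_le_one, le_rfl⟩⟩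
      rw [hγz ⟨ζ, hζ⟩ 1 ⟨zero_le_one, le_rfl⟩]
      congr 1
      push_cast
      ring
    · simp only [dif_pos haR]
      have h1 := sep.const_of_comp homeo.isLocallyInjective (cont_A ⟨a, haR⟩)
        (fun t t' => by
          show a + ((t : ℝ) : ℂ) * (a - a) = a + ((t' : ℝ) : ℂ) * (a - a)
          rw [sub_self, mul_zero, mul_zero]) 1 0
      have h2 : (g (1, ⟨a, haR⟩)).1.1 = (g (0, ⟨a, haR⟩)).1.1 := by rw [h1]
      have h3 : γ ⟨a, haR⟩ 1 = γ ⟨a, haR⟩ 0 := h2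
      rw [h3, hγ0]

end Pool.Agent.VEB
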