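import Pool.Agent.VEB.QMX
import Pool.Agent.VEB.SCP
import Pool.Agent.ELL.Vec

open scoped Manifold Topology
open Filter Metric Set

namespace Pool.Agent.VEB

open Pool.Agent.ELL Pool.Agent.EPO

variable {S : Type*} [MetricSpace S] [CompactSpace S] [ChartedSpace (ℂ × ℂ) S]
  [IsManifold 𝓘(ℂ, ℂ × ℂ) 1 S] {Λ : Submodule ℤ ℂ} [DiscreteTopology Λ] [IsZLattice ℝ Λ]
  {π : S → ℂ ⧸ Λ} {D : Set S} {m : ℕ} {ι : Type} [Fintype ι] {σ : ι → PluriForm S m D}
  {H : (p : S) → TangentSpace 𝓘(ℂ, ℂ × ℂ) p → ℝ} {Γ : Submodule ℤ ℂ} {E : ℂ → S} {n : ℕ}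
  {φ : Fin n → OpenPartialHomeomorph S (ℂ × ℂ)} {A : Fin n → Set ℂ} {ν ρ ε ε₁ K : ℝ}
  {κ : ℂ → ℝ}

private theorem qct_one (T : Tub π D H σ Γ E φ A ν ρ ε ε₁ K) (hD : IsDivisor D)
    (hE : E ∈ Sec π D) (hm : 0 < m) (hκ : Continuous κ) {g : ℂ → S} {ζ : ℂ}
    (hgc : ContinuousAt g ζ) (hd : dist (g ζ) (E ζ) < ε) {i : Fin n} {c : ℂ} (hc : c ∈ A i)
    (hζ : ζ ∈ ball c (4 * ρ)) :
    ContinuousAt (fun t => Qi σ E κ ν (φ i) (A i) t (g t)) ζ := by
  have hsrc := T.tube i c hc ζ hζ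
  have hε : 0 < ε := T.ε₁_pos.trans T.ε₁_lt
  have hEc : Continuous E := hE.1.cont
  have h1 : g ζ ∈ (φ i).source := hsrc (mem_closedBall.2 hd.le)
  have h2 : E ζ ∈ (φ i).source := hsrc (mem_closedBall_self hε.le)
  have c1 : ContinuousAt (fun t => φ i (g t)) ζ :=
    ContinuousAt.comp (g := φ i) ((φ i).continuousAt h1) hgc
  have c2 : ContinuousAt (fun t => φ i (E t)) ζ :=
    ContinuousAt.comp (g := φ i) ((φ i).continuousAt h2) hEc.continuousAt
  have c3 : ContinuousAt (fun t => vec σ (φ i) (E t)) ζ :=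
    ContinuousAt.comp (g := vec σ (φ i)) (vec_contAt (σ := σ) hD (T.mem i) h2 (hE.2.1 ζ))
      hEc.continuousAt
  have hv : ‖vec σ (φ i) (E ζ)‖ ≠ 0 := by
    have h3 := (T.bdd i c hc ζ hζ).1
    have h4 := inv_pos.2 T.K_pos
    linarith
  have c4 : ContinuousAt (fun t => Real.log ‖vec σ (φ i) (E t)‖) ζ := c3.norm.log hv
  have c5 : Continuous (fun t => infDist t (A i)) := continuous_infDist_pt _
  have c6 : ContinuousAt (fun t => ‖(φ i (g t)).2 - (φ i (E t)).2‖ ^ 2 *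
      Real.exp (2 / (m : ℝ) * Real.log ‖vec σ (φ i) (E t)‖ + κ t - ν * infDist t (A i) ^ 2)) ζ := by
    refine ((c1.snd.sub c2.snd).norm.pow 2).mul ?_
    refine Real.continuous_exp.continuousAt.comp ?_
    exact ((continuousAt_const.mul c4).add hκ.continuousAt).sub
      (continuousAt_const.mul (c5.continuousAt.pow 2))
  refine c6.congr ?_
  filter_upwards [isOpen_ball.mem_nhds hζ] with t ht
  exact (Qi_eq T hm hc ht (g t)).symm

/-- Continuity of `Qf` along sections. -/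
theorem QCT (T : Tub π D H σ Γ E φ A ν ρ ε ε₁ K) (hD : IsDivisor D) (hE : E ∈ Sec π D)
    (hm : 0 < m) (hν : 0 < ν) (hκ : Continuous κ) {g : ℂ → S} {ζ : ℂ} {r : ℝ} (hr : 0 < r)
    (hg : SecOn π D (ball ζ r) g) (hne : g ζ ≠ E ζ) (hd : dist (g ζ) (E ζ) < ε) :
    ContinuousAt (fun t => Qf σ E κ ν ρ φ A t (g t)) ζ := by
  classical
  have hρ := T.ρ_pos
  have hEc : Continuous E := hE.1.cont
  have hgc : ContinuousAt g ζ := hg.cont isOpen_ball (mem_ball_self hr)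
  set I : Finset (Fin n) := Finset.univ.filter (fun i => ∃ c ∈ A i, ζ ∈ ball c (3 / 2 * ρ)) with hI
  have hIne : I.Nonempty := by
    obtain ⟨-, i, c, hc, -, h1, -⟩ := Qf_attained (κ := κ) T hm hν
      (mem_closedBall.2 hd.le : g ζ ∈ closedBall (E ζ) ε) (hg.2 ζ (mem_ball_self hr)).2 hne
    refine ⟨i, Finset.mem_filter.2 ⟨Finset.mem_univ _, c, hc, ?_⟩⟩
    rw [mem_ball, dist_eq_norm]
    linarith
  have e1 : ∀ᶠ t in 𝓝 ζ, t ∈ ball ζ r := ball_mem_nhds _ hr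
  have e2 : ∀ᶠ t in 𝓝 ζ, t ∈ ball ζ (ρ / 2) := ball_mem_nhds _ (by positivity)
  have e3 : ∀ᶠ t in 𝓝 ζ, g t ≠ E t := by
    have h0 : 0 < dist (g ζ) (E ζ) := dist_pos.2 hne
    filter_upwards [(hgc.dist hEc.continuousAt).eventually_const_lt h0] with t ht
    exact dist_pos.1 ht
  have e4 : ∀ᶠ t in 𝓝 ζ, dist (g t) (E t) < ε :=
    (hgc.dist hEc.continuousAt).eventually_lt_const hd
  have hcont : ContinuousAt (fun t => I.sup' hIne (fun i => Qi σ E κ ν (φ i) (A i) t (g t))) ζ := by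
    refine ContinuousAt.finset_sup'_apply hIne ?_
    intro i hi
    obtain ⟨-, c, hc, h1⟩ := Finset.mem_filter.1 hi
    refine qct_one T hD hE hm hκ hgc hd hc ?_
    exact ball_subset_ball (by linarith) h1
  refine hcont.congr ?_
  filter_upwards [e1, e2, e3, e4] with t e1 e2 e3 e4
  rw [mem_ball, dist_eq_norm] at e2
  apply le_antisymm
  · apply Finset.sup'_le
    intro i hi
    obtain ⟨-, c, hc, h1⟩ := Finset.mem_filter.1 hi
    refine Qi_le_Qf hc ?_ (g t)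
    rw [mem_ball, dist_eq_norm] at h1 ⊢
    have h2 : t - c = (t - ζ) + (ζ - c) := by ring
    rw [h2]
    have h3 := norm_add_le (t - ζ) (ζ - c)
    linarith
  · obtain ⟨-, i, c, hc, -, h1, h2⟩ := Qf_attained (κ := κ) T hm hν
      (mem_closedBall.2 e4.le : g t ∈ closedBall (E t) ε) (hg.2 t e1).2 e3
    rw [h2]
    refine Finset.le_sup' (fun i => Qi σ E κ ν (φ i) (A i) t (g t)) ?_
    refine Finset.mem_filter.2 ⟨Finset.mem_univ _, c, hc, ?_⟩
    rw [mem_ball, dist_eq_norm]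
    have h4 : ζ - c = -(t - ζ) + (t - c) := by ring
    rw [h4]
    have h3 := norm_add_le (-(t - ζ)) (t - c)
    rw [norm_neg] at h3
    linarith

end Pool.Agent.VEB
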