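import Pool.Agent.VEB.Defs4

open scoped Manifold Topology
open Filter Metric Set

namespace Pool.Agent.VEB

open Pool.Agent.ELL Pool.Agent.EPO

variable {S : Type*} [MetricSpace S] [CompactSpace S] [ChartedSpace (ℂ × ℂ) S]
  [IsManifold 𝓘(ℂ, ℂ × ℂ) 1 S] {Λ : Submodule ℤ ℂ} [DiscreteTopology Λ] [IsZLattice ℝ Λ]
  {π : S → ℂ ⧸ Λ} {D : Set S} {m : ℕ} {ι : Type} [Fintype ι] {σ : ι → PluriForm S m D}
  {H : (p : S) → TangentSpace 𝓘(ℂ, ℂ × ℂ) p → ℝ} {Γ : Submodule ℤ ℂ} {E : ℂ → S} {n : ℕ}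
  {φ : Fin n → OpenPartialHomeomorph S (ℂ × ℂ)} {A : Fin n → Set ℂ} {ν ρ ε ε₁ K : ℝ}
  {κ : ℂ → ℝ}

omit [CompactSpace S] [IsManifold 𝓘(ℂ, ℂ × ℂ) 1 S] [DiscreteTopology Λ] [IsZLattice ℝ Λ] in
theorem QMX_vpos (T : Tub π D H σ Γ E φ A ν ρ ε ε₁ K) {i : Fin n} {c ζ : ℂ}
    (hc : c ∈ A i) (hζ : ζ ∈ ball c (4 * ρ)) : 0 < ‖vec σ (φ i) (E ζ)‖ :=
  lt_of_lt_of_le (inv_pos.2 T.K_pos) (T.bdd i c hc ζ hζ).1

omit [CompactSpace S] [IsManifold 𝓘(ℂ, ℂ × ℂ) 1 S] [DiscreteTopology Λ] [IsZLattice ℝ Λ] in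
theorem QMX_PN_nonneg (ψ : OpenPartialHomeomorph S (ℂ × ℂ)) (p q : S) : 0 ≤ PN σ ψ p q := by
  unfold PN
  positivity

omit [CompactSpace S] [IsManifold 𝓘(ℂ, ℂ × ℂ) 1 S] [DiscreteTopology Λ] [IsZLattice ℝ Λ] in
theorem QMX_PN_pos (T : Tub π D H σ Γ E φ A ν ρ ε ε₁ K) {i : Fin n} {c ζ : ℂ}
    (hc : c ∈ A i) (hζ : ζ ∈ ball c (4 * ρ)) {p : S} (hp : p ∈ closedBall (E ζ) ε)
    (hπp : π p = Λ.mkQ ζ) (hne : p ≠ E ζ) : 0 < PN σ (φ i) (E ζ) p := by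
  have hv := QMX_vpos T hc hζ
  have hd : (φ i p).2 - (φ i (E ζ)).2 ≠ 0 := by
    intro h0
    apply hne
    have hε : 0 ≤ ε := le_trans dist_nonneg (mem_closedBall.1 hp)
    have h1 : p ∈ (φ i).source := T.tube i c hc ζ hζ hp
    have h2 : E ζ ∈ (φ i).source := T.tube i c hc ζ hζ (mem_closedBall_self hε)
    apply (φ i).injOn h1 h2
    exact Prod.ext (T.fst i c hc ζ hζ p hp hπp) (sub_eq_zero.1 h0)
  unfold PN
  exact mul_pos (pow_pos (norm_pos_iff.2 hd) m) hv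

omit [CompactSpace S] [IsManifold 𝓘(ℂ, ℂ × ℂ) 1 S] [DiscreteTopology Λ] [IsZLattice ℝ Λ] in
theorem QMX_Qi_nonneg (ψ : OpenPartialHomeomorph S (ℂ × ℂ)) (A' : Set ℂ) (ζ : ℂ) (p : S) :
    0 ≤ Qi σ E κ ν ψ A' ζ p := by
  unfold Qi
  exact mul_nonneg (Real.rpow_nonneg (QMX_PN_nonneg ψ _ _) _) (Real.exp_pos _).le

omit [CompactSpace S] [IsManifold 𝓘(ℂ, ℂ × ℂ) 1 S] [DiscreteTopology Λ] [IsZLattice ℝ Λ] in
theorem QMX_le {i : Fin n} {c ζ : ℂ} (hc : c ∈ A i) (hζ : ζ ∈ ball c (2 * ρ)) (p : S) :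
    Qi σ E κ ν (φ i) (A i) ζ p ≤ Qf σ E κ ν ρ φ A ζ p := by
  classical
  unfold Qf
  have h := le_ciSup (f := fun i => if ∃ c ∈ A i, ζ ∈ ball c (2 * ρ) then
    Qi σ E κ ν (φ i) (A i) ζ p else 0) (Set.finite_range _).bddAbove i
  rw [if_pos ⟨c, hc, hζ⟩] at h
  exact h

omit [CompactSpace S] [IsManifold 𝓘(ℂ, ℂ × ℂ) 1 S] [DiscreteTopology Λ] [IsZLattice ℝ Λ] in
theorem QMX_not (T : Tub π D H σ Γ E φ A ν ρ ε ε₁ K) (hm : 0 < m) (hν : 0 < ν) {ζ : ℂ}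
    {p : S} (hp : p ∈ closedBall (E ζ) ε) (hπp : π p = Λ.mkQ ζ) (hne : p ≠ E ζ) {i : Fin n}
    {c : ℂ} (hc : c ∈ A i) (hζ : ζ ∈ ball c (2 * ρ)) (hi : ρ < infDist ζ (A i)) :
    Qi σ E κ ν (φ i) (A i) ζ p < Qf σ E κ ν ρ φ A ζ p := by
  obtain ⟨j, hj⟩ := T.cover ζ
  have hρ := T.ρ_pos
  have hζ4 : ζ ∈ ball c (4 * ρ) := by
    rw [mem_ball] at hζ ⊢
    linarith
  have hζj2 : ζ ∈ ball ζ (2 * ρ) := mem_ball_self (by linarith)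
  have hζj4 : ζ ∈ ball ζ (4 * ρ) := mem_ball_self (by linarith)
  refine lt_of_lt_of_le ?_ (QMX_le (i := j) hj hζj2 p)
  have hPi := QMX_PN_pos T hc hζ4 hp hπp hne
  have hrat := T.ratio j i ζ hj c hc ζ hζj4 hζ4 p hp hπp
  have h0 : infDist ζ (A j) = 0 := infDist_zero_of_mem hj
  unfold Qi
  rw [h0]
  have hpi : 0 < PN σ (φ i) (E ζ) p ^ (2 / (m : ℝ)) := Real.rpow_pos_of_pos hPi _
  have hsq : ρ ^ 2 < infDist ζ (A i) ^ 2 := by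
    apply pow_lt_pow_left₀ hi hρ.le (by norm_num)
  calc PN σ (φ i) (E ζ) p ^ (2 / (m : ℝ)) * Real.exp (κ ζ - ν * infDist ζ (A i) ^ 2)
      < PN σ (φ i) (E ζ) p ^ (2 / (m : ℝ)) * Real.exp (κ ζ - ν * ρ ^ 2) := by
        apply mul_lt_mul_of_pos_left _ hpi
        apply Real.exp_lt_exp.2
        have := mul_lt_mul_of_pos_left hsq hν
        linarith
    _ ≤ (Real.exp (ν * ρ ^ 2) * PN σ (φ j) (E ζ) p ^ (2 / (m : ℝ))) *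
          Real.exp (κ ζ - ν * ρ ^ 2) := by
        exact mul_le_mul_of_nonneg_right hrat (Real.exp_pos _).le
    _ = PN σ (φ j) (E ζ) p ^ (2 / (m : ℝ)) * Real.exp (κ ζ - ν * 0 ^ 2) := by
        have : Real.exp (κ ζ - ν * 0 ^ 2) =
            Real.exp (ν * ρ ^ 2) * Real.exp (κ ζ - ν * ρ ^ 2) := by
          rw [← Real.exp_add]
          congr 1
          ring
        rw [this]
        ring

/-- `Qi` in terms of the difference of the second coordinates -/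
theorem Qi_eq (T : Tub π D H σ Γ E φ A ν ρ ε ε₁ K) (hm : 0 < m) {i : Fin n} {c ζ : ℂ}
    (hc : c ∈ A i) (hζ : ζ ∈ ball c (4 * ρ)) (p : S) :
    Qi σ E κ ν (φ i) (A i) ζ p = ‖(φ i p).2 - (φ i (E ζ)).2‖ ^ 2 *
      Real.exp (2 / (m : ℝ) * Real.log ‖vec σ (φ i) (E ζ)‖ + κ ζ - ν * infDist ζ (A i) ^ 2) := by
  have hv := QMX_vpos T hc hζ
  have hm' : (m : ℝ) ≠ 0 := by exact_mod_cast hm.ne'
  have hd : 0 ≤ ‖(φ i p).2 - (φ i (E ζ)).2‖ := norm_nonneg _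
  unfold Qi PN
  rw [Real.mul_rpow (pow_nonneg hd m) hv.le]
  have h1 : (‖(φ i p).2 - (φ i (E ζ)).2‖ ^ m) ^ (2 / (m : ℝ)) =
      ‖(φ i p).2 - (φ i (E ζ)).2‖ ^ 2 := by
    rw [← Real.rpow_natCast_mul hd]
    have : (m : ℝ) * (2 / (m : ℝ)) = ((2 : ℕ) : ℝ) := by
      rw [mul_div_cancel₀ _ hm']
      norm_num
    rw [this, Real.rpow_natCast]
  rw [h1, Real.rpow_def_of_pos hv, mul_assoc, ← Real.exp_add]
  congr 2
  ring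

theorem Qf_nonneg (ζ : ℂ) (p : S) : 0 ≤ Qf σ E κ ν ρ φ A ζ p := by
  classical
  unfold Qf
  apply Real.iSup_nonneg
  intro i
  split_ifs
  · exact QMX_Qi_nonneg _ _ _ _
  · exact le_rfl

/-- a chart which can be used gives a lower bound -/
theorem Qi_le_Qf {i : Fin n} {c ζ : ℂ} (hc : c ∈ A i) (hζ : ζ ∈ ball c (2 * ρ)) (p : S) :
    Qi σ E κ ν (φ i) (A i) ζ p ≤ Qf σ E κ ν ρ φ A ζ p := by
  exact QMX_le hc hζ p

/-- the maximum is attained by a chart with `infDist ζ (A i) ≤ ρ` -/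
theorem Qf_attained (T : Tub π D H σ Γ E φ A ν ρ ε ε₁ K) (hm : 0 < m) (hν : 0 < ν) {ζ : ℂ}
    {p : S} (hp : p ∈ closedBall (E ζ) ε) (hπp : π p = Λ.mkQ ζ) (hne : p ≠ E ζ) :
    0 < Qf σ E κ ν ρ φ A ζ p ∧ ∃ i, ∃ c ∈ A i, ‖ζ - c‖ = infDist ζ (A i) ∧ ‖ζ - c‖ ≤ ρ ∧
      Qf σ E κ ν ρ φ A ζ p = Qi σ E κ ν (φ i) (A i) ζ p := by
  classical
  obtain ⟨j, hj⟩ := T.cover ζ
  have hρ := T.ρ_pos
  have hζj2 : ζ ∈ ball ζ (2 * ρ) := mem_ball_self (by linarith)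
  have hζj4 : ζ ∈ ball ζ (4 * ρ) := mem_ball_self (by linarith)
  have hQj : 0 < Qi σ E κ ν (φ j) (A j) ζ p := by
    unfold Qi
    exact mul_pos (Real.rpow_pos_of_pos (QMX_PN_pos T hj hζj4 hp hπp hne) _) (Real.exp_pos _)
  have hpos : 0 < Qf σ E κ ν ρ φ A ζ p := lt_of_lt_of_le hQj (QMX_le hj hζj2 p)
  refine ⟨hpos, ?_⟩
  haveI : Nonempty (Fin n) := ⟨j⟩
  obtain ⟨i, hi⟩ := exists_eq_ciSup_of_finite (f := fun i => if ∃ c ∈ A i, ζ ∈ ball c (2 * ρ) then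
    Qi σ E κ ν (φ i) (A i) ζ p else 0)
  have hi' : (if ∃ c ∈ A i, ζ ∈ ball c (2 * ρ) then Qi σ E κ ν (φ i) (A i) ζ p else 0) =
      Qf σ E κ ν ρ φ A ζ p := hi
  by_cases hex : ∃ c ∈ A i, ζ ∈ ball c (2 * ρ)
  · rw [if_pos hex] at hi'
    obtain ⟨c', hc', hζc'⟩ := hex
    have hle : infDist ζ (A i) ≤ ρ := by
      by_contra hcon
      push Not at hcon
      have := QMX_not (κ := κ) T hm hν hp hπp hne hc' hζc' hcon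
      rw [hi'] at this
      exact lt_irrefl _ this
    obtain ⟨c, hc, hcd⟩ := (T.closed i).exists_infDist_eq_dist ⟨c', hc'⟩ ζ
    refine ⟨i, c, hc, ?_, ?_, hi'.symm⟩
    · rw [hcd, dist_eq_norm]
    · rw [← dist_eq_norm, ← hcd]
      exact hle
  · rw [if_neg hex] at hi'
    rw [← hi'] at hpos
    exact absurd hpos (lt_irrefl _)

/-- charts with `infDist ζ (A i) > ρ` do not attain the maximum -/
theorem Qf_not_attained (T : Tub π D H σ Γ E φ A ν ρ ε ε₁ K) (hm : 0 < m) (hν : 0 < ν) {ζ : ℂ}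
    {p : S} (hp : p ∈ closedBall (E ζ) ε) (hπp : π p = Λ.mkQ ζ) (hne : p ≠ E ζ) {i : Fin n}
    {c : ℂ} (hc : c ∈ A i) (hζ : ζ ∈ ball c (2 * ρ)) (hi : ρ < infDist ζ (A i)) :
    Qi σ E κ ν (φ i) (A i) ζ p < Qf σ E κ ν ρ φ A ζ p := by
  exact QMX_not T hm hν hp hπp hne hc hζ hi

end Pool.Agent.VEB
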