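import Pool.Agent.VEB.JVL
import Pool.Agent.VEB.FIB
import Pool.Agent.EPO.LLB

open scoped Manifold Topology
open Filter Metric Set

namespace Pool.Agent.VEB

open Pool.Agent.ELL Pool.Agent.EPO

variable {S : Type*} [MetricSpace S] [CompactSpace S] [ChartedSpace (ℂ × ℂ) S]
  [IsManifold 𝓘(ℂ, ℂ × ℂ) 1 S] {Λ : Submodule ℤ ℂ} [DiscreteTopology Λ] [IsZLattice ℝ Λ]
  {π : S → ℂ ⧸ Λ} {D : Set S} {B : Type*} [TopologicalSpace B] [T2Space B] [CompactSpace B]
  {f : B → S} {e : B → ℕ} {P : Set B}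
  {Γ : Submodule ℤ ℂ} {E : ℂ → S}
  {Fo : (ℂ → S) → ℂ → ℝ} {ε₁ η a A' C₂ C₃ : ℝ} {t₀ : ℂ} {γ : ℂ → ℂ} {R₀ δ₀ R R₁ θ : ℝ}

open Classical in
/-- One sheet. -/
private theorem trg_sheet (H : BDat π D f e P)
    (hp : Par π D Γ E Fo ε₁ η a A' C₂ C₃ t₀ γ R₀ δ₀ R R₁ θ) {ζ : ℂ} {r : ℝ} (hr : 0 < r)
    {s : ℂ → B} (hs : IsSec Λ (fun q => π (f q)) P (ball ζ r) s)
    (h2 : Off π D P f R R₁ θ E (t₀ + γ ζ) ζ (s ζ) ∨ f (s ζ) ≠ E ζ) :
    ContinuousAt (fun t => Jv π D P f R R₁ θ E Fo t₀ γ t (s t)) ζ ∧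
      LL (fun t => Jv π D P f R R₁ θ E Fo t₀ γ t (s t)) ζ
        (a * (if Ty π P f R R₁ θ E (t₀ + γ ζ) ζ (s ζ) then 1 else 0) -
          C₂ * (if ¬ Gd Λ (fun q => π (f q)) P R (t₀ + γ ζ) ζ (s ζ) then 1 else 0)) := by
  have hdist : dist ζ (t₀ + γ ζ) ≤ R₀ := by
    rw [dist_eq_norm]
    exact hp.cell.bdd ζ
  have hsub : ball ζ 1 ⊆ ball (t₀ + γ ζ) R₁ := by
    apply ball_subset_ball'
    linarith [hp.h4]
  have hsubR : ball ζ 1 ⊆ ball (t₀ + γ ζ) R := hsub.trans (ball_subset_ball hp.h5)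
  have hζ : ζ ∈ ball (t₀ + γ ζ) R := hsubR (mem_ball_self one_pos)
  have hC₂ := hp.pot.C₂_nonneg
  rcases Jv_local H hp hr hs with ⟨hoff, hev⟩ | ⟨hoff, hev⟩
  · have hne : f (s ζ) ≠ E ζ := h2.resolve_left hoff
    have hreg := hp.pot.reg (fun t => f (s t)) ζ r hr (SOF H isOpen_ball hs) hne
    refine ⟨hreg.1.congr (hev.mono fun t ht => ht.symm), ?_⟩
    refine LL.congr ?_ hev
    by_cases hg : Gd Λ (fun q => π (f q)) P R (t₀ + γ ζ) ζ (s ζ)
    · have hty : Ty π P f R R₁ θ E (t₀ + γ ζ) ζ (s ζ) := by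
        obtain ⟨F, hF, hT⟩ := ty_of_gd H hp.close hg
        by_cases hFE : F = E
        · rwa [hFE] at hT
        · exact absurd ⟨F, hF, hFE, hT⟩ hoff
      rw [if_pos hty, if_neg (not_not_intro hg), mul_one, mul_zero, sub_zero]
      obtain ⟨s', hs', hs'ζ, hclose⟩ := hty
      have hs1 : IsSec Λ (fun q => π (f q)) P (ball ζ 1) s' := IsSec.mono hs' hsubR
      have hgood : LL (Fo (fun t => f (s' t))) ζ a := by
        refine hp.pot.good (fun t => f (s' t)) ζ (SOF H isOpen_ball hs1) ?_ ?_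
        · intro t ht
          exact (hclose t (hsub ht)).trans_le hp.h2
        · show f (s' ζ) ≠ E ζ
          rw [hs'ζ]
          exact hne
      refine LL.congr hgood ?_
      have hmin : 0 < min r 1 := lt_min hr one_pos
      have heq : ∀ t ∈ ball ζ (min r 1), s t = s' t := by
        have ha : IsSec Λ (fun q => π (f q)) P (ball ζ (min r 1)) s :=
          IsSec.mono hs (ball_subset_ball (min_le_left _ _))
        have hb : IsSec Λ (fun q => π (f q)) P (ball ζ (min r 1)) s' :=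
          IsSec.mono hs1 (ball_subset_ball (min_le_right _ _))
        exact sec_unique H.cov (convex_ball _ _).isPreconnected ha hb
          (mem_ball_self hmin) hs'ζ.symm
      filter_upwards [ball_mem_nhds ζ hmin] with t ht
      apply hp.pot.germ
      filter_upwards [isOpen_ball.mem_nhds ht] with t' ht'
      rw [heq t' ht']
    · have hnt : ¬ Ty π P f R R₁ θ E (t₀ + γ ζ) ζ (s ζ) := fun h => hg (ty_gd h)
      rw [if_neg hnt, if_pos hg, mul_one, mul_zero, zero_sub]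
      exact hreg.2
  · have hnt : ¬ Ty π P f R R₁ θ E (t₀ + γ ζ) ζ (s ζ) := by
      intro hty
      obtain ⟨E', hE', hne, hT⟩ := hoff
      exact hne (ty_unique H hp hE' hp.mem ⟨γ ζ, hp.cell.mem ζ, rfl⟩ hζ hT hty)
    refine ⟨(continuousAt_const (y := (0 : ℝ))).congr (hev.mono fun t ht => ht.symm), ?_⟩
    refine (LL.congr (LL.const 0 ζ) hev).mono ?_
    rw [if_neg hnt, mul_zero, zero_sub]
    have : (0 : ℝ) ≤ C₂ *
        (if ¬ Gd Λ (fun q => π (f q)) P R (t₀ + γ ζ) ζ (s ζ) then 1 else 0) := by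
      apply mul_nonneg hC₂
      split_ifs
      · exact le_rfl
      · exact zero_le_one
    linarith

/-- The sum of the potentials at regular points. -/
theorem TRG (H : BDat π D f e P) (hp : Par π D Γ E Fo ε₁ η a A' C₂ C₃ t₀ γ R₀ δ₀ R R₁ θ) {ζ : ℂ}
    (h1 : ∀ p ∈ Fib Λ (fun q => π (f q)) ζ, p ∉ P)
    (h2 : ∀ p ∈ Fib Λ (fun q => π (f q)) ζ,
      Off π D P f R R₁ θ E (t₀ + γ ζ) ζ p ∨ f p ≠ E ζ) :
    ContinuousAt (Ts π D P f R R₁ θ E Fo t₀ γ) ζ ∧
      LL (Ts π D P f R R₁ θ E Fo t₀ γ) ζ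
        (a * ({p | p ∈ Fib Λ (fun q => π (f q)) ζ ∧
            Ty π P f R R₁ θ E (t₀ + γ ζ) ζ p}.ncard : ℝ) -
          C₂ * ({p | p ∈ Fib Λ (fun q => π (f q)) ζ ∧
            ¬ Gd Λ (fun q => π (f q)) P R (t₀ + γ ζ) ζ p}.ncard : ℝ)) := by
  classical
  obtain ⟨δ, hδ, ε, σ, k1, k2, k3⟩ := FIB H.cov ζ
  have hfin := Fib_finite H.cov ζ
  have he : ∀ q ∈ Fib Λ (fun q => π (f q)) ζ, e q = 1 := fun q hq => H.cov.one q (h1 q hq)
  have hε : ∀ q ∈ Fib Λ (fun q => π (f q)) ζ, δ < ε q := by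
    intro q hq
    have h := (k1 q hq).2
    rw [he q hq, pow_one] at h
    linarith
  have hsec : ∀ q ∈ Fib Λ (fun q => π (f q)) ζ,
      IsSec Λ (fun q => π (f q)) P (ball ζ δ) (fun t => σ q (t - ζ)) := by
    intro q hq
    exact IsSec.mono (sec_reg H.cov (h1 q hq) (k1 q hq).1) (ball_subset_ball (hε q hq).le)
  have hcen : ∀ q ∈ Fib Λ (fun q => π (f q)) ζ, σ q (ζ - ζ) = q := by
    intro q hq
    rw [sub_self]
    exact (k1 q hq).1.center
  have hTs : ∀ t ∈ ball ζ δ, Ts π D P f R R₁ θ E Fo t₀ γ t =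
      ∑ q ∈ hfin.toFinset, Jv π D P f R R₁ θ E Fo t₀ γ t (σ q (t - ζ)) := by
    intro t ht
    have hu : ∀ q ∈ Fib Λ (fun q => π (f q)) ζ, t - ζ ∈ ball (0 : ℂ) (ε q) := by
      intro q hq
      rw [mem_ball_zero_iff]
      have h := mem_ball.1 ht
      rw [dist_eq_norm] at h
      exact h.trans (hε q hq)
    have himg : Fib Λ (fun q => π (f q)) t =
        (fun q => σ q (t - ζ)) '' Fib Λ (fun q => π (f q)) ζ := by
      ext p
      rw [k3 t ht p]
      constructor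
      · rintro ⟨q, hq, u, hu', hue, rfl⟩
        rw [he q hq, pow_one] at hue
        exact ⟨q, hq, by rw [hue]⟩
      · rintro ⟨q, hq, rfl⟩
        exact ⟨q, hq, t - ζ, hu q hq, by rw [he q hq, pow_one], rfl⟩
    have hinj : InjOn (fun q => σ q (t - ζ)) (Fib Λ (fun q => π (f q)) ζ) := by
      intro q hq q' hq' hqq
      exact k2 q hq q' hq' _ (hu q hq) _ (hu q' hq') hqq
    unfold Ts
    rw [himg, finsum_mem_image hinj]
    exact finsum_mem_eq_finite_toFinset_sum _ hfin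
  have hev : Ts π D P f R R₁ θ E Fo t₀ γ =ᶠ[𝓝 ζ]
      fun t => ∑ q ∈ hfin.toFinset, Jv π D P f R R₁ θ E Fo t₀ γ t (σ q (t - ζ)) := by
    filter_upwards [ball_mem_nhds ζ hδ] with t ht
    exact hTs t ht
  have hkey : ∀ q ∈ hfin.toFinset,
      ContinuousAt (fun t => Jv π D P f R R₁ θ E Fo t₀ γ t (σ q (t - ζ))) ζ ∧
      LL (fun t => Jv π D P f R R₁ θ E Fo t₀ γ t (σ q (t - ζ))) ζ
        (a * (if Ty π P f R R₁ θ E (t₀ + γ ζ) ζ q then 1 else 0) -
          C₂ * (if ¬ Gd Λ (fun q => π (f q)) P R (t₀ + γ ζ) ζ q then 1 else 0)) := by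
    intro q hq
    have hq' : q ∈ Fib Λ (fun q => π (f q)) ζ := hfin.mem_toFinset.1 hq
    have h := trg_sheet H hp hδ (hsec q hq') (by
      simp only [hcen q hq']
      exact h2 q hq')
    simp only [hcen q hq'] at h
    exact h
  constructor
  · refine ContinuousAt.congr ?_ hev.symm
    exact tendsto_finsetSum _ fun q hq => (hkey q hq).1
  · refine LL.congr ?_ hev
    have hsum := LL.sum hfin.toFinset _ _ ζ fun q hq => (hkey q hq).2
    refine hsum.mono (le_of_eq ?_)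
    rw [Finset.sum_sub_distrib, ← Finset.mul_sum, ← Finset.mul_sum, Finset.sum_boole,
      Finset.sum_boole]
    congr 3
    · rw [← Set.ncard_coe_finset]
      congr 1
      ext p
      simp
    · rw [← Set.ncard_coe_finset]
      congr 1
      ext p
      simp

end Pool.Agent.VEB
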