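import Pool.Agent.VEB.SOF

open scoped Manifold Topology
open Filter Metric Set

namespace Pool.Agent.VEB

open Pool.Agent.ELL Pool.Agent.EPO

variable {S : Type*} [MetricSpace S] [CompactSpace S] [ChartedSpace (ℂ × ℂ) S]
  [IsManifold 𝓘(ℂ, ℂ × ℂ) 1 S] {Λ : Submodule ℤ ℂ} [DiscreteTopology Λ] [IsZLattice ℝ Λ]
  {π : S → ℂ ⧸ Λ} {D : Set S} {B : Type*} [TopologicalSpace B] [T2Space B] [CompactSpace B]
  {f : B → S} {e : B → ℕ} {P : Set B}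
  {Γ : Submodule ℤ ℂ} {E : ℂ → S}
  {Fo : (ℂ → S) → ℂ → ℝ} {ε₁ η a A' C₂ C₃ : ℝ} {t₀ : ℂ} {γ : ℂ → ℂ} {R₀ δ₀ R R₁ θ : ℝ}

set_option linter.unusedSectionVars false

/-- A large section and a local section which agree at one point near `ζ₀` agree at all. -/
private theorem typ_aux (H : BDat π D f e P) {ζ₀ : ℂ} {r : ℝ} {s s' : ℂ → B}
    (hs : IsSec Λ (fun q => π (f q)) P (ball ζ₀ r) s) {c : ℂ} {R : ℝ}
    (hs' : IsSec Λ (fun q => π (f q)) P (ball c R) s') {ζ ζ' : ℂ} (h1 : ζ ∈ ball ζ₀ r)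
    (h2 : ζ ∈ ball c R) (h1' : ζ' ∈ ball ζ₀ r) (h2' : ζ' ∈ ball c R) (h : s' ζ = s ζ) :
    s' ζ' = s ζ' := by
  have hpre : IsPreconnected (ball c R ∩ ball ζ₀ r) :=
    ((convex_ball c R).inter (convex_ball ζ₀ r)).isPreconnected
  exact sec_unique H.cov hpre (IsSec.mono hs' inter_subset_left)
    (IsSec.mono hs inter_subset_right) ⟨h2, h1⟩ h ⟨h2', h1'⟩

theorem gd_along (H : BDat π D f e P) {ζ₀ : ℂ} {r : ℝ} {s : ℂ → B} (hr : 0 < r)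
    (hs : IsSec Λ (fun q => π (f q)) P (ball ζ₀ r) s) {c : ℂ} {R : ℝ} (hc : ζ₀ ∈ ball c R) :
    ∀ᶠ ζ in 𝓝 ζ₀, (Gd Λ (fun q => π (f q)) P R c ζ (s ζ) ↔
      Gd Λ (fun q => π (f q)) P R c ζ₀ (s ζ₀)) := by
  filter_upwards [isOpen_ball.mem_nhds hc, ball_mem_nhds ζ₀ hr] with ζ h1 h2
  constructor
  · rintro ⟨s', hs', h⟩
    exact ⟨s', hs', typ_aux H hs hs' h2 h1 (mem_ball_self hr) hc h⟩
  · rintro ⟨s', hs', h⟩
    exact ⟨s', hs', typ_aux H hs hs' (mem_ball_self hr) hc h2 h1 h⟩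

theorem ty_along (H : BDat π D f e P) {ζ₀ : ℂ} {r : ℝ} {s : ℂ → B} (hr : 0 < r)
    (hs : IsSec Λ (fun q => π (f q)) P (ball ζ₀ r) s) {c : ℂ} {R R₁ θ : ℝ}
    (hc : ζ₀ ∈ ball c R) (F : ℂ → S) : ∀ᶠ ζ in 𝓝 ζ₀, (Ty π P f R R₁ θ F c ζ (s ζ) ↔
      Ty π P f R R₁ θ F c ζ₀ (s ζ₀)) := by
  filter_upwards [isOpen_ball.mem_nhds hc, ball_mem_nhds ζ₀ hr] with ζ h1 h2
  constructor
  · rintro ⟨s', hs', h, hd⟩
    exact ⟨s', hs', typ_aux H hs hs' h2 h1 (mem_ball_self hr) hc h, hd⟩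
  · rintro ⟨s', hs', h, hd⟩
    exact ⟨s', hs', typ_aux H hs hs' (mem_ball_self hr) hc h2 h1 h, hd⟩

theorem off_along (H : BDat π D f e P) {ζ₀ : ℂ} {r : ℝ} {s : ℂ → B} (hr : 0 < r)
    (hs : IsSec Λ (fun q => π (f q)) P (ball ζ₀ r) s) {c : ℂ} {R R₁ θ : ℝ}
    (hc : ζ₀ ∈ ball c R) (F : ℂ → S) : ∀ᶠ ζ in 𝓝 ζ₀, (Off π D P f R R₁ θ F c ζ (s ζ) ↔
      Off π D P f R R₁ θ F c ζ₀ (s ζ₀)) := by
  filter_upwards [isOpen_ball.mem_nhds hc, ball_mem_nhds ζ₀ hr] with ζ h1 h2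
  constructor
  · rintro ⟨E', hE', hne, s', hs', h, hd⟩
    exact ⟨E', hE', hne, s', hs', typ_aux H hs hs' h2 h1 (mem_ball_self hr) hc h, hd⟩
  · rintro ⟨E', hE', hne, s', hs', h, hd⟩
    exact ⟨E', hE', hne, s', hs', typ_aux H hs hs' (mem_ball_self hr) hc h2 h1 h, hd⟩

theorem ty_gd {R R₁ θ : ℝ} {F : ℂ → S} {c ζ : ℂ} {p : B} (h : Ty π P f R R₁ θ F c ζ p) :
    Gd Λ (fun q => π (f q)) P R c ζ p := by
  obtain ⟨s, hs, h1, -⟩ := h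
  exact ⟨s, hs, h1⟩

/-- Translation of sections. -/
private theorem typ_tr {z : B → ℂ ⧸ Λ} {R : ℝ} {c ω : ℂ} (hω : ω ∈ Λ) {s : ℂ → B}
    (hs : IsSec Λ z P (ball (c + ω) R) s) : IsSec Λ z P (ball c R) (fun t => s (t + ω)) := by
  have hm : ∀ t ∈ ball c R, t + ω ∈ ball (c + ω) R := by
    intro t ht
    rw [mem_ball, dist_eq_norm] at ht ⊢
    rwa [add_sub_add_right_eq_sub]
  refine ⟨hs.1.comp (by fun_prop) hm, fun t ht => ⟨?_, (hs.2 _ (hm t ht)).2⟩⟩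
  rw [(hs.2 _ (hm t ht)).1, Submodule.mkQ_apply, Submodule.mkQ_apply, Submodule.Quotient.eq]
  simpa using hω

private theorem typ_tr' {z : B → ℂ ⧸ Λ} {R : ℝ} {c ω : ℂ} (hω : ω ∈ Λ) {s : ℂ → B}
    (hs : IsSec Λ z P (ball c R) s) : IsSec Λ z P (ball (c + ω) R) (fun t => s (t - ω)) := by
  have h1 : IsSec Λ z P (ball ((c + ω) + (-ω)) R) s := by
    rwa [add_neg_cancel_right]
  have h2 := typ_tr (Λ.neg_mem hω) h1
  simpa [sub_eq_add_neg] using h2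

theorem gd_add {z : B → ℂ ⧸ Λ} {R : ℝ} {c ζ ω : ℂ} (hω : ω ∈ Λ) {p : B} :
    Gd Λ z P R (c + ω) (ζ + ω) p ↔ Gd Λ z P R c ζ p := by
  constructor
  · rintro ⟨s, hs, h⟩
    exact ⟨_, typ_tr hω hs, h⟩
  · rintro ⟨s, hs, h⟩
    exact ⟨_, typ_tr' hω hs, by simpa using h⟩

theorem ty_add {R R₁ θ : ℝ} {F : ℂ → S} {c ζ ω : ℂ} (hω : ω ∈ Λ)
    (hF : ∀ ζ, F (ζ + ω) = F ζ) {p : B} :
    Ty π P f R R₁ θ F (c + ω) (ζ + ω) p ↔ Ty π P f R R₁ θ F c ζ p := by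
  constructor
  · rintro ⟨s, hs, h, hd⟩
    refine ⟨_, typ_tr hω hs, h, fun t ht => ?_⟩
    have h1 : t + ω ∈ ball (c + ω) R₁ := by
      rw [mem_ball, dist_eq_norm] at ht ⊢
      rwa [add_sub_add_right_eq_sub]
    have h2 := hd _ h1
    rwa [hF] at h2
  · rintro ⟨s, hs, h, hd⟩
    refine ⟨_, typ_tr' hω hs, by simpa using h, fun t ht => ?_⟩
    have h1 : t - ω ∈ ball c R₁ := by
      rw [mem_ball, dist_eq_norm] at ht ⊢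
      rwa [sub_sub, add_comm ω c]
    have h2 := hd _ h1
    have h3 := hF (t - ω)
    rw [sub_add_cancel] at h3
    rwa [← h3] at h2

/-- Every large sheet has a type. -/
theorem ty_of_gd (H : BDat π D f e P) {R R₁ θ : ℝ} (hc : CloseSec π D θ R₁ R) {c ζ : ℂ} {p : B}
    (h : Gd Λ (fun q => π (f q)) P R c ζ p) : ∃ F ∈ Sec π D, Ty π P f R R₁ θ F c ζ p := by
  obtain ⟨s, hs, h1⟩ := h
  obtain ⟨F, hF, hd⟩ := hc c _ (SOF H isOpen_ball hs)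
  exact ⟨F, hF, s, hs, h1, hd⟩

/-- The type is unique. -/
theorem ty_unique (H : BDat π D f e P)
    (hp : Par π D Γ E Fo ε₁ η a A' C₂ C₃ t₀ γ R₀ δ₀ R R₁ θ) {F F' : ℂ → S} (hF : F ∈ Sec π D)
    (hF' : F' ∈ Sec π D) {c ζ : ℂ} {p : B} (hc : ∃ ω ∈ Γ, c = t₀ + ω) (hζ : ζ ∈ ball c R)
    (h : Ty π P f R R₁ θ F c ζ p) (h' : Ty π P f R R₁ θ F' c ζ p) : F = F' := by
  obtain ⟨s, hs, h1, hd⟩ := h
  obtain ⟨s', hs', h1', hd'⟩ := h'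
  have heq : EqOn s s' (ball c R) :=
    sec_unique H.cov (convex_ball c R).isPreconnected hs hs' hζ (h1.trans h1'.symm)
  obtain ⟨ω, hω, rfl⟩ := hc
  obtain ⟨b, hb, hb2⟩ := hp.cell.pt
  by_contra hne
  have hbig : b + ω ∈ ball (t₀ + ω) R₁ := by
    rw [mem_ball, dist_eq_norm, add_sub_add_right_eq_sub]
    have := hp.h4
    linarith
  have hbig' : b + ω ∈ ball (t₀ + ω) R := ball_subset_ball hp.h5 hbig
  have h3 := hd _ hbig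
  have h4 := hd' _ hbig
  rw [← heq hbig'] at h4
  rw [hp.per F hF ω hω] at h3
  rw [hp.per F' hF' ω hω] at h4
  have h5 := hb2 F hF F' hF' hne
  have h6 := dist_triangle_left (F b) (F' b) (f (s (b + ω)))
  have h7 := hp.h3
  linarith

end Pool.Agent.VEB
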