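import Pool.Agent.VEB.UQA
import Pool.Agent.EPO.LLH

open scoped Manifold Topology
open Filter Metric Set

namespace Pool.Agent.VEB

open Pool.Agent.ELL Pool.Agent.EPO

private theorem uqe_norm_sq_add (x y : ℂ) : ‖x + y‖ ^ 2 = ‖x‖ ^ 2 +
    (2 * (starRingEnd ℂ x) * y).re + ‖y‖ ^ 2 := by
  simp only [← Complex.normSq_eq_norm_sq, Complex.normSq_apply, Complex.add_re, Complex.add_im,
    Complex.mul_re, Complex.mul_im, Complex.conj_re, Complex.conj_im, Complex.re_ofNat,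
    Complex.im_ofNat]
  ring

/-- the real part of an analytic function is harmonic -/
private theorem uqe_re {G : ℂ → ℂ} {ζ : ℂ} (hG : AnalyticAt ℂ G ζ) :
    LL (fun t => (G t).re) ζ 0 := by
  have h1 : AnalyticAt ℂ (fun t => Complex.exp (G t)) ζ := hG.cexp
  have h2 := LL_log_norm h1 (Complex.exp_ne_zero _)
  have h3 : (fun t => Real.log ‖Complex.exp (G t)‖) = fun t => (G t).re := by
    funext t
    rw [Complex.norm_exp, Real.log_exp]
  rw [h3] at h2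
  exact h2

private theorem uqe_sub_cont {F : ℂ → ℂ} {ζ : ℂ} (hF : AnalyticAt ℂ F ζ) :
    ∀ᶠ t in 𝓝 ζ, ContinuousAt F t := by
  filter_upwards [hF.eventually_analyticAt] with t ht
  exact ht.continuousAt

private theorem uqe_taylor (F : ℂ → ℂ) (ζ t : ℂ) : ‖F t‖ ^ 2 = ‖F ζ‖ ^ 2 +
    (2 * (starRingEnd ℂ (F ζ)) * (F t - F ζ)).re + ‖t - ζ‖ ^ 2 * ‖dslope F ζ t‖ ^ 2 := by
  have h := sub_smul_dslope F ζ t
  rw [smul_eq_mul] at h
  have h2 : ‖t - ζ‖ ^ 2 * ‖dslope F ζ t‖ ^ 2 = ‖F t - F ζ‖ ^ 2 := by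
    rw [← h, norm_mul, mul_pow]
  rw [h2]
  have h3 : F t = F ζ + (F t - F ζ) := by ring
  conv_lhs => rw [h3]
  exact uqe_norm_sq_add _ _

/-- `‖F‖²` is subharmonic -/
private theorem uqe_pos {F : ℂ → ℂ} {ζ : ℂ} (hF : AnalyticAt ℂ F ζ) :
    LL (fun t => ‖F t‖ ^ 2) ζ 0 := by
  have hG : AnalyticAt ℂ (fun t => 2 * (starRingEnd ℂ (F ζ)) * (F t - F ζ)) ζ :=
    analyticAt_const.mul (hF.sub analyticAt_const)
  have h1 := (LL.const (‖F ζ‖ ^ 2) ζ).add (uqe_re hG)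
  rw [add_zero] at h1
  refine LL.touch h1 ?_ ?_ ?_
  · refine Eventually.of_forall fun t => ?_
    rw [uqe_taylor F ζ t]
    have : 0 ≤ ‖t - ζ‖ ^ 2 * ‖dslope F ζ t‖ ^ 2 := by positivity
    linarith
  · simp
  · filter_upwards [uqe_sub_cont hF] with t ht
    exact ht.norm.pow 2

private theorem uqe_neg {F : ℂ → ℂ} {ζ : ℂ} (hF : AnalyticAt ℂ F ζ) :
    LL (fun t => -‖F t‖ ^ 2) ζ (-‖deriv F ζ‖ ^ 2) := by
  intro c' hc'
  obtain ⟨c'', h1, h2⟩ := exists_between hc'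
  have hd : ‖deriv F ζ‖ ^ 2 < -c'' := by linarith
  have hd0 : 0 ≤ -c'' := le_trans (by positivity) hd.le
  have hS : ContinuousAt (fun t => ‖dslope F ζ t‖ ^ 2) ζ := by
    have h1 : ContinuousAt (dslope F ζ) ζ := continuousAt_dslope_same.2 hF.differentiableAt
    exact h1.norm.pow 2
  have hS0 : ‖dslope F ζ ζ‖ ^ 2 < -c'' := by
    rw [dslope_same]
    exact hd
  have hev := hS.eventually_lt_const hS0
  have hG : AnalyticAt ℂ (fun t => -(2 * (starRingEnd ℂ (F ζ)) * (F t - F ζ))) ζ :=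
    (analyticAt_const.mul (hF.sub analyticAt_const)).neg
  have hL := ((LL.const (-‖F ζ‖ ^ 2) ζ).add (uqe_re hG)).add ((LL_neg_sq ζ ζ).const_mul hd0)
  have e : (0 : ℝ) + 0 + -c'' * -1 = c'' := by ring
  rw [e] at hL
  refine LL.touch hL ?_ ?_ ?_ c' h1
  · filter_upwards [hev] with t ht
    rw [uqe_taylor F ζ t, Complex.neg_re]
    have : ‖t - ζ‖ ^ 2 * ‖dslope F ζ t‖ ^ 2 ≤ ‖t - ζ‖ ^ 2 * -c'' :=
      mul_le_mul_of_nonneg_left ht.le (by positivity)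
    linarith
  · simp
  · filter_upwards [uqe_sub_cont hF] with t ht
    exact (ht.norm.pow 2).neg

/-- the exponential -/
theorem UQ.exp {b : ℂ → ℝ} {ζ : ℂ} {K : ℝ} (hK : 0 ≤ K) (h : UQ b ζ K) (hb : b ζ ≤ K) :
    UQ (fun t => Real.exp (b t)) ζ (Real.exp K * (K + (K + 1) ^ 2)) := by
  obtain ⟨β, hβ, h⟩ := h
  refine ⟨(Real.exp (b ζ) : ℂ) * β, ?_, ?_⟩
  · rw [norm_mul, Complex.norm_real, Real.norm_of_nonneg (Real.exp_pos _).le]
    have h1 : ‖β‖ ≤ K + (K + 1) ^ 2 := hβ.trans (by nlinarith)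
    exact mul_le_mul (Real.exp_le_exp.2 hb) h1 (norm_nonneg _) (Real.exp_pos _).le
  · have hs : ∀ᶠ w in 𝓝 (0 : ℂ), ‖w‖ < 1 / (K + 1) := by
      have : ∀ᶠ w in 𝓝 (0 : ℂ), w ∈ ball (0 : ℂ) (1 / (K + 1)) :=
        ball_mem_nhds _ (by positivity)
      filter_upwards [this] with w hw
      simpa using hw
    filter_upwards [h, hs] with w hw hs
    show Real.exp (b (ζ + w)) ≤ _
    set x : ℝ := (β * w).re + K * ‖w‖ ^ 2 with hx
    have hK1 : 0 < K + 1 := by linarith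
    have hs' : ‖w‖ * (K + 1) < 1 := by
      rwa [lt_div_iff₀ hK1] at hs
    have hw0 : 0 ≤ ‖w‖ := norm_nonneg w
    have hKw : K * ‖w‖ ≤ 1 := by nlinarith
    have h1 : |(β * w).re| ≤ K * ‖w‖ := by
      refine (Complex.abs_re_le_norm _).trans ?_
      rw [norm_mul]
      exact mul_le_mul_of_nonneg_right hβ hw0
    have h2 : |x| ≤ (K + 1) * ‖w‖ := by
      rw [hx]
      refine (abs_add_le _ _).trans ?_
      rw [abs_of_nonneg (by positivity : 0 ≤ K * ‖w‖ ^ 2)]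
      nlinarith
    have h3 : |x| ≤ 1 := h2.trans (by linarith)
    have h4 := (abs_le.1 (Real.abs_exp_sub_one_sub_id_le h3)).2
    have h5 : x ^ 2 ≤ (K + 1) ^ 2 * ‖w‖ ^ 2 := by
      rw [← sq_abs x, ← mul_pow]
      exact pow_le_pow_left₀ (abs_nonneg _) h2 2
    have h6 : Real.exp x ≤ 1 + (β * w).re + (K + (K + 1) ^ 2) * ‖w‖ ^ 2 := by
      have : x = (β * w).re + K * ‖w‖ ^ 2 := hx
      nlinarith
    have h7 : Real.exp (b (ζ + w)) ≤ Real.exp (b ζ) * Real.exp x := by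
      rw [← Real.exp_add]
      apply Real.exp_le_exp.2
      rw [hx]
      linarith
    have h8 : Real.exp (b ζ) * ((K + (K + 1) ^ 2) * ‖w‖ ^ 2) ≤
        Real.exp K * (K + (K + 1) ^ 2) * ‖w‖ ^ 2 := by
      rw [mul_assoc]
      exact mul_le_mul_of_nonneg_right (Real.exp_le_exp.2 hb) (by positivity)
    have h9 := mul_le_mul_of_nonneg_left h6 (Real.exp_pos (b ζ)).le
    have e : (((Real.exp (b ζ) : ℝ) : ℂ) * β * w).re = Real.exp (b ζ) * (β * w).re := by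
      rw [mul_assoc, Complex.re_ofReal_mul]
    rw [e]
    nlinarith

/-- Laplacian of `- ‖h‖² e^b` -/
theorem LL_neg_mul_exp {K : ℝ} (hK : 0 ≤ K) : ∃ C : ℝ, 0 ≤ C ∧ ∀ (h : ℂ → ℂ) (b : ℂ → ℝ) (ζ : ℂ),
    AnalyticAt ℂ h ζ → UQ b ζ K → b ζ ≤ K → (∀ᶠ t in 𝓝 ζ, ContinuousAt b t) →
      LL (fun t => -(‖h t‖ ^ 2 * Real.exp (b t))) ζ (-(C * (‖h ζ‖ ^ 2 + ‖deriv h ζ‖ ^ 2))) := by
  set K' : ℝ := Real.exp K * (K + (K + 1) ^ 2) with hK'
  have hK'0 : 0 ≤ K' := by positivity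
  refine ⟨Real.exp K + 1 + K' ^ 2 + K', by positivity, ?_⟩
  intro h b ζ ha hb hbK hc
  obtain ⟨β, hβ, hev⟩ := UQ.exp hK hb hbK
  have hev' : ∀ᶠ t in 𝓝 ζ, Real.exp (b t) ≤ Real.exp (b ζ) + (β * (t - ζ)).re +
      K' * ‖t - ζ‖ ^ 2 := by
    have h1 : Tendsto (fun t : ℂ => t - ζ) (𝓝 ζ) (𝓝 0) := by
      have h2 : Continuous (fun t : ℂ => t - ζ) := by fun_prop
      have h3 := h2.tendsto ζ
      simpa using h3
    filter_upwards [h1.eventually hev] with t ht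
    have e : ζ + (t - ζ) = t := by ring
    rw [e] at ht
    exact ht
  -- the three pieces
  have hid : AnalyticAt ℂ (fun t : ℂ => t - ζ) ζ := analyticAt_id.sub analyticAt_const
  have hA1 : AnalyticAt ℂ (fun t => h t * (1 + β * (t - ζ))) ζ :=
    ha.mul (analyticAt_const.add (analyticAt_const.mul hid))
  have hA2 : AnalyticAt ℂ (fun t => h t * (β * (t - ζ))) ζ :=
    ha.mul (analyticAt_const.mul hid)
  have hA3 : AnalyticAt ℂ (fun t => h t * (t - ζ)) ζ := ha.mul hid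
  have hd : HasDerivAt h (deriv h ζ) ζ := ha.differentiableAt.hasDerivAt
  have hd0 : HasDerivAt (fun t : ℂ => t - ζ) 1 ζ := (hasDerivAt_id ζ).sub_const ζ
  have hd1 : deriv (fun t => h t * (1 + β * (t - ζ))) ζ = deriv h ζ + h ζ * β := by
    have := hd.mul ((hd0.const_mul β).const_add 1)
    have e := this.deriv
    simp only [sub_self, mul_zero, add_zero, mul_one] at e
    exact e
  have hd3 : deriv (fun t => h t * (t - ζ)) ζ = h ζ := by
    have := hd.mul hd0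
    have e := this.deriv
    simp only [sub_self, mul_zero, zero_add, mul_one] at e
    exact e
  have l1 := (uqe_neg ha).const_mul (Real.exp_pos (b ζ)).le
  have l2 := (uqe_neg hA1).const_mul (by norm_num : (0 : ℝ) ≤ 1 / 2)
  have l3 := (uqe_pos ha).const_mul (by norm_num : (0 : ℝ) ≤ 1 / 2)
  have l4 := (uqe_pos hA2).const_mul (by norm_num : (0 : ℝ) ≤ 1 / 2)
  have l5 := (uqe_neg hA3).const_mul hK'0
  have hL := (((l1.add l2).add l3).add l4).add l5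
  rw [hd1, hd3] at hL
  refine (LL.touch hL ?_ ?_ ?_).mono ?_
  · filter_upwards [hev'] with t ht
    have h1 := mul_le_mul_of_nonneg_left ht (sq_nonneg ‖h t‖)
    have e1 : ‖h t * (1 + β * (t - ζ))‖ ^ 2 = ‖h t‖ ^ 2 +
        2 * (‖h t‖ ^ 2 * (β * (t - ζ)).re) + ‖h t * (β * (t - ζ))‖ ^ 2 := by
      rw [norm_mul, norm_mul, mul_pow, mul_pow, uqe_norm_sq_add 1 (β * (t - ζ))]
      have e2 : (2 * (starRingEnd ℂ) 1 * (β * (t - ζ))).re = 2 * (β * (t - ζ)).re := by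
        rw [map_one, mul_one]
        simp [Complex.mul_re]
      rw [e2, norm_one]
      ring
    have e3 : ‖h t * (t - ζ)‖ ^ 2 = ‖h t‖ ^ 2 * ‖t - ζ‖ ^ 2 := by
      rw [norm_mul, mul_pow]
    rw [e1, e3]
    nlinarith
  · simp only [sub_self, mul_zero, add_zero, mul_one, norm_zero]
    ring
  · filter_upwards [hc, uqe_sub_cont ha] with t h1 h2
    exact ((h2.norm.pow 2).mul (Real.continuous_exp.continuousAt.comp h1)).neg
  · have n1 : ‖deriv h ζ + h ζ * β‖ ^ 2 ≤ 2 * (‖deriv h ζ‖ ^ 2 + K' ^ 2 * ‖h ζ‖ ^ 2) := by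
      have h1 : ‖deriv h ζ + h ζ * β‖ ≤ ‖deriv h ζ‖ + ‖h ζ‖ * K' := by
        refine (norm_add_le _ _).trans ?_
        rw [norm_mul]
        have := mul_le_mul_of_nonneg_left hβ (norm_nonneg (h ζ))
        linarith
      have h2 : ‖deriv h ζ + h ζ * β‖ ^ 2 ≤ (‖deriv h ζ‖ + ‖h ζ‖ * K') ^ 2 :=
        pow_le_pow_left₀ (norm_nonneg _) h1 2
      nlinarith [sq_nonneg (‖deriv h ζ‖ - ‖h ζ‖ * K')]
    have n2 : Real.exp (b ζ) * ‖deriv h ζ‖ ^ 2 ≤ Real.exp K * ‖deriv h ζ‖ ^ 2 :=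
      mul_le_mul_of_nonneg_right (Real.exp_le_exp.2 hbK) (sq_nonneg _)
    have n3 : 0 ≤ ‖h ζ‖ ^ 2 := sq_nonneg _
    have n4 : 0 ≤ ‖deriv h ζ‖ ^ 2 := sq_nonneg _
    have n5 : 0 ≤ Real.exp K * ‖h ζ‖ ^ 2 := mul_nonneg (Real.exp_pos _).le n3
    have n6 : 0 ≤ K' ^ 2 * ‖deriv h ζ‖ ^ 2 := mul_nonneg (sq_nonneg _) n4
    have n7 : 0 ≤ K' * ‖deriv h ζ‖ ^ 2 := mul_nonneg hK'0 n4
    nlinarith

end Pool.Agent.VEB
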