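import Pool.Agent.VEB.SCP
import Pool.Agent.VEB.LLV
import Pool.Agent.ELL.Vec

open scoped Manifold Topology
open Filter Metric Set

namespace Pool.Agent.VEB

open Pool.Agent.ELL Pool.Agent.EPO

variable {S : Type*} [MetricSpace S] [CompactSpace S] [ChartedSpace (ℂ × ℂ) S]
  [IsManifold 𝓘(ℂ, ℂ × ℂ) 1 S] {Λ : Submodule ℤ ℂ} [DiscreteTopology Λ] [IsZLattice ℝ Λ]
  {π : S → ℂ ⧸ Λ} {D : Set S} {m : ℕ} {ι : Type} [Fintype ι] {σ : ι → PluriForm S m D}

omit [CompactSpace S] [DiscreteTopology Λ] [IsZLattice ℝ Λ] in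
private theorem wro_src {E : ℂ → S} (hE : E ∈ Sec π D) {ζ : ℂ}
    {φ : OpenPartialHomeomorph S (ℂ × ℂ)} (h : E ζ ∈ φ.source) :
    ∀ᶠ t in 𝓝 ζ, E t ∈ φ.source :=
  hE.1.cont.continuousAt.eventually (φ.open_source.mem_nhds h)

omit [CompactSpace S] [DiscreteTopology Λ] [IsZLattice ℝ Λ] in
private theorem wro_an (hD : IsDivisor D) {E : ℂ → S} (hE : E ∈ Sec π D) {ζ : ℂ}
    {φ : OpenPartialHomeomorph S (ℂ × ℂ)} (hφ : φ ∈ MA S) (h : E ζ ∈ φ.source) :
    AnalyticAt ℂ (fun t => vec σ φ (E t)) ζ := by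
  rw [Complex.analyticAt_iff_eventually_differentiableAt]
  filter_upwards [wro_src hE h] with t ht
  exact vec_hol hD hE hφ ht

omit [CompactSpace S] [DiscreteTopology Λ] [IsZLattice ℝ Λ] in
private theorem wro_an_i (hD : IsDivisor D) {E : ℂ → S} (hE : E ∈ Sec π D) {ζ : ℂ}
    {φ : OpenPartialHomeomorph S (ℂ × ℂ)} (hφ : φ ∈ MA S) (h : E ζ ∈ φ.source) (i : ι) :
    AnalyticAt ℂ (fun t => vec σ φ (E t) i) ζ := by
  rw [Complex.analyticAt_iff_eventually_differentiableAt]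
  filter_upwards [wro_src hE h] with t ht
  have := vec_hol (σ := σ) hD hE hφ ht
  rw [differentiableAt_euclidean] at this
  exact this i

/-- Positivity of the Laplacian does not depend on the chart. -/
theorem WRO_chart (hD : IsDivisor D) (hσ : Separates π D σ) {E : ℂ → S} (hE : E ∈ Sec π D)
    {ζ : ℂ} {φ ψ : OpenPartialHomeomorph S (ℂ × ℂ)} (hφ : φ ∈ MA S) (hψ : ψ ∈ MA S)
    (h : E ζ ∈ φ.source) (h' : E ζ ∈ ψ.source) {c : ℝ}
    (hl : LL (fun t => Real.log ‖vec σ φ (E t)‖) ζ c) :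
    LL (fun t => Real.log ‖vec σ ψ (E t)‖) ζ c := by
  have hv := vec_ne_zero hσ hE ζ hφ h
  have hv' := vec_ne_zero hσ hE ζ hψ h'
  obtain ⟨i, hi⟩ : ∃ i, vec σ φ (E ζ) i ≠ 0 := by
    by_contra hc
    push Not at hc
    exact hv (by ext i; exact hc i)
  have hφa := wro_an_i (σ := σ) hD hE hφ h i
  have hψa := wro_an_i (σ := σ) hD hE hψ h' i
  have hq : AnalyticAt ℂ (fun t => vec σ ψ (E t) i / vec σ φ (E t) i) ζ := hψa.div hφa hi
  have hev : ∀ t, E t ∈ φ.source → E t ∈ ψ.source → vec σ φ (E t) i ≠ 0 →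
      vec σ ψ (E t) = (vec σ ψ (E t) i / vec σ φ (E t) i) • vec σ φ (E t) := by
    intro t h1 h2 h3
    have h4 := vec_trans (σ := σ) hψ hφ h2 h1 (hE.2.1 t)
    have h5 : vec σ ψ (E t) i / vec σ φ (E t) i =
        (fderiv ℂ (φ ∘ ψ.symm) (ψ (E t))).det ^ m := by
      rw [div_eq_iff h3]
      conv_lhs => rw [h4]
      simp [smul_eq_mul]
    rw [h5]
    exact h4
  have hloc : ∀ᶠ t in 𝓝 ζ, vec σ ψ (E t) =
      (vec σ ψ (E t) i / vec σ φ (E t) i) • vec σ φ (E t) := by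
    filter_upwards [wro_src hE h, wro_src hE h', hφa.continuousAt.eventually_ne hi]
      with t h1 h2 h3
    exact hev t h1 h2 h3
  have hq0 : vec σ ψ (E ζ) i / vec σ φ (E ζ) i ≠ 0 := by
    intro h0
    apply hv'
    rw [hev ζ h h' hi, h0, zero_smul]
  have h1 := (LL_log_norm hq hq0).add hl
  rw [zero_add] at h1
  refine h1.congr ?_
  filter_upwards [hloc, hq.continuousAt.eventually_ne hq0,
    (wro_an (σ := σ) hD hE hφ h).continuousAt.eventually_ne hv] with t ht h2 h3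
  rw [ht, norm_smul, Real.log_mul (norm_ne_zero_iff.2 h2) (norm_ne_zero_iff.2 h3)]
  congr 3
  rw [PiLp.smul_apply, smul_eq_mul]
  by_cases h4 : vec σ φ (E t) i = 0
  · simp [h4]
  · field_simp

theorem WRO_nonneg (hD : IsDivisor D) (hσ : Separates π D σ) {E : ℂ → S} (hE : E ∈ Sec π D)
    {ζ : ℂ} {φ : OpenPartialHomeomorph S (ℂ × ℂ)} (hφ : φ ∈ MA S) (h : E ζ ∈ φ.source) :
    LL (fun t => Real.log ‖vec σ φ (E t)‖) ζ 0 :=
  LLV_zero (wro_an hD hE hφ h) (vec_ne_zero hσ hE ζ hφ h)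

/-- a holomorphic vector which is everywhere parallel to its derivative has constant direction -/
private theorem wro_par {v : ℂ → EuclideanSpace ℂ ι} {w : ℂ} {r : ℝ} (i : ι)
    (hv : ∀ t ∈ ball w r, DifferentiableAt ℂ v t) (h0 : ∀ t ∈ ball w r, v t i ≠ 0)
    (h : ∀ t ∈ ball w r, ∃ l : ℂ, deriv v t = l • v t) (hr : 0 < r) :
    ∀ t ∈ ball w r, v t = (v t i / v w i) • v w := by
  intro t ht
  have hw : w ∈ ball w r := mem_ball_self hr
  ext j
  have hd : ∀ s ∈ ball w r, ∀ k, HasDerivAt (fun s => v s k) (deriv v s k) s := by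
    intro s hs k
    have h1 := (hv s hs).hasDerivAt
    exact (EuclideanSpace.proj k : EuclideanSpace ℂ ι →L[ℂ] ℂ).hasFDerivAt.comp_hasDerivAt s h1
  have hq : ∀ s ∈ ball w r, HasDerivAt (fun s => v s j / v s i) 0 s := by
    intro s hs
    have h1 := (hd s hs j).div (hd s hs i) (h0 s hs)
    obtain ⟨l, hl⟩ := h s hs
    have h2 : (deriv v s j * v s i - v s j * deriv v s i) / v s i ^ 2 = 0 := by
      rw [hl]
      simp only [PiLp.smul_apply, smul_eq_mul]
      ring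
    rw [h2] at h1
    exact h1
  have hc : v t j / v t i = v w j / v w i := by
    apply (convex_ball w r).is_const_of_fderivWithin_eq_zero (𝕜 := ℂ)
      (f := fun s => v s j / v s i) (fun s hs => (hq s hs).differentiableAt.differentiableWithinAt)
      (fun s hs => ?_) ht hw
    have h1 : HasFDerivWithinAt (fun s => v s j / v s i) (0 : ℂ →L[ℂ] ℂ) (ball w r) s := by
      have := (hq s hs).hasFDerivAt.hasFDerivWithinAt (s := ball w r)
      simpa using this
    exact h1.fderivWithin (isOpen_ball.uniqueDiffWithinAt hs)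
  rw [PiLp.smul_apply, smul_eq_mul]
  have h1 := h0 t ht
  have h2 := h0 w hw
  rw [div_eq_div_iff h1 h2] at hc
  field_simp
  rw [hc]
  ring

/-- The Laplacian is positive on some disc. -/
theorem WRO (hD : IsDivisor D) (hσ : Separates π D σ) {E : ℂ → S} (hE : E ∈ Sec π D) :
    ∃ w : ℂ, ∃ r > 0, ∃ ω₀ > 0, ∀ ζ ∈ closedBall w r, ∀ φ ∈ MA S, E ζ ∈ φ.source →
      LL (fun t => Real.log ‖vec σ φ (E t)‖) ζ ω₀ := by
  set φ := chartAt (ℂ × ℂ) (E 0) with hφdef
  have hφ : φ ∈ MA S := IsManifold.chart_mem_maximalAtlas (E 0)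
  have h0 : E 0 ∈ φ.source := mem_chart_source _ _
  set v : ℂ → EuclideanSpace ℂ ι := fun t => vec σ φ (E t) with hvdef
  have hne : ∀ t, E t ∈ φ.source → v t ≠ 0 := fun t ht => vec_ne_zero hσ hE t hφ ht
  obtain ⟨i, hi⟩ : ∃ i, v 0 i ≠ 0 := by
    by_contra hc
    push Not at hc
    exact hne 0 h0 (by ext i; exact hc i)
  have hia := wro_an_i (σ := σ) hD hE hφ h0 i
  obtain ⟨R, hR, hRs⟩ := Metric.eventually_nhds_iff_ball.1
    ((wro_src hE h0).and (hia.continuousAt.eventually_ne hi))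
  have han : ∀ t ∈ ball (0 : ℂ) R, AnalyticAt ℂ v t := fun t ht => wro_an hD hE hφ (hRs t ht).1
  -- the Wronskian
  set W : ℂ → ℝ := fun t => ‖v t‖ ^ 2 * ‖deriv v t‖ ^ 2 - ‖inner ℂ (v t) (deriv v t)‖ ^ 2
    with hWdef
  have hex : ∃ w ∈ ball (0 : ℂ) R, 0 < W w := by
    by_contra hcon
    push Not at hcon
    have hpar : ∀ t ∈ ball (0 : ℂ) R, ∃ l : ℂ, deriv v t = l • v t := by
      intro t ht
      have h1 := hcon t ht
      have h2 : ‖inner ℂ (v t) (deriv v t)‖ ≤ ‖v t‖ * ‖deriv v t‖ := norm_inner_le_norm _ _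
      have h3 : ‖inner ℂ (v t) (deriv v t)‖ = ‖v t‖ * ‖deriv v t‖ := by
        apply le_antisymm h2
        have h4 : (‖v t‖ * ‖deriv v t‖) ^ 2 ≤ ‖inner ℂ (v t) (deriv v t)‖ ^ 2 := by
          rw [mul_pow]
          simp only [hWdef] at h1
          linarith
        exact le_of_sq_le_sq h4 (norm_nonneg _)
      have h5 := (norm_inner_eq_norm_tfae ℂ (v t) (deriv v t)).out 0 2
      rcases h5.1 h3 with h6 | ⟨l, hl⟩
      · exact absurd h6 (hne t (hRs t ht).1)
      · exact ⟨l, hl⟩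
    have hdir := wro_par i (fun t ht => (han t ht).differentiableAt)
      (fun t ht => (hRs t ht).2) hpar hR
    obtain ⟨μ, hμ, hmin⟩ := lat_min Λ
    set x : ℝ := min (μ / 2) (R / 2) with hx
    have hx0 : 0 < x := by positivity
    have hxμ : x < μ := lt_of_le_of_lt (min_le_left _ _) (by linarith)
    have hxR : x < R := lt_of_le_of_lt (min_le_right _ _) (by linarith)
    have hxb : (x : ℂ) ∈ ball (0 : ℂ) R := by
      rw [mem_ball_zero_iff, Complex.norm_real, Real.norm_of_nonneg hx0.le]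
      exact hxR
    have hneq : π (E 0) ≠ π (E (x : ℂ)) := by
      rw [hE.2.2, hE.2.2]
      intro h
      rw [mkQ_eq_iff] at h
      have h1 : (0 : ℂ) - x ≠ 0 := by
        rw [zero_sub, neg_ne_zero, Complex.ofReal_ne_zero]
        exact hx0.ne'
      have h2 := hmin _ h h1
      rw [zero_sub, norm_neg, Complex.norm_real, Real.norm_of_nonneg hx0.le] at h2
      linarith
    have hli := hσ (E 0) (E (x : ℂ)) (hE.2.1 _) (hE.2.1 _) hneq
    have hxs := (hRs x hxb).1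
    have ht := vec_trans (σ := σ) (IsManifold.chart_mem_maximalAtlas (E (x : ℂ))) hφ
      (mem_chart_source _ _) hxs (hE.2.1 (x : ℂ))
    have hd := hdir x hxb
    simp only [hvdef] at hd
    rw [hd, smul_smul] at ht
    rw [LinearIndependent.pair_iff] at hli
    obtain ⟨-, h2⟩ := hli (-((fderiv ℂ (φ ∘ (chartAt (ℂ × ℂ) (E (x : ℂ))).symm)
      ((chartAt (ℂ × ℂ) (E (x : ℂ))) (E (x : ℂ)))).det ^ m *
        ((vec σ φ (E (x : ℂ)) i / vec σ φ (E 0) i)))) 1 (by
          funext j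
          have h3 := congrArg (fun u : EuclideanSpace ℂ ι => u j) ht
          simp only [vec, PiLp.smul_apply, smul_eq_mul] at h3
          simp only [Pi.add_apply, Pi.smul_apply, smul_eq_mul, one_mul, Pi.zero_apply]
          rw [h3]
          simp only [vec]
          ring)
    exact one_ne_zero h2
  obtain ⟨w, hw, hWw⟩ := hex
  have hwa := han w hw
  have hwn : v w ≠ 0 := hne w (hRs w hw).1
  have hcont : ContinuousAt (fun t => W t / (2 * ‖v t‖ ^ 4)) w := by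
    have hd : ContinuousAt (deriv v) w := hwa.deriv.continuousAt
    have hv : ContinuousAt v w := hwa.continuousAt
    apply ContinuousAt.div
    · exact ((hv.norm.pow 2).mul (hd.norm.pow 2)).sub ((ContinuousAt.inner (𝕜 := ℂ) hv hd).norm.pow 2)
    · exact continuousAt_const.mul (hv.norm.pow 4)
    · have := norm_pos_iff.2 hwn
      positivity
  set ω₀ : ℝ := W w / (2 * ‖v w‖ ^ 4) / 2 with hω
  have hωp : 0 < W w / (2 * ‖v w‖ ^ 4) := by
    have := norm_pos_iff.2 hwn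
    positivity
  have hev : ∀ᶠ t in 𝓝 w, ω₀ < W t / (2 * ‖v t‖ ^ 4) ∧ t ∈ ball (0 : ℂ) R :=
    (hcont.eventually (lt_mem_nhds (show ω₀ < W w / (2 * ‖v w‖ ^ 4) by
      rw [hω]; linarith))).and (isOpen_ball.mem_nhds hw)
  obtain ⟨δ, hδ, hδs⟩ := Metric.eventually_nhds_iff_ball.1 hev
  refine ⟨w, δ / 2, by positivity, ω₀, by rw [hω]; linarith, ?_⟩
  intro ζ hζ ψ hψ hζψ
  have hζ' : ζ ∈ ball w δ := closedBall_subset_ball (by linarith) hζ
  obtain ⟨h1, h2⟩ := hδs ζ hζ'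
  have h3 : LL (fun t => Real.log ‖v t‖) ζ (W ζ / (2 * ‖v ζ‖ ^ 4)) :=
    LLV (han ζ h2) (hne ζ (hRs ζ h2).1)
  exact WRO_chart hD hσ hE hφ hψ (hRs ζ h2).1 hζψ (h3.mono h1.le)

end Pool.Agent.VEB
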